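import Pool.Agent.H41.GSD.HtA

/-!
# The heights over the composite sheets: the theorem

`ht_all`: with the objects of `Sid` over a side `S`. The coordinate `c` has the own pair `(i₁, j₁)`
and is deep at `(i₂, j₂)`. The label conditions on the variable `y` in the condition: it determines
the side `S`, the labels at both pairs and the time.
-/

set_option autoImplicit false

namespace Pool.GSD

open Finset Real MvPolynomial
open Pool.Agent.H49.Ent Pool.Agent.H32.Dense Pool.STK Pool.STAT Pool.MIC.Frm Pool.MIC7 Pool.FRM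
open Pool.MIC Pool.MicA
open Pool.BFL (Pl Pb)
open Pool.TIE (Dat dg)

/-- The line side. -/
theorem sd_line {D : NDat2} {n K J a₀ w₀ z M : ℕ} {lam gam : ℕ → ℝ} {κ C₁ : ℝ} {q : D.Ω → ℝ}
    (hO : D.Ok2 n K J a₀ w₀ z M lam gam κ C₁ q) {i j : ℕ} (hi : i ≤ M) (hj : j ≤ M)
    {ω : D.Ω} (hω : 0 < q ω) : Sd D n K i j (D.Φ i j) ω := by
  refine ⟨hO.P_tri _ _ _, fun l => hO.P_deg _ _ _ _, fun l _ hl => hO.hgt i hi j hj ω hω l hl,
    fun l h1 hl b hb h => hO.agr i hi j hj ω hω l h1 hl b ⟨?_, fun r r1 r2 => ?_⟩⟩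
  · rw [hb, sub_self, abs_zero]
    positivity
  · have h2 := h r r1 r2
    unfold nat at h2
    rw [abs_mul, abs_of_pos (by positivity : (0 : ℝ) < 2 ^ D.g i j r)] at h2
    rw [le_div_iff₀ (by positivity)]
    linarith

/-- The visible side. -/
theorem sd_vis {D : NDat2} {n K J a₀ w₀ z M : ℕ} {lam gam : ℕ → ℝ} {κ C₁ : ℝ} {q : D.Ω → ℝ}
    (hO : D.Ok2 n K J a₀ w₀ z M lam gam κ C₁ q) {i j : ℕ} (hi : i ≤ M) (hj : j ≤ M)
    {ω : D.Ω} (hω : 0 < q ω) : Sd D n K i j (D.Ψ i j) ω := by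
  refine ⟨hO.G_tri _ _ _, fun l => hO.G_deg _ _ _ _, fun l h1 hl => hO.pos i hi j hj ω hω l h1 hl,
    fun l h1 hl b hb h => ?_⟩
  rw [sub_self, abs_zero]
  positivity

theorem exp_le_two {a : ℝ} {z bb : ℕ} (h : 2 * a * z ≤ bb) : exp (a * z) ≤ 2 ^ bb := by
  have h1 : (2 : ℝ) ^ bb = exp (Real.log 2 * bb) := by
    rw [mul_comm, exp_nat_mul, exp_log (by norm_num)]
  rw [h1]
  refine exp_le_exp.2 ?_
  have h2 : 1 / 2 ≤ Real.log 2 := by linarith [Real.log_two_gt_d9]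
  have h3 : (0 : ℝ) ≤ bb := Nat.cast_nonneg _
  nlinarith

/-- **The heights over the composite sheets.** -/
theorem ht_all (n K : ℕ) (lam gam : ℕ → ℝ) (C₁ : ℝ) (hC₁ : 1 ≤ C₁) : ∃ C : ℝ, 1 ≤ C ∧
    ∀ (M : ℕ) (η : ℝ), 2 ≤ M → 0 < η → ∃ (κ₀ : ℝ) (z₀ : ℕ), 0 < κ₀ ∧
    ∀ (J a₀ w₀ z : ℕ) (κ : ℝ) (D : NDat2) (q : D.Ω → ℝ), z₀ ≤ z → κ ≤ κ₀ →
      D.Ok2 n K J a₀ w₀ z M lam gam κ C₁ q →
      ∀ (i j i₁ j₁ i₂ j₂ X bb c : ℕ) (S : D.Ω → ℕ → PN), i < M → j < M → i₁ < M → j₁ < M →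
        i₂ < M → j₂ < M → z + 2 ≤ X → C * z ≤ bb → 1 ≤ c → c ≤ n →
        Lv D c X (i, j) (i₁, j₁) (i₂, j₂) → (∀ ω, 0 < q ω → Sd D n K i j S ω) →
        Pb q (fun ω => ¬ GdsS D n z i j i₁ j₁ bb S c ω) ≤ η ∧
        ∀ (Y : Type) (y : D.Ω → Y), Det q y S → Det q y (D.Ψ i₁ j₁) → Det q y (D.Ψ i₂ j₂) →
          Det q y (fun ω => D.X ω 0) →
          (∀ (Γ' : Type) (zz : D.Ω → Γ') (pr : ℕ → ℕ × ℕ) (l : Fin (n - 1)) (h₀ : ℕ),
            c = l + 1 → pr (l + 1) = (i₁, j₁) →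
            CH q ((datS D n z i j X h₀ S zz q (shsS D n z i j bb S pr)).ht l) y ≤
              C * z + η * (X + bb + C)) ∧
          (∀ (Γ' : Type) (zz : D.Ω → Γ') (s : D.Ω → Fin (n - 1) → Pl (n - 1)) (h h₀ : ℕ),
            c = n → h ≤ h₀ → h₀ ≤ X →
            CH q ((datS D n z i j X h₀ S zz q s).hF h (shpS D n z i j i₁ j₁ bb S n)) y ≤
              C * z + η * (X + bb + C)) := by
  obtain ⟨K', C₀, hKK, hC₀, hfr⟩ := frm_ev n K lam gam C₁ hC₁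
  obtain ⟨C₂, hC₂, htw⟩ := ht_two n K' C₀ hC₀
  obtain ⟨C₃, hC₃, hcf⟩ := cf_one n K' C₀ hC₀
  obtain ⟨N, hN⟩ : ∃ N : ℕ, N = (Pool.Agent.H36.KBX.bx (n - 1) (dK n K)).card := ⟨_, rfl⟩
  have hN0 : (0 : ℝ) ≤ N := Nat.cast_nonneg _
  refine ⟨C₂ + 2 * C₃ + N + 10, by linarith, fun M η hM hη => ?_⟩
  obtain ⟨κ₀, z₀, hκ₀, hev⟩ := hfr M η hM hη
  refine ⟨κ₀, max z₀ 1, hκ₀, ?_⟩
  intro J a₀ w₀ z κ D q hz hκ hO i j i₁ j₁ i₂ j₂ X bb c S hi hj hi₁ hj₁ hi₂ hj₂ hX hbb hc1 hc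
    hL hS
  have hz0 : z₀ ≤ z := (le_max_left _ _).trans hz
  have hz1 : 1 ≤ z := (le_max_right _ _).trans hz
  have hzr : (1 : ℝ) ≤ z := by exact_mod_cast hz1
  have hq := hO.isLaw
  have hF := hev J a₀ w₀ z κ D q hz0 hκ hO
  have hbb3 : 2 * C₃ * z ≤ bb := by
    refine le_trans ?_ hbb
    exact mul_le_mul_of_nonneg_right (by linarith) (by linarith)
  have hgds : ∀ ω, 0 < q ω → Fra D n K' M z C₀ ω → GdsS D n z i j i₁ j₁ bb S c ω :=
    fun ω hω h α hα => (hcf D K z X M i j i₁ j₁ i₂ j₂ c S ω hKK hz1 hX hc1 hc hi hj hi₁ hj₁ hi₂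
      hj₂ hO.G_tri hO.G_deg hL h (hS ω hω) α hα).trans (exp_le_two hbb3)
  have hPs : ∀ i₃ j₃, i₃ < M → j₃ < M → ∀ ω, 0 < q ω → Ps D n i₃ j₃ ω :=
    fun i₃ j₃ h h' ω hω l l1 l2 => hO.pos i₃ h.le j₃ h'.le ω hω l l1 l2
  have hzt : ∀ ω, 0 < q ω → ∀ l, 1 ≤ l → l ≤ n → |ztS D i j S ω l| ≤ 1 := fun ω hω l a b =>
    nat_le ((hS ω hω).hgt l a b)
  refine ⟨(Pool.MIC.Frm.Pb_supp hq.nonneg fun ω hω hb hf => hb (hgds ω hω hf)).trans hF, ?_⟩
  intro Y y yS y1 y2 yX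
  -- two samples
  have two : ∀ ω ω', 0 < q ω → 0 < q ω' → Fra D n K' M z C₀ ω → y ω = y ω' →
      shrS D n z i j i₁ j₁ S c ω = shrS D n z i j i₁ j₁ S c ω' ∧
      |(ztS D i j S ω c - eval (vS D n z i j X S ω) (shrS D n z i j i₁ j₁ S c ω)) -
        (ztS D i j S ω' c - eval (vS D n z i j X S ω') (shrS D n z i j i₁ j₁ S c ω'))| ≤
          exp (C₂ * z) * (4 * 2 ^ z / 2 ^ X) := by
    intro ω ω' hω hω' hf hy
    have e0 := yX ω ω' hω hω' hy
    have eS := yS ω ω' hω hω' hy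
    have e1 := y1 ω ω' hω hω' hy
    have e2 := y2 ω ω' hω hω' hy
    exact ⟨shrS_congr (hS ω hω).tri eS e1 e0, htw D K z X M i j i₁ j₁ i₂ j₂ c S ω ω' hKK hz1 hX
      hc1 hc hi hj hi₁ hj₁ hi₂ hj₂ hO.G_tri hO.G_deg hL hf (hS ω hω) (hS ω' hω')
      (hPs i₁ j₁ hi₁ hj₁ ω hω) (hPs i₁ j₁ hi₁ hj₁ ω' hω') (hPs i₂ j₂ hi₂ hj₂ ω hω)
      (hPs i₂ j₂ hi₂ hj₂ ω' hω') eS e1 e2 e0⟩
  -- values of the shapes
  have hval : ∀ ω, 0 < q ω → ∀ (i₃ j₃ l : ℕ), l ≤ n → ∀ v : Fin (n - 1) → ℝ,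
      (∀ k, |v k| ≤ 1) → |eval v (shpS D n z i j i₃ j₃ bb S l ω)| ≤ N * 2 ^ bb := by
    intro ω hω i₃ j₃ l hl v hv
    have := Pool.Agent.H36.KBX.eval_bound (shpS D n z i j i₃ j₃ bb S l ω)
      (deg_shpS (hS ω hω).tri (hO.G_tri _ _ _) (hS ω hω).deg (hO.G_deg _ _ _) hl) (2 ^ bb) 1
      le_rfl (fun α => cf_shpS α) v hv
    rw [one_pow, mul_one, ← hN] at this
    exact this
  have hv1 : ∀ ω, 0 < q ω → ∀ k, |vS D n z i j X S ω k| ≤ 1 := by
    intro ω hω k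
    have := vS_bd (D := D) (z := z) (X := X) (hzt ω hω) k
    rw [abs_le]
    constructor <;> linarith [this.1, this.2]
  have hbbr : (0 : ℝ) ≤ bb := Nat.cast_nonneg _
  have hXr : (0 : ℝ) ≤ X := Nat.cast_nonneg _
  have fin : ∀ a : ℝ, a ≤ C₂ + 6 → (a + 2) * z + η * (X + bb + (N + 5)) ≤
      (C₂ + 2 * C₃ + N + 10) * z + η * (X + bb + (C₂ + 2 * C₃ + N + 10)) := by
    intro a ha
    have m1 : (a + 2) * z ≤ (C₂ + 2 * C₃ + N + 10) * z :=
      mul_le_mul_of_nonneg_right (by linarith) (by linarith)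
    have m2 : η * (X + bb + (N + 5)) ≤ η * (X + bb + (C₂ + 2 * C₃ + N + 10)) :=
      mul_le_mul_of_nonneg_left (by linarith) hη.le
    linarith
  refine ⟨fun Γ' zz pr l h₀ hcl hpr => ?_, fun Γ' zz s h h₀ hcn hh hhX => ?_⟩
  · subst hcl
    refine (few_dg hq X X bb N le_rfl (fun ω => vS D n z i j X S ω l -
      eval (vS D n z i j X S ω) (shsS D n z i j bb S pr ω l)) y (Fra D n K' M z C₀)
      (a := C₂ + 2) z hz1 (by linarith) hη.le ?_ ?_ hF |>.trans' (le_of_eq ?_)).trans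
      (fin (C₂ + 2) (by linarith))
    · intro ω hω
      have a1 := hv1 ω hω l
      have a2 := hval ω hω (pr (l + 1)).1 (pr (l + 1)).2 (l + 1) (by omega) _ (hv1 ω hω)
      have a3 : |eval (vS D n z i j X S ω) (shsS D n z i j bb S pr ω l)| ≤ N * 2 ^ bb := by
        unfold shsS
        rw [map_mul, eval_C, abs_mul]
        have h4 : |1 / (4 * (2 : ℝ) ^ z)| ≤ 1 := by
          rw [abs_of_pos (by positivity), div_le_one (by positivity)]
          have : (1 : ℝ) ≤ 2 ^ z := one_le_pow₀ (by norm_num)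
          linarith
        calc |1 / (4 * (2 : ℝ) ^ z)| * _ ≤ 1 * (N * 2 ^ bb) :=
              mul_le_mul h4 a2 (abs_nonneg _) zero_le_one
          _ = _ := one_mul _
      have a4 := abs_sub (vS D n z i j X S ω l)
        (eval (vS D n z i j X S ω) (shsS D n z i j bb S pr ω l))
      linarith
    · intro ω ω' hω hω' hf hy
      obtain ⟨t1, t2⟩ := two ω ω' hω hω' hf hy
      have t3 := base_two (bb := bb) hpr (hzt ω hω (l + 1) (by omega) (by omega))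
        (hzt ω' hω' (l + 1) (by omega) (by omega)) (hgds ω hω hf) t1 t2
      refine t3.trans ?_
      have e1 : exp ((C₂ + 2) * z) = exp (2 * z) * exp (C₂ * z) := by
        rw [← exp_add]
        congr 1
        ring
      have e2 : (6 : ℝ) ≤ exp (2 * z) := exp_two.trans (exp_le_exp.2 (by linarith))
      have e3 : 1 ≤ exp (C₂ * z) := one_le_exp (by positivity)
      rw [e1]
      nlinarith
    · rw [datS_ht]
  · subst hcn
    refine (few_dg hq h X bb N (hh.trans hhX) (fun ω => (nuS D c i j h₀ S ω : ℝ) / 2 ^ h₀ -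
      eval (vS D c z i j X S ω) (shpS D c z i j i₁ j₁ bb S c ω)) y (Fra D c K' M z C₀)
      (a := C₂ + 6) z hz1 (by linarith) hη.le ?_ ?_ hF |>.trans' (le_of_eq ?_)).trans
      (fin (C₂ + 6) le_rfl)
    · intro ω hω
      have a2 := hval ω hω i₁ j₁ c le_rfl _ (hv1 ω hω)
      have a3 : |(nuS D c i j h₀ S ω : ℝ) / 2 ^ h₀| ≤ 2 := by
        have b1 := nu_near (D := D) (n := c) (S := S) (i := i) (j := j) (h₀ := h₀) ω
        have b2 := hzt ω hω c hc1 le_rfl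
        have b3 : (1 : ℝ) / 2 ^ h₀ ≤ 1 := by
          rw [div_le_one (by positivity)]
          exact one_le_pow₀ (by norm_num)
        have b4 := abs_add_le ((nuS D c i j h₀ S ω : ℝ) / 2 ^ h₀ - ztS D i j S ω c)
          (ztS D i j S ω c)
        rw [sub_add_cancel] at b4
        linarith
      have a4 := abs_sub ((nuS D c i j h₀ S ω : ℝ) / 2 ^ h₀)
        (eval (vS D c z i j X S ω) (shpS D c z i j i₁ j₁ bb S c ω))
      linarith
    · intro ω ω' hω hω' hf hy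
      obtain ⟨t1, t2⟩ := two ω ω' hω hω' hf hy
      have t3 := targ_two (bb := bb) (exp_pos _).le hh hhX (hgds ω hω hf) t1 t2
      refine t3.trans ?_
      have e1 : exp ((C₂ + 6) * z) = exp (3 * z) * (exp (3 * z) * exp (C₂ * z)) := by
        rw [← exp_add, ← exp_add]
        congr 1
        ring
      have e2 := six_le hz1
      have e3 : 1 ≤ exp (C₂ * z) := one_le_exp (by positivity)
      have e4 : (2 : ℝ) ≤ exp (3 * z) := by
        have : (1 : ℝ) ≤ 2 ^ z := one_le_pow₀ (by norm_num)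
        linarith
      have e5 : 4 * (2 : ℝ) ^ z ≤ exp (3 * z) := by
        have : (0 : ℝ) < 2 ^ z := by positivity
        linarith
      have e6 : exp (C₂ * z) * (4 * 2 ^ z) ≤ exp (3 * z) * exp (C₂ * z) := by
        rw [mul_comm]
        exact mul_le_mul_of_nonneg_right e5 (exp_pos _).le
      have e7 : (2 : ℝ) ≤ exp (3 * z) * exp (C₂ * z) := by nlinarith
      rw [e1]
      nlinarith
    · rw [datS_hF]

end Pool.GSD
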