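import Pool.Agent.H41.GSD.Defs

/-!
# The objects over any side

As in `Defs`, with the natural chart at `(i, j)` over any system `S` near to the labels there: the
line side `Φ i j` or the visible side `Ψ i j`.
-/

set_option autoImplicit false

namespace Pool.GSD

open Finset MvPolynomial
open Pool.Agent.H49.Ent Pool.Agent.H32.Dense Pool.STK Pool.STAT Pool.MIC Pool.MicA
open Pool.MIC.Frm (sl nat)
open Pool.BFL (Pl Pb)
open Pool.TIE (Dat Hyp Claim NFd FulM dg)

/-- The natural coordinates of the sample over the side `S` at `(i, j)`. -/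
noncomputable def ztS (D : NDat2) (i j : ℕ) (S : D.Ω → ℕ → PN) (ω : D.Ω) : ℕ → ℝ :=
  nat (D.g i j) (S ω) (D.X ω)

/-- The position in the base, `X` digits. -/
noncomputable def YpS (D : NDat2) (n z i j X : ℕ) (S : D.Ω → ℕ → PN) (ω : D.Ω)
    (l : Fin (n - 1)) : ℕ := ⌊(2 : ℝ) ^ X * up z (ztS D i j S ω (l + 1))⌋₊

/-- The height of the target. -/
noncomputable def nuS (D : NDat2) (n i j X : ℕ) (S : D.Ω → ℕ → PN) (ω : D.Ω) : ℤ :=
  ⌊(2 : ℝ) ^ X * ztS D i j S ω n⌋

open Classical in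
/-- The own sheet at `(i', j')` over the fat coordinates, the side `S` for these. -/
noncomputable def mxS (D : NDat2) (n i j i' j' : ℕ) (S : D.Ω → ℕ → PN) (ω : D.Ω) (k : ℕ) : PN :=
  if D.thn n i j i' j' k then D.Ψ i' j' ω k else S ω k

open Classical in
/-- The height of the own sheet over the side `S`. -/
noncomputable def kpS (D : NDat2) (n i j i' j' : ℕ) (S : D.Ω → ℕ → PN) (ω : D.Ω) (l : ℕ) : PN :=
  bind₁ (fun k => if k = 0 then C ((2 : ℝ) ^ D.g i j 0 * (D.X ω 0 - eval (D.X ω) (S ω 0))) else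
      if D.fat n i j i' j' k then MvPolynomial.X k else 0)
    (bind₁ (nuc (D.g i j) (mxS D n i j i' j' S ω)) (D.Ψ i' j' ω l - S ω l))

/-- The composite sheet of the coordinate `l` at `(i', j')` in the scaled chart at `(i, j)`. -/
noncomputable def shrS (D : NDat2) (n z i j i' j' : ℕ) (S : D.Ω → ℕ → PN) (l : ℕ) (ω : D.Ω) :
    Pl (n - 1) :=
  scl (n - 1) z (C ((2 : ℝ) ^ D.g i j l) * sl (n - 1) (kpS D n i j i' j' S ω l))

/-- The shape is not truncated. -/
def GdsS (D : NDat2) (n z i j i' j' bb : ℕ) (S : D.Ω → ℕ → PN) (l : ℕ) (ω : D.Ω) : Prop :=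
  ∀ α, α ≠ 0 → |coeff α (shrS D n z i j i' j' S l ω)| ≤ 2 ^ bb

open Classical in
/-- The shape: no constant term, truncated. -/
noncomputable def shpS (D : NDat2) (n z i j i' j' bb : ℕ) (S : D.Ω → ℕ → PN) (l : ℕ) (ω : D.Ω) :
    Pl (n - 1) :=
  if GdsS D n z i j i' j' bb S l ω then
    shrS D n z i j i' j' S l ω - C (coeff 0 (shrS D n z i j i' j' S l ω)) else 0

/-- The shapes with the own pairs `pr`, in the scale of the position. -/
noncomputable def shsS (D : NDat2) (n z i j bb : ℕ) (S : D.Ω → ℕ → PN) (pr : ℕ → ℕ × ℕ) (ω : D.Ω)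
    (l : Fin (n - 1)) : Pl (n - 1) :=
  C (1 / (4 * 2 ^ z)) * shpS D n z i j (pr (l + 1)).1 (pr (l + 1)).2 bb S (l + 1) ω

/-- The data of STEP V at `(i, j)` over the side `S`, context `zz`. -/
noncomputable def datS (D : NDat2) {Γ' : Type} (n z i j X h₀ : ℕ) (S : D.Ω → ℕ → PN)
    (zz : D.Ω → Γ') (q : D.Ω → ℝ) (s : D.Ω → Fin (n - 1) → Pl (n - 1)) : Dat (n - 1) where
  Ω := D.Ω
  Γ := Γ'
  fin := D.fin
  p := q
  z := zz
  V := fun ω l => (YpS D n z i j X S ω l : ℤ)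
  nu := fun ω => nuS D n i j h₀ S ω
  s := s
  X := X
  h₀ := h₀

theorem shpS_line (D : NDat2) (n z i j i' j' bb l : ℕ) :
    shpS D n z i j i' j' bb (D.Φ i j) l = shp D n z i j i' j' bb l := rfl

theorem shsS_line (D : NDat2) (n z i j bb : ℕ) (pr : ℕ → ℕ × ℕ) :
    shsS D n z i j bb (D.Φ i j) pr = shs D n z i j bb pr := rfl

theorem datS_line (D : NDat2) (n z i j X h₀ : ℕ) (q : D.Ω → ℝ)
    (s : D.Ω → Fin (n - 1) → Pl (n - 1)) :
    datS D n z i j X h₀ (D.Φ i j) (fun ω => (D.c i j ω, D.T ω)) q s =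
      datc D n z i j X h₀ q s := rfl

end Pool.GSD
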