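import Pool.Agent.H41.GSD.Gev
import Pool.Agent.H41.GSD.Sid
import Pool.Agent.H41.FRM.Cmp2
import Pool.Agent.H87.STAT.Nrm

/-!
# Two samples with the same labels: the height over the composite sheet
-/

set_option autoImplicit false

namespace Pool.GSD

open Finset Real MvPolynomial
open Pool.Agent.H49.Ent Pool.Agent.H32.Dense Pool.STK Pool.STAT Pool.MIC.Frm Pool.MIC7 Pool.FRM
open Pool.MIC Pool.MicA
open Pool.BFL (Pl Pb)

/-- A side at `(i, j)`. -/
structure Sd (D : NDat2) (n K i j : ℕ) (S : D.Ω → ℕ → PN) (ω : D.Ω) : Prop where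
  tri : TriN (S ω)
  deg : ∀ l, (S ω l).totalDegree ≤ K
  hgt : ∀ l, 1 ≤ l → l ≤ n → |D.X ω l - eval (D.X ω) (S ω l)| ≤ 1 / 2 ^ D.g i j l
  agr : ∀ l, 1 ≤ l → l ≤ n → ∀ b : ℕ → ℝ, b 0 = D.X ω 0 →
    (∀ r, 1 ≤ r → r < l → |nat (D.g i j) (D.Ψ i j ω) b r| ≤ 1) →
    |eval b (D.Ψ i j ω l) - eval b (S ω l)| ≤ 1 / 2 ^ D.g i j l

theorem ev0 {F : PN} (hF : F.vars ⊆ range 0) (b b' : ℕ → ℝ) : eval b F = eval b' F :=
  Pool.SYS35.eval_congr hF fun _ hi => absurd hi (Nat.not_lt_zero _)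

theorem one_le_e {x : ℝ} {z : ℕ} (hx : 0 ≤ x) : 1 ≤ exp (x * z) :=
  one_le_exp (mul_nonneg hx (Nat.cast_nonneg z))

/-- The side is near to the frame. -/
theorem side_near (n K' : ℕ) (C : ℝ) (hC : 0 ≤ C) : ∃ C' : ℝ, C ≤ C' ∧ ∀ (D : NDat2)
    (K i j z : ℕ) (S : D.Ω → ℕ → PN) (ω : D.Ω) (P : ℕ → PN), K ≤ K' → 1 ≤ z →
    (∀ x, TriN (D.G i j x)) → (∀ x l, (D.G i j x l).totalDegree ≤ K) → Sd D n K i j S ω →
    TriN P → (∀ l, (P l).totalDegree ≤ K') → (∀ l ≤ n, eval (D.X ω) (P l) = D.X ω l) →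
    (∀ l ≤ n, nrm (D.g i j) (1 / 2) (chr P (fr D (i, j) ω l - P l)) ≤
      exp (C * z) / 2 ^ D.g i j l) →
    ∀ l ≤ n, nrm (D.g i j) (1 / 2) (chr P (fz (D.X ω 0) (S ω) l - P l)) ≤
      exp (C' * z) / 2 ^ D.g i j l := by
  choose Cs Ds hCs hs using fun m => step m K'
  obtain ⟨A, hA⟩ : ∃ A : ℝ, A = ∑ m ∈ range (n + 1), Cs m := ⟨_, rfl⟩
  obtain ⟨N, hN⟩ : ∃ N : ℕ, N = ∑ m ∈ range (n + 1), Ds m := ⟨_, rfl⟩
  have hAm : ∀ m ≤ n, Cs m ≤ A := fun m hm => by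
    rw [hA]
    exact Finset.single_le_sum (f := Cs) (fun i _ => by linarith [hCs i])
      (mem_range.2 (by omega))
  have hNm : ∀ m ≤ n, Ds m ≤ N := fun m hm => by
    rw [hN]
    exact Finset.single_le_sum (f := Ds) (fun i _ => Nat.zero_le _) (mem_range.2 (by omega))
  have hA1 : 1 ≤ A := (hCs 0).trans (hAm 0 (Nat.zero_le _))
  have hlA : 0 ≤ Real.log (A + 1) := Real.log_nonneg (by linarith)
  have hN0 : (0 : ℝ) ≤ N := Nat.cast_nonneg _
  refine ⟨C * (N + 1) + Real.log (A + 1), by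
    have : 0 ≤ C * N := mul_nonneg hC hN0
    linarith, ?_⟩
  intro D K i j z S ω P hK hz tG dG hS hP dP vP nP l hl
  have hz1 : (1 : ℝ) ≤ z := by exact_mod_cast hz
  have hz0 : (0 : ℝ) ≤ z := by linarith
  have hE1 : 1 ≤ exp (C * z) := one_le_e hC
  have e1 := hs l (D.g i j) (fr D (i, j) ω) P (fz (D.X ω 0) (S ω) l - fr D (i, j) ω l)
    (1 / 2 ^ D.g i j l) (exp (C * z)) (tri_fz (tG _) _) hP
    (fun k _ => (deg_fz (dG _ k) _).trans hK) (fun k _ => dP k)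
    (AdxRow.vars_sub_le (tri_fz hS.tri _ l) (tri_fz (tG _) _ l))
    ((totalDegree_sub _ _).trans (max_le ((deg_fz (hS.deg l) _).trans hK)
      ((deg_fz (dG _ l) _).trans hK))) hE1 (fun k hk => nP k (by omega)) (fun b hb => by
      rcases Nat.eq_zero_or_pos l with h0 | h0
      · subst h0
        unfold fr
        rw [fz_zero, fz_zero, sub_self, map_zero, abs_zero]
        positivity
      · unfold fr
        rw [map_sub, eval_fz _ _ _ h0, eval_fz _ _ _ h0, abs_sub_comm]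
        refine hS.agr l h0 hl _ (Function.update_self _ _ _) fun r h1 h2 => ?_
        have := hb r h2
        unfold fr at this
        rwa [nat_fz _ _ _ _ h1] at this)
  have e2 : chr P (fz (D.X ω 0) (S ω) l - P l) = chr P (fz (D.X ω 0) (S ω) l -
      fr D (i, j) ω l) + chr P (fr D (i, j) ω l - P l) := by
    rw [← chr_add]
    congr 1
    ring
  rw [e2]
  refine (Pool.STAT.NRM.nrm_add (d := D.g i j) (by norm_num) _ _).trans ?_
  refine (add_le_add e1 (nP l hl)).trans ?_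
  rw [mul_one_div, ← add_div]
  refine div_le_div_of_nonneg_right ?_ (by positivity)
  have e3 : Cs l * exp (C * z) ^ Ds l + exp (C * z) ≤ (A + 1) * exp (C * z) ^ (N + 1) := by
    have f1 : exp (C * z) ^ Ds l ≤ exp (C * z) ^ (N + 1) :=
      pow_le_pow_right₀ hE1 ((hNm l hl).trans (Nat.le_succ _))
    have f2 : exp (C * z) ≤ exp (C * z) ^ (N + 1) := by
      calc exp (C * z) = exp (C * z) ^ 1 := (pow_one _).symm
        _ ≤ _ := pow_le_pow_right₀ hE1 (by omega)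
    have f3 : Cs l * exp (C * z) ^ Ds l ≤ A * exp (C * z) ^ (N + 1) :=
      mul_le_mul (hAm l hl) f1 (by positivity) (by linarith)
    linarith
  refine e3.trans ?_
  have e4 : A + 1 ≤ exp (Real.log (A + 1) * z) := by
    calc A + 1 = exp (Real.log (A + 1)) := (exp_log (by linarith)).symm
      _ ≤ _ := exp_le_exp.2 (by nlinarith)
  rw [← exp_nat_mul]
  refine (mul_le_mul_of_nonneg_right e4 (exp_pos _).le).trans (le_of_eq ?_)
  rw [← exp_add]
  congr 1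
  push_cast
  ring

/-- The coordinates of the composite point. -/
noncomputable def uco (n z : ℕ) (v : Fin (n - 1) → ℝ) (k : ℕ) : ℝ :=
  ex1 (fun l => 4 * 2 ^ z * v l - 2 * 2 ^ z) k

open Classical in
/-- The composite point. -/
noncomputable def cpt (D : NDat2) (n z i j i' j' : ℕ) (S : D.Ω → ℕ → PN) (ω : D.Ω)
    (v : Fin (n - 1) → ℝ) : ℕ → ℝ :=
  pt (D.g i j) (mxS D n i j i' j' S ω) fun k =>
    if k = 0 then (2 : ℝ) ^ D.g i j 0 * (D.X ω 0 - eval (D.X ω) (S ω 0)) else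
      if D.fat n i j i' j' k then uco n z v k else 0

theorem eval_shrS (D : NDat2) (n z i j i' j' l : ℕ) (S : D.Ω → ℕ → PN) (ω : D.Ω)
    (v : Fin (n - 1) → ℝ) : eval v (shrS D n z i j i' j' S l ω) = 2 ^ D.g i j l *
      (eval (cpt D n z i j i' j' S ω v) (D.Ψ i' j' ω l) -
        eval (cpt D n z i j i' j' S ω v) (S ω l)) := by
  classical
  unfold shrS
  rw [eval_scl, map_mul, eval_C, eval_sl]
  congr 1
  unfold kpS
  rw [AdxRow.evl_bnd, eval_fr', ← map_sub]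
  have e : (fun k => eval (ex1 fun l => 4 * 2 ^ z * v l - 2 * 2 ^ z) (if k = 0 then
      C ((2 : ℝ) ^ D.g i j 0 * (D.X ω 0 - eval (D.X ω) (S ω 0))) else
      if D.fat n i j i' j' k then MvPolynomial.X k else 0 : PN)) = fun k =>
      if k = 0 then (2 : ℝ) ^ D.g i j 0 * (D.X ω 0 - eval (D.X ω) (S ω 0)) else
      if D.fat n i j i' j' k then uco n z v k else 0 := by
    funext k
    by_cases h0 : k = 0
    · rw [if_pos h0, if_pos h0, eval_C]
    · rw [if_neg h0, if_neg h0]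
      by_cases h1 : D.fat n i j i' j' k
      · rw [if_pos h1, if_pos h1, eval_X]
        rfl
      · rw [if_neg h1, if_neg h1, map_zero]
  rw [e]
  rfl

theorem tri_mxS {D : NDat2} {n i j i' j' : ℕ} {S : D.Ω → ℕ → PN} {ω : D.Ω} (h : TriN (S ω))
    (h' : TriN (D.Ψ i' j' ω)) : TriN (mxS D n i j i' j' S ω) := by
  classical
  intro k
  unfold mxS
  split_ifs
  · exact h' k
  · exact h k

theorem cpt_zero {D : NDat2} {n z i j i' j' : ℕ} {S : D.Ω → ℕ → PN} {ω : D.Ω}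
    {v : Fin (n - 1) → ℝ} (h : TriN (S ω)) (h' : TriN (D.Ψ i' j' ω)) :
    cpt D n z i j i' j' S ω v 0 = D.X ω 0 := by
  classical
  unfold cpt
  rw [pt_eq (tri_mxS h h'), if_pos rfl]
  have e : mxS D n i j i' j' S ω 0 = S ω 0 := by
    unfold mxS
    rw [if_neg]
    intro hc
    exact absurd hc.1 (by omega)
  rw [e, ev0 (h 0) _ (D.X ω)]
  field_simp
  ring

theorem cpt_thin {D : NDat2} {n z i j i' j' : ℕ} {S : D.Ω → ℕ → PN} {ω : D.Ω}
    {v : Fin (n - 1) → ℝ} (h : TriN (S ω)) (h' : TriN (D.Ψ i' j' ω)) {l : ℕ} (h1 : 1 ≤ l)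
    (h2 : l < n) (ht : D.g i j l < D.g i' j' l) :
    cpt D n z i j i' j' S ω v l = eval (cpt D n z i j i' j' S ω v) (D.Ψ i' j' ω l) := by
  classical
  conv_lhs => unfold cpt
  rw [pt_eq (tri_mxS h h'), if_neg (by omega), if_neg (by
    intro hc
    exact absurd hc.2.2 (by omega)), zero_div, add_zero]
  have e : mxS D n i j i' j' S ω l = D.Ψ i' j' ω l := by
    unfold mxS
    rw [if_pos ⟨h1, h2.le, ht⟩]
  rw [e]
  rfl

theorem cpt_fat {D : NDat2} {n z i j i' j' : ℕ} {S : D.Ω → ℕ → PN} {ω : D.Ω}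
    {v : Fin (n - 1) → ℝ} (h : TriN (S ω)) (h' : TriN (D.Ψ i' j' ω)) {l : ℕ} (h1 : 1 ≤ l)
    (h2 : l < n) (ht : ¬ D.g i j l < D.g i' j' l) :
    cpt D n z i j i' j' S ω v l = eval (cpt D n z i j i' j' S ω v) (S ω l) +
      uco n z v l / 2 ^ D.g i j l := by
  classical
  conv_lhs => unfold cpt
  rw [pt_eq (tri_mxS h h'), if_neg (by omega), if_pos ⟨h1, h2, by omega⟩]
  have e : mxS D n i j i' j' S ω l = S ω l := by
    unfold mxS
    rw [if_neg]
    intro hc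
    exact ht hc.2.2
  rw [e]
  rfl

end Pool.GSD
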