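import Pool.Agent.H41.GSD.Shp
import Pool.Agent.H41.FRM.Cmp3
import Pool.Agent.H65.TIE.Elim

/-!
# The frame of a sample and the composite sheets

`FrP P w`: the system `P` is a frame of the sample `w`. `PiS` is the height of `P n` over the side
in the scaled chart.
-/

set_option autoImplicit false

namespace Pool.GSD

open Finset Real MvPolynomial
open Pool.Agent.H49.Ent Pool.Agent.H32.Dense Pool.STK Pool.STAT Pool.MIC.Frm Pool.MIC7 Pool.FRM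
open Pool.MIC Pool.MicA
open Pool.BFL (Pl Pb)
open Pool.TIE (elim elim_vars elim_deg)

/-- A frame of the sample `ω`. -/
def FrP (D : NDat2) (n K' M z : ℕ) (C : ℝ) (P : ℕ → PN) (ω : D.Ω) : Prop :=
  TriN P ∧ (∀ l, (P l).totalDegree ≤ K') ∧
    (∀ l ≤ n, eval (D.X ω) (P l) = D.X ω l) ∧ ∀ i < M, ∀ j < M, ∀ l ≤ n,
      nrm (D.g i j) (1 / 2) (chr P (fr D (i, j) ω l - P l)) ≤ exp (C * z) / 2 ^ D.g i j l

theorem fra_iff {D : NDat2} {n K' M z : ℕ} {C : ℝ} {ω : D.Ω} :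
    Fra D n K' M z C ω ↔ ∃ P, FrP D n K' M z C P ω := Iff.rfl

/-- The levels at the own pair `t`. -/
def Lo (D : NDat2) (c X : ℕ) (b t : ℕ × ℕ) : Prop :=
  ∀ l, 1 ≤ l → l < c → (D.g t.1 t.2 l ≤ D.g b.1 b.2 l ∧
    X + D.g t.1 t.2 l + D.g b.1 b.2 c ≤ D.g t.1 t.2 c + D.g b.1 b.2 l) ∨
    D.g b.1 b.2 l + X ≤ D.g t.1 t.2 l

theorem Lv.toLo {D : NDat2} {c X : ℕ} {b t₁ t₂ : ℕ × ℕ} (h : Lv D c X b t₁ t₂) :
    Lo D c X b t₁ := h.lo

/-- The systems of a sample in the chart of the frame: the side, one place, one own pair. -/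
theorem fr_pack (n K' : ℕ) (C : ℝ) (hC : 0 ≤ C) : ∃ C₂ : ℝ, 0 ≤ C₂ ∧ ∀ (D : NDat2)
    (K z M i j : ℕ) (S : D.Ω → ℕ → PN) (ω : D.Ω) (P : ℕ → PN), K ≤ K' → 1 ≤ z →
    i < M → j < M → (∀ i j x, TriN (D.G i j x)) → (∀ i j x l, (D.G i j x l).totalDegree ≤ K) →
    FrP D n K' M z C P ω → Sd D n K i j S ω →
    (∀ c ≤ n, Nb (K' * (K' + 1) ^ n) c (D.g i j) (ch P (D.X ω 0) (S ω)) (exp (C₂ * z))) ∧
    (∀ i₁ < M, ∀ j₁ < M, ∀ c ≤ n, Nb (K' * (K' + 1) ^ n) c (D.g i₁ j₁)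
      (ch P (D.X ω 0) (D.Ψ i₁ j₁ ω)) (exp (C₂ * z))) ∧
    6 * 2 ^ z ≤ exp (C₂ * z) := by
  obtain ⟨C₁, hC₁, hsd⟩ := side_near n K' C hC
  have hC10 : 0 ≤ C₁ := hC.trans hC₁
  refine ⟨C₁ + 3, by linarith, ?_⟩
  intro D K z M i j S ω P hK hz hi hj tG dG hF hS
  obtain ⟨hP, dP, vP, nP⟩ := hF
  have hz1 : (1 : ℝ) ≤ z := by exact_mod_cast hz
  have hz0 : (0 : ℝ) ≤ z := by linarith
  have hEE : exp (C * z) ≤ exp ((C₁ + 3) * z) := exp_le_exp.2
    (mul_le_mul_of_nonneg_right (by linarith) hz0)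
  have hEE1 : exp (C₁ * z) ≤ exp ((C₁ + 3) * z) := exp_le_exp.2
    (mul_le_mul_of_nonneg_right (by linarith) hz0)
  have hE3 : exp (3 * z) ≤ exp ((C₁ + 3) * z) := exp_le_exp.2
    (mul_le_mul_of_nonneg_right (by linarith) hz0)
  have dS : ∀ l, (S ω l).totalDegree ≤ K' := fun l => (hS.deg l).trans hK
  have dG' : ∀ i j x l, (D.G i j x l).totalDegree ≤ K' := fun i j x l => (dG i j x l).trans hK
  refine ⟨fun c hc => nb_of hP hS.tri dP dS hc fun l hl => (hsd D K i j z S ω P hK hz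
      (fun x => tG i j x) (fun x l => dG i j x l) hS hP dP vP (fun l hl => nP i hi j hj l hl)
      l hl).trans (div_le_div_of_nonneg_right hEE1 (by positivity)),
    fun i₃ h₃ j₃ h₃' c hc => nb_of hP (tG _ _ _) dP (fun l => dG' _ _ _ l) hc fun l hl =>
      (nP i₃ h₃ j₃ h₃' l hl).trans (div_le_div_of_nonneg_right hEE (by positivity)),
    (six_le hz).trans hE3⟩

theorem tr_lo {D : NDat2} {K₂ z X i j i₁ j₁ c : ℕ} {Fb F₁ : ℕ → PN} {E : ℝ}
    (hX : z + 2 ≤ X) (hE : 6 * 2 ^ z ≤ E) (hb : Nb K₂ c (D.g i j) Fb E)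
    (ho : Nb K₂ c (D.g i₁ j₁) F₁ E) (hL : Lo D c X (i, j) (i₁, j₁)) :
    Tr K₂ c (D.g i j) (D.g i₁ j₁) Fb F₁ (fun l => D.g i j l < D.g i₁ j₁ l) E
      (4 * 2 ^ z / 2 ^ X) := by
  have h2z : (1 : ℝ) ≤ 2 ^ z := one_le_pow₀ (by norm_num)
  have h2X : (0 : ℝ) < 2 ^ X := by positivity
  have hε : (2 : ℝ) ^ X * (4 * 2 ^ z / 2 ^ X) = 4 * 2 ^ z := by
    field_simp
  have hε1 : 1 ≤ (2 : ℝ) ^ X * (4 * 2 ^ z / 2 ^ X) := by
    rw [hε]
    linarith
  have hε0 : (0 : ℝ) ≤ 4 * 2 ^ z / 2 ^ X := by positivity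
  refine ⟨hb, ho, by linarith, hε0, ?_, ?_, ?_, ?_⟩
  · rw [div_le_one h2X]
    calc (4 : ℝ) * 2 ^ z = 2 ^ (z + 2) := by
          rw [pow_add]
          ring
      _ ≤ 2 ^ X := pow_le_pow_right₀ (by norm_num) hX
  · intro l h1 h2 ht
    rcases hL l h1 h2 with h3 | h3
    · exact absurd h3.1 (not_le.2 ht)
    · have h4 : (2 : ℝ) ^ D.g i j l * 2 ^ X ≤ 2 ^ D.g i₁ j₁ l := by
        rw [← pow_add]
        exact pow_le_pow_right₀ (by norm_num) h3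
      calc (2 : ℝ) ^ D.g i j l = 2 ^ D.g i j l * 1 := (mul_one _).symm
        _ ≤ 2 ^ D.g i j l * (2 ^ X * (4 * 2 ^ z / 2 ^ X)) :=
            mul_le_mul_of_nonneg_left hε1 (by positivity)
        _ = 4 * 2 ^ z / 2 ^ X * (2 ^ D.g i j l * 2 ^ X) := by ring
        _ ≤ 4 * 2 ^ z / 2 ^ X * 2 ^ D.g i₁ j₁ l := mul_le_mul_of_nonneg_left h4 hε0
  · intro l h1 h2 ht
    exact not_lt.1 ht
  · intro l h1 h2 ht
    rcases hL l h1 h2 with h3 | h3
    · have h4 : (2 : ℝ) ^ X * 2 ^ D.g i₁ j₁ l * 2 ^ D.g i j c ≤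
          2 ^ D.g i₁ j₁ c * 2 ^ D.g i j l := by
        rw [← pow_add, ← pow_add, ← pow_add]
        exact pow_le_pow_right₀ (by norm_num) h3.2
      calc (2 : ℝ) ^ D.g i j c * 2 ^ D.g i₁ j₁ l = 1 * (2 ^ D.g i j c * 2 ^ D.g i₁ j₁ l) :=
            (one_mul _).symm
        _ ≤ (2 ^ X * (4 * 2 ^ z / 2 ^ X)) * (2 ^ D.g i j c * 2 ^ D.g i₁ j₁ l) :=
            mul_le_mul_of_nonneg_right hε1 (by positivity)
        _ = 4 * 2 ^ z / 2 ^ X * (2 ^ X * 2 ^ D.g i₁ j₁ l * 2 ^ D.g i j c) := by ring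
        _ ≤ 4 * 2 ^ z / 2 ^ X * (2 ^ D.g i₁ j₁ c * 2 ^ D.g i j l) :=
            mul_le_mul_of_nonneg_left h4 hε0
        _ = 4 * 2 ^ z / 2 ^ X * 2 ^ D.g i₁ j₁ c * 2 ^ D.g i j l := by ring
    · exact absurd (lt_of_lt_of_le (by
        change D.g i j l < D.g i j l + X
        omega) h3) ht

/-! ### The chain rule -/

theorem pderiv_bind {σ τ : Type} [Fintype σ] (f : σ → MvPolynomial τ ℝ)
    (Q : MvPolynomial σ ℝ) (c : τ) :
    pderiv c (bind₁ f Q) = ∑ l, bind₁ f (pderiv l Q) * pderiv c (f l) := by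
  classical
  induction Q using MvPolynomial.induction_on with
  | C a =>
    rw [bind₁_C_right, pderiv_C]
    refine (Finset.sum_eq_zero fun l _ => ?_).symm
    rw [pderiv_C, map_zero, zero_mul]
  | add p q hp hq =>
    rw [map_add, map_add, hp, hq, ← Finset.sum_add_distrib]
    refine Finset.sum_congr rfl fun l _ => ?_
    rw [map_add, map_add, add_mul]
  | mul_X p i hp =>
    rw [map_mul, bind₁_X_right, pderiv_mul, hp, Finset.sum_mul]
    have e : ∀ l, bind₁ f (pderiv l (p * X i)) * pderiv c (f l) =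
        bind₁ f (pderiv l p) * pderiv c (f l) * f i +
          bind₁ f p * (if l = i then pderiv c (f l) else 0) := by
      intro l
      rw [pderiv_mul, pderiv_X, map_add, map_mul, map_mul, bind₁_X_right]
      by_cases h : l = i
      · subst h
        rw [Pi.single_eq_same, map_one, if_pos rfl]
        ring
      · rw [Pi.single_eq_of_ne (Ne.symm h), map_zero, if_neg h]
        ring
    rw [Finset.sum_congr rfl fun l _ => e l, Finset.sum_add_distrib, ← Finset.mul_sum,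
      Finset.sum_ite_eq' univ i fun l => pderiv c (f l), if_pos (Finset.mem_univ i)]

/-! ### The height of the frame over the side -/

/-- The height of `P n` over the side in the scaled chart. -/
noncomputable def PiS (D : NDat2) (n z i j : ℕ) (S : D.Ω → ℕ → PN) (P : ℕ → PN) (ω : D.Ω) :
    Pl (n - 1) :=
  scl (n - 1) z (C ((2 : ℝ) ^ D.g i j n) *
    sl (n - 1) (bind₁ (nuc (D.g i j) (atT (D.X ω 0) (S ω))) (P n - S ω n)))

/-- The point with the scaled coordinates `v`. -/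
noncomputable def fpt (D : NDat2) (n z i j : ℕ) (S : D.Ω → ℕ → PN) (ω : D.Ω)
    (v : Fin (n - 1) → ℝ) : ℕ → ℝ :=
  pt (D.g i j) (atT (D.X ω 0) (S ω)) (uco n z v)

theorem eval_PiS (D : NDat2) (n z i j : ℕ) (S : D.Ω → ℕ → PN) (P : ℕ → PN) (ω : D.Ω)
    (v : Fin (n - 1) → ℝ) : eval v (PiS D n z i j S P ω) = 2 ^ D.g i j n *
      (eval (fpt D n z i j S ω v) (P n) - eval (fpt D n z i j S ω v) (S ω n)) := by
  unfold PiS
  rw [eval_scl, map_mul, eval_C, eval_sl, eval_fr', map_sub]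
  rfl

theorem uco_zero {n z : ℕ} {v : Fin (n - 1) → ℝ} : uco n z v 0 = 0 := ex1_zero _

theorem fpt_zero {D : NDat2} {n z i j : ℕ} {S : D.Ω → ℕ → PN} {ω : D.Ω}
    {v : Fin (n - 1) → ℝ} (h : TriN (S ω)) : fpt D n z i j S ω v 0 = D.X ω 0 := by
  unfold fpt
  rw [pt_eq (Pool.MicA.tri_atT h _), uco_zero, zero_div, add_zero]
  unfold atT
  rw [Function.update_self, eval_C]

theorem fpt_ptl {D : NDat2} {n z i j : ℕ} {S : D.Ω → ℕ → PN} {ω : D.Ω}
    {v : Fin (n - 1) → ℝ} {P : ℕ → PN} {x₀ : ℕ → ℝ} (hP : TriN P)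
    (hx₀ : eval x₀ (P 0) = D.X ω 0) (h : TriN (S ω)) :
    Ptl n (D.g i j) (ch P (D.X ω 0) (S ω)) (uco n z v) (zs P (fpt D n z i j S ω v)) := by
  have h0 : fpt D n z i j S ω v 0 = D.X ω 0 := fpt_zero h
  refine ⟨zs_zero hP h0 hx₀, fun l h1 h2 => ?_⟩
  rw [eval_ch hP h0 h1]
  unfold zs
  have e : fpt D n z i j S ω v l = eval (fpt D n z i j S ω v) (S ω l) +
      uco n z v l / 2 ^ D.g i j l := by
    conv_lhs => unfold fpt
    rw [pt_eq (Pool.MicA.tri_atT h _)]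
    unfold atT
    rw [Function.update_of_ne (by omega)]
    rfl
  rw [e]
  ring

theorem eval_PiS' {D : NDat2} {n z i j : ℕ} {S : D.Ω → ℕ → PN} {P : ℕ → PN} {ω : D.Ω}
    {v : Fin (n - 1) → ℝ} (hn : 1 ≤ n) (hP : TriN P) (h : TriN (S ω)) :
    eval v (PiS D n z i j S P ω) = -(2 ^ D.g i j n *
      eval (zs P (fpt D n z i j S ω v)) (ch P (D.X ω 0) (S ω) n)) := by
  rw [eval_ch hP (fpt_zero h) hn, eval_PiS]
  ring

theorem deg_PiS {D : NDat2} {n K' z i j : ℕ} {S : D.Ω → ℕ → PN} {P : ℕ → PN} {ω : D.Ω}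
    (hP : TriN P) (h : TriN (S ω)) (dP : ∀ l, (P l).totalDegree ≤ K')
    (dS : ∀ l, (S ω l).totalDegree ≤ K') :
    (PiS D n z i j S P ω).totalDegree ≤ dK n K' := by
  unfold PiS
  refine (deg_scl_le _ _ _).trans ((deg_C_mul _ _).trans ((deg_sl _ _).trans ?_))
  refine deg_fr (m := n) (Pool.MicA.tri_atT h _) (fun k _ => ?_) (AdxRow.vars_sub_le (hP n) (h n))
    ((totalDegree_sub _ _).trans (max_le (dP n) (dS n)))
  unfold atT
  by_cases hk : k = 0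
  · subst hk
    rw [Function.update_self, totalDegree_C]
    exact Nat.zero_le _
  · rw [Function.update_of_ne hk]
    exact dS k

end Pool.GSD
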