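import Pool.Agent.H7.MIC.Adj
import Pool.Agent.H41.FRM.Frm

/-!
# Frames of a cell

Off an event of small probability, all the visible labels of a cell at the exact time are near to
one triangular system through the own point.
-/

set_option autoImplicit false

namespace Pool.GSD

open Finset Real MvPolynomial
open Pool.Agent.H49.Ent Pool.Agent.H32.Dense Pool.STK Pool.STAT Pool.MIC.Frm Pool.MIC7 Pool.FRM
open Pool.BFL (Pb)

/-- The sample `ω` has a frame. -/
def Fra (D : NDat2) (n K' M z : ℕ) (C : ℝ) (ω : D.Ω) : Prop :=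
  ∃ P : ℕ → PN, TriN P ∧ (∀ l, (P l).totalDegree ≤ K') ∧
    (∀ l ≤ n, eval (D.X ω) (P l) = D.X ω l) ∧ ∀ i < M, ∀ j < M, ∀ l ≤ n,
      nrm (D.g i j) (1 / 2) (chr P (fr D (i, j) ω l - P l)) ≤ exp (C * z) / 2 ^ D.g i j l

theorem det_one {D : NDat2} {n K J a₀ w₀ z M : ℕ} {lam gam : ℕ → ℝ} {κ C₁ : ℝ} {q : D.Ω → ℝ}
    (hO : D.Ok2 n K J a₀ w₀ z M lam gam κ C₁ q) {i j : ℕ} (hi : i < M) (hj : j ≤ M) :
    Det q (D.c (i + 1) j) (D.c i j) := hO.c_i i hi j hj

/-- **Frames.** -/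
theorem frm_ev (n K : ℕ) (lam gam : ℕ → ℝ) (C₁ : ℝ) (hC₁ : 1 ≤ C₁) : ∃ (K' : ℕ) (C : ℝ),
    K ≤ K' ∧ 0 ≤ C ∧ ∀ (M : ℕ) (η : ℝ), 2 ≤ M → 0 < η → ∃ (κ₀ : ℝ) (z₀ : ℕ), 0 < κ₀ ∧
    ∀ (J a₀ w₀ z : ℕ) (κ : ℝ) (D : NDat2) (q : D.Ω → ℝ), z₀ ≤ z → κ ≤ κ₀ →
      D.Ok2 n K J a₀ w₀ z M lam gam κ C₁ q → Pb q (fun ω => ¬ Fra D n K' M z C ω) ≤ η := by
  classical
  -- slopes
  obtain ⟨L, hL⟩ : ∃ L : ℝ, ∀ k ≤ n, |lam k| ≤ L ∧ |gam k| ≤ L := by
    refine ⟨∑ k ∈ range (n + 1), (|lam k| + |gam k|), fun k hk => ?_⟩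
    have h1 := Finset.single_le_sum (f := fun k => |lam k| + |gam k|)
      (fun k _ => by positivity) (mem_range.2 (Nat.lt_succ_of_le hk))
    have h2 := abs_nonneg (lam k)
    have h3 := abs_nonneg (gam k)
    constructor <;> linarith
  have hL0 : 0 ≤ L := (abs_nonneg _).trans (hL 0 (Nat.zero_le _)).1
  obtain ⟨S, hS⟩ := exists_nat_ge (2 * L + 2 * C₁ + 1)
  obtain ⟨c, hc, hadj⟩ := adj_ev n K S
  obtain ⟨C₂, hC₂⟩ : ∃ C₂ : ℝ, C₂ = C₁ + c := ⟨_, rfl⟩
  have hC₂0 : 0 ≤ C₂ := by rw [hC₂]; linarith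
  obtain ⟨K', C', hKK, hC', hfr⟩ := frame n K (Function.update lam 0 0)
    (Function.update gam 0 1) C₂ hC₂0
  refine ⟨K', C', hKK, hC', fun M η hM hη => ?_⟩
  obtain ⟨η', hη'⟩ : ∃ η' : ℝ, η' = min 1 (η / (2 * M * M + 1)) := ⟨_, rfl⟩
  have hη'0 : 0 < η' := by rw [hη']; exact lt_min one_pos (by positivity)
  obtain ⟨κ₀, z₁, hκ₀, hA⟩ := hadj η' hη'0 (by rw [hη']; exact min_le_left _ _)
  obtain ⟨z₂, hz₂⟩ := exists_nat_ge (M : ℝ)
  refine ⟨κ₀, max (max z₁ z₂) 1, hκ₀, ?_⟩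
  intro J a₀ w₀ z κ D q hz hκ hO
  have hz1 : z₁ ≤ z := (le_max_left _ _).trans ((le_max_left _ _).trans hz)
  have hz2 : z₂ ≤ z := (le_max_right _ _).trans ((le_max_left _ _).trans hz)
  have hz3 : 1 ≤ z := (le_max_right _ _).trans hz
  have hzr : (1 : ℝ) ≤ z := by exact_mod_cast hz3
  have hq := hO.isLaw
  have hMz : ((M - 1 : ℕ) : ℝ) ≤ exp z := by
    have h1 : ((M - 1 : ℕ) : ℝ) ≤ M := by exact_mod_cast Nat.sub_le _ _
    have h2 : (z₂ : ℝ) ≤ z := by exact_mod_cast hz2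
    have h3 := Real.add_one_le_exp (z : ℝ)
    linarith
  -- the levels
  have hg : ∀ i ≤ M, ∀ j ≤ M, ∀ l ≤ n, |(D.g i j l : ℝ) - D.g 0 0 l -
      (Function.update lam 0 0 l * i + Function.update gam 0 1 l * j) * z| ≤ C₁ * z := by
    intro i hi j hj l hl
    rcases Nat.eq_zero_or_pos l with h0 | h0
    · subst h0
      rw [Function.update_self, Function.update_self, hO.g_zero, hO.g_zero]
      push_cast
      rw [show (w₀ : ℝ) + j * z - (w₀ + 0 * z) - (0 * i + 1 * j) * z = 0 by ring, abs_zero]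
      positivity
    · rw [Function.update_of_ne (by omega), Function.update_of_ne (by omega)]
      exact hO.hom i hi j hj l h0 hl
  have hLl : ∀ l ≤ n, |Function.update lam 0 0 l| ≤ L ∧
      |Function.update gam 0 1 l| ≤ L + 1 := by
    intro l hl
    rcases Nat.eq_zero_or_pos l with h0 | h0
    · subst h0
      rw [Function.update_self, Function.update_self, abs_zero, abs_one]
      exact ⟨hL0, by linarith⟩
    · rw [Function.update_of_ne (by omega), Function.update_of_ne (by omega)]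
      have := hL l hl
      exact ⟨this.1, by linarith [this.2]⟩
  have hgd : ∀ i j i' j' : ℕ, i ≤ M → j ≤ M → i' ≤ M → j' ≤ M → |(i : ℝ) - i'| ≤ 1 →
      |(j : ℝ) - j'| ≤ 1 → ∀ l ≤ n, D.g i j l ≤ D.g i' j' l + S * z := by
    intro i j i' j' hi hj hi' hj' h1 h2 l hl
    have e1 := hg i hi j hj l hl
    have e2 := hg i' hi' j' hj' l hl
    rw [abs_le] at e1 e2
    obtain ⟨a1, a2⟩ := hLl l hl
    have b1 : Function.update lam 0 0 l * ((i : ℝ) - i') ≤ L := by
      refine (le_abs_self _).trans ?_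
      rw [abs_mul]
      calc |Function.update lam 0 0 l| * |(i : ℝ) - i'| ≤ L * 1 :=
            mul_le_mul a1 h1 (abs_nonneg _) hL0
        _ = L := mul_one L
    have b2 : Function.update gam 0 1 l * ((j : ℝ) - j') ≤ L + 1 := by
      refine (le_abs_self _).trans ?_
      rw [abs_mul]
      calc |Function.update gam 0 1 l| * |(j : ℝ) - j'| ≤ (L + 1) * 1 :=
            mul_le_mul a2 h2 (abs_nonneg _) (by linarith)
        _ = L + 1 := mul_one _
    have b3 : (Function.update lam 0 0 l * ((i : ℝ) - i') +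
        Function.update gam 0 1 l * ((j : ℝ) - j')) * z ≤ (2 * L + 1) * z :=
      mul_le_mul_of_nonneg_right (by linarith) (by linarith)
    have b4 : (2 * L + 2 * C₁ + 1) * z ≤ S * z := mul_le_mul_of_nonneg_right hS (by linarith)
    have : (D.g i j l : ℝ) ≤ D.g i' j' l + S * z := by nlinarith
    exact_mod_cast this
  -- the bad event
  obtain ⟨B₁, hB₁⟩ : ∃ B₁ : ℕ × ℕ → D.Ω → Prop, B₁ = fun p ω =>
    ¬ Adj D n (exp (c * z)) (p.1 + 1, p.2) p ω := ⟨_, rfl⟩
  obtain ⟨B₂, hB₂⟩ : ∃ B₂ : ℕ × ℕ → D.Ω → Prop, B₂ = fun p ω =>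
    ¬ Adj D n (exp (c * z)) (p.1 + 1, p.2 + 1) p ω := ⟨_, rfl⟩
  obtain ⟨G, hG⟩ : ∃ G : Finset (ℕ × ℕ), G = range (M - 1) ×ˢ range (M - 1) := ⟨_, rfl⟩
  obtain ⟨G', hG'⟩ : ∃ G' : Finset (ℕ × ℕ), G' = range (M - 1) ×ˢ range M := ⟨_, rfl⟩
  have p1 : ∀ p ∈ G', Pb q (B₁ p) ≤ η' := by
    intro p hp
    rw [hG', mem_product, mem_range, mem_range] at hp
    rw [hB₁]
    have hd1 := det_one hO (i := p.1) (j := p.2) (by omega) (by omega)
    have r1 : |(((p.1 + 1 : ℕ) : ℝ)) - p.1| ≤ 1 := by push_cast; norm_num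
    have r2 : |((p.1 : ℝ)) - ((p.1 + 1 : ℕ) : ℝ)| ≤ 1 := by rw [abs_sub_comm]; exact r1
    have r0 : ∀ x : ℝ, |x - x| ≤ 1 := fun x => by rw [sub_self, abs_zero]; exact zero_le_one
    exact hA D J a₀ w₀ z M lam gam κ C₁ q hO hκ hz1 (p.1 + 1, p.2) p (p.1 + 1, p.2)
      (by omega) (by omega) (by omega) (by omega) (by simp only; omega) (by omega)
      (fun _ _ _ _ h => h) hd1
      (hgd _ _ _ _ (by omega) (by omega) (by omega) (by omega) (r0 _) (r0 _))
      (hgd _ _ _ _ (by omega) (by omega) (by omega) (by omega) (r0 _) (r0 _))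
      (hgd _ _ _ _ (by omega) (by omega) (by omega) (by omega) r2 (r0 _))
      (hgd _ _ _ _ (by omega) (by omega) (by omega) (by omega) r1 (r0 _))
  have p2 : ∀ p ∈ G, Pb q (B₂ p) ≤ η' := by
    intro p hp
    rw [hG, mem_product, mem_range, mem_range] at hp
    rw [hB₂]
    have hd1 : Det q (D.c (p.1 + 1) (p.2 + 1)) (D.c p.1 p.2) :=
      hO.c_ij p.1 (by omega) p.2 (by omega)
    have r1 : ∀ a : ℕ, |(((a + 1 : ℕ) : ℝ)) - a| ≤ 1 := fun a => by push_cast; norm_num
    have r2 : ∀ a : ℕ, |((a : ℝ)) - ((a + 1 : ℕ) : ℝ)| ≤ 1 := fun a => by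
      rw [abs_sub_comm]; exact r1 a
    have r0 : ∀ x : ℝ, |x - x| ≤ 1 := fun x => by rw [sub_self, abs_zero]; exact zero_le_one
    exact hA D J a₀ w₀ z M lam gam κ C₁ q hO hκ hz1 (p.1 + 1, p.2 + 1) p (p.1 + 1, p.2 + 1)
      (by simp only; omega) (by simp only; omega) (by omega) (by omega) (by simp only; omega)
      (by simp only; omega)
      (fun _ _ _ _ h => h) hd1
      (hgd _ _ _ _ (by omega) (by omega) (by omega) (by omega) (r0 _) (r0 _))
      (hgd _ _ _ _ (by omega) (by omega) (by omega) (by omega) (r0 _) (r0 _))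
      (hgd _ _ _ _ (by omega) (by omega) (by omega) (by omega) (r2 _) (r2 _))
      (hgd _ _ _ _ (by omega) (by omega) (by omega) (by omega) (r1 _) (r1 _))
  have hun : Pb q (fun ω => (∃ p ∈ G', B₁ p ω) ∨ ∃ p ∈ G, B₂ p ω) ≤ η := by
    have e1 := Pb_un hq.nonneg G' B₁
    have e2 := Pb_un hq.nonneg G B₂
    have e3 : ∑ p ∈ G', Pb q (B₁ p) ≤ G'.card * η' := by
      rw [← nsmul_eq_mul, ← sum_const]
      exact sum_le_sum p1
    have e4 : ∑ p ∈ G, Pb q (B₂ p) ≤ G.card * η' := by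
      rw [← nsmul_eq_mul, ← sum_const]
      exact sum_le_sum p2
    have c1 : (G'.card : ℝ) ≤ M * M := by
      rw [hG', card_product, card_range, card_range]
      have : (M - 1) * M ≤ M * M := Nat.mul_le_mul_right _ (Nat.sub_le _ _)
      exact_mod_cast this
    have c2 : (G.card : ℝ) ≤ M * M := by
      rw [hG, card_product, card_range]
      have : (M - 1) * (M - 1) ≤ M * M := Nat.mul_le_mul (Nat.sub_le _ _) (Nat.sub_le _ _)
      exact_mod_cast this
    have e5 : Pb q (fun ω => (∃ p ∈ G', B₁ p ω) ∨ ∃ p ∈ G, B₂ p ω) ≤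
        Pb q (fun ω => ∃ p ∈ G', B₁ p ω) + Pb q (fun ω => ∃ p ∈ G, B₂ p ω) := by
      unfold Pb
      rw [← Finset.sum_add_distrib]
      refine Finset.sum_le_sum fun ω _ => ?_
      have := hq.nonneg ω
      by_cases h1 : ∃ p ∈ G', B₁ p ω <;> by_cases h2 : ∃ p ∈ G, B₂ p ω <;> simp [h1, h2, this]
    have e6 : (G'.card : ℝ) * η' + G.card * η' ≤ (2 * M * M + 1) * η' := by
      have : (G'.card : ℝ) + G.card ≤ 2 * M * M + 1 := by linarith
      nlinarith
    have e7 : (2 * (M : ℝ) * M + 1) * η' ≤ η := by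
      have : η' ≤ η / (2 * M * M + 1) := by rw [hη']; exact min_le_right _ _
      rw [le_div_iff₀ (by positivity)] at this
      linarith
    linarith
  refine le_trans (Pool.MIC.Frm.Pb_supp hq.nonneg fun ω hω hb => ?_) hun
  by_contra hcon
  push Not at hcon
  obtain ⟨g1, g2⟩ := hcon
  refine hb ?_
  have hexp : exp (c * z) ≤ exp (C₂ * z) := by
    refine exp_le_exp.2 (mul_le_mul_of_nonneg_right ?_ (by linarith))
    rw [hC₂]
    linarith
  have hGrd : Grd n K (M - 1) z (Function.update lam 0 0) (Function.update gam 0 1) C₂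
      (fun i j => fr D (i, j) ω) D.g (D.X ω) := by
    refine ⟨fun i j => tri_fz (hO.G_tri i j _) _, fun i j l => deg_fz (hO.G_deg i j _ l) _,
      fun i hi j hj l hl => (hg i (by omega) j (by omega) l hl).trans
        (mul_le_mul_of_nonneg_right (by rw [hC₂]; linarith) (by linarith)), ?_, ?_, ?_⟩
    · intro i hi j hj l hl
      rcases Nat.eq_zero_or_pos l with h0 | h0
      · subst h0
        unfold fr
        rw [fz_zero, eval_C, sub_self, abs_zero]
        positivity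
      · unfold fr
        rw [eval_fz' _ rfl h0]
        exact hO.pos i (by omega) j (by omega) ω hω l h0 hl
    · intro i hi j hj l hl b hbb
      rcases Nat.eq_zero_or_pos l with h0 | h0
      · subst h0
        unfold fr
        rw [fz_zero, fz_zero, sub_self, abs_zero]
        positivity
      · have h1 := g1 (i, j) (by rw [hG', mem_product, mem_range, mem_range]; simp only; omega)
        rw [hB₁] at h1
        simp only [not_not] at h1
        exact (h1 l h0 hl b hbb).trans (div_le_div_of_nonneg_right hexp (by positivity))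
    · intro i hi j hj l hl b hbb
      rcases Nat.eq_zero_or_pos l with h0 | h0
      · subst h0
        unfold fr
        rw [fz_zero, fz_zero, sub_self, abs_zero]
        positivity
      · have h1 := g2 (i, j) (by rw [hG, mem_product, mem_range, mem_range]; simp only; omega)
        rw [hB₂] at h1
        simp only [not_not] at h1
        exact (h1 l h0 hl b hbb).trans (div_le_div_of_nonneg_right hexp (by positivity))
  obtain ⟨P, a1, a2, a3, a4⟩ := hfr (M - 1) z _ D.g (D.X ω) (by omega) hz3 hMz hGrd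
  exact ⟨P, a1, a2, a3, fun i hi j hj l hl => a4 i (by omega) j (by omega) l hl⟩

end Pool.GSD
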