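import Pool.Agent.H41.GSD.Ht

/-!
# The shapes: variables, degrees, coefficients
-/

set_option autoImplicit false

namespace Pool.GSD

open Finset Real MvPolynomial
open Pool.Agent.H49.Ent Pool.Agent.H32.Dense Pool.STK Pool.STAT Pool.MIC.Frm Pool.MIC7 Pool.FRM
open Pool.MIC Pool.MicA
open Pool.BFL (Pl Pb)

/-! ### Degrees and variables -/

theorem deg_scl_le (m z : ℕ) (F : Pl m) : (scl m z F).totalDegree ≤ F.totalDegree := by
  classical
  unfold scl
  rw [bind₁, aeval_def, eval₂_eq]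
  refine totalDegree_finsetSum_le fun d hd => ?_
  refine (totalDegree_mul _ _).trans ?_
  have h0 : (algebraMap ℝ (MvPolynomial (Fin m) ℝ) (coeff d F)).totalDegree = 0 := by
    rw [algebraMap_eq, totalDegree_C]
  rw [h0, zero_add]
  refine (totalDegree_finsetProd _ _).trans ?_
  refine (Finset.sum_le_sum (g := fun j => d j) fun j _ => ?_).trans (le_totalDegree hd)
  refine (totalDegree_pow _ _).trans ?_
  calc d j * _ ≤ d j * 1 := by
        refine Nat.mul_le_mul_left _ ?_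
        refine (totalDegree_sub _ _).trans (max_le ?_ ?_)
        · refine (totalDegree_mul _ _).trans ?_
          rw [totalDegree_C, totalDegree_X, zero_add]
        · rw [totalDegree_C]
          exact Nat.zero_le _
    _ = d j := Nat.mul_one _

theorem deg_C_mul {m : ℕ} (a : ℝ) (F : Pl m) : (C a * F).totalDegree ≤ F.totalDegree := by
  refine (totalDegree_mul _ _).trans ?_
  rw [totalDegree_C, zero_add]

/-- The degree of the shapes. -/
def dK (n K : ℕ) : ℕ := K * (K + 1) ^ n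

theorem deg_mxS {D : NDat2} {n K i j i' j' : ℕ} {S : D.Ω → ℕ → PN} {ω : D.Ω}
    (h : ∀ k, (S ω k).totalDegree ≤ K) (h' : ∀ k, (D.Ψ i' j' ω k).totalDegree ≤ K) (k : ℕ) :
    (mxS D n i j i' j' S ω k).totalDegree ≤ K := by
  classical
  unfold mxS
  split_ifs
  · exact h' k
  · exact h k

theorem deg_shrS {D : NDat2} {n K z i j i' j' l : ℕ} {S : D.Ω → ℕ → PN} {ω : D.Ω}
    (t : TriN (S ω)) (t' : TriN (D.Ψ i' j' ω)) (h : ∀ k, (S ω k).totalDegree ≤ K)
    (h' : ∀ k, (D.Ψ i' j' ω k).totalDegree ≤ K) (hl : l ≤ n) :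
    (shrS D n z i j i' j' S l ω).totalDegree ≤ dK n K := by
  classical
  unfold shrS
  refine (deg_scl_le _ _ _).trans ((deg_C_mul _ _).trans ((deg_sl _ _).trans ?_))
  unfold kpS
  refine (Dgb.deg_bind (B := 1) fun k _ => ?_).trans ?_
  · split_ifs
    · rw [totalDegree_C]
      exact Nat.zero_le _
    · exact (totalDegree_X k).le
    · rw [totalDegree_zero]
      exact Nat.zero_le _
  · rw [mul_one]
    refine (deg_fr (m := l) (tri_mxS t t') (fun k _ => deg_mxS h h' k)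
      (AdxRow.vars_sub_le (t' l) (t l)) ((totalDegree_sub _ _).trans
        (max_le (h' l) (h l)))).trans ?_
    exact Nat.mul_le_mul_left _ (Nat.pow_le_pow_right (Nat.succ_pos _) hl)

theorem vars_scl_le {m z : ℕ} {F : Pl m} {x : Fin m} (h : x ∈ (scl m z F).vars) :
    x ∈ F.vars := by
  classical
  unfold scl at h
  obtain ⟨k, hk, hx⟩ := mem_vars_bind₁ _ _ h
  have h1 : x ∈ (C (4 * 2 ^ z) * X k - C (2 * 2 ^ z) : Pl m).vars := hx
  have h2 := vars_sub_subset _ h1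
  rw [vars_C, Finset.union_empty] at h2
  have h3 := vars_mul _ _ h2
  rw [vars_C, Finset.empty_union, vars_X, Finset.mem_singleton] at h3
  rw [h3]
  exact hk

theorem vars_C_mul_le {m : ℕ} {a : ℝ} {F : Pl m} {x : Fin m} (h : x ∈ (C a * F).vars) :
    x ∈ F.vars := by
  classical
  have h3 := vars_mul _ _ h
  rwa [vars_C, Finset.empty_union] at h3

theorem vars_sl_le {m : ℕ} {F : PN} {x : Fin m} (h : x ∈ (sl m F).vars) :
    ((x : ℕ) + 1) ∈ F.vars := by
  classical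
  have h0 : x ∈ (bind₁ (fun j => if h : 1 ≤ j ∧ j - 1 < m then X ⟨j - 1, h.2⟩ else 0)
      F : Pl m).vars := h
  obtain ⟨k, hk, hx⟩ := mem_vars_bind₁ _ _ h0
  by_cases h1 : 1 ≤ k ∧ k - 1 < m
  · rw [dif_pos h1, vars_X, Finset.mem_singleton] at hx
    have : (x : ℕ) + 1 = k := by
      rw [hx]
      change k - 1 + 1 = k
      omega
    rw [this]
    exact hk
  · rw [dif_neg h1, vars_0] at hx
    exact absurd hx (Finset.notMem_empty _)

theorem vars_shrS {D : NDat2} {n z i j i' j' l : ℕ} {S : D.Ω → ℕ → PN} {ω : D.Ω}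
    (t : TriN (S ω)) (t' : TriN (D.Ψ i' j' ω)) {x : Fin (n - 1)}
    (h : x ∈ (shrS D n z i j i' j' S l ω).vars) :
    D.fat n i j i' j' (x + 1) ∧ (x : ℕ) + 1 < l := by
  classical
  unfold shrS at h
  have h1 := vars_sl_le (vars_C_mul_le (vars_scl_le h))
  unfold kpS at h1
  obtain ⟨k, hk, hx⟩ := mem_vars_bind₁ _ _ h1
  have h2 := mem_range.1 (vars_fr (g := D.g i j) (tri_mxS t t')
    (AdxRow.vars_sub_le (t' l) (t l)) hk)
  split_ifs at hx with a b
  · rw [vars_C] at hx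
    exact absurd hx (Finset.notMem_empty _)
  · rw [vars_X, Finset.mem_singleton] at hx
    rw [hx]
    exact ⟨b, h2⟩
  · rw [vars_0] at hx
    exact absurd hx (Finset.notMem_empty _)

theorem vars_shpS {D : NDat2} {n z i j i' j' bb l : ℕ} {S : D.Ω → ℕ → PN} {ω : D.Ω}
    (t : TriN (S ω)) (t' : TriN (D.Ψ i' j' ω)) {x : Fin (n - 1)}
    (h : x ∈ (shpS D n z i j i' j' bb S l ω).vars) :
    D.fat n i j i' j' (x + 1) ∧ (x : ℕ) + 1 < l := by
  classical
  unfold shpS at h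
  split_ifs at h
  · have h2 := vars_sub_subset _ h
    rw [vars_C, Finset.union_empty] at h2
    exact vars_shrS t t' h2
  · rw [vars_0] at h
    exact absurd h (Finset.notMem_empty _)

theorem deg_shpS {D : NDat2} {n K z i j i' j' bb l : ℕ} {S : D.Ω → ℕ → PN} {ω : D.Ω}
    (t : TriN (S ω)) (t' : TriN (D.Ψ i' j' ω)) (h : ∀ k, (S ω k).totalDegree ≤ K)
    (h' : ∀ k, (D.Ψ i' j' ω k).totalDegree ≤ K) (hl : l ≤ n) :
    (shpS D n z i j i' j' bb S l ω).totalDegree ≤ dK n K := by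
  classical
  unfold shpS
  split_ifs
  · refine (totalDegree_sub _ _).trans (max_le (deg_shrS t t' h h' hl) ?_)
    rw [totalDegree_C]
    exact Nat.zero_le _
  · rw [totalDegree_zero]
    exact Nat.zero_le _

theorem cf_shpS {D : NDat2} {n z i j i' j' bb l : ℕ} {S : D.Ω → ℕ → PN} {ω : D.Ω}
    (α : Fin (n - 1) →₀ ℕ) : |coeff α (shpS D n z i j i' j' bb S l ω)| ≤ 2 ^ bb := by
  classical
  unfold shpS
  split_ifs with h
  · rw [coeff_sub, coeff_C]
    by_cases h0 : 0 = α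
    · rw [if_pos h0, ← h0, sub_self, abs_zero]
      positivity
    · rw [if_neg h0, sub_zero]
      exact h α (Ne.symm h0)
  · rw [coeff_zero, abs_zero]
    positivity

theorem cf0_shpS {D : NDat2} {n z i j i' j' bb l : ℕ} {S : D.Ω → ℕ → PN} {ω : D.Ω} :
    coeff 0 (shpS D n z i j i' j' bb S l ω) = 0 := by
  classical
  unfold shpS
  split_ifs with h
  · rw [coeff_sub, coeff_C, if_pos rfl, sub_self]
  · exact coeff_zero _

/-! ### The same labels -/

theorem shrS_congr {D : NDat2} {n z i j i' j' l : ℕ} {S : D.Ω → ℕ → PN} {ω ω' : D.Ω}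
    (t : TriN (S ω)) (eS : S ω = S ω') (e' : D.Ψ i' j' ω = D.Ψ i' j' ω')
    (e0 : D.X ω 0 = D.X ω' 0) :
    shrS D n z i j i' j' S l ω = shrS D n z i j i' j' S l ω' := by
  have h : eval (D.X ω) (S ω 0) = eval (D.X ω') (S ω' 0) := by
    rw [← eS]
    exact ev0 (t 0) _ _
  have hm : mxS D n i j i' j' S ω = mxS D n i j i' j' S ω' := by
    funext k
    unfold mxS
    rw [eS, e']
  unfold shrS kpS
  rw [hm, h, e', e0, eS]

theorem shpS_congr {D : NDat2} {n z i j i' j' bb l : ℕ} {S : D.Ω → ℕ → PN} {ω ω' : D.Ω}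
    (t : TriN (S ω)) (eS : S ω = S ω') (e' : D.Ψ i' j' ω = D.Ψ i' j' ω')
    (e0 : D.X ω 0 = D.X ω' 0) :
    shpS D n z i j i' j' bb S l ω = shpS D n z i j i' j' bb S l ω' := by
  classical
  have h := shrS_congr (n := n) (z := z) (i := i) (j := j) (l := l) t eS e' e0
  unfold shpS GdsS
  rw [h]

theorem det_shpS {D : NDat2} {n z i j i' j' bb l : ℕ} {S : D.Ω → ℕ → PN} {q : D.Ω → ℝ}
    {Y : Type} {y : D.Ω → Y} (t : ∀ ω, 0 < q ω → TriN (S ω)) (hS : Det q y S)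
    (h' : Det q y (D.Ψ i' j')) (hX : Det q y (fun ω => D.X ω 0)) :
    Det q y (shpS D n z i j i' j' bb S l) := fun ω ω' h1 h2 h3 =>
  shpS_congr (t ω h1) (hS ω ω' h1 h2 h3) (h' ω ω' h1 h2 h3) (hX ω ω' h1 h2 h3)

/-! ### The coefficients -/

/-- **The shapes have small coefficients.** -/
theorem cf_one (n K' : ℕ) (C : ℝ) (hC : 0 ≤ C) : ∃ C' : ℝ, 0 ≤ C' ∧ ∀ (D : NDat2)
    (K z X M i j i₁ j₁ i₂ j₂ c : ℕ) (S : D.Ω → ℕ → PN) (ω : D.Ω), K ≤ K' → 1 ≤ z →
    z + 2 ≤ X → 1 ≤ c → c ≤ n → i < M → j < M → i₁ < M → j₁ < M → i₂ < M → j₂ < M →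
    (∀ i j x, TriN (D.G i j x)) → (∀ i j x l, (D.G i j x l).totalDegree ≤ K) →
    Lv D c X (i, j) (i₁, j₁) (i₂, j₂) → Fra D n K' M z C ω → Sd D n K i j S ω →
    ∀ α, α ≠ 0 → |coeff α (shrS D n z i j i₁ j₁ S c ω)| ≤ exp (C' * z) := by
  obtain ⟨C₂, hC₂, htr⟩ := tr_of n K' C hC
  obtain ⟨Cb, hCb, hcb⟩ := Pool.Agent.H36.KBX.coef_bound (n - 1) (dK n K')
  have hl : 0 ≤ Real.log (Cb + 1) := Real.log_nonneg (by linarith)
  refine ⟨Real.log (Cb + 1) + (C₂ + 2) * dd (K' * (K' + 1) ^ n) (n + 2), by positivity, ?_⟩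
  intro D K z X M i j i₁ j₁ i₂ j₂ c S ω hK hz hX hc1 hc hi hj hi₁ hj₁ hi₂ hj₂ tG dG hL hF hS α hα
  obtain ⟨P, hP, hx₀, hT, hN, hE⟩ := htr D K z X M i j i₁ j₁ i₂ j₂ c S ω hK hz hX hc hi hj hi₁
    hj₁ hi₂ hj₂ tG dG hL hF hS
  have hz1 : (1 : ℝ) ≤ z := by exact_mod_cast hz
  obtain ⟨Q, hQ⟩ : ∃ Q : Pl (n - 1), Q = shrS D n z i j i₁ j₁ S c ω -
    MvPolynomial.C (eval 0 (shrS D n z i j i₁ j₁ S c ω)) := ⟨_, rfl⟩
  have hv : ∀ v : Fin (n - 1) → ℝ, eval v (shrS D n z i j i₁ j₁ S c ω) = 2 ^ D.g i j c *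
      (eval (zs P (cpt D n z i j i₁ j₁ S ω v)) (ch P (D.X ω 0) (D.Ψ i₁ j₁ ω) c) -
        eval (zs P (cpt D n z i j i₁ j₁ S ω v)) (ch P (D.X ω 0) (S ω) c)) := by
    intro v
    have hcz : cpt D n z i j i₁ j₁ S ω v 0 = D.X ω 0 := cpt_zero hS.tri (tG _ _ _)
    rw [eval_ch hP hcz hc1, eval_ch hP hcz hc1, eval_shrS]
    ring
  have key := hcb Q (exp ((C₂ + 2) * dd (K' * (K' + 1) ^ n) (n + 2) * z)) (by
    rw [hQ]
    refine (totalDegree_sub _ _).trans (max_le (deg_shrS hS.tri (tG _ _ _)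
      (fun k => (hS.deg k).trans hK) (fun k => (dG _ _ _ k).trans hK) hc) ?_)
    rw [totalDegree_C]
    exact Nat.zero_le _) (fun y hy => by
    rw [hQ, map_sub, eval_C, hv, hv]
    have e1 := hT.cf rfl (cp_of (v := y) (z := z) hP hx₀ hS.tri (tG _ _ _) hc)
      (cp_of (v := 0) (z := z) hP hx₀ hS.tri (tG _ _ _) hc)
      (fun l a b _ => (uco_bd hy a (b.trans_le hc)).trans hE)
      (fun l a b _ => (uco_bd (fun _ => by
        rw [Pi.zero_apply, abs_zero]
        exact zero_le_one) a (b.trans_le hc)).trans hE)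
    exact e1.trans (w_le hz hC₂ (dd_mono (by omega)))) α
  have h1 : coeff α Q = coeff α (shrS D n z i j i₁ j₁ S c ω) := by
    rw [hQ, coeff_sub, coeff_C, if_neg (Ne.symm hα), sub_zero]
  rw [← h1]
  refine key.trans ?_
  have h2 : Cb ≤ exp (Real.log (Cb + 1) * z) := by
    calc Cb ≤ Cb + 1 := by linarith
      _ = exp (Real.log (Cb + 1)) := (exp_log (by linarith)).symm
      _ ≤ _ := exp_le_exp.2 (by nlinarith)
  refine (mul_le_mul_of_nonneg_right h2 (exp_pos _).le).trans (le_of_eq ?_)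
  rw [← exp_add]
  congr 1
  ring

end Pool.GSD
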