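import Pool.Agent.H41.GSD.HtB
import Pool.Agent.H24.GSD.Rnd

/-!
# The heights over the rounded shapes

`ht_rnd`: the heights over the rounded shapes have as few bits as the heights over the shapes, up to
a constant.
-/

set_option autoImplicit false

namespace Pool.GSD

open Finset Real MvPolynomial
open Pool.Agent.H49.Ent Pool.Agent.H32.Dense Pool.STK Pool.STAT Pool.MIC.Frm Pool.MIC7 Pool.FRM
open Pool.MIC Pool.MicA
open Pool.BFL (Pl Pb)
open Pool.TIE (Dat dg)

/-- **The heights over the rounded shapes.** -/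
theorem ht_rnd (n K : ℕ) : ∃ C : ℝ, 0 ≤ C ∧ ∀ (D : NDat2) (z i j X bb h₀ : ℕ)
    (S : D.Ω → ℕ → PN) (Γ' : Type) (zz : D.Ω → Γ') (q : D.Ω → ℝ) (pr : ℕ → ℕ × ℕ)
    (l : Fin (n - 1)) (Y : Type) (y : D.Ω → Y), IsLaw q →
    (∀ i j x, TriN (D.G i j x)) → (∀ i j x l, (D.G i j x l).totalDegree ≤ K) →
    (∀ ω, 0 < q ω → Sd D n K i j S ω) →
    CH q ((datS D n z i j X h₀ S zz q
        (fun ω l => rnd X (shsS D n z i j bb S pr ω l))).ht l) y ≤
      CH q ((datS D n z i j X h₀ S zz q (shsS D n z i j bb S pr)).ht l) y + C := by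
  obtain ⟨N, hN⟩ : ∃ N : ℕ, N = (Pool.Agent.H36.KBX.bx (n - 1) (dK n K)).card := ⟨_, rfl⟩
  have hN0 : (0 : ℝ) ≤ N := Nat.cast_nonneg _
  refine ⟨Real.log (2 * (2 * (N + 1)) + 1), Real.log_nonneg (by linarith), ?_⟩
  intro D z i j X bb h₀ S Γ' zz q pr l Y y hq tG dG hS
  have hq0 := hq.nonneg
  have h2X : (0 : ℝ) < 2 ^ X := by positivity
  rw [datS_ht, datS_ht]
  -- the difference
  have hd : ∀ ω, 0 < q ω → |((dg X (vS D n z i j X S ω l - eval (vS D n z i j X S ω)
      (rnd X (shsS D n z i j bb S pr ω l))) - dg X (vS D n z i j X S ω l -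
        eval (vS D n z i j X S ω) (shsS D n z i j bb S pr ω l)) : ℤ) : ℝ)| ≤ N + 1 := by
    intro ω hω
    have hs := hS ω hω
    have hy : ∀ l, 1 ≤ l → l ≤ n → |ztS D i j S ω l| ≤ 1 := fun l a b => nat_le (hs.hgt l a b)
    have hv1 : ∀ l, |vS D n z i j X S ω l| ≤ 1 := fun l => by
      rw [abs_le]
      have := vS_bd (D := D) (z := z) (X := X) hy l
      constructor <;> linarith [this.1, this.2]
    have d0 : (shsS D n z i j bb S pr ω l).totalDegree ≤ dK n K :=
      (deg_C_mul _ _).trans (deg_shpS hs.tri (tG _ _ _) hs.deg (fun k => dG _ _ _ k) (by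
        have := l.2
        omega))
    have e1 := Pool.Agent.H36.KBX.eval_bound (rnd X (shsS D n z i j bb S pr ω l) -
      shsS D n z i j bb S pr ω l) ((totalDegree_sub _ _).trans (max_le ((deg_rnd X _).trans d0)
        d0)) (1 / 2 ^ X) 1 le_rfl (fun α => by rw [coeff_sub]; exact rnd_near X _ α) _ hv1
    rw [← hN, one_pow, mul_one, map_sub] at e1
    have e2 := dg_near (h := X) (x := vS D n z i j X S ω l - eval (vS D n z i j X S ω)
      (rnd X (shsS D n z i j bb S pr ω l))) (x' := vS D n z i j X S ω l -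
        eval (vS D n z i j X S ω) (shsS D n z i j bb S pr ω l)) (δ := N * (1 / 2 ^ X)) (by
      have e3 : (vS D n z i j X S ω l - eval (vS D n z i j X S ω)
          (rnd X (shsS D n z i j bb S pr ω l))) - (vS D n z i j X S ω l -
          eval (vS D n z i j X S ω) (shsS D n z i j bb S pr ω l)) =
          -(eval (vS D n z i j X S ω) (rnd X (shsS D n z i j bb S pr ω l)) -
            eval (vS D n z i j X S ω) (shsS D n z i j bb S pr ω l)) := by ring
      rw [e3, abs_neg]
      exact e1)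
    refine e2.trans (le_of_eq ?_)
    field_simp
  have c1 := CH_le_add hq0 (fun ω => dg X (vS D n z i j X S ω l - eval (vS D n z i j X S ω)
      (rnd X (shsS D n z i j bb S pr ω l)))) (fun ω => dg X (vS D n z i j X S ω l -
        eval (vS D n z i j X S ω) (shsS D n z i j bb S pr ω l))) y
  have c3 := CH_le_int hq0 hq.sum_one (fun ω => dg X (vS D n z i j X S ω l -
      eval (vS D n z i j X S ω) (rnd X (shsS D n z i j bb S pr ω l))))
    (fun ω => (dg X (vS D n z i j X S ω l -
        eval (vS D n z i j X S ω) (shsS D n z i j bb S pr ω l)), y ω))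
    (fun _ => 2 * (N + 1)) (fun w w' h h' hh => by
      simp only [Prod.mk.injEq] at hh
      obtain ⟨e1, e2⟩ := hh
      have h1 := hd w h
      have h2 := hd w' h'
      rw [← e1] at h2
      push_cast at h1 h2 ⊢
      rw [abs_le] at h1 h2 ⊢
      constructor <;> linarith [h1.1, h1.2, h2.1, h2.2])
  rw [Ex_const hq.sum_one] at c3
  linarith

end Pool.GSD
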