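import Pool.Agent.H41.GSD.Two
import Pool.Agent.H36.KBX.Coef

/-!
# The height over the composite sheet has few values given the labels
-/

set_option autoImplicit false

namespace Pool.GSD

open Finset Real MvPolynomial
open Pool.Agent.H49.Ent Pool.Agent.H32.Dense Pool.STK Pool.STAT Pool.MIC.Frm Pool.MIC7 Pool.FRM
open Pool.MIC Pool.MicA
open Pool.BFL (Pl Pb)

/-- The labels in the chart of the frame. -/
noncomputable def ch (P : ℕ → PN) (t : ℝ) (Ψ : ℕ → PN) (l : ℕ) : PN := chr P (fz t Ψ l - P l)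

theorem nb_of {P Ψ : ℕ → PN} {g : ℕ → ℕ} {t E : ℝ} {K' n c : ℕ} (hP : TriN P) (hΨ : TriN Ψ)
    (dP : ∀ l, (P l).totalDegree ≤ K') (dΨ : ∀ l, (Ψ l).totalDegree ≤ K') (hc : c ≤ n)
    (h : ∀ l ≤ n, nrm g (1 / 2) (chr P (fz t Ψ l - P l)) ≤ E / 2 ^ g l) :
    Nb (K' * (K' + 1) ^ n) c g (ch P t Ψ) E := by
  have hv : ∀ l, (fz t Ψ l - P l).vars ⊆ range l := fun l =>
    AdxRow.vars_sub_le (tri_fz hΨ _ l) (hP l)
  refine ⟨fun l _ => chr_vars hP (hv l), fun l hl => ?_, fun l hl => h l (hl.trans hc)⟩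
  refine (chr_deg hP (fun k _ => dP k) (hv l) ((totalDegree_sub _ _).trans
    (max_le (deg_fz (dΨ l) _) (dP l)))).trans ?_
  exact Nat.mul_le_mul_left _ (Nat.pow_le_pow_right (Nat.succ_pos _) (hl.trans hc))

theorem zs_zero {P : ℕ → PN} {t : ℝ} {x x₀ : ℕ → ℝ} (hP : TriN P) (hx : x 0 = t)
    (hx₀ : eval x₀ (P 0) = t) : zs P x 0 = 0 := by
  unfold zs
  rw [ev0 (hP 0) x x₀, hx₀, hx, sub_self]

theorem eval_ch {P Ψ : ℕ → PN} {t : ℝ} {x : ℕ → ℝ} (hP : TriN P) (hx : x 0 = t) {l : ℕ}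
    (hl : 1 ≤ l) : eval (zs P x) (ch P t Ψ l) = eval x (Ψ l) - eval x (P l) := by
  unfold ch
  rw [chr_eval hP, map_sub, eval_fz' _ hx hl]

theorem pt_of {P Ψ : ℕ → PN} {g : ℕ → ℕ} {t : ℝ} {x x₀ : ℕ → ℝ} (hP : TriN P) (hx : x 0 = t)
    (hx₀ : eval x₀ (P 0) = t) (c : ℕ) : Pt c g (ch P t Ψ) (nat g Ψ x) (zs P x) := by
  refine ⟨zs_zero hP hx hx₀, fun l h1 _ => ?_⟩
  rw [eval_ch hP hx h1]
  unfold nat zs
  field_simp
  ring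

theorem cp_of {D : NDat2} {n z i j i' j' : ℕ} {S : D.Ω → ℕ → PN} {ω : D.Ω}
    {v : Fin (n - 1) → ℝ} {P : ℕ → PN} {x₀ : ℕ → ℝ} (hP : TriN P)
    (hx₀ : eval x₀ (P 0) = D.X ω 0) (h : TriN (S ω)) (h' : TriN (D.Ψ i' j' ω)) {c : ℕ}
    (hc : c ≤ n) : Cp c (D.g i j) (ch P (D.X ω 0) (S ω)) (ch P (D.X ω 0) (D.Ψ i' j' ω))
      (fun l => D.g i j l < D.g i' j' l) (uco n z v)
      (zs P (cpt D n z i j i' j' S ω v)) := by
  have h0 : cpt D n z i j i' j' S ω v 0 = D.X ω 0 := cpt_zero h h'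
  refine ⟨zs_zero hP h0 hx₀, fun l h1 h2 => ⟨fun ht => ?_, fun ht => ?_⟩⟩
  · rw [eval_ch hP h0 h1, ← cpt_thin h h' h1 (h2.trans_le hc) ht]
    rfl
  · rw [eval_ch hP h0 h1]
    unfold zs
    rw [cpt_fat h h' h1 (h2.trans_le hc) ht]
    ring

/-- The levels: `b` is the base, the coordinate `c` is deep at `t₂`. -/
structure Lv (D : NDat2) (c X : ℕ) (b t₁ t₂ : ℕ × ℕ) : Prop where
  lo : ∀ l, 1 ≤ l → l < c → (D.g t₁.1 t₁.2 l ≤ D.g b.1 b.2 l ∧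
    X + D.g t₁.1 t₁.2 l + D.g b.1 b.2 c ≤ D.g t₁.1 t₁.2 c + D.g b.1 b.2 l) ∨
    D.g b.1 b.2 l + X ≤ D.g t₁.1 t₁.2 l
  hi : D.g b.1 b.2 c + X ≤ D.g t₂.1 t₂.2 c

/-- The sample is on the labels. -/
def Ps (D : NDat2) (n i j : ℕ) (ω : D.Ω) : Prop :=
  ∀ l, 1 ≤ l → l ≤ n → |D.X ω l - eval (D.X ω) (D.Ψ i j ω l)| ≤ 1 / 2 ^ D.g i j l

theorem nat_le {g : ℕ → ℕ} {Ψ : ℕ → PN} {x : ℕ → ℝ} {l : ℕ}
    (h : |x l - eval x (Ψ l)| ≤ 1 / 2 ^ g l) : |nat g Ψ x l| ≤ 1 := by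
  unfold nat
  rw [abs_mul, abs_of_pos (by positivity : (0 : ℝ) < 2 ^ g l)]
  rw [le_div_iff₀ (by positivity)] at h
  linarith

/-- The position. -/
noncomputable def vS (D : NDat2) (n z i j X : ℕ) (S : D.Ω → ℕ → PN) (ω : D.Ω)
    (l : Fin (n - 1)) : ℝ := (YpS D n z i j X S ω l : ℝ) / 2 ^ X

theorem fl_div (X : ℕ) {x : ℝ} (hx : 0 ≤ x) : |(⌊(2 : ℝ) ^ X * x⌋₊ : ℝ) / 2 ^ X - x| ≤
    1 / 2 ^ X := by
  have h0 : (0 : ℝ) < 2 ^ X := by positivity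
  have h1 := Nat.floor_le (mul_nonneg h0.le hx)
  have h2 := Nat.lt_floor_add_one ((2 : ℝ) ^ X * x)
  have e : (⌊(2 : ℝ) ^ X * x⌋₊ : ℝ) / 2 ^ X - x = ((⌊(2 : ℝ) ^ X * x⌋₊ : ℝ) - 2 ^ X * x) /
      2 ^ X := by field_simp
  rw [e, abs_div, abs_of_pos h0]
  refine div_le_div_of_nonneg_right ?_ h0.le
  rw [abs_le]
  constructor <;> linarith

theorem up_bd {z : ℕ} {x : ℝ} (hx : |x| ≤ 1) : 0 ≤ up z x ∧ up z x < 1 := by
  have h1 : (1 : ℝ) ≤ 2 ^ z := one_le_pow₀ (by norm_num)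
  rw [abs_le] at hx
  unfold up
  constructor
  · exact div_nonneg (by linarith) (by linarith)
  · rw [div_lt_one (by linarith)]
    linarith

theorem vS_near {D : NDat2} {n z i j X : ℕ} {S : D.Ω → ℕ → PN} {ω : D.Ω}
    {l : Fin (n - 1)} (h : |ztS D i j S ω (l + 1)| ≤ 1) :
    |vS D n z i j X S ω l - up z (ztS D i j S ω (l + 1))| ≤ 1 / 2 ^ X := by
  unfold vS YpS
  exact fl_div X (up_bd h).1

theorem uco_succ {n z : ℕ} {v : Fin (n - 1) → ℝ} {l : ℕ} (h1 : 1 ≤ l) (h2 : l < n) :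
    uco n z v l = 4 * 2 ^ z * v ⟨l - 1, by omega⟩ - 2 * 2 ^ z := by
  obtain ⟨m, rfl⟩ : ∃ m, l = m + 1 := ⟨l - 1, by omega⟩
  unfold uco
  rw [ex1_succ _ (by omega)]
  rfl

theorem uco_near {D : NDat2} {n z i j X : ℕ} {S : D.Ω → ℕ → PN} {ω : D.Ω} {l : ℕ}
    (h1 : 1 ≤ l) (h2 : l < n) (h : |ztS D i j S ω l| ≤ 1) :
    |uco n z (vS D n z i j X S ω) l - ztS D i j S ω l| ≤ 4 * 2 ^ z / 2 ^ X := by
  rw [uco_succ h1 h2]
  have e0 : ((⟨l - 1, by omega⟩ : Fin (n - 1)) : ℕ) + 1 = l := by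
    change l - 1 + 1 = l
    omega
  have e1 := vS_near (D := D) (n := n) (z := z) (X := X) (S := S) (ω := ω)
    (l := ⟨l - 1, by omega⟩) (i := i) (j := j) (by rw [e0]; exact h)
  rw [e0] at e1
  have h0 : (0 : ℝ) < 4 * 2 ^ z := by positivity
  have e2 : 4 * 2 ^ z * vS D n z i j X S ω ⟨l - 1, by omega⟩ - 2 * 2 ^ z - ztS D i j S ω l =
      4 * 2 ^ z * (vS D n z i j X S ω ⟨l - 1, by omega⟩ - up z (ztS D i j S ω l)) := by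
    unfold up
    field_simp
    ring
  rw [e2, abs_mul, abs_of_pos h0]
  calc 4 * 2 ^ z * |vS D n z i j X S ω ⟨l - 1, by omega⟩ - up z (ztS D i j S ω l)| ≤
        4 * 2 ^ z * (1 / 2 ^ X) := mul_le_mul_of_nonneg_left e1 h0.le
    _ = 4 * 2 ^ z / 2 ^ X := by ring

/-- One sample. -/
structure Pk (K c : ℕ) (gb g₁ : ℕ → ℕ) (Fb F₁ : ℕ → PN) (th : ℕ → Prop) (E ε W a : ℝ)
    (u y y₁ β ζ : ℕ → ℝ) : Prop where
  cp : Cp c gb Fb F₁ th u β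
  hu : ∀ l, 1 ≤ l → l < c → ¬ th l → |u l| ≤ E
  pb : Pt c gb Fb y ζ
  hy : ∀ l, 1 ≤ l → l ≤ c → |y l| ≤ E
  po : Pt c g₁ F₁ y₁ ζ
  hy₁ : ∀ l, 1 ≤ l → l ≤ c → |y₁ l| ≤ E
  uy : ∀ l, 1 ≤ l → l < c → ¬ th l → |u l - y l| ≤ ε
  d : |ζ c| ≤ W ^ dd K c * ε / 2 ^ gb c
  ea : a = y c - 2 ^ gb c * (eval β (F₁ c) - eval β (Fb c))

theorem two_bd {z : ℕ} {x : ℝ} (h : |x| ≤ 1) : |4 * 2 ^ z * x - 2 * 2 ^ z| ≤ 6 * 2 ^ z := by
  have h1 : (0 : ℝ) < 2 ^ z := by positivity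
  have h2 : |4 * 2 ^ z * x| ≤ 4 * 2 ^ z := by
    rw [abs_mul, abs_of_pos (by positivity : (0 : ℝ) < 4 * 2 ^ z)]
    nlinarith
  have h3 : |(2 : ℝ) * 2 ^ z| = 2 * 2 ^ z := abs_of_pos (by positivity)
  have := abs_sub (4 * 2 ^ z * x) (2 * 2 ^ z)
  linarith

theorem uco_bd {n z : ℕ} {v : Fin (n - 1) → ℝ} (hv : ∀ l, |v l| ≤ 1) {l : ℕ} (h1 : 1 ≤ l)
    (h2 : l < n) : |uco n z v l| ≤ 6 * 2 ^ z := by
  rw [uco_succ h1 h2]
  exact two_bd (hv _)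

theorem vS_bd {D : NDat2} {n z i j X : ℕ} {S : D.Ω → ℕ → PN} {ω : D.Ω}
    (h : ∀ l, 1 ≤ l → l ≤ n → |ztS D i j S ω l| ≤ 1) (l : Fin (n - 1)) :
    0 ≤ vS D n z i j X S ω l ∧ vS D n z i j X S ω l < 1 := by
  have h1 := up_bd (z := z) (h (l + 1) (by omega) (by omega))
  have h0 : (0 : ℝ) < 2 ^ X := by positivity
  unfold vS YpS
  refine ⟨by positivity, ?_⟩
  rw [div_lt_one h0]
  refine (Nat.floor_le (mul_nonneg h0.le h1.1)).trans_lt ?_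
  calc (2 : ℝ) ^ X * up z (ztS D i j S ω (l + 1)) < 2 ^ X * 1 :=
        mul_lt_mul_of_pos_left h1.2 h0
    _ = 2 ^ X := mul_one _

theorem pack {D : NDat2} {n K K₂ z X c i j i₁ j₁ i₂ j₂ : ℕ} {S : D.Ω → ℕ → PN} {ω : D.Ω}
    {P : ℕ → PN} {x₀ : ℕ → ℝ} {E W : ℝ} (hP : TriN P) (hx₀ : eval x₀ (P 0) = D.X ω 0)
    (tG : ∀ i j x, TriN (D.G i j x)) (hS : Sd D n K i j S ω) (h₁ : Ps D n i₁ j₁ ω)
    (h₂ : Ps D n i₂ j₂ ω) (hc1 : 1 ≤ c) (hc : c ≤ n)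
    (hN : Nb K₂ c (D.g i₂ j₂) (ch P (D.X ω 0) (D.Ψ i₂ j₂ ω)) E) (hE : 6 * 2 ^ z ≤ E)
    (hW : W = 4 * E) (hl : D.g i j c + X ≤ D.g i₂ j₂ c) :
    Pk K₂ c (D.g i j) (D.g i₁ j₁) (ch P (D.X ω 0) (S ω)) (ch P (D.X ω 0) (D.Ψ i₁ j₁ ω))
      (fun l => D.g i j l < D.g i₁ j₁ l) E (4 * 2 ^ z / 2 ^ X) W
      (ztS D i j S ω c - eval (vS D n z i j X S ω) (shrS D n z i j i₁ j₁ S c ω))
      (uco n z (vS D n z i j X S ω)) (ztS D i j S ω) (nat (D.g i₁ j₁) (D.Ψ i₁ j₁ ω) (D.X ω))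
      (zs P (cpt D n z i j i₁ j₁ S ω (vS D n z i j X S ω))) (zs P (D.X ω)) := by
  have h2z : (1 : ℝ) ≤ 2 ^ z := one_le_pow₀ (by norm_num)
  have hE1 : 1 ≤ E := by linarith
  have hy : ∀ l, 1 ≤ l → l ≤ n → |ztS D i j S ω l| ≤ 1 := fun l a b => nat_le (hS.hgt l a b)
  have hvb := vS_bd (D := D) (z := z) (X := X) hy
  have hcz : cpt D n z i j i₁ j₁ S ω (vS D n z i j X S ω) 0 = D.X ω 0 :=
    cpt_zero hS.tri (tG _ _ _)
  refine ⟨cp_of hP hx₀ hS.tri (tG _ _ _) hc, fun l a b _ => (uco_bd (fun l => ?_) a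
    (b.trans_le hc)).trans hE, pt_of hP rfl hx₀ c, fun l a b => (hy l a (b.trans hc)).trans hE1,
    pt_of hP rfl hx₀ c, fun l a b => (nat_le (h₁ l a (b.trans hc))).trans hE1,
    fun l a b _ => uco_near a (b.trans_le hc) (hy l a (b.le.trans hc)), ?_, ?_⟩
  · rw [abs_le]
    have := hvb l
    constructor <;> linarith [this.1, this.2]
  · have e1 := hN.pt hE1 hW (pt_of (g := D.g i₂ j₂) (Ψ := D.Ψ i₂ j₂ ω) hP rfl hx₀ c)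
      (fun l a b => (nat_le (h₂ l a (b.trans hc))).trans hE1) c le_rfl
    refine e1.trans ?_
    have hW0 : 0 < W := by linarith
    have e2 : (2 : ℝ) ^ D.g i j c * 2 ^ X ≤ 2 ^ D.g i₂ j₂ c := by
      rw [← pow_add]
      exact pow_le_pow_right₀ (by norm_num) hl
    have e3 : W ^ dd K₂ c / 2 ^ D.g i₂ j₂ c ≤ W ^ dd K₂ c / (2 ^ D.g i j c * 2 ^ X) :=
      div_le_div_of_nonneg_left (by positivity) (by positivity) e2
    refine e3.trans ?_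
    have e4 : W ^ dd K₂ c / (2 ^ D.g i j c * 2 ^ X) = W ^ dd K₂ c * (1 / 2 ^ X) /
        2 ^ D.g i j c := by
      field_simp
    rw [e4]
    refine div_le_div_of_nonneg_right (mul_le_mul_of_nonneg_left ?_ (by positivity))
      (by positivity)
    exact div_le_div_of_nonneg_right (by linarith) (by positivity)
  · rw [eval_ch hP hcz hc1, eval_ch hP hcz hc1, eval_shrS]
    ring

theorem exp_two : (6 : ℝ) ≤ exp 2 := by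
  have h := Real.exp_one_gt_d9
  have e : exp 2 = exp 1 * exp 1 := by
    rw [← exp_add]
    norm_num
  rw [e]
  nlinarith

theorem six_le {z : ℕ} (hz : 1 ≤ z) : 6 * (2 : ℝ) ^ z ≤ exp (3 * z) := by
  have h1 : (1 : ℝ) ≤ z := by exact_mod_cast hz
  have h2 : (6 : ℝ) ≤ exp (2 * z) := exp_two.trans (exp_le_exp.2 (by linarith))
  have h3 : (2 : ℝ) ^ z ≤ exp z := by
    have : (2 : ℝ) ≤ exp 1 := by linarith [Real.exp_one_gt_d9]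
    calc (2 : ℝ) ^ z ≤ exp 1 ^ z := pow_le_pow_left₀ (by norm_num) this z
      _ = exp z := by rw [← exp_nat_mul, mul_one]
  calc 6 * (2 : ℝ) ^ z ≤ exp (2 * z) * exp z := mul_le_mul h2 h3 (by positivity) (by positivity)
    _ = exp (3 * z) := by
        rw [← exp_add]
        congr 1
        ring

theorem w_le {z N : ℕ} (hz : 1 ≤ z) {a : ℝ} (ha : 0 ≤ a) {m : ℕ} (hm : m ≤ N) :
    (4 * exp (a * z)) ^ m ≤ exp ((a + 2) * N * z) := by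
  have h1 : (1 : ℝ) ≤ z := by exact_mod_cast hz
  have h2 : (4 : ℝ) ≤ exp (2 * z) := by
    have := exp_two.trans (exp_le_exp.2 (by linarith : (2 : ℝ) ≤ 2 * z))
    linarith
  have h3 : 4 * exp (a * z) ≤ exp ((a + 2) * z) := by
    calc 4 * exp (a * z) ≤ exp (2 * z) * exp (a * z) := mul_le_mul_of_nonneg_right h2
          (exp_pos _).le
      _ = exp ((a + 2) * z) := by
          rw [← exp_add]
          congr 1
          ring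
  have h4 : 1 ≤ exp (a * z) := one_le_exp (by positivity)
  calc (4 * exp (a * z)) ^ m ≤ (4 * exp (a * z)) ^ N := pow_le_pow_right₀ (by linarith) hm
    _ ≤ exp ((a + 2) * z) ^ N := pow_le_pow_left₀ (by positivity) h3 N
    _ = exp ((a + 2) * N * z) := by
        rw [← exp_nat_mul]
        congr 1
        ring

/-- The places are near to the frame: the hypotheses of `Tr`. -/
theorem tr_of (n K' : ℕ) (C : ℝ) (hC : 0 ≤ C) : ∃ C₂ : ℝ, 0 ≤ C₂ ∧ ∀ (D : NDat2)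
    (K z X M i j i₁ j₁ i₂ j₂ c : ℕ) (S : D.Ω → ℕ → PN) (ω : D.Ω), K ≤ K' → 1 ≤ z →
    z + 2 ≤ X → c ≤ n → i < M → j < M → i₁ < M → j₁ < M → i₂ < M → j₂ < M →
    (∀ i j x, TriN (D.G i j x)) → (∀ i j x l, (D.G i j x l).totalDegree ≤ K) →
    Lv D c X (i, j) (i₁, j₁) (i₂, j₂) → Fra D n K' M z C ω → Sd D n K i j S ω →
    ∃ P : ℕ → PN, TriN P ∧ eval (D.X ω) (P 0) = D.X ω 0 ∧
      Tr (K' * (K' + 1) ^ n) c (D.g i j) (D.g i₁ j₁) (ch P (D.X ω 0) (S ω))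
        (ch P (D.X ω 0) (D.Ψ i₁ j₁ ω)) (fun l => D.g i j l < D.g i₁ j₁ l) (exp (C₂ * z))
        (4 * 2 ^ z / 2 ^ X) ∧
      Nb (K' * (K' + 1) ^ n) c (D.g i₂ j₂) (ch P (D.X ω 0) (D.Ψ i₂ j₂ ω)) (exp (C₂ * z)) ∧
      6 * 2 ^ z ≤ exp (C₂ * z) := by
  obtain ⟨C₁, hC₁, hsd⟩ := side_near n K' C hC
  have hC10 : 0 ≤ C₁ := hC.trans hC₁
  refine ⟨C₁ + 3, by linarith, ?_⟩
  intro D K z X M i j i₁ j₁ i₂ j₂ c S ω hK hz hX hc hi hj hi₁ hj₁ hi₂ hj₂ tG dG hL hF hS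
  obtain ⟨P, hP, dP, vP, nP⟩ := hF
  have hz1 : (1 : ℝ) ≤ z := by exact_mod_cast hz
  have hz0 : (0 : ℝ) ≤ z := by linarith
  have hx₀ : eval (D.X ω) (P 0) = D.X ω 0 := vP 0 (Nat.zero_le _)
  have hEE : exp (C * z) ≤ exp ((C₁ + 3) * z) := exp_le_exp.2
    (mul_le_mul_of_nonneg_right (by linarith) hz0)
  have hEE1 : exp (C₁ * z) ≤ exp ((C₁ + 3) * z) := exp_le_exp.2
    (mul_le_mul_of_nonneg_right (by linarith) hz0)
  have hE3 : exp (3 * z) ≤ exp ((C₁ + 3) * z) := exp_le_exp.2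
    (mul_le_mul_of_nonneg_right (by linarith) hz0)
  have h2z : (1 : ℝ) ≤ 2 ^ z := one_le_pow₀ (by norm_num)
  have h2X : (0 : ℝ) < 2 ^ X := by positivity
  have dS : ∀ l, (S ω l).totalDegree ≤ K' := fun l => (hS.deg l).trans hK
  have dG' : ∀ i j x l, (D.G i j x l).totalDegree ≤ K' := fun i j x l => (dG i j x l).trans hK
  have hnb : ∀ i₃ j₃, i₃ < M → j₃ < M → Nb (K' * (K' + 1) ^ n) c (D.g i₃ j₃)
      (ch P (D.X ω 0) (D.Ψ i₃ j₃ ω)) (exp ((C₁ + 3) * z)) := fun i₃ j₃ h₃ h₃' =>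
    nb_of hP (tG _ _ _) dP (fun l => dG' _ _ _ l) hc fun l hl =>
      (nP i₃ h₃ j₃ h₃' l hl).trans (div_le_div_of_nonneg_right hEE (by positivity))
  have hε : (2 : ℝ) ^ X * (4 * 2 ^ z / 2 ^ X) = 4 * 2 ^ z := by
    field_simp
  have hε1 : 1 ≤ (2 : ℝ) ^ X * (4 * 2 ^ z / 2 ^ X) := by
    rw [hε]
    linarith
  have hε0 : (0 : ℝ) ≤ 4 * 2 ^ z / 2 ^ X := by positivity
  refine ⟨P, hP, hx₀, ⟨?_, hnb i₁ j₁ hi₁ hj₁, one_le_e (by linarith), hε0, ?_, ?_, ?_, ?_⟩,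
    hnb i₂ j₂ hi₂ hj₂, (six_le hz).trans hE3⟩
  · exact nb_of hP hS.tri dP dS hc fun l hl => (hsd D K i j z S ω P hK hz (fun x => tG i j x)
      (fun x l => dG i j x l) hS hP dP vP (fun l hl => nP i hi j hj l hl) l hl).trans
        (div_le_div_of_nonneg_right hEE1 (by positivity))
  · rw [div_le_one h2X]
    calc (4 : ℝ) * 2 ^ z = 2 ^ (z + 2) := by
          rw [pow_add]
          ring
      _ ≤ 2 ^ X := pow_le_pow_right₀ (by norm_num) hX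
  · intro l h1 h2 ht
    rcases hL.lo l h1 h2 with h3 | h3
    · exact absurd h3.1 (not_le.2 ht)
    · have h4 : (2 : ℝ) ^ D.g i j l * 2 ^ X ≤ 2 ^ D.g i₁ j₁ l := by
        rw [← pow_add]
        exact pow_le_pow_right₀ (by norm_num) h3
      calc (2 : ℝ) ^ D.g i j l = 2 ^ D.g i j l * 1 := (mul_one _).symm
        _ ≤ 2 ^ D.g i j l * (2 ^ X * (4 * 2 ^ z / 2 ^ X)) :=
            mul_le_mul_of_nonneg_left hε1 (by positivity)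
        _ = 4 * 2 ^ z / 2 ^ X * (2 ^ D.g i j l * 2 ^ X) := by ring
        _ ≤ 4 * 2 ^ z / 2 ^ X * 2 ^ D.g i₁ j₁ l := mul_le_mul_of_nonneg_left h4 hε0
  · intro l h1 h2 ht
    exact not_lt.1 ht
  · intro l h1 h2 ht
    rcases hL.lo l h1 h2 with h3 | h3
    · have h4 : (2 : ℝ) ^ X * 2 ^ D.g i₁ j₁ l * 2 ^ D.g i j c ≤
          2 ^ D.g i₁ j₁ c * 2 ^ D.g i j l := by
        rw [← pow_add, ← pow_add, ← pow_add]
        exact pow_le_pow_right₀ (by norm_num) h3.2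
      calc (2 : ℝ) ^ D.g i j c * 2 ^ D.g i₁ j₁ l = 1 * (2 ^ D.g i j c * 2 ^ D.g i₁ j₁ l) :=
            (one_mul _).symm
        _ ≤ (2 ^ X * (4 * 2 ^ z / 2 ^ X)) * (2 ^ D.g i j c * 2 ^ D.g i₁ j₁ l) :=
            mul_le_mul_of_nonneg_right hε1 (by positivity)
        _ = 4 * 2 ^ z / 2 ^ X * (2 ^ X * 2 ^ D.g i₁ j₁ l * 2 ^ D.g i j c) := by ring
        _ ≤ 4 * 2 ^ z / 2 ^ X * (2 ^ D.g i₁ j₁ c * 2 ^ D.g i j l) :=
            mul_le_mul_of_nonneg_left h4 hε0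
        _ = 4 * 2 ^ z / 2 ^ X * 2 ^ D.g i₁ j₁ c * 2 ^ D.g i j l := by ring
    · exact absurd (lt_of_lt_of_le (by
        change D.g i j l < D.g i j l + X
        omega) h3) ht

/-- **Two samples with the same labels.** -/
theorem ht_two (n K' : ℕ) (C : ℝ) (hC : 0 ≤ C) : ∃ C' : ℝ, 0 ≤ C' ∧ ∀ (D : NDat2)
    (K z X M i j i₁ j₁ i₂ j₂ c : ℕ) (S : D.Ω → ℕ → PN) (ω ω' : D.Ω), K ≤ K' → 1 ≤ z →
    z + 2 ≤ X → 1 ≤ c → c ≤ n → i < M → j < M → i₁ < M → j₁ < M → i₂ < M → j₂ < M →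
    (∀ i j x, TriN (D.G i j x)) → (∀ i j x l, (D.G i j x l).totalDegree ≤ K) →
    Lv D c X (i, j) (i₁, j₁) (i₂, j₂) → Fra D n K' M z C ω → Sd D n K i j S ω →
    Sd D n K i j S ω' → Ps D n i₁ j₁ ω → Ps D n i₁ j₁ ω' → Ps D n i₂ j₂ ω → Ps D n i₂ j₂ ω' →
    S ω = S ω' → D.Ψ i₁ j₁ ω = D.Ψ i₁ j₁ ω' → D.Ψ i₂ j₂ ω = D.Ψ i₂ j₂ ω' →
    D.X ω 0 = D.X ω' 0 →
    |(ztS D i j S ω c - eval (vS D n z i j X S ω) (shrS D n z i j i₁ j₁ S c ω)) -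
      (ztS D i j S ω' c - eval (vS D n z i j X S ω') (shrS D n z i j i₁ j₁ S c ω'))| ≤
        exp (C' * z) * (4 * 2 ^ z / 2 ^ X) := by
  obtain ⟨C₂, hC₂, htr⟩ := tr_of n K' C hC
  refine ⟨(C₂ + 2) * dd (K' * (K' + 1) ^ n) (n + 2), by positivity, ?_⟩
  intro D K z X M i j i₁ j₁ i₂ j₂ c S ω ω' hK hz hX hc1 hc hi hj hi₁ hj₁ hi₂ hj₂ tG dG hL hF
    hS hS' h₁ h₁' h₂ h₂' eS e1 e2 e0
  obtain ⟨P, hP, hx₀, hT, hN, hE⟩ := htr D K z X M i j i₁ j₁ i₂ j₂ c S ω hK hz hX hc hi hj hi₁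
    hj₁ hi₂ hj₂ tG dG hL hF hS
  have p := pack (E := exp (C₂ * z)) (W := 4 * exp (C₂ * z)) (X := X) hP hx₀ tG hS h₁ h₂ hc1 hc
    hN hE rfl hL.hi
  have p' := pack (E := exp (C₂ * z)) (W := 4 * exp (C₂ * z)) (X := X) hP (x₀ := D.X ω)
    (hx₀.trans e0) tG hS' h₁' h₂' hc1 hc (by rw [← e0, ← e2]; exact hN) hE rfl hL.hi
  rw [← e0, ← eS, ← e1] at p'
  have key := hT.ht rfl hc1 p.cp p.hu p.pb p.hy p.po p.hy₁ p.uy p.d p'.cp p'.hu p'.pb p'.hy p'.po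
    p'.hy₁ p'.uy p'.d
  rw [← p.ea, ← p'.ea] at key
  refine key.trans (mul_le_mul_of_nonneg_right ?_ (by positivity))
  exact w_le hz hC₂ (dd_mono (by omega))

end Pool.GSD
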