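import Pool.Agent.H46.MicA.Stm
import Pool.Agent.H88.TIE.Stm
import Pool.Agent.H1.TIE.All

/-!
# STEP V, class side: the objects

The base pair is `(i, j)`. The position in the base is `V = Yp` to `X` digits, the height of the
target is `nuA` to `h₀` digits, the context is the closed label at `(i, j)` with the exact time. The
sheet of the coordinate `l` has an own pair `pr l`: `shp` is the composite sheet there over the
coordinates which are not deeper there than at `(i, j)`, in the scaled natural chart of the line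
side at `(i, j)`, at the exact time, without constant term, truncated.
-/

set_option autoImplicit false

namespace Pool.GSD

open Finset MvPolynomial
open Pool.Agent.H49.Ent Pool.Agent.H32.Dense Pool.STK Pool.STAT Pool.MIC Pool.MicA
open Pool.MIC.Frm (sl)
open Pool.BFL (Pl Pb)
open Pool.TIE (Dat Hyp Claim NFd FulM dg)

/-- The composite sheet of the coordinate `l` at `(i', j')` in the scaled chart at `(i, j)`. -/
noncomputable def shr (D : NDat2) (n z i j i' j' l : ℕ) (ω : D.Ω) : Pl (n - 1) :=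
  scl (n - 1) z (C ((2 : ℝ) ^ D.g i j l) * sl (n - 1) (D.kp n i j i' j' ω l))

/-- The shape is not truncated. -/
def Gds (D : NDat2) (n z i j i' j' bb l : ℕ) (ω : D.Ω) : Prop :=
  ∀ α, α ≠ 0 → |coeff α (shr D n z i j i' j' l ω)| ≤ 2 ^ bb

open Classical in
/-- The shape: no constant term, truncated. -/
noncomputable def shp (D : NDat2) (n z i j i' j' bb l : ℕ) (ω : D.Ω) : Pl (n - 1) :=
  if Gds D n z i j i' j' bb l ω then
    shr D n z i j i' j' l ω - C (coeff 0 (shr D n z i j i' j' l ω)) else 0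

/-- The data of STEP V at `(i, j)`, `pr` the own pairs. -/
noncomputable def datc (D : NDat2) (n z i j X h₀ : ℕ) (q : D.Ω → ℝ)
    (s : D.Ω → Fin (n - 1) → Pl (n - 1)) : Dat (n - 1) where
  Ω := D.Ω
  Γ := D.Γ × ℕ
  fin := D.fin
  p := q
  z := fun ω => (D.c i j ω, D.T ω)
  V := fun ω l => (Yp D n z i j X ω l : ℤ)
  nu := fun ω => nuA D n i j h₀ ω
  s := s
  X := X
  h₀ := h₀

/-- The shapes with the own pairs `pr`, in the scale of the position. -/
noncomputable def shs (D : NDat2) (n z i j bb : ℕ) (pr : ℕ → ℕ × ℕ) (ω : D.Ω)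
    (l : Fin (n - 1)) : Pl (n - 1) :=
  C (1 / (4 * 2 ^ z)) * shp D n z i j (pr (l + 1)).1 (pr (l + 1)).2 bb (l + 1) ω

/-- **The own leaf**: an own shape which is almost independent of the height and of the position
has few bits on an event, if the height is not full. -/
def OwnStmt : Prop :=
  ∀ (m K : ℕ) (c₀ : ℝ), 0 < c₀ → ∃ κ' c₁ : ℝ, 0 < κ' ∧ κ' ≤ 1 ∧ 0 < c₁ ∧
    ∀ ε : ℝ, 0 < ε → ∃ (h₁ : ℕ) (ι : ℝ), 0 < ι ∧
    ∀ (D : Dat m) (M : Finset (Fin m)) (kap : D.Ω → Pl m) (h : ℕ), h₁ ≤ h → h ≤ D.h₀ →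
      Hyp D K (ι * h) (ι * h) →
      CH D.p (fun ω => dg h (D.nr ω)) (fun ω => (D.V ω, D.z ω)) ≤
        (1 - c₀) * (h * Real.log 2) →
      (∀ ω, (kap ω).vars ⊆ M) → (∀ ω, (kap ω).totalDegree ≤ K) →
      (∀ ω, coeff 0 (kap ω) = 0) → (∀ ω α, |coeff α (kap ω)| ≤ (2 : ℝ) ^ (ι * h)) →
      CH D.p kap (fun ω => (D.out M ω, D.z ω)) ≤
        CH D.p kap (fun ω => (D.nu ω, (D.on M ω, (D.out M ω, D.z ω)))) + ι * h →
      M.card * (D.X * Real.log 2) - ι * h ≤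
        CH D.p (D.on M) (fun ω => (D.hF h kap ω, (kap ω, (D.out M ω, D.z ω)))) →
      ∃ (E : D.Ω → Prop) (h' : ℕ) (F : D.Ω → Pl m), c₁ ≤ Pb D.p E ∧ κ' * h ≤ h' ∧ h' ≤ h ∧
        Claim (D.pull (Pool.Agent.H49.Ent.cond D.p E True) id) M h' K (ε * h') (ε * h') F ∧
        (∀ ω α, |coeff α (F ω) - coeff α (kap ω)| ≤ 1 / 2 ^ h') ∧
        ∀ ω α, coeff α (kap ω) = 0 → coeff α (F ω) = 0

/-- **Nonfull rows** of a cell in the form of STEP V. -/
def NfdStmt : Prop :=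
  ∀ (n K B : ℕ) (lam gam : ℕ → ℝ) (C₁ h κ π : ℝ), 1 ≤ n → 1 ≤ B → 1 ≤ C₁ → 0 < h → h ≤ 1 →
    0 < κ → 0 < π → ∃ (ϖ : ℝ) (N₀ z₀ : ℕ), 0 < ϖ ∧
    ∀ (J a₀ w₀ z M i j X h₀ : ℕ) (κ' : ℝ) (D : NDat2) (q : D.Ω → ℝ)
      (s : D.Ω → Fin (n - 1) → Pl (n - 1)), z₀ ≤ z → N₀ * z ≤ h₀ → B * h₀ + N₀ * z ≤ X →
      i + h₀ / z + 2 ≤ M → j ≤ M → (((h₀ / z : ℕ) : ℝ) + 2) ≤ gam n * (M - j) → κ' ≤ 1 →
      D.Ok2 n K J a₀ w₀ z M lam gam κ' C₁ q → D.NF n z M B gam h C₁ ϖ q →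
      NFd (datc D n z i j X h₀ q s) h₀ (h / 2) κ π

end Pool.GSD
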