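import Pool.Agent.H41.GSD.Shp
import Pool.Agent.H35.UP.Few

/-!
# The heights over the composite sheets have few values given the labels
-/

set_option autoImplicit false

namespace Pool.GSD

open Finset Real MvPolynomial
open Pool.Agent.H49.Ent Pool.Agent.H32.Dense Pool.STK Pool.STAT Pool.MIC.Frm Pool.MIC7 Pool.FRM
open Pool.MIC Pool.MicA
open Pool.BFL (Pl Pb)
open Pool.TIE (Dat dg)

theorem few_one {Ω Y : Type} [Fintype Ω] {q : Ω → ℝ} (hq : IsLaw q) (R B : ℕ)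
    (d : Ω → ℤ) (y : Ω → Y) (good : Ω → Prop) {η : ℝ} (hb : ∀ ω, 0 < q ω → |d ω| ≤ 2 ^ R)
    (hg : ∀ ω ω', 0 < q ω → 0 < q ω' → good ω → y ω = y ω' → |d ω - d ω'| ≤ B)
    (hη : Pb q (fun ω => ¬ good ω) ≤ η) :
    CH q d y ≤ Real.log (2 * B + 1) + η * (R * Real.log 2 + 2 * Real.log 2) := by
  have h1 := Pool.UP35.few_of_good hq 1 R B (fun ω (_ : Fin 1) => d ω) ∅ y good
    (fun ω hω _ => hb ω hω) (fun ω ω' a b c e _ _ => hg ω ω' a b c e) hη
  have h2 : CH q d y ≤ CH q (fun ω (_ : Fin 1) => d ω) y :=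
    CH_mono_left hq.nonneg fun ω ω' _ _ h => by
      have h3 : (fun _ : Fin 1 => d ω) = fun _ => d ω' := (Prod.ext_iff.1 h).1
      exact congrFun h3 0
  refine h2.trans (h1.trans (le_of_eq ?_))
  rw [Finset.card_empty]
  push_cast
  ring

theorem dg_near {h : ℕ} {x x' δ : ℝ} (hx : |x - x'| ≤ δ) :
    |((dg h x - dg h x' : ℤ) : ℝ)| ≤ 2 ^ h * δ + 1 := by
  have h0 : (0 : ℝ) < 2 ^ h := by positivity
  have e1 := Int.floor_le ((2 : ℝ) ^ h * x)
  have e2 := Int.lt_floor_add_one ((2 : ℝ) ^ h * x)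
  have e3 := Int.floor_le ((2 : ℝ) ^ h * x')
  have e4 := Int.lt_floor_add_one ((2 : ℝ) ^ h * x')
  have e5 : |(2 : ℝ) ^ h * x - 2 ^ h * x'| ≤ 2 ^ h * δ := by
    rw [← mul_sub, abs_mul, abs_of_pos h0]
    exact mul_le_mul_of_nonneg_left hx h0.le
  unfold dg
  push_cast
  rw [abs_le] at e5 ⊢
  constructor <;> linarith [e5.1, e5.2]

theorem dg_le {h : ℕ} {x δ : ℝ} (hx : |x| ≤ δ) : |((dg h x : ℤ) : ℝ)| ≤ 2 ^ h * δ + 1 := by
  have h0 : (0 : ℝ) < 2 ^ h := by positivity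
  have e1 := Int.floor_le ((2 : ℝ) ^ h * x)
  have e2 := Int.lt_floor_add_one ((2 : ℝ) ^ h * x)
  have e5 : |(2 : ℝ) ^ h * x| ≤ 2 ^ h * δ := by
    rw [abs_mul, abs_of_pos h0]
    exact mul_le_mul_of_nonneg_left hx h0.le
  unfold dg
  rw [abs_le] at e5 ⊢
  constructor <;> linarith [e5.1, e5.2]

/-- Digits which are bounded and close. -/
theorem few_dg {Ω Y : Type} [Fintype Ω] {q : Ω → ℝ} (hq : IsLaw q) (h X bb N : ℕ) (hX : h ≤ X)
    (x : Ω → ℝ) (y : Ω → Y) (good : Ω → Prop) {η a : ℝ} (z : ℕ) (hz : 1 ≤ z) (ha : 0 ≤ a)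
    (hη0 : 0 ≤ η) (hb : ∀ ω, 0 < q ω → |x ω| ≤ 2 + N * 2 ^ bb)
    (hg : ∀ ω ω', 0 < q ω → 0 < q ω' → good ω → y ω = y ω' →
      2 ^ h * |x ω - x ω'| ≤ exp (a * z))
    (hη : Pb q (fun ω => ¬ good ω) ≤ η) :
    CH q (fun ω => dg h (x ω)) y ≤ (a + 2) * z + η * (X + bb + (N + 5)) := by
  have hz1 : (1 : ℝ) ≤ z := by exact_mod_cast hz
  have h1 : 1 ≤ exp (a * z) := one_le_exp (by positivity)
  have hl2 : Real.log 2 ≤ 1 := by linarith [Real.log_two_lt_d9]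
  have hl20 : 0 ≤ Real.log 2 := Real.log_nonneg (by norm_num)
  refine (few_one hq (X + bb + (N + 3)) (⌈exp (a * z)⌉₊ + 1) (fun ω => dg h (x ω)) y good ?_ ?_
    hη).trans ?_
  · intro ω hω
    have e1 := dg_le (h := h) (hb ω hω)
    have e2 : (2 : ℝ) ^ h * (2 + N * 2 ^ bb) + 1 ≤ 2 ^ (X + bb + (N + 3)) := by
      rw [pow_add, pow_add]
      have f1 : (2 : ℝ) ^ h ≤ 2 ^ X := pow_le_pow_right₀ (by norm_num) hX
      have f2 : (1 : ℝ) ≤ 2 ^ bb := one_le_pow₀ (by norm_num)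
      have f3 : (N : ℝ) + 3 ≤ 2 ^ (N + 3) := by
        have : N + 3 ≤ 2 ^ (N + 3) := (Nat.lt_two_pow_self).le
        exact_mod_cast this
      have f4 : (1 : ℝ) ≤ 2 ^ X := one_le_pow₀ (by norm_num)
      have f5 : (2 : ℝ) ^ h * (2 + N * 2 ^ bb) ≤ 2 ^ X * (2 + N * 2 ^ bb) :=
        mul_le_mul_of_nonneg_right f1 (by positivity)
      have f6 : (2 : ℝ) ^ X * (2 + N * 2 ^ bb) + 1 ≤ 2 ^ X * (2 ^ bb * (N + 3)) := by
        have g1 : (1 : ℝ) ≤ 2 ^ X * 2 ^ bb := one_le_mul_of_one_le_of_one_le f4 f2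
        have g2 : (2 : ℝ) ^ X * 2 ≤ 2 ^ X * (2 ^ bb * 2) :=
          mul_le_mul_of_nonneg_left (by linarith) (by positivity)
        have e : (2 : ℝ) ^ X * (2 ^ bb * (N + 3)) = 2 ^ X * (2 ^ bb * 2) +
            2 ^ X * (N * 2 ^ bb) + 2 ^ X * 2 ^ bb := by ring
        rw [e, mul_add]
        linarith
      have f7 : (2 : ℝ) ^ X * (2 ^ bb * (N + 3)) ≤ 2 ^ X * (2 ^ bb * 2 ^ (N + 3)) :=
        mul_le_mul_of_nonneg_left (mul_le_mul_of_nonneg_left f3 (by positivity)) (by positivity)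
      calc (2 : ℝ) ^ h * (2 + N * 2 ^ bb) + 1 ≤ 2 ^ X * (2 ^ bb * 2 ^ (N + 3)) := by linarith
        _ = 2 ^ X * 2 ^ bb * 2 ^ (N + 3) := by ring
    have e3 := e1.trans e2
    have e4 : |((dg h (x ω) : ℤ) : ℝ)| = ((|dg h (x ω)| : ℤ) : ℝ) := by
      rw [Int.cast_abs]
    rw [e4] at e3
    exact_mod_cast e3
  · intro ω ω' a1 a2 a3 a4
    have e1 := dg_near (h := h) (le_refl |x ω - x ω'|)
    have e2 := hg ω ω' a1 a2 a3 a4
    have e3 := Nat.le_ceil (exp (a * z))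
    have e4 : |((dg h (x ω) - dg h (x ω') : ℤ) : ℝ)| =
        ((|dg h (x ω) - dg h (x ω')| : ℤ) : ℝ) := by
      rw [Int.cast_abs]
    rw [e4] at e1
    have e5 : ((|dg h (x ω) - dg h (x ω')| : ℤ) : ℝ) ≤ ((⌈exp (a * z)⌉₊ : ℝ) + 1) := by
      linarith
    have e6 : ((|dg h (x ω) - dg h (x ω')| : ℤ) : ℝ) ≤
        (((⌈exp (a * z)⌉₊ + 1 : ℕ) : ℤ) : ℝ) := by
      push_cast
      push_cast at e5
      exact e5
    exact_mod_cast e6
  · have e1 : Real.log (2 * ((⌈exp (a * z)⌉₊ + 1 : ℕ) : ℝ) + 1) ≤ (a + 2) * z := by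
      have f1 : 2 * ((⌈exp (a * z)⌉₊ + 1 : ℕ) : ℝ) + 1 ≤ exp ((a + 2) * z) := by
        have f2 := Nat.ceil_lt_add_one (exp_pos (a * z)).le
        have f3 : exp ((a + 2) * z) = exp (2 * z) * exp (a * z) := by
          rw [← exp_add]
          congr 1
          ring
        have f4 : (7 : ℝ) ≤ exp (2 * z) := by
          have h7 : (7 : ℝ) ≤ exp 2 := by
            have h := Real.exp_one_gt_d9
            have e : exp 2 = exp 1 * exp 1 := by
              rw [← exp_add]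
              norm_num
            rw [e]
            nlinarith
          exact h7.trans (exp_le_exp.2 (by linarith))
        rw [f3]
        push_cast
        nlinarith
      calc Real.log (2 * ((⌈exp (a * z)⌉₊ + 1 : ℕ) : ℝ) + 1) ≤ Real.log (exp ((a + 2) * z)) :=
            Real.log_le_log (by positivity) f1
        _ = (a + 2) * z := Real.log_exp _
    refine add_le_add e1 (mul_le_mul_of_nonneg_left ?_ hη0)
    have e2 : ((X + bb + (N + 3) : ℕ) : ℝ) * Real.log 2 + 2 * Real.log 2 =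
        ((X + bb + (N + 5) : ℕ) : ℝ) * Real.log 2 := by
      push_cast
      ring
    rw [e2]
    calc ((X + bb + (N + 5) : ℕ) : ℝ) * Real.log 2 ≤ ((X + bb + (N + 5) : ℕ) : ℝ) * 1 :=
          mul_le_mul_of_nonneg_left hl2 (Nat.cast_nonneg _)
      _ = X + bb + (N + 5) := by
          push_cast
          ring

end Pool.GSD
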