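import Pool.Agent.H41.GSD.Own1
import Pool.Agent.H46.MicA.Grad

/-!
# The gradient of the height of the frame
-/

set_option autoImplicit false

namespace Pool.GSD

open Finset Real MvPolynomial
open Pool.Agent.H49.Ent Pool.Agent.H32.Dense Pool.STK Pool.STAT Pool.MIC.Frm Pool.MIC7 Pool.FRM
open Pool.MIC Pool.MicA
open Pool.BFL (Pl Pb)
open scoped Polynomial

/-- **The gradient** at the exact position of the sample. -/
theorem grad_PiS {D : NDat2} {n z i j : ℕ} {S : D.Ω → ℕ → PN} {P : ℕ → PN} {ω : D.Ω}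
    (hΦ : TriN (S ω)) (hP : TriN P) (l : Fin (n - 1)) :
    eval (fun r : Fin (n - 1) => up z (ztS D i j S ω (r + 1))) (pderiv l (PiS D n z i j S P ω)) =
      4 * 2 ^ z * ((2 : ℝ) ^ D.g i j n / 2 ^ D.g i j (l + 1)) *
        eval (D.X ω) (dv (S ω) (l + 1) (P n - S ω n)) := by
  classical
  have hF : (P n - S ω n).vars ⊆ range n := AdxRow.vars_sub_le (hP n) (hΦ n)
  obtain ⟨y₀, hy₀⟩ : ∃ y₀ : Fin (n - 1) → ℝ, y₀ = fun r : Fin (n - 1) =>
    up z (ztS D i j S ω (r + 1)) := ⟨_, rfl⟩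
  obtain ⟨G, hG⟩ : ∃ G : PN, G = P n - S ω n := ⟨_, rfl⟩
  obtain ⟨g, hg⟩ : ∃ g, g = D.g i j := ⟨_, rfl⟩
  obtain ⟨Φ, hΦe⟩ : ∃ Φ, Φ = S ω := ⟨_, rfl⟩
  obtain ⟨x, hx⟩ : ∃ x, x = D.X ω := ⟨_, rfl⟩
  obtain ⟨u, hu⟩ : ∃ u : ℕ → ℝ, u = ex1 fun r : Fin (n - 1) => nat g Φ x (r + 1) := ⟨_, rfl⟩
  rw [← hy₀, ← hG, ← hg, ← hΦe, ← hx]
  rw [← hΦe] at hΦ
  rw [← hG] at hF
  have hΦ' := Pool.MicA.tri_atT hΦ (x 0)
  -- the left side
  have d1 := hd_fin (fun (s : ℝ) (r : Fin (n - 1)) => y₀ r + if r = l then s else 0)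
    (fun r => if r = l then 1 else 0) 0 (fun r => by
      by_cases h : r = l
      · simp only [if_pos h]
        exact (hasDerivAt_id 0).const_add _
      · simp only [if_neg h]
        exact hasDerivAt_const _ _) (PiS D n z i j S P ω)
  have e1 : (fun r : Fin (n - 1) => y₀ r + if r = l then (0 : ℝ) else 0) = y₀ := by
    funext r
    split_ifs <;> rw [add_zero]
  rw [e1] at d1
  have e2 : (∑ r, (if r = l then (1 : ℝ) else 0) * eval y₀ (pderiv r (PiS D n z i j S P ω))) =
      eval y₀ (pderiv l (PiS D n z i j S P ω)) := by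
    rw [Finset.sum_eq_single l]
    · rw [if_pos rfl, one_mul]
    · intro r _ hr
      rw [if_neg hr, zero_mul]
    · intro h
      exact absurd (Finset.mem_univ l) h
  rw [e2] at d1
  -- the right side
  have e3 : (fun s : ℝ => eval (fun r => y₀ r + if r = l then s else 0)
      (PiS D n z i j S P ω)) =
      fun s => 2 ^ g n * eval (pt g (atT (x 0) Φ) (mv u (l + 1) (4 * 2 ^ z * s))) G := by
    funext s
    rw [eval_PiS, hG, map_sub]
    have e4 : fpt D n z i j S ω (fun r => y₀ r + if r = l then s else 0) =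
        pt g (atT (x 0) Φ) (mv u (l + 1) (4 * 2 ^ z * s)) := by
      unfold fpt
      rw [← hg, ← hx, ← hΦe]
      congr 1
      funext k
      unfold uco
      rcases Nat.eq_zero_or_pos k with rfl | hk
      · unfold mv
        rw [if_neg (by omega), hu, ex1_zero, ex1_zero]
      · obtain ⟨k', rfl⟩ : ∃ k', k = k' + 1 := ⟨k - 1, by omega⟩
        rcases Nat.lt_or_ge k' (n - 1) with hk' | hk'
        · rw [ex1_succ _ hk']
          unfold mv
          rw [hu, ex1_succ _ hk']
          have e5 : y₀ ⟨k', hk'⟩ = up z (nat g Φ x (k' + 1)) := by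
            rw [hy₀, hg, hΦe, hx]
            rfl
          beta_reduce
          rw [e5]
          unfold up
          have hz : (4 * 2 ^ z : ℝ) ≠ 0 := by positivity
          by_cases h : k' = l
          · rw [if_pos (Fin.ext h), if_pos (by omega)]
            field_simp
            ring
          · rw [if_neg (fun h' => h (congrArg Fin.val h')), if_neg (by omega)]
            field_simp
            ring
        · have hll := l.2
          unfold mv
          rw [if_neg (by omega), hu]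
          unfold ex1
          rw [dif_neg (by omega), dif_neg (by omega)]
    rw [e4, ← hg, ← hΦe]
  have d2 : HasDerivAt (fun s : ℝ => 2 ^ g n *
      eval (pt g (atT (x 0) Φ) (mv u (l + 1) (4 * 2 ^ z * s))) G)
      (2 ^ g n * ((1 / 2 ^ g (l + 1) *
        eval (pt g (atT (x 0) Φ) (mv u (l + 1) (4 * 2 ^ z * 0)))
          (dv (atT (x 0) Φ) (l + 1) G)) * (4 * 2 ^ z))) 0 := by
    have h1 : HasDerivAt (fun s : ℝ => 4 * 2 ^ z * s) (4 * 2 ^ z) 0 := by
      have := (hasDerivAt_id (0 : ℝ)).const_mul (4 * 2 ^ z : ℝ)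
      rwa [mul_one] at this
    exact (HasDerivAt.comp (0 : ℝ) (hd_eval hΦ' g u (l + 1) (4 * 2 ^ z * 0) G) h1).const_mul _
  rw [e3] at d1
  have h4 := d1.unique d2
  rw [h4, mul_zero, mv_zero, dv_atT _ (Nat.succ_pos _)]
  have e6 : eval (pt g (atT (x 0) Φ) u) (dv Φ (l + 1) G) = eval x (dv Φ (l + 1) G) :=
    AdxRow.evl_congr fun k hk => by
      rw [hu]
      exact pt_own hΦ x (mem_range.1 (dv_vars hΦ _ hF hk))
  rw [e6]
  field_simp

end Pool.GSD
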