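import Pool.Agent.H41.GSD.Grd1
import Pool.Agent.H41.GSD.HtB

/-!
# The gradient of the height of the frame is closed

`grad_P`: if no base coordinate has the weight of the target, the gradient of the height of the
frame over the line side is a polynomial in the time, for every sample with a frame.
-/

set_option autoImplicit false

namespace Pool.GSD

open Finset Real MvPolynomial
open Pool.Agent.H49.Ent Pool.Agent.H32.Dense Pool.STK Pool.STAT Pool.MIC.Frm Pool.MIC7 Pool.FRM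
open Pool.MIC Pool.MicA
open Pool.BFL (Pl Pb)
open scoped Polynomial

/-- A system near to the frame on its natural box. -/
theorem near_fr {K₂ c : ℕ} {g g' : ℕ → ℕ} {P Ψ Ψ' : ℕ → PN} {t E W : ℝ} {b x₀ : ℕ → ℝ}
    (hP : TriN P) (hb : b 0 = t) (hx₀ : eval x₀ (P 0) = t)
    (h : Nb K₂ c g (ch P t Ψ) E) (h' : Nb K₂ c g' (ch P t Ψ') E) (hE : 2 ≤ E) (hW : W = 4 * E)
    (hle : ∀ k < c, g' k ≤ g k) (hc : 1 ≤ c)
    (hbx : ∀ r, 1 ≤ r → r < c → |nat g Ψ b r| ≤ 2) :
    |eval b (Ψ' c) - eval b (P c)| ≤ W ^ dd K₂ (c + 1) / 2 ^ g' c := by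
  have hE1 : 1 ≤ E := by linarith
  have hp := pt_of (g := g) (Ψ := Ψ) hP hb hx₀ c
  have hz := h.ptl hE1 hW (y := nat g Ψ b) ⟨hp.1, fun l a b => hp.2 l a b.le⟩
    (fun l a b => (hbx l a b).trans hE)
  have hB : (1 : ℝ) ≤ W ^ dd K₂ c := one_le_pow₀ (by linarith)
  rw [← eval_ch hP hb hc]
  have v1 := h'.val (l := c) le_rfl hB (β := zs P b) (fun k hk => (hz k hk).trans
    ((div_le_div_of_nonneg_right (wpow hE1 hW hk.le) (by positivity)).trans
      (div_le_div_of_nonneg_left (by positivity) (by positivity)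
        (pow_le_pow_right₀ (by norm_num) (hle k hk)))))
  refine v1.trans (div_le_div_of_nonneg_right ?_ (by positivity))
  have := sz1 (K := K₂) (l := c) hE1 hW
  linarith

/-- The deterministic estimate over the frame. -/
theorem grad_fr (n K' : ℕ) (hn : 1 ≤ n) : ∃ Cg : ℝ, 1 ≤ Cg ∧ ∀ (s e : ℕ → ℕ) (y : ℕ) (E : ℝ)
    (K₂ : ℕ) (P Φ : ℕ → PN) (g : ℕ → ℕ) (Φl : ℕ → ℕ → PN) (gl : ℕ → ℕ → ℕ) (x : ℕ → ℝ),
    1 ≤ y → Cg ≤ 2 ^ y → (4 * E) ^ dd K₂ (n + 2) ≤ 2 ^ y → 2 ≤ E →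
    (∀ l m, l < m → s l + 2 + n * (e l + 2) ≤ s m) → TriN P → (∀ l, (P l).totalDegree ≤ K') →
    eval x (P 0) = x 0 → TriN Φ → (∀ l, TriN (Φl l)) → (∀ i, (Φ i).totalDegree ≤ K') →
    (∀ l, ∀ i, (Φl l i).totalDegree ≤ K') → (∀ c ≤ n, Nb K₂ c g (ch P (x 0) Φ) E) →
    (∀ l, 1 ≤ l → l < n → ∀ c ≤ n, Nb K₂ c (gl l) (ch P (x 0) (Φl l)) E) →
    (∀ r, 1 ≤ r → r < n → |nat g Φ x r| ≤ 1) →
    (∀ l, 1 ≤ l → l < n → ∀ r, 1 ≤ r → r < n → |nat (gl l) (Φl l) x r| ≤ 1) →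
    (∀ l, 1 ≤ l → l < n → gl l l + g n + (s l + 3) * y ≤ gl l n + g l) →
    (∀ l, 1 ≤ l → l < n → ((∀ k < n, g k ≤ gl l k) ∧ gl l l ≤ g l + e l * y) ∨
      ((∀ k < n, gl l k ≤ g k) ∧ ∀ m, 1 ≤ m → m < n → g m ≤ gl l m + e l * y)) →
    ∀ l, 1 ≤ l → l < n → |eval x (dv Φ l (P n) - cp n Φ Φl n l)| *
      ((2 : ℝ) ^ g n / 2 ^ g l) ≤ 1 / 2 ^ (s l * y) := by
  obtain ⟨Cg, hCg, hdet⟩ := grad_det n K'
  refine ⟨Cg, hCg, ?_⟩
  intro s e y E K₂ P Φ g Φl gl x hy hCy hτy hE2 hse hP dP hx₀ tΦ tl dΦ dl nb nbl hx hxl hG hrad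
  have hE1 : 1 ≤ E := by linarith
  obtain ⟨τ, hτ⟩ : ∃ τ : ℝ, τ = (4 * E) ^ dd K₂ (n + 2) := ⟨_, rfl⟩
  have hτ1 : 1 ≤ τ := by rw [hτ]; exact one_le_pow₀ (by linarith)
  rw [← hτ] at hτy
  have hWτ : ∀ m < n + 1, (4 * E) ^ dd K₂ (m + 1) + (4 * E) ^ dd K₂ (m + 1) ≤
      τ := by
    intro m hm
    have a1 := w3 (K := K₂) (l := m + 1) (W := 4 * E) (by linarith)
    have a2 : (4 * E) ^ dd K₂ (m + 1 + 1) ≤ τ := by
      rw [hτ]
      exact wpow hE1 rfl (by omega)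
    have a3 : 0 < (4 * E) ^ dd K₂ (m + 1) := by positivity
    linarith
  have hWτ1 : ∀ m < n + 1, (4 * E) ^ dd K₂ (m + 1) ≤ τ := by
    intro m hm
    have := hWτ m hm
    have a3 : 0 < (4 * E) ^ dd K₂ (m + 1) := by positivity
    linarith
  refine hdet s e y τ (P n) Φ g Φl gl x hy hCy hτ1 hτy hse tΦ tl (fun i _ => dΦ i)
    (fun l i _ => dl l i) (hP n) (dP n) hx hxl ?_ hG ?_
  · -- the own leaf
    intro m h1 h2 b hb0 hbx
    have hb := nbl m h1 h2 n le_rfl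
    have := near_fr (c := n) hP hb0 hx₀ hb hb hE2 rfl (fun k _ => le_rfl) hn hbx
    rw [abs_sub_comm]
    exact this.trans (div_le_div_of_nonneg_right (hWτ1 n (Nat.lt_succ_self _))
      (by positivity))
  · intro m h1 h2
    rcases hrad m h1 h2 with ⟨hmono, h3⟩ | ⟨hmono, h3⟩
    · left
      refine ⟨fun r hr1 hr2 b hb0 hbx => ?_, h3⟩
      have s1 := nbl m h1 h2 r hr2.le
      have s2 := nb r hr2.le
      have t1 := near_fr (c := r) hP hb0 hx₀ s1 s1 hE2 rfl (fun k _ => le_rfl) hr1 hbx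
      have t2 := near_fr (c := r) hP hb0 hx₀ s1 s2 hE2 rfl
        (fun k hk => hmono k (hk.trans hr2)) hr1 hbx
      have t3 : (4 * E) ^ dd K₂ (r + 1) / 2 ^ gl m r ≤
          (4 * E) ^ dd K₂ (r + 1) / 2 ^ g r :=
        div_le_div_of_nonneg_left (by positivity) (by positivity)
          (pow_le_pow_right₀ (by norm_num) (hmono r hr2))
      have e : eval b (Φl m r) - eval b (Φ r) =
          (eval b (Φl m r) - eval b (P r)) - (eval b (Φ r) - eval b (P r)) := by ring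
      rw [e]
      refine (abs_sub _ _).trans ((add_le_add (t1.trans t3) t2).trans ?_)
      rw [← add_div]
      exact div_le_div_of_nonneg_right (hWτ r (by omega)) (by positivity)
    · right
      refine ⟨fun r hr1 hr2 b hb0 hbx => ?_, h3⟩
      have s1 := nbl m h1 h2 r hr2.le
      have s2 := nb r hr2.le
      have t1 := near_fr (c := r) hP hb0 hx₀ s2 s2 hE2 rfl (fun k _ => le_rfl) hr1 hbx
      have t2 := near_fr (c := r) hP hb0 hx₀ s2 s1 hE2 rfl
        (fun k hk => hmono k (hk.trans hr2)) hr1 hbx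
      have t3 : (4 * E) ^ dd K₂ (r + 1) / 2 ^ g r ≤
          (4 * E) ^ dd K₂ (r + 1) / 2 ^ gl m r :=
        div_le_div_of_nonneg_left (by positivity) (by positivity)
          (pow_le_pow_right₀ (by norm_num) (hmono r hr2))
      have e : eval b (Φ r) - eval b (Φl m r) =
          (eval b (Φ r) - eval b (P r)) - (eval b (Φl m r) - eval b (P r)) := by ring
      rw [e]
      refine (abs_sub _ _).trans ((add_le_add (t1.trans t3) t2).trans ?_)
      rw [← add_div]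
      exact div_le_div_of_nonneg_right (hWτ r (by omega)) (by positivity)

/-- **The gradient of the height of the frame is a polynomial in the time.** -/
theorem grad_P (n K : ℕ) (lam gam : ℕ → ℝ) (C₁ : ℝ) (hn : 1 ≤ n)
    (hlam : ∀ l, 1 ≤ lam l) (hne : ∀ l, 1 ≤ l → l < n → lam l ≠ lam n) (K' : ℕ) (hKK : K ≤ K')
    (C : ℝ) (hC : 0 ≤ C) : ∃ nn : ℕ, ∀ R : ℕ, ∃ (d z₀ : ℕ),
    ∀ (J a₀ w₀ z M i j : ℕ) (κ : ℝ) (D : NDat2) (q : D.Ω → ℝ), z₀ ≤ z → d ≤ i → i + d < M →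
      j < M → D.Ok2 n K J a₀ w₀ z M lam gam κ C₁ q →
      ∃ G : D.Λ × ℕ → Fin (n - 1) → ℝ[X], (∀ x l, (G x l).degree < nn) ∧
        ∀ ω, 0 < q ω → ∀ P, FrP D n K' M z C P ω → ∀ l : Fin (n - 1),
          |eval (fun r : Fin (n - 1) => up z (ztS D i j (D.Φ i j) ω (r + 1)))
              (pderiv l (PiS D n z i j (D.Φ i j) P ω)) -
            (G (D.wn J (w₀ + j * z) ω) l).eval
              ((thr D J (w₀ + j * z) ω : ℝ) / 2 ^ (J - (w₀ + j * z)))| ≤ 1 / 2 ^ (R * z) := by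
  classical
  refine ⟨(n * (1 + K' + n * K') + (K' + n * K')) * K + 1, ?_⟩
  intro R
  -- constants
  obtain ⟨C₂, hC₂, hpk⟩ := fr_pack n K' C hC
  obtain ⟨K₂, hK₂⟩ : ∃ K₂ : ℕ, K₂ = K' * (K' + 1) ^ n := ⟨_, rfl⟩
  obtain ⟨Λ, hΛ⟩ := exists_nat_ge (∑ l ∈ range (n + 1), lam l)
  obtain ⟨q₀, hq₀⟩ := exists_nat_ge (1 + ∑ l ∈ Ico 1 n, 1 / |lam l - lam n|)
  obtain ⟨N₁, hN₁⟩ := exists_nat_ge C₁
  obtain ⟨Cg, hCg, hdet⟩ := grad_fr n K' hn
  obtain ⟨z₁, hz₁⟩ := exists_nat_ge Cg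
  obtain ⟨N, hN⟩ := exists_nat_ge (2 * ((C₂ + 2) * dd K₂ (n + 2)) + 1)
  have hN1 : 1 ≤ N := by
    have : (1 : ℝ) ≤ N := by
      have : 0 ≤ 2 * ((C₂ + 2) * dd K₂ (n + 2)) := by positivity
      linarith
    exact_mod_cast this
  obtain ⟨s, hs⟩ : ∃ s, s = sq n Λ q₀ N₁ R := ⟨_, rfl⟩
  obtain ⟨dl, hdl⟩ : ∃ dl, dl = dq n Λ q₀ N₁ R := ⟨_, rfl⟩
  have hlamΛ : ∀ l ≤ n, lam l ≤ Λ := fun l hl =>
    (Finset.single_le_sum (f := lam) (fun i _ => by linarith [hlam i])
      (Finset.mem_range.2 (by omega))).trans hΛ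
  have hq1 : 1 ≤ q₀ := by
    have h1 : (1 : ℝ) ≤ q₀ := by
      have : (0 : ℝ) ≤ ∑ l ∈ Ico 1 n, 1 / |lam l - lam n| :=
        Finset.sum_nonneg fun _ _ => by positivity
      linarith
    exact_mod_cast h1
  have hqd : ∀ l, 1 ≤ l → l < n → 1 ≤ q₀ * |lam l - lam n| := by
    intro l h1 h2
    have h3 : 0 < |lam l - lam n| := abs_pos.2 (sub_ne_zero.2 (hne l h1 h2))
    have h4 : 1 / |lam l - lam n| ≤ q₀ := by
      have := Finset.single_le_sum (f := fun l => 1 / |lam l - lam n|) (s := Ico 1 n)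
        (fun i _ => by positivity) (Finset.mem_Ico.2 ⟨h1, h2⟩)
      linarith
    rwa [div_le_iff₀ h3] at h4
  refine ⟨N * dl n + 2 * N₁ + 1, max z₁ 1, ?_⟩
  intro J a₀ w₀ z M i j κ D q hz hdi hiM hj hO
  have hzz₁ : z₁ ≤ z := (le_max_left _ _).trans hz
  have hz1 : 1 ≤ z := (le_max_right _ _).trans hz
  have hz0 : (0 : ℝ) ≤ z := Nat.cast_nonneg z
  have hNz : z ≤ N * z := Nat.le_mul_of_pos_left z hN1
  have hCz : Cg ≤ 2 ^ (N * z) := by
    have h1 : (z₁ : ℝ) ≤ z := by exact_mod_cast hzz₁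
    have h2 : (z : ℝ) ≤ 2 ^ z := by exact_mod_cast Nat.lt_two_pow_self.le
    have h3 : (2 : ℝ) ^ z ≤ 2 ^ (N * z) := pow_le_pow_right₀ (by norm_num) hNz
    linarith
  -- the radii
  obtain ⟨il, hil⟩ : ∃ il : ℕ → ℕ, il = fun l =>
    if lam l < lam n then i + N * dl l else i - N * dl l := ⟨_, rfl⟩
  have hdln : ∀ l, l < n → dl l ≤ dl n := fun l hl => by
    rw [hdl]
    exact dq_mono n Λ q₀ N₁ R hl.le
  have hNdl : ∀ l, l < n → N * dl l ≤ N * dl n := fun l hl => Nat.mul_le_mul_left _ (hdln l hl)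
  have hdl2 : ∀ l, 2 * N₁ ≤ N * dl l := by
    intro l
    rw [hdl]
    unfold dq
    calc 2 * N₁ ≤ 1 * (1 * (sq n Λ q₀ N₁ R l + 3 + 4 * N₁)) := by omega
      _ ≤ _ := Nat.mul_le_mul hN1 (Nat.mul_le_mul_right _ hq1)
  have hilM : ∀ l, l < n → il l < M := by
    intro l hl
    have := hNdl l hl
    rw [hil]
    simp only
    split_ifs <;> omega
  have hwJ : w₀ + j * z ≤ J := by
    have h1 := hO.thin
    have h2 := hO.top
    have h3 : j * z ≤ (M + 1) * z := Nat.mul_le_mul_right _ (by omega)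
    omega
  have hDet0 : Det q (D.wn J (w₀ + j * z)) (D.c i j) := hO.c_wn i (by omega) j hj.le
  obtain ⟨ie, hie⟩ : ∃ ie : ℕ → ℕ, ie = fun l => if l < n then il l else i := ⟨_, rfl⟩
  have hie' : ∀ l, l < n → ie l = il l := fun l hl => by
    rw [hie]
    simp only [if_pos hl]
  have hieM : ∀ l, ie l < M := fun l => by
    rw [hie]
    simp only
    split_ifs with h
    · exact hilM l h
    · omega
  have hse : ∀ l m, l < m → s l + 2 + n * ((Λ * dl l + 2 * N₁) + 2) ≤ s m := fun a b hab => by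
    rw [hs, hdl]
    exact sq_lt n Λ q₀ N₁ R a b hab
  have hlev : ∀ m, 1 ≤ m → m < n →
      D.g (ie m) j m + D.g i j n + (s m + 3) * (N * z) ≤ D.g (ie m) j n + D.g i j m := by
    intro m h1 h2
    simp only [hie' _ h2]
    have hqm := hqd m h1 h2
    have hdlr : (dl m : ℝ) = q₀ * (s m + 3 + 4 * N₁) := by
      rw [hdl, hs]
      unfold dq
      push_cast
      ring
    have hsm : (0 : ℝ) ≤ s m + 3 + 4 * N₁ := by positivity
    have hkey0 : (s m + 3 + 4 * N₁ : ℝ) ≤ |lam m - lam n| * dl m := by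
      rw [hdlr]
      nlinarith
    have hNr : (1 : ℝ) ≤ N := by exact_mod_cast hN1
    have hkey : (N * (s m + 3) + 4 * N₁ : ℝ) ≤ |lam m - lam n| * (N * dl m : ℕ) := by
      push_cast
      have a1 : (N : ℝ) * (s m + 3 + 4 * N₁) ≤ N * (|lam m - lam n| * dl m) :=
        mul_le_mul_of_nonneg_left hkey0 (by linarith)
      have a2 : (4 * N₁ : ℝ) ≤ N * (4 * N₁) := le_mul_of_one_le_left (by positivity) hNr
      nlinarith
    rcases lt_or_gt_of_ne (hne m h1 h2) with hlt | hgt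
    · have hi : il m = i + N * dl m := by
        rw [hil]
        simp only [if_pos hlt]
      have hd1 := hNdl m h2
      rw [hi]
      have a1 := g_diff hO (i₁ := i) (d := N * dl m) (by omega) hj.le h1 h2.le
      have a2 := g_diff hO (i₁ := i) (d := N * dl m) (by omega) hj.le hn le_rfl
      rw [abs_le] at a1 a2
      rw [abs_of_neg (by linarith)] at hkey
      have h6 : (N * (s m + 3) + 4 * N₁ : ℝ) * z ≤ (lam n - lam m) * (N * dl m : ℕ) * z := by
        refine mul_le_mul_of_nonneg_right ?_ hz0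
        linarith
      have h7 : C₁ * z ≤ N₁ * z := mul_le_mul_of_nonneg_right hN₁ hz0
      have h8 : (D.g (i + N * dl m) j m : ℝ) + D.g i j n + (s m + 3) * (N * z) ≤
          D.g (i + N * dl m) j n + D.g i j m := by
        nlinarith [a1.1, a1.2, a2.1, a2.2]
      exact_mod_cast h8
    · have hi : il m = i - N * dl m := by
        rw [hil]
        simp only [if_neg (not_lt.2 hgt.le)]
      have hd1 := hNdl m h2
      rw [hi]
      obtain ⟨i₀, hi₀⟩ : ∃ i₀, i = i₀ + N * dl m := ⟨i - N * dl m, by omega⟩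
      have hi₁ : i - N * dl m = i₀ := by omega
      rw [hi₁]
      have a1 := g_diff hO (i₁ := i₀) (d := N * dl m) (by omega) hj.le h1 h2.le
      have a2 := g_diff hO (i₁ := i₀) (d := N * dl m) (by omega) hj.le hn le_rfl
      rw [← hi₀] at a1 a2
      rw [abs_le] at a1 a2
      rw [abs_of_pos (by linarith)] at hkey
      have h6 : (N * (s m + 3) + 4 * N₁ : ℝ) * z ≤ (lam m - lam n) * (N * dl m : ℕ) * z := by
        refine mul_le_mul_of_nonneg_right ?_ hz0
        linarith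
      have h7 : C₁ * z ≤ N₁ * z := mul_le_mul_of_nonneg_right hN₁ hz0
      have h8 : (D.g i₀ j m : ℝ) + D.g i j n + (s m + 3) * (N * z) ≤
          D.g i₀ j n + D.g i j m := by
        nlinarith [a1.1, a1.2, a2.1, a2.2]
      exact_mod_cast h8
  have hrad : ∀ m, 1 ≤ m → m < n →
      ((∀ k < n, D.g i j k ≤ D.g (ie m) j k) ∧
        D.g (ie m) j m ≤ D.g i j m + (Λ * dl m + 2 * N₁) * (N * z)) ∨
      ((∀ k < n, D.g (ie m) j k ≤ D.g i j k) ∧ ∀ r, 1 ≤ r → r < n →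
        D.g i j r ≤ D.g (ie m) j r + (Λ * dl m + 2 * N₁) * (N * z)) := by
    intro m h1 h2
    simp only [hie' _ h2]
    have hilm := hilM m h2
    have h7 : C₁ * z ≤ N₁ * z := mul_le_mul_of_nonneg_right hN₁ hz0
    have hNr : (1 : ℝ) ≤ N := by exact_mod_cast hN1
    have h72 : 2 * N₁ * (z : ℝ) ≤ 2 * N₁ * (N * z) :=
      mul_le_mul_of_nonneg_left (le_mul_of_one_le_left hz0 hNr) (by positivity)
    rcases lt_or_gt_of_ne (hne _ h1 h2) with hlt | hgt
    · have hi : il m = i + N * dl m := by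
        rw [hil]
        simp only [if_pos hlt]
      have hmono : ∀ k < n, D.g i j k ≤ D.g (il m) j k := fun k hk => by
        rcases Nat.eq_zero_or_pos k with h0 | h0
        · rw [h0, hO.g_zero, hO.g_zero]
        · exact g_mono hO hN₁ (by have := hdl2 m; omega) hilm.le hj.le h0 hk.le
      left
      refine ⟨hmono, ?_⟩
      have hd1 := hNdl m h2
      rw [hi]
      have a1 := g_diff hO (i₁ := i) (d := N * dl m) (by omega) hj.le h1 h2.le
      rw [abs_le] at a1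
      have h8 : lam m * (N * dl m : ℕ) * z ≤ Λ * (N * dl m : ℕ) * z :=
        mul_le_mul_of_nonneg_right (mul_le_mul_of_nonneg_right (hlamΛ _ h2.le)
          (Nat.cast_nonneg _)) hz0
      have h9 : (D.g (i + N * dl m) j m : ℝ) ≤ D.g i j m +
          (Λ * dl m + 2 * N₁) * (N * z) := by
        push_cast at h8 a1
        nlinarith [a1.1, a1.2]
      exact_mod_cast h9
    · have hi : il m = i - N * dl m := by
        rw [hil]
        simp only [if_neg (not_lt.2 hgt.le)]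
      have hd1 := hNdl m h2
      have hmono : ∀ k < n, D.g (il m) j k ≤ D.g i j k := fun k hk => by
        rcases Nat.eq_zero_or_pos k with h0 | h0
        · rw [h0, hO.g_zero, hO.g_zero]
        · exact g_mono hO hN₁ (by have := hdl2 m; omega) (by omega) hj.le h0 hk.le
      right
      refine ⟨hmono, ?_⟩
      intro r hr1 hr2
      rw [hi]
      obtain ⟨i₀, hi₀⟩ : ∃ i₀, i = i₀ + N * dl m := ⟨i - N * dl m, by omega⟩
      have hi₁ : i - N * dl m = i₀ := by omega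
      rw [hi₁]
      have a1 := g_diff hO (i₁ := i₀) (d := N * dl m) (by omega) hj.le hr1 hr2.le
      rw [← hi₀, abs_le] at a1
      have h8 : lam r * (N * dl m : ℕ) * z ≤ Λ * (N * dl m : ℕ) * z :=
        mul_le_mul_of_nonneg_right (mul_le_mul_of_nonneg_right (hlamΛ _ hr2.le)
          (Nat.cast_nonneg _)) hz0
      have h9 : (D.g i j r : ℝ) ≤ D.g i₀ j r +
          (Λ * dl m + 2 * N₁) * (N * z) := by
        push_cast at h8 a1
        nlinarith [a1.1, a1.2]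
      exact_mod_cast h9
  refine ⟨MicA.Gf D n J (w₀ + j * z) z i j ie q, ?_, ?_⟩
  · -- degrees
    intro x l
    unfold MicA.Gf
    split_ifs with h
    · refine lt_of_le_of_lt Polynomial.degree_le_natDegree ?_
      have h1 : (Gp D n J (w₀ + j * z) z i j ie h.choose l).natDegree ≤
          (n * (1 + K' + n * K') + (K' + n * K')) * K := by
        unfold Gp
        refine (Polynomial.natDegree_C_mul_le _ _).trans ?_
        refine (natDegree_aeval_le _ (pc_deg D hO.pa_deg _ _ _) _).trans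
          (Nat.mul_le_mul_right _ ?_)
        refine (totalDegree_sub _ _).trans (max_le ?_ ?_)
        · refine (cp_deg (hO.P_tri _ _ _) (fun l => hO.P_tri _ _ _)
            (fun i _ => (hO.P_deg _ _ _ _).trans hKK)
            (fun l i _ => (hO.P_deg _ _ _ _).trans hKK) n _).trans ?_
          exact Nat.le_add_right _ _
        · refine (dv_deg (hO.P_tri _ _ _) (fun i _ => (hO.P_deg _ _ _ _).trans hKK) _
            (hO.P_tri _ _ _ n)).trans ?_
          have := hO.P_deg i j (D.c i j h.choose) n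
          have h3 : (D.Φ i j h.choose n).totalDegree ≤ K := this
          omega
      exact_mod_cast Nat.lt_succ_of_le h1
    · rw [Polynomial.degree_zero]
      exact WithBot.bot_lt_coe _
  · -- the error
    intro ω hω P hF l
    have hl : (l : ℕ) + 1 < n := by have := l.2; omega
    rw [Gf_eq hDet0 (fun l => hO.c_wn _ (hieM l).le j hj.le) hω l]
    -- the systems
    have hzr : (1 : ℝ) ≤ z := by exact_mod_cast hz1
    obtain ⟨E, hEe⟩ : ∃ E : ℝ, E = exp (C₂ * z) := ⟨_, rfl⟩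
    have hside : ∀ i' < M, (∀ c ≤ n, Nb K₂ c (D.g i' j) (ch P (D.X ω 0) (D.Φ i' j ω)) E) ∧
        6 * 2 ^ z ≤ E := fun i' hi' => by
      obtain ⟨h1, _, h3⟩ := hpk D K z M i' j (D.Φ i' j) ω P hKK hz1 hi' hj hO.G_tri hO.G_deg hF
        (sd_line hO hi'.le hj.le hω)
      rw [← hEe, ← hK₂] at h1
      rw [← hEe] at h3
      exact ⟨h1, h3⟩
    have hE : 6 * 2 ^ z ≤ E := (hside i (by omega)).2
    have h2z : (1 : ℝ) ≤ 2 ^ z := one_le_pow₀ (by norm_num)
    have hE2 : 2 ≤ E := by linarith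
    have hE1 : 1 ≤ E := by linarith
    obtain ⟨hP, dP, vP, nP⟩ := hF
    have hx₀ : eval (D.X ω) (P 0) = D.X ω 0 := vP 0 (Nat.zero_le _)
    have hτz : (4 * E) ^ dd K₂ (n + 2) ≤ 2 ^ (N * z) := by
      rw [hEe]
      refine (w_le hz1 hC₂ le_rfl).trans ?_
      refine exp_le_two ?_
      push_cast
      rw [← mul_assoc]
      refine mul_le_mul_of_nonneg_right ?_ hz0
      linarith
    -- the deterministic estimate
    have hnat : ∀ k ≤ M, ∀ r, 1 ≤ r → r < n →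
        |nat (D.g k j) (D.Φ k j ω) (D.X ω) r| ≤ 1 := fun k hk r h1 h2 =>
      nat_le (hO.hgt k hk j hj.le ω hω r h2.le)
    have dΦ : ∀ i' j' k, (D.Φ i' j' ω k).totalDegree ≤ K' := fun i' j' k =>
      (hO.P_deg i' j' (D.c i' j' ω) k).trans hKK
    have tΦ : ∀ i' j', TriN (D.Φ i' j' ω) := fun i' j' => hO.P_tri i' j' (D.c i' j' ω)
    have hmain : |eval (D.X ω) (dv (D.Φ i j ω) (l + 1) (P n) -
        cp n (D.Φ i j ω) (fun l => D.Φ (ie l) j ω) n (l + 1))| *
        ((2 : ℝ) ^ D.g i j n / 2 ^ D.g i j (l + 1)) ≤ 1 / 2 ^ (s (l + 1) * (N * z)) := by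
      refine hdet s (fun l => Λ * dl l + 2 * N₁) (N * z) E K₂ P (D.Φ i j ω)
        (D.g i j) (fun l => D.Φ (ie l) j ω) (fun l => D.g (ie l) j) (D.X ω) (hz1.trans hNz) hCz
        hτz hE2 hse hP dP hx₀ (tΦ i j) (fun l => tΦ (ie l) j) (dΦ i j) (fun l => dΦ (ie l) j)
        (hside i (by omega)).1 (fun l _ _ => (hside (ie l) (hieM l)).1) (hnat i (by omega))
        (fun l h1 h2 => hnat _ (hieM l).le) hlev hrad (l + 1) (Nat.succ_pos _) hl
    have hgr := grad_PiS (D := D) (n := n) (z := z) (i := i) (j := j) (S := D.Φ i j) (ω := ω)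
      (tΦ i j) hP l
    rw [hgr]
    have e1 : (Gp D n J (w₀ + j * z) z i j ie ω l).eval
        ((thr D J (w₀ + j * z) ω : ℝ) / 2 ^ (J - (w₀ + j * z))) =
        4 * 2 ^ z * ((2 : ℝ) ^ D.g i j n / 2 ^ D.g i j (l + 1)) *
        eval (D.X ω) (cp n (D.Φ i j ω) (fun l => D.Φ (ie l) j ω) n (l + 1) -
          dv (D.Φ i j ω) (l + 1) (D.Φ i j ω n)) := by
      unfold Gp
      rw [Polynomial.eval_mul, Polynomial.eval_C, eval_aeval]
      congr 1
      refine AdxRow.evl_congr fun k hk => ?_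
      have hv : (cp n (D.Φ i j ω) (fun l => D.Φ (ie l) j ω) n (l + 1) -
          dv (D.Φ i j ω) (l + 1) (D.Φ i j ω n)).vars ⊆ range n :=
        AdxRow.vars_sub_le (cp_vars (hO.P_tri _ _ _) (fun l => hO.P_tri _ _ _) _ _)
          (dv_vars (hO.P_tri _ _ _) _ (hO.P_tri _ _ _ n))
      exact eval_pc D hwJ (hO.X_zero ω) (hO.str ω hω) (mem_range.1 (hv hk)).le
    rw [e1, ← mul_sub, ← map_sub, abs_mul, abs_of_pos (by positivity)]
    have e2 : dv (D.Φ i j ω) (l + 1) (P n - D.Φ i j ω n) -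
        (cp n (D.Φ i j ω) (fun l => D.Φ (ie l) j ω) n (l + 1) -
          dv (D.Φ i j ω) (l + 1) (D.Φ i j ω n)) =
        dv (D.Φ i j ω) (l + 1) (P n) -
          cp n (D.Φ i j ω) (fun l => D.Φ (ie l) j ω) n (l + 1) := by
      rw [map_sub]
      ring
    rw [e2]
    have e3 : 4 * 2 ^ z * ((2 : ℝ) ^ D.g i j n / 2 ^ D.g i j (l + 1)) *
        |eval (D.X ω) (dv (D.Φ i j ω) (l + 1) (P n) -
          cp n (D.Φ i j ω) (fun l => D.Φ (ie l) j ω) n (l + 1))| ≤
        4 * 2 ^ z * (1 / 2 ^ (s (l + 1) * (N * z))) := by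
      rw [mul_assoc]
      refine mul_le_mul_of_nonneg_left ?_ (by positivity)
      rw [mul_comm]
      exact hmain
    refine e3.trans ?_
    have hsS : R + 3 ≤ s (l + 1) := by
      rw [hs]
      exact sq_ge n Λ q₀ N₁ R (l + 1)
    rw [mul_one_div, div_le_div_iff₀ (by positivity) (by positivity), one_mul]
    have e4 : (4 : ℝ) = 2 ^ 2 := by norm_num
    rw [e4, ← pow_add, ← pow_add]
    refine pow_le_pow_right₀ (by norm_num) ?_
    have h5 := Nat.mul_le_mul hsS hNz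
    have h6 : (R + 3) * z = R * z + 3 * z := by ring
    omega

end Pool.GSD
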