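import Pool.Agent.H41.GSD.Grd2

/-!
# The gradient of the height of the frame is closed, longer windows

As in `Grd2`; for a coordinate of the weight of the target with a larger exponent of the window the
line side of a longer window is used.
-/

set_option autoImplicit false

namespace Pool.GSD

open Finset Real MvPolynomial
open Pool.Agent.H49.Ent Pool.Agent.H32.Dense Pool.STK Pool.STAT Pool.MIC.Frm Pool.MIC7 Pool.FRM
open Pool.MIC Pool.MicA
open Pool.BFL (Pl Pb)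
open scoped Polynomial

/-- A system near to the frame on a box of another one. -/
theorem near_fr2 {K₂ c y₁ : ℕ} {g g' : ℕ → ℕ} {P Ψ Ψ' : ℕ → PN} {t E W : ℝ} {b x₀ : ℕ → ℝ}
    (hP : TriN P) (hb : b 0 = t) (hx₀ : eval x₀ (P 0) = t)
    (h : Nb K₂ c g (ch P t Ψ) E) (h' : Nb K₂ c g' (ch P t Ψ') E) (hE : 2 ≤ E) (hW : W = 4 * E)
    (hy₁ : (2 : ℝ) ^ y₁ ≤ W) (hle : ∀ k < c, g' k ≤ g k + y₁) (hc : 1 ≤ c)
    (hbx : ∀ r, 1 ≤ r → r < c → |nat g Ψ b r| ≤ 2) :
    |eval b (Ψ' c) - eval b (P c)| ≤ W ^ dd K₂ (c + 1) / 2 ^ g' c := by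
  have hE1 : 1 ≤ E := by linarith
  have hW1 : 1 ≤ W := by linarith
  have hp := pt_of (g := g) (Ψ := Ψ) hP hb hx₀ c
  have hz := h.ptl hE1 hW (y := nat g Ψ b) ⟨hp.1, fun l a b => hp.2 l a b.le⟩
    (fun l a b => (hbx l a b).trans hE)
  have hB : (1 : ℝ) ≤ W ^ (dd K₂ c + 1) := one_le_pow₀ hW1
  rw [← eval_ch hP hb hc]
  have v1 := h'.val (l := c) le_rfl hB (β := zs P b) (fun k hk => by
    refine ((hz k hk).trans (div_le_div_of_nonneg_right (wpow hE1 hW hk.le)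
      (by positivity))).trans ?_
    rw [div_le_div_iff₀ (by positivity) (by positivity)]
    have e1 : (2 : ℝ) ^ g' k ≤ W * 2 ^ g k := by
      calc (2 : ℝ) ^ g' k ≤ 2 ^ (g k + y₁) := pow_le_pow_right₀ (by norm_num) (hle k hk)
        _ = 2 ^ y₁ * 2 ^ g k := by rw [pow_add, mul_comm]
        _ ≤ W * 2 ^ g k := mul_le_mul_of_nonneg_right hy₁ (by positivity)
    calc W ^ dd K₂ c * 2 ^ g' k ≤ W ^ dd K₂ c * (W * 2 ^ g k) :=
          mul_le_mul_of_nonneg_left e1 (by positivity)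
      _ = W ^ (dd K₂ c + 1) * 2 ^ g k := by ring)
  refine v1.trans (div_le_div_of_nonneg_right ?_ (by positivity))
  have hEW : E ≤ W := by linarith
  calc (W ^ (dd K₂ c + 1)) ^ K₂ * E ≤ (W ^ (dd K₂ c + 1)) ^ K₂ * W :=
        mul_le_mul_of_nonneg_left hEW (by positivity)
    _ = W ^ ((dd K₂ c + 1) * K₂ + 1) := by rw [← pow_mul, ← pow_succ]
    _ ≤ W ^ dd K₂ (c + 1) := by
        refine pow_le_pow_right₀ hW1 ?_
        have := dd_step K₂ c
        nlinarith [dd_pos K₂ c]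

/-- The deterministic estimate over the frame. -/
theorem grad_fr2 (n K' : ℕ) (hn : 1 ≤ n) : ∃ Cg : ℝ, 1 ≤ Cg ∧ ∀ (s e : ℕ → ℕ) (y y₁ : ℕ) (E : ℝ)
    (K₂ : ℕ) (P Φ : ℕ → PN) (g : ℕ → ℕ) (Φl : ℕ → ℕ → PN) (gl : ℕ → ℕ → ℕ) (x : ℕ → ℝ),
    1 ≤ y → (2 : ℝ) ^ y₁ ≤ 4 * E → Cg ≤ 2 ^ y → (4 * E) ^ dd K₂ (n + 2) ≤ 2 ^ y → 2 ≤ E →
    (∀ l m, l < m → s l + 2 + n * (e l + 2) ≤ s m) → TriN P → (∀ l, (P l).totalDegree ≤ K') →
    eval x (P 0) = x 0 → TriN Φ → (∀ l, TriN (Φl l)) → (∀ i, (Φ i).totalDegree ≤ K') →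
    (∀ l, ∀ i, (Φl l i).totalDegree ≤ K') → (∀ c ≤ n, Nb K₂ c g (ch P (x 0) Φ) E) →
    (∀ l, 1 ≤ l → l < n → ∀ c ≤ n, Nb K₂ c (gl l) (ch P (x 0) (Φl l)) E) →
    (∀ r, 1 ≤ r → r < n → |nat g Φ x r| ≤ 1) →
    (∀ l, 1 ≤ l → l < n → ∀ r, 1 ≤ r → r < n → |nat (gl l) (Φl l) x r| ≤ 1) →
    (∀ l, 1 ≤ l → l < n → gl l l + g n + (s l + 3) * y ≤ gl l n + g l) →
    (∀ l, 1 ≤ l → l < n → ((∀ k < n, g k ≤ gl l k) ∧ gl l l ≤ g l + e l * y) ∨
      ((∀ k < n, gl l k ≤ g k + y₁) ∧ ∀ m, 1 ≤ m → m < n → g m ≤ gl l m + e l * y)) →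
    ∀ l, 1 ≤ l → l < n → |eval x (dv Φ l (P n) - cp n Φ Φl n l)| *
      ((2 : ℝ) ^ g n / 2 ^ g l) ≤ 1 / 2 ^ (s l * y) := by
  obtain ⟨Cg, hCg, hdet⟩ := grad_det n K'
  refine ⟨Cg, hCg, ?_⟩
  intro s e y y₁ E K₂ P Φ g Φl gl x hy hy₁ hCy hτy hE2 hse hP dP hx₀ tΦ tl dΦ dl nb nbl hx hxl hG hrad
  have hE1 : 1 ≤ E := by linarith
  obtain ⟨τ, hτ⟩ : ∃ τ : ℝ, τ = (4 * E) ^ dd K₂ (n + 2) := ⟨_, rfl⟩
  have hτ1 : 1 ≤ τ := by rw [hτ]; exact one_le_pow₀ (by linarith)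
  rw [← hτ] at hτy
  have hWτ : ∀ m < n + 1, (4 * E) ^ dd K₂ (m + 1) + (4 * E) ^ dd K₂ (m + 1) ≤
      τ := by
    intro m hm
    have a1 := w3 (K := K₂) (l := m + 1) (W := 4 * E) (by linarith)
    have a2 : (4 * E) ^ dd K₂ (m + 1 + 1) ≤ τ := by
      rw [hτ]
      exact wpow hE1 rfl (by omega)
    have a3 : 0 < (4 * E) ^ dd K₂ (m + 1) := by positivity
    linarith
  have hWτ1 : ∀ m < n + 1, (4 * E) ^ dd K₂ (m + 1) ≤ τ := by
    intro m hm
    have := hWτ m hm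
    have a3 : 0 < (4 * E) ^ dd K₂ (m + 1) := by positivity
    linarith
  have hWτ2 : ∀ m < n, (4 * E) ^ (dd K₂ (m + 1) + 1) + (4 * E) ^ dd K₂ (m + 1) ≤
      τ := by
    intro m hm
    have a1 := w3 (K := K₂) (l := m + 2) (W := 4 * E) (by linarith)
    have a2 : (4 * E) ^ dd K₂ (m + 2 + 1) ≤ τ := by
      rw [hτ]
      exact wpow hE1 rfl (by omega)
    have a3 : (4 * E) ^ (dd K₂ (m + 1) + 1) ≤ (4 * E) ^ dd K₂ (m + 2) := by
      refine pow_le_pow_right₀ (by linarith) ?_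
      have := dd_step K₂ (m + 1)
      nlinarith [dd_pos K₂ (m + 1)]
    have a4 : (4 * E) ^ dd K₂ (m + 1) ≤ (4 * E) ^ dd K₂ (m + 2) := wpow hE1 rfl (by omega)
    have a5 : 0 < (4 * E) ^ dd K₂ (m + 2) := by positivity
    linarith
  refine hdet s e y τ (P n) Φ g Φl gl x hy hCy hτ1 hτy hse tΦ tl (fun i _ => dΦ i)
    (fun l i _ => dl l i) (hP n) (dP n) hx hxl ?_ hG ?_
  · -- the own leaf
    intro m h1 h2 b hb0 hbx
    have hb := nbl m h1 h2 n le_rfl
    have := near_fr (c := n) hP hb0 hx₀ hb hb hE2 rfl (fun k _ => le_rfl) hn hbx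
    rw [abs_sub_comm]
    exact this.trans (div_le_div_of_nonneg_right (hWτ1 n (Nat.lt_succ_self _))
      (by positivity))
  · intro m h1 h2
    rcases hrad m h1 h2 with ⟨hmono, h3⟩ | ⟨hmono, h3⟩
    · left
      refine ⟨fun r hr1 hr2 b hb0 hbx => ?_, h3⟩
      have s1 := nbl m h1 h2 r hr2.le
      have s2 := nb r hr2.le
      have t1 := near_fr (c := r) hP hb0 hx₀ s1 s1 hE2 rfl (fun k _ => le_rfl) hr1 hbx
      have t2 := near_fr (c := r) hP hb0 hx₀ s1 s2 hE2 rfl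
        (fun k hk => hmono k (hk.trans hr2)) hr1 hbx
      have t3 : (4 * E) ^ dd K₂ (r + 1) / 2 ^ gl m r ≤
          (4 * E) ^ dd K₂ (r + 1) / 2 ^ g r :=
        div_le_div_of_nonneg_left (by positivity) (by positivity)
          (pow_le_pow_right₀ (by norm_num) (hmono r hr2))
      have e : eval b (Φl m r) - eval b (Φ r) =
          (eval b (Φl m r) - eval b (P r)) - (eval b (Φ r) - eval b (P r)) := by ring
      rw [e]
      refine (abs_sub _ _).trans ((add_le_add (t1.trans t3) t2).trans ?_)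
      rw [← add_div]
      exact div_le_div_of_nonneg_right (hWτ r (by omega)) (by positivity)
    · right
      refine ⟨fun r hr1 hr2 b hb0 hbx => ?_, h3⟩
      have s1 := nbl m h1 h2 r hr2.le
      have s2 := nb r hr2.le
      have t1 := near_fr (c := r) hP hb0 hx₀ s2 s2 hE2 rfl (fun k _ => le_rfl) hr1 hbx
      have t2 := near_fr2 (c := r) hP hb0 hx₀ s2 s1 hE2 rfl hy₁
        (fun k hk => hmono k (hk.trans hr2)) hr1 hbx
      have t3 : (4 * E) ^ dd K₂ (r + 1) / 2 ^ g r ≤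
          (4 * E) ^ (dd K₂ (r + 1) + 1) / 2 ^ gl m r := by
        rw [div_le_div_iff₀ (by positivity) (by positivity), pow_succ, mul_assoc]
        refine mul_le_mul_of_nonneg_left ?_ (by positivity)
        calc (2 : ℝ) ^ gl m r ≤ 2 ^ (g r + y₁) :=
              pow_le_pow_right₀ (by norm_num) (hmono r hr2)
          _ = 2 ^ y₁ * 2 ^ g r := by rw [pow_add, mul_comm]
          _ ≤ 4 * E * 2 ^ g r := mul_le_mul_of_nonneg_right hy₁ (by positivity)
      have e : eval b (Φ r) - eval b (Φl m r) =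
          (eval b (Φ r) - eval b (P r)) - (eval b (Φl m r) - eval b (P r)) := by ring
      rw [e]
      refine (abs_sub _ _).trans ((add_le_add (t1.trans t3) t2).trans ?_)
      rw [← add_div]
      exact div_le_div_of_nonneg_right (hWτ2 r (by omega)) (by positivity)

/-- The polynomial of the gradient at one sample, several windows. -/
noncomputable def Gp2 (D : NDat2) (n J w z i j : ℕ) (pl : ℕ → ℕ × ℕ) (ω : D.Ω)
    (l : Fin (n - 1)) : ℝ[X] :=
  Polynomial.C (4 * 2 ^ z * ((2 : ℝ) ^ D.g i j n / 2 ^ D.g i j (l + 1))) *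
    aeval (pc D w (D.T ω / 2 ^ (J - w)) (D.ln ω))
      (cp n (D.Φ i j ω) (fun l => D.Φ (pl l).1 (pl l).2 ω) n (l + 1) -
        dv (D.Φ i j ω) (l + 1) (D.Φ i j ω n))

open Classical in
/-- The polynomial of the gradient for a line and a window, several windows. -/
noncomputable def Gf2 (D : NDat2) (n J w z i j : ℕ) (pl : ℕ → ℕ × ℕ) (q : D.Ω → ℝ)
    (x : D.Λ × ℕ) (l : Fin (n - 1)) : ℝ[X] :=
  if h : ∃ ω, 0 < q ω ∧ D.wn J w ω = x then Gp2 D n J w z i j pl h.choose l else 0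

theorem Gf2_eq {D : NDat2} {n J w z i j : ℕ} {pl : ℕ → ℕ × ℕ} {q : D.Ω → ℝ}
    (h0 : Det q (D.wn J w) (D.c i j)) (hl : ∀ l, Det q (D.wn J w) (D.c (pl l).1 (pl l).2))
    {ω : D.Ω} (hω : 0 < q ω) (l : Fin (n - 1)) :
    Gf2 D n J w z i j pl q (D.wn J w ω) l = Gp2 D n J w z i j pl ω l := by
  classical
  have h : ∃ ω', 0 < q ω' ∧ D.wn J w ω' = D.wn J w ω := ⟨ω, hω, rfl⟩
  unfold Gf2
  rw [dif_pos h]
  have h1 := h.choose_spec
  obtain ⟨ω', hω'⟩ : ∃ ω', ω' = h.choose := ⟨_, rfl⟩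
  rw [← hω'] at h1 ⊢
  have e1 : D.c i j ω' = D.c i j ω := h0 _ _ h1.1 hω h1.2
  have e2 : ∀ l, D.c (pl l).1 (pl l).2 ω' = D.c (pl l).1 (pl l).2 ω :=
    fun l => hl l _ _ h1.1 hω h1.2
  have e3 : D.ln ω' = D.ln ω := (Prod.ext_iff.1 h1.2).1
  have e4 : D.T ω' / 2 ^ (J - w) = D.T ω / 2 ^ (J - w) := (Prod.ext_iff.1 h1.2).2
  unfold Gp2 NDat2.Φ
  rw [e1, e3, e4]
  simp only [e2]

/-- The contexts at the longer windows are functions of the window. -/
theorem det_lw {D : NDat2} {n K J a₀ w₀ z M : ℕ} {lam gam : ℕ → ℝ} {κ C₁ : ℝ} {q : D.Ω → ℝ}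
    (hO : D.Ok2 n K J a₀ w₀ z M lam gam κ C₁ q) {i' j' j : ℕ} (hi' : i' ≤ M) (hj : j ≤ M)
    (hj' : j' ≤ j) : Det q (D.wn J (w₀ + j * z)) (D.c i' j') := by
  intro ω ω' hω hω' h
  refine hO.c_wn i' hi' j' (hj'.trans hj) ω ω' hω hω' ?_
  have e3 : D.ln ω = D.ln ω' := (Prod.ext_iff.1 h).1
  have e4 : D.T ω / 2 ^ (J - (w₀ + j * z)) = D.T ω' / 2 ^ (J - (w₀ + j * z)) :=
    (Prod.ext_iff.1 h).2
  refine Prod.ext_iff.2 ⟨e3, ?_⟩
  change D.T ω / 2 ^ (J - (w₀ + j' * z)) = D.T ω' / 2 ^ (J - (w₀ + j' * z))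
  have h1 : j' * z ≤ j * z := Nat.mul_le_mul_right _ hj'
  have h2 : w₀ + j * z ≤ J := by
    have h1 := hO.thin
    have h2 := hO.top
    have h3 : j * z ≤ (M + 1) * z := Nat.mul_le_mul_right _ (by omega)
    omega
  have h3 : (2 : ℕ) ^ (J - (w₀ + j' * z)) =
      2 ^ (J - (w₀ + j * z)) * 2 ^ (j * z - j' * z) := by
    rw [← pow_add]
    congr 1
    omega
  rw [h3, ← Nat.div_div_eq_div_mul, ← Nat.div_div_eq_div_mul, e4]

/-- Levels at two windows. -/
theorem g_diffj {D : NDat2} {n K J a₀ w₀ z M : ℕ} {lam gam : ℕ → ℝ} {κ C₁ : ℝ} {q : D.Ω → ℝ}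
    (hO : D.Ok2 n K J a₀ w₀ z M lam gam κ C₁ q) {i d j₁ r : ℕ}
    (h2 : i ≤ M) (hj : j₁ + d ≤ M) (hr : 1 ≤ r) (hr' : r ≤ n) :
    |(D.g i (j₁ + d) r : ℝ) - D.g i j₁ r - gam r * d * z| ≤ 2 * C₁ * z := by
  have e1 := hO.hom i h2 j₁ (by omega) r hr hr'
  have e2 := hO.hom i h2 (j₁ + d) hj r hr hr'
  rw [abs_le] at e1 e2 ⊢
  push_cast at e2
  constructor <;> nlinarith [e1.1, e1.2, e2.1, e2.2]

/-- **The gradient of the height of the frame is a polynomial in the time**, longer windows. -/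
theorem grad_P2 (n K : ℕ) (lam gam : ℕ → ℝ) (C₁ : ℝ) (hn : 1 ≤ n)
    (hlam : ∀ l, 1 ≤ lam l) (hgam : ∀ l, 0 ≤ gam l)
    (hne : ∀ l, 1 ≤ l → l < n → lam l ≠ lam n ∨ gam n < gam l) (K' : ℕ) (hKK : K ≤ K')
    (C : ℝ) (hC : 0 ≤ C) : ∃ nn : ℕ, ∀ R : ℕ, ∃ (d z₀ : ℕ),
    ∀ (J a₀ w₀ z M i j : ℕ) (κ : ℝ) (D : NDat2) (q : D.Ω → ℝ), z₀ ≤ z → d ≤ i → i + d < M →
      d ≤ j → j < M → D.Ok2 n K J a₀ w₀ z M lam gam κ C₁ q →
      ∃ G : D.Λ × ℕ → Fin (n - 1) → ℝ[X], (∀ x l, (G x l).degree < nn) ∧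
        ∀ ω, 0 < q ω → ∀ P, FrP D n K' M z C P ω → ∀ l : Fin (n - 1),
          |eval (fun r : Fin (n - 1) => up z (ztS D i j (D.Φ i j) ω (r + 1)))
              (pderiv l (PiS D n z i j (D.Φ i j) P ω)) -
            (G (D.wn J (w₀ + j * z) ω) l).eval
              ((thr D J (w₀ + j * z) ω : ℝ) / 2 ^ (J - (w₀ + j * z)))| ≤ 1 / 2 ^ (R * z) := by
  classical
  refine ⟨(n * (1 + K' + n * K') + (K' + n * K')) * K + 1, ?_⟩
  intro R
  -- constants
  obtain ⟨C₂, hC₂, hpk⟩ := fr_pack n K' C hC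
  obtain ⟨K₂, hK₂⟩ : ∃ K₂ : ℕ, K₂ = K' * (K' + 1) ^ n := ⟨_, rfl⟩
  obtain ⟨Λ, hΛ⟩ := exists_nat_ge (∑ l ∈ range (n + 1), (lam l + gam l))
  obtain ⟨δ, hδ⟩ : ∃ δ : ℕ → ℝ, δ = fun l =>
    if lam l ≠ lam n then |lam l - lam n| else gam l - gam n := ⟨_, rfl⟩
  obtain ⟨q₀, hq₀⟩ := exists_nat_ge (1 + ∑ l ∈ Ico 1 n, 1 / |δ l|)
  obtain ⟨N₁, hN₁⟩ := exists_nat_ge C₁
  obtain ⟨Cg, hCg, hdet⟩ := grad_fr2 n K' hn
  obtain ⟨z₁, hz₁⟩ := exists_nat_ge Cg
  obtain ⟨C₃, hC₃⟩ : ∃ C₃ : ℝ, C₃ = C₂ + 2 * N₁ := ⟨_, rfl⟩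
  have hN₁0 : (0 : ℝ) ≤ N₁ := Nat.cast_nonneg _
  have hC₃0 : 0 ≤ C₃ := by rw [hC₃]; linarith
  obtain ⟨N, hN⟩ := exists_nat_ge (2 * ((C₃ + 2) * dd K₂ (n + 2)) + 1)
  have hN1 : 1 ≤ N := by
    have : (1 : ℝ) ≤ N := by
      have : 0 ≤ 2 * ((C₃ + 2) * dd K₂ (n + 2)) := by positivity
      linarith
    exact_mod_cast this
  obtain ⟨s, hs⟩ : ∃ s, s = sq n Λ q₀ N₁ R := ⟨_, rfl⟩
  obtain ⟨dl, hdl⟩ : ∃ dl, dl = dq n Λ q₀ N₁ R := ⟨_, rfl⟩
  have hlgΛ : ∀ l ≤ n, lam l + gam l ≤ Λ := fun l hl =>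
    (Finset.single_le_sum (f := fun l => lam l + gam l)
      (fun i _ => by linarith [hlam i, hgam i])
      (Finset.mem_range.2 (by omega))).trans hΛ
  have hlamΛ : ∀ l ≤ n, lam l ≤ Λ := fun l hl => by linarith [hlgΛ l hl, hgam l]
  have hgamΛ : ∀ l ≤ n, gam l ≤ Λ := fun l hl => by linarith [hlgΛ l hl, hlam l]
  have hq1 : 1 ≤ q₀ := by
    have h1 : (1 : ℝ) ≤ q₀ := by
      have : (0 : ℝ) ≤ ∑ l ∈ Ico 1 n, 1 / |δ l| :=
        Finset.sum_nonneg fun _ _ => by positivity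
      linarith
    exact_mod_cast h1
  have hδ0 : ∀ l, 1 ≤ l → l < n → 0 < δ l := by
    intro l h1 h2
    rw [hδ]
    simp only
    split_ifs with h
    · exact abs_pos.2 (sub_ne_zero.2 h)
    · push Not at h
      rcases hne l h1 h2 with h3 | h3
      · exact absurd h h3
      · linarith
  have hqd : ∀ l, 1 ≤ l → l < n → 1 ≤ q₀ * δ l := by
    intro l h1 h2
    have h3 := hδ0 l h1 h2
    have h4 : 1 / |δ l| ≤ q₀ := by
      have := Finset.single_le_sum (f := fun l => 1 / |δ l|) (s := Ico 1 n)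
        (fun i _ => by positivity) (Finset.mem_Ico.2 ⟨h1, h2⟩)
      linarith
    rw [abs_of_pos h3] at h4
    rwa [div_le_iff₀ h3] at h4
  refine ⟨N * dl n + 2 * N₁ + 1, max z₁ 1, ?_⟩
  intro J a₀ w₀ z M i j κ D q hz hdi hiM hdj hj hO
  have hzz₁ : z₁ ≤ z := (le_max_left _ _).trans hz
  have hz1 : 1 ≤ z := (le_max_right _ _).trans hz
  have hz0 : (0 : ℝ) ≤ z := Nat.cast_nonneg z
  have hNz : z ≤ N * z := Nat.le_mul_of_pos_left z hN1
  have hCz : Cg ≤ 2 ^ (N * z) := by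
    have h1 : (z₁ : ℝ) ≤ z := by exact_mod_cast hzz₁
    have h2 : (z : ℝ) ≤ 2 ^ z := by exact_mod_cast Nat.lt_two_pow_self.le
    have h3 : (2 : ℝ) ^ z ≤ 2 ^ (N * z) := pow_le_pow_right₀ (by norm_num) hNz
    linarith
  -- the radii
  obtain ⟨pl, hpl⟩ : ∃ pl : ℕ → ℕ × ℕ, pl = fun l =>
    if lam l < lam n then (i + N * dl l, j) else
    if lam n < lam l then (i - N * dl l, j) else (i, j - N * dl l) := ⟨_, rfl⟩
  have hdln : ∀ l, l < n → dl l ≤ dl n := fun l hl => by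
    rw [hdl]
    exact dq_mono n Λ q₀ N₁ R hl.le
  have hNdl : ∀ l, l < n → N * dl l ≤ N * dl n := fun l hl => Nat.mul_le_mul_left _ (hdln l hl)
  have hdl2 : ∀ l, 2 * N₁ ≤ N * dl l := by
    intro l
    rw [hdl]
    unfold dq
    calc 2 * N₁ ≤ 1 * (1 * (sq n Λ q₀ N₁ R l + 3 + 4 * N₁)) := by omega
      _ ≤ _ := Nat.mul_le_mul hN1 (Nat.mul_le_mul_right _ hq1)
  have hplM : ∀ l, l < n → (pl l).1 < M ∧ (pl l).2 ≤ j := by
    intro l hl
    have := hNdl l hl
    rw [hpl]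
    simp only
    split_ifs <;> simp only <;> omega
  have hwJ : w₀ + j * z ≤ J := by
    have h1 := hO.thin
    have h2 := hO.top
    have h3 : j * z ≤ (M + 1) * z := Nat.mul_le_mul_right _ (by omega)
    omega
  have hDet0 : Det q (D.wn J (w₀ + j * z)) (D.c i j) := hO.c_wn i (by omega) j hj.le
  obtain ⟨pe, hpe⟩ : ∃ pe : ℕ → ℕ × ℕ, pe = fun l => if l < n then pl l else (i, j) :=
    ⟨_, rfl⟩
  have hpe' : ∀ l, l < n → pe l = pl l := fun l hl => by
    rw [hpe]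
    simp only [if_pos hl]
  have hpeM : ∀ l, (pe l).1 < M ∧ (pe l).2 ≤ j := fun l => by
    rw [hpe]
    simp only
    split_ifs with h
    · exact hplM l h
    · exact ⟨by omega, le_rfl⟩
  have hse : ∀ l m, l < m → s l + 2 + n * ((Λ * dl l + 2 * N₁) + 2) ≤ s m := fun a b hab => by
    rw [hs, hdl]
    exact sq_lt n Λ q₀ N₁ R a b hab
  have hC₁z : C₁ * z ≤ N₁ * z := mul_le_mul_of_nonneg_right hN₁ hz0
  have hNr : (1 : ℝ) ≤ N := by exact_mod_cast hN1
  have hlev : ∀ m, 1 ≤ m → m < n →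
      D.g (pe m).1 (pe m).2 m + D.g i j n + (s m + 3) * (N * z) ≤
        D.g (pe m).1 (pe m).2 n + D.g i j m := by
    intro m h1 h2
    simp only [hpe' _ h2]
    have hqm := hqd m h1 h2
    have hdlr : (dl m : ℝ) = q₀ * (s m + 3 + 4 * N₁) := by
      rw [hdl, hs]
      unfold dq
      push_cast
      ring
    have hsm : (0 : ℝ) ≤ s m + 3 + 4 * N₁ := by positivity
    have hkey0 : (s m + 3 + 4 * N₁ : ℝ) ≤ δ m * dl m := by
      rw [hdlr]
      nlinarith
    have hkey : (N * (s m + 3) + 4 * N₁ : ℝ) ≤ δ m * (N * dl m : ℕ) := by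
      push_cast
      have a1 : (N : ℝ) * (s m + 3 + 4 * N₁) ≤ N * (δ m * dl m) :=
        mul_le_mul_of_nonneg_left hkey0 (by linarith)
      have a2 : (4 * N₁ : ℝ) ≤ N * (4 * N₁) := le_mul_of_one_le_left (by positivity) hNr
      nlinarith
    rcases lt_trichotomy (lam m) (lam n) with hlt | heq | hgt
    · have hi : pl m = (i + N * dl m, j) := by
        rw [hpl]
        simp only [if_pos hlt]
      have hδm : δ m = lam n - lam m := by
        rw [hδ]
        simp only [if_pos hlt.ne]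
        rw [abs_of_neg (by linarith)]
        ring
      have hd1 := hNdl m h2
      rw [hi]
      simp only
      have a1 := g_diff hO (i₁ := i) (d := N * dl m) (by omega) hj.le h1 h2.le
      have a2 := g_diff hO (i₁ := i) (d := N * dl m) (by omega) hj.le hn le_rfl
      rw [abs_le] at a1 a2
      rw [hδm] at hkey
      have h6 : (N * (s m + 3) + 4 * N₁ : ℝ) * z ≤ (lam n - lam m) * (N * dl m : ℕ) * z :=
        mul_le_mul_of_nonneg_right hkey hz0
      have h8 : (D.g (i + N * dl m) j m : ℝ) + D.g i j n + (s m + 3) * (N * z) ≤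
          D.g (i + N * dl m) j n + D.g i j m := by
        linarith [a1.1, a1.2, a2.1, a2.2]
      exact_mod_cast h8
    · have hi : pl m = (i, j - N * dl m) := by
        rw [hpl]
        simp only
        rw [if_neg (by rw [heq]; exact lt_irrefl _), if_neg (by rw [heq]; exact lt_irrefl _)]
      have hδm : δ m = gam m - gam n := by
        rw [hδ]
        simp only
        rw [if_neg (not_not.2 heq)]
      have hd1 := hNdl m h2
      rw [hi]
      simp only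
      obtain ⟨j₀, hj₀⟩ : ∃ j₀, j = j₀ + N * dl m := ⟨j - N * dl m, by omega⟩
      have hj₁ : j - N * dl m = j₀ := by omega
      rw [hj₁]
      have a1 := g_diffj hO (i := i) (j₁ := j₀) (d := N * dl m) (by omega) (by omega) h1 h2.le
      have a2 := g_diffj hO (i := i) (j₁ := j₀) (d := N * dl m) (by omega) (by omega) hn le_rfl
      rw [← hj₀] at a1 a2
      rw [abs_le] at a1 a2
      rw [hδm] at hkey
      have h6 : (N * (s m + 3) + 4 * N₁ : ℝ) * z ≤ (gam m - gam n) * (N * dl m : ℕ) * z :=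
        mul_le_mul_of_nonneg_right hkey hz0
      have h8 : (D.g i j₀ m : ℝ) + D.g i j n + (s m + 3) * (N * z) ≤
          D.g i j₀ n + D.g i j m := by
        linarith [a1.1, a1.2, a2.1, a2.2]
      exact_mod_cast h8
    · have hi : pl m = (i - N * dl m, j) := by
        rw [hpl]
        simp only [if_neg (not_lt.2 hgt.le), if_pos hgt]
      have hδm : δ m = lam m - lam n := by
        rw [hδ]
        simp only
        rw [if_pos hgt.ne', abs_of_pos (by linarith)]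
      have hd1 := hNdl m h2
      rw [hi]
      simp only
      obtain ⟨i₀, hi₀⟩ : ∃ i₀, i = i₀ + N * dl m := ⟨i - N * dl m, by omega⟩
      have hi₁ : i - N * dl m = i₀ := by omega
      rw [hi₁]
      have a1 := g_diff hO (i₁ := i₀) (d := N * dl m) (by omega) hj.le h1 h2.le
      have a2 := g_diff hO (i₁ := i₀) (d := N * dl m) (by omega) hj.le hn le_rfl
      rw [← hi₀] at a1 a2
      rw [abs_le] at a1 a2
      rw [hδm] at hkey
      have h6 : (N * (s m + 3) + 4 * N₁ : ℝ) * z ≤ (lam m - lam n) * (N * dl m : ℕ) * z :=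
        mul_le_mul_of_nonneg_right hkey hz0
      have h8 : (D.g i₀ j m : ℝ) + D.g i j n + (s m + 3) * (N * z) ≤
          D.g i₀ j n + D.g i j m := by
        linarith [a1.1, a1.2, a2.1, a2.2]
      exact_mod_cast h8
  have hrad : ∀ m, 1 ≤ m → m < n →
      ((∀ k < n, D.g i j k ≤ D.g (pe m).1 (pe m).2 k) ∧
        D.g (pe m).1 (pe m).2 m ≤ D.g i j m + (Λ * dl m + 2 * N₁) * (N * z)) ∨
      ((∀ k < n, D.g (pe m).1 (pe m).2 k ≤ D.g i j k + 2 * N₁ * z) ∧ ∀ r, 1 ≤ r → r < n →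
        D.g i j r ≤ D.g (pe m).1 (pe m).2 r + (Λ * dl m + 2 * N₁) * (N * z)) := by
    intro m h1 h2
    simp only [hpe' _ h2]
    have hplm := hplM m h2
    have h72 : 2 * N₁ * (z : ℝ) ≤ 2 * N₁ * (N * z) :=
      mul_le_mul_of_nonneg_left (le_mul_of_one_le_left hz0 hNr) (by positivity)
    rcases lt_trichotomy (lam m) (lam n) with hlt | heq | hgt
    · have hi : pl m = (i + N * dl m, j) := by
        rw [hpl]
        simp only [if_pos hlt]
      rw [hi] at hplm ⊢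
      simp only at hplm ⊢
      have hmono : ∀ k < n, D.g i j k ≤ D.g (i + N * dl m) j k := fun k hk => by
        rcases Nat.eq_zero_or_pos k with h0 | h0
        · rw [h0, hO.g_zero, hO.g_zero]
        · exact g_mono hO hN₁ (by have := hdl2 m; omega) hplm.1.le hj.le h0 hk.le
      left
      refine ⟨hmono, ?_⟩
      have hd1 := hNdl m h2
      have a1 := g_diff hO (i₁ := i) (d := N * dl m) (by omega) hj.le h1 h2.le
      rw [abs_le] at a1
      have h8 : lam m * (N * dl m : ℕ) * z ≤ Λ * (N * dl m : ℕ) * z :=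
        mul_le_mul_of_nonneg_right (mul_le_mul_of_nonneg_right (hlamΛ _ h2.le)
          (Nat.cast_nonneg _)) hz0
      have h9 : (D.g (i + N * dl m) j m : ℝ) ≤ D.g i j m +
          (Λ * dl m + 2 * N₁) * (N * z) := by
        push_cast at h8 a1
        linarith [a1.1, a1.2]
      exact_mod_cast h9
    · have hi : pl m = (i, j - N * dl m) := by
        rw [hpl]
        simp only
        rw [if_neg (by rw [heq]; exact lt_irrefl _), if_neg (by rw [heq]; exact lt_irrefl _)]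
      have hd1 := hNdl m h2
      rw [hi]
      simp only
      obtain ⟨j₀, hj₀⟩ : ∃ j₀, j = j₀ + N * dl m := ⟨j - N * dl m, by omega⟩
      have hj₁ : j - N * dl m = j₀ := by omega
      rw [hj₁]
      right
      constructor
      · intro k hk
        rcases Nat.eq_zero_or_pos k with h0 | h0
        · rw [h0, hO.g_zero, hO.g_zero]
          have : j₀ * z ≤ j * z := Nat.mul_le_mul_right _ (by omega)
          omega
        · have a1 := g_diffj hO (i := i) (j₁ := j₀) (d := N * dl m) (by omega) (by omega) h0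
            hk.le
          rw [← hj₀, abs_le] at a1
          have h8 : 0 ≤ gam k * (N * dl m : ℕ) * z :=
            mul_nonneg (mul_nonneg (hgam _) (Nat.cast_nonneg _)) hz0
          have h9 : (D.g i j₀ k : ℝ) ≤ D.g i j k + 2 * N₁ * z := by
            linarith [a1.1, a1.2]
          exact_mod_cast h9
      · intro r hr1 hr2
        have a1 := g_diffj hO (i := i) (j₁ := j₀) (d := N * dl m) (by omega) (by omega) hr1
          hr2.le
        rw [← hj₀, abs_le] at a1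
        have h8 : gam r * (N * dl m : ℕ) * z ≤ Λ * (N * dl m : ℕ) * z :=
          mul_le_mul_of_nonneg_right (mul_le_mul_of_nonneg_right (hgamΛ _ hr2.le)
            (Nat.cast_nonneg _)) hz0
        have h9 : (D.g i j r : ℝ) ≤ D.g i j₀ r +
            (Λ * dl m + 2 * N₁) * (N * z) := by
          push_cast at h8 a1
          linarith [a1.1, a1.2]
        exact_mod_cast h9
    · have hi : pl m = (i - N * dl m, j) := by
        rw [hpl]
        simp only [if_neg (not_lt.2 hgt.le), if_pos hgt]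
      have hd1 := hNdl m h2
      rw [hi]
      simp only
      have hmono : ∀ k < n, D.g (i - N * dl m) j k ≤ D.g i j k := fun k hk => by
        rcases Nat.eq_zero_or_pos k with h0 | h0
        · rw [h0, hO.g_zero, hO.g_zero]
        · exact g_mono hO hN₁ (by have := hdl2 m; omega) (by omega) hj.le h0 hk.le
      right
      refine ⟨fun k hk => (hmono k hk).trans (Nat.le_add_right _ _), ?_⟩
      intro r hr1 hr2
      obtain ⟨i₀, hi₀⟩ : ∃ i₀, i = i₀ + N * dl m := ⟨i - N * dl m, by omega⟩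
      have hi₁ : i - N * dl m = i₀ := by omega
      rw [hi₁]
      have a1 := g_diff hO (i₁ := i₀) (d := N * dl m) (by omega) hj.le hr1 hr2.le
      rw [← hi₀, abs_le] at a1
      have h8 : lam r * (N * dl m : ℕ) * z ≤ Λ * (N * dl m : ℕ) * z :=
        mul_le_mul_of_nonneg_right (mul_le_mul_of_nonneg_right (hlamΛ _ hr2.le)
          (Nat.cast_nonneg _)) hz0
      have h9 : (D.g i j r : ℝ) ≤ D.g i₀ j r +
          (Λ * dl m + 2 * N₁) * (N * z) := by
        push_cast at h8 a1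
        linarith [a1.1, a1.2]
      exact_mod_cast h9
  refine ⟨Gf2 D n J (w₀ + j * z) z i j pe q, ?_, ?_⟩
  · -- degrees
    intro x l
    unfold Gf2
    split_ifs with h
    · refine lt_of_le_of_lt Polynomial.degree_le_natDegree ?_
      have h1 : (Gp2 D n J (w₀ + j * z) z i j pe h.choose l).natDegree ≤
          (n * (1 + K' + n * K') + (K' + n * K')) * K := by
        unfold Gp2
        refine (Polynomial.natDegree_C_mul_le _ _).trans ?_
        refine (natDegree_aeval_le _ (pc_deg D hO.pa_deg _ _ _) _).trans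
          (Nat.mul_le_mul_right _ ?_)
        refine (totalDegree_sub _ _).trans (max_le ?_ ?_)
        · refine (cp_deg (hO.P_tri _ _ _) (fun l => hO.P_tri _ _ _)
            (fun i _ => (hO.P_deg _ _ _ _).trans hKK)
            (fun l i _ => (hO.P_deg _ _ _ _).trans hKK) n _).trans ?_
          exact Nat.le_add_right _ _
        · refine (dv_deg (hO.P_tri _ _ _) (fun i _ => (hO.P_deg _ _ _ _).trans hKK) _
            (hO.P_tri _ _ _ n)).trans ?_
          have := hO.P_deg i j (D.c i j h.choose) n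
          have h3 : (D.Φ i j h.choose n).totalDegree ≤ K := this
          omega
      exact_mod_cast Nat.lt_succ_of_le h1
    · rw [Polynomial.degree_zero]
      exact WithBot.bot_lt_coe _
  · -- the error
    intro ω hω P hF l
    have hl : (l : ℕ) + 1 < n := by have := l.2; omega
    rw [Gf2_eq hDet0 (fun l => det_lw hO (hpeM l).1.le hj.le (hpeM l).2) hω l]
    -- the systems
    have hzr : (1 : ℝ) ≤ z := by exact_mod_cast hz1
    obtain ⟨E, hEe⟩ : ∃ E : ℝ, E = exp (C₃ * z) := ⟨_, rfl⟩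
    have hEC : exp (C₂ * z) ≤ E := by
      rw [hEe, hC₃]
      refine exp_le_exp.2 (mul_le_mul_of_nonneg_right (by linarith) hz0)
    have hside : ∀ i' < M, ∀ j' < M,
        (∀ c ≤ n, Nb K₂ c (D.g i' j') (ch P (D.X ω 0) (D.Φ i' j' ω)) E) ∧
        6 * 2 ^ z ≤ E := fun i' hi' j' hj' => by
      obtain ⟨h1, _, h3⟩ := hpk D K z M i' j' (D.Φ i' j') ω P hKK hz1 hi' hj' hO.G_tri hO.G_deg
        hF (sd_line hO hi'.le hj'.le hω)
      rw [← hK₂] at h1
      exact ⟨fun c hc => (h1 c hc).mono le_rfl hEC, h3.trans hEC⟩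
    have hE : 6 * 2 ^ z ≤ E := (hside i (by omega) j hj).2
    have h2z : (1 : ℝ) ≤ 2 ^ z := one_le_pow₀ (by norm_num)
    have hE2 : 2 ≤ E := by linarith
    have hE1 : 1 ≤ E := by linarith
    have hy₁ : (2 : ℝ) ^ (2 * N₁ * z) ≤ 4 * E := by
      have a1 : (2 : ℝ) ≤ exp 1 := by linarith [Real.exp_one_gt_d9]
      have a2 : (2 : ℝ) ^ (2 * N₁ * z) ≤ exp (2 * N₁ * z) := by
        calc (2 : ℝ) ^ (2 * N₁ * z) ≤ exp 1 ^ (2 * N₁ * z) :=
              pow_le_pow_left₀ (by norm_num) a1 _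
          _ = exp (2 * N₁ * z) := by
              rw [← exp_nat_mul, mul_one]
              push_cast
              rfl
      have a3 : exp (2 * N₁ * z) ≤ E := by
        rw [hEe, hC₃]
        refine exp_le_exp.2 (mul_le_mul_of_nonneg_right (by linarith) hz0)
      linarith
    obtain ⟨hP, dP, vP, nP⟩ := hF
    have hx₀ : eval (D.X ω) (P 0) = D.X ω 0 := vP 0 (Nat.zero_le _)
    have hτz : (4 * E) ^ dd K₂ (n + 2) ≤ 2 ^ (N * z) := by
      rw [hEe]
      refine (w_le hz1 hC₃0 le_rfl).trans ?_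
      refine exp_le_two ?_
      push_cast
      rw [← mul_assoc]
      refine mul_le_mul_of_nonneg_right ?_ hz0
      linarith
    -- the deterministic estimate
    have hnat : ∀ k ≤ M, ∀ k' ≤ M, ∀ r, 1 ≤ r → r < n →
        |nat (D.g k k') (D.Φ k k' ω) (D.X ω) r| ≤ 1 := fun k hk k' hk' r h1 h2 =>
      nat_le (hO.hgt k hk k' hk' ω hω r h2.le)
    have dΦ : ∀ i' j' k, (D.Φ i' j' ω k).totalDegree ≤ K' := fun i' j' k =>
      (hO.P_deg i' j' (D.c i' j' ω) k).trans hKK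
    have tΦ : ∀ i' j', TriN (D.Φ i' j' ω) := fun i' j' => hO.P_tri i' j' (D.c i' j' ω)
    have hmain : |eval (D.X ω) (dv (D.Φ i j ω) (l + 1) (P n) -
        cp n (D.Φ i j ω) (fun l => D.Φ (pe l).1 (pe l).2 ω) n (l + 1))| *
        ((2 : ℝ) ^ D.g i j n / 2 ^ D.g i j (l + 1)) ≤ 1 / 2 ^ (s (l + 1) * (N * z)) := by
      refine hdet s (fun l => Λ * dl l + 2 * N₁) (N * z) (2 * N₁ * z) E K₂ P (D.Φ i j ω)
        (D.g i j) (fun l => D.Φ (pe l).1 (pe l).2 ω) (fun l => D.g (pe l).1 (pe l).2) (D.X ω)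
        (hz1.trans hNz) hy₁ hCz
        hτz hE2 hse hP dP hx₀ (tΦ i j) (fun l => tΦ (pe l).1 (pe l).2) (dΦ i j)
        (fun l => dΦ (pe l).1 (pe l).2)
        (hside i (by omega) j hj).1
        (fun l _ _ => (hside (pe l).1 (hpeM l).1 (pe l).2 ((hpeM l).2.trans_lt hj)).1)
        (hnat i (by omega) j hj.le)
        (fun l h1 h2 => hnat _ (hpeM l).1.le _ ((hpeM l).2.trans hj.le)) hlev hrad (l + 1)
        (Nat.succ_pos _) hl
    have hgr := grad_PiS (D := D) (n := n) (z := z) (i := i) (j := j) (S := D.Φ i j) (ω := ω)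
      (tΦ i j) hP l
    rw [hgr]
    have e1 : (Gp2 D n J (w₀ + j * z) z i j pe ω l).eval
        ((thr D J (w₀ + j * z) ω : ℝ) / 2 ^ (J - (w₀ + j * z))) =
        4 * 2 ^ z * ((2 : ℝ) ^ D.g i j n / 2 ^ D.g i j (l + 1)) *
        eval (D.X ω) (cp n (D.Φ i j ω) (fun l => D.Φ (pe l).1 (pe l).2 ω) n (l + 1) -
          dv (D.Φ i j ω) (l + 1) (D.Φ i j ω n)) := by
      unfold Gp2
      rw [Polynomial.eval_mul, Polynomial.eval_C, eval_aeval]
      congr 1
      refine AdxRow.evl_congr fun k hk => ?_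
      have hv : (cp n (D.Φ i j ω) (fun l => D.Φ (pe l).1 (pe l).2 ω) n (l + 1) -
          dv (D.Φ i j ω) (l + 1) (D.Φ i j ω n)).vars ⊆ range n :=
        AdxRow.vars_sub_le (cp_vars (hO.P_tri _ _ _) (fun l => hO.P_tri _ _ _) _ _)
          (dv_vars (hO.P_tri _ _ _) _ (hO.P_tri _ _ _ n))
      exact eval_pc D hwJ (hO.X_zero ω) (hO.str ω hω) (mem_range.1 (hv hk)).le
    rw [e1, ← mul_sub, ← map_sub, abs_mul, abs_of_pos (by positivity)]
    have e2 : dv (D.Φ i j ω) (l + 1) (P n - D.Φ i j ω n) -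
        (cp n (D.Φ i j ω) (fun l => D.Φ (pe l).1 (pe l).2 ω) n (l + 1) -
          dv (D.Φ i j ω) (l + 1) (D.Φ i j ω n)) =
        dv (D.Φ i j ω) (l + 1) (P n) -
          cp n (D.Φ i j ω) (fun l => D.Φ (pe l).1 (pe l).2 ω) n (l + 1) := by
      rw [map_sub]
      ring
    rw [e2]
    have e3 : 4 * 2 ^ z * ((2 : ℝ) ^ D.g i j n / 2 ^ D.g i j (l + 1)) *
        |eval (D.X ω) (dv (D.Φ i j ω) (l + 1) (P n) -
          cp n (D.Φ i j ω) (fun l => D.Φ (pe l).1 (pe l).2 ω) n (l + 1))| ≤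
        4 * 2 ^ z * (1 / 2 ^ (s (l + 1) * (N * z))) := by
      rw [mul_assoc]
      refine mul_le_mul_of_nonneg_left ?_ (by positivity)
      rw [mul_comm]
      exact hmain
    refine e3.trans ?_
    have hsS : R + 3 ≤ s (l + 1) := by
      rw [hs]
      exact sq_ge n Λ q₀ N₁ R (l + 1)
    rw [mul_one_div, div_le_div_iff₀ (by positivity) (by positivity), one_mul]
    have e4 : (4 : ℝ) = 2 ^ 2 := by norm_num
    rw [e4, ← pow_add, ← pow_add]
    refine pow_le_pow_right₀ (by norm_num) ?_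
    have h5 := Nat.mul_le_mul hsS hNz
    have h6 : (R + 3) * z = R * z + 3 * z := by ring
    omega

end Pool.GSD
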