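import Pool.Agent.H41.GSD.Few

/-!
# The heights over the composite sheets: the theorem
-/

set_option autoImplicit false

namespace Pool.GSD

open Finset Real MvPolynomial
open Pool.Agent.H49.Ent Pool.Agent.H32.Dense Pool.STK Pool.STAT Pool.MIC.Frm Pool.MIC7 Pool.FRM
open Pool.MIC Pool.MicA
open Pool.BFL (Pl Pb)
open Pool.TIE (Dat dg)

theorem datS_v {D : NDat2} {Γ' : Type} (n z i j X h₀ : ℕ) (S : D.Ω → ℕ → PN)
    (zz : D.Ω → Γ') (q : D.Ω → ℝ) (s : D.Ω → Fin (n - 1) → Pl (n - 1)) (ω : D.Ω) :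
    (datS D n z i j X h₀ S zz q s).v ω = vS D n z i j X S ω := by
  funext l
  change (((YpS D n z i j X S ω l : ℕ) : ℤ) : ℝ) / 2 ^ X = _
  rw [Int.cast_natCast]
  rfl

theorem datS_ht {D : NDat2} {Γ' : Type} (n z i j X h₀ : ℕ) (S : D.Ω → ℕ → PN)
    (zz : D.Ω → Γ') (q : D.Ω → ℝ) (s : D.Ω → Fin (n - 1) → Pl (n - 1)) (l : Fin (n - 1)) :
    (datS D n z i j X h₀ S zz q s).ht l = fun ω => dg X (vS D n z i j X S ω l -
      eval (vS D n z i j X S ω) (s ω l)) := by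
  have h : (datS D n z i j X h₀ S zz q s).v = vS D n z i j X S :=
    funext fun ω => datS_v n z i j X h₀ S zz q s ω
  change (fun ω : D.Ω => dg X ((datS D n z i j X h₀ S zz q s).v ω l -
    eval ((datS D n z i j X h₀ S zz q s).v ω) (s ω l))) = _
  rw [h]

theorem datS_hF {D : NDat2} {Γ' : Type} (n z i j X h₀ h : ℕ) (S : D.Ω → ℕ → PN)
    (zz : D.Ω → Γ') (q : D.Ω → ℝ) (s : D.Ω → Fin (n - 1) → Pl (n - 1))
    (F : D.Ω → Pl (n - 1)) :
    (datS D n z i j X h₀ S zz q s).hF h F = fun ω => dg h ((nuS D n i j h₀ S ω : ℝ) / 2 ^ h₀ -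
      eval (vS D n z i j X S ω) (F ω)) := by
  have h : (datS D n z i j X h₀ S zz q s).v = vS D n z i j X S :=
    funext fun ω => datS_v n z i j X h₀ S zz q s ω
  change (fun ω : D.Ω => dg _ ((nuS D n i j h₀ S ω : ℝ) / 2 ^ h₀ -
    eval ((datS D n z i j X h₀ S zz q s).v ω) (F ω))) = _
  rw [h]

theorem shp_gds {D : NDat2} {n z i j i' j' bb l : ℕ} {S : D.Ω → ℕ → PN} {ω : D.Ω}
    (h : GdsS D n z i j i' j' bb S l ω) (v : Fin (n - 1) → ℝ) :
    eval v (shpS D n z i j i' j' bb S l ω) = eval v (shrS D n z i j i' j' S l ω) -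
      coeff 0 (shrS D n z i j i' j' S l ω) := by
  unfold shpS
  rw [if_pos h, map_sub, eval_C]

theorem nu_near {D : NDat2} {n i j h₀ : ℕ} {S : D.Ω → ℕ → PN} (ω : D.Ω) :
    |(nuS D n i j h₀ S ω : ℝ) / 2 ^ h₀ - ztS D i j S ω n| ≤ 1 / 2 ^ h₀ := by
  have h0 : (0 : ℝ) < 2 ^ h₀ := by positivity
  have h1 := Int.floor_le ((2 : ℝ) ^ h₀ * ztS D i j S ω n)
  have h2 := Int.lt_floor_add_one ((2 : ℝ) ^ h₀ * ztS D i j S ω n)
  unfold nuS
  have e : (⌊(2 : ℝ) ^ h₀ * ztS D i j S ω n⌋ : ℝ) / 2 ^ h₀ - ztS D i j S ω n =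
      ((⌊(2 : ℝ) ^ h₀ * ztS D i j S ω n⌋ : ℝ) - 2 ^ h₀ * ztS D i j S ω n) / 2 ^ h₀ := by
    field_simp
  rw [e, abs_div, abs_of_pos h0]
  refine div_le_div_of_nonneg_right ?_ h0.le
  rw [abs_le]
  constructor <;> linarith

theorem up_sub (z : ℕ) (x y : ℝ) : up z x - up z y = (x - y) / (4 * 2 ^ z) := by
  unfold up
  rw [← sub_div]
  congr 1
  ring

/-- The height of a base coordinate, two samples. -/
theorem base_two {D : NDat2} {n z i j i₁ j₁ X bb : ℕ} {S : D.Ω → ℕ → PN} {ω ω' : D.Ω}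
    {pr : ℕ → ℕ × ℕ} {l : Fin (n - 1)} {δ : ℝ} (hpr : pr (l + 1) = (i₁, j₁))
    (h1 : |ztS D i j S ω (l + 1)| ≤ 1) (h1' : |ztS D i j S ω' (l + 1)| ≤ 1)
    (hg : GdsS D n z i j i₁ j₁ bb S (l + 1) ω)
    (he : shrS D n z i j i₁ j₁ S (l + 1) ω = shrS D n z i j i₁ j₁ S (l + 1) ω')
    (hd : |(ztS D i j S ω (l + 1) - eval (vS D n z i j X S ω)
        (shrS D n z i j i₁ j₁ S (l + 1) ω)) -
      (ztS D i j S ω' (l + 1) - eval (vS D n z i j X S ω')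
        (shrS D n z i j i₁ j₁ S (l + 1) ω'))| ≤ δ * (4 * 2 ^ z / 2 ^ X)) :
    2 ^ X * |(vS D n z i j X S ω l - eval (vS D n z i j X S ω) (shsS D n z i j bb S pr ω l)) -
      (vS D n z i j X S ω' l - eval (vS D n z i j X S ω') (shsS D n z i j bb S pr ω' l))| ≤
      δ + 2 := by
  have hX : (0 : ℝ) < 2 ^ X := by positivity
  have h4 : (0 : ℝ) < 4 * 2 ^ z := by positivity
  have hg' : GdsS D n z i j i₁ j₁ bb S (l + 1) ω' := by
    unfold GdsS at hg ⊢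
    rw [← he]
    exact hg
  have ev : ∀ ω₁, GdsS D n z i j i₁ j₁ bb S (l + 1) ω₁ →
      eval (vS D n z i j X S ω₁) (shsS D n z i j bb S pr ω₁ l) =
      (eval (vS D n z i j X S ω₁) (shrS D n z i j i₁ j₁ S (l + 1) ω₁) -
        coeff 0 (shrS D n z i j i₁ j₁ S (l + 1) ω₁)) / (4 * 2 ^ z) := by
    intro ω₁ h
    unfold shsS
    rw [hpr, map_mul, eval_C, shp_gds h]
    ring
  rw [ev ω hg, ev ω' hg', ← he]
  rw [← he] at hd
  obtain ⟨r, hr⟩ : ∃ r, r = shrS D n z i j i₁ j₁ S (l + 1) ω := ⟨_, rfl⟩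
  rw [← hr] at hd ⊢
  have n1 := vS_near (D := D) (n := n) (z := z) (X := X) (S := S) (ω := ω) (l := l)
    (i := i) (j := j) h1
  have n2 := vS_near (D := D) (n := n) (z := z) (X := X) (S := S) (ω := ω') (l := l)
    (i := i) (j := j) h1'
  have e : (vS D n z i j X S ω l - (eval (vS D n z i j X S ω) r - coeff 0 r) / (4 * 2 ^ z)) -
      (vS D n z i j X S ω' l - (eval (vS D n z i j X S ω') r - coeff 0 r) / (4 * 2 ^ z)) =
      (vS D n z i j X S ω l - up z (ztS D i j S ω (l + 1))) -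
      (vS D n z i j X S ω' l - up z (ztS D i j S ω' (l + 1))) +
      ((ztS D i j S ω (l + 1) - eval (vS D n z i j X S ω) r) -
        (ztS D i j S ω' (l + 1) - eval (vS D n z i j X S ω') r)) / (4 * 2 ^ z) := by
    have := up_sub z (ztS D i j S ω (l + 1)) (ztS D i j S ω' (l + 1))
    have e2 : ((ztS D i j S ω (l + 1) - eval (vS D n z i j X S ω) r) -
        (ztS D i j S ω' (l + 1) - eval (vS D n z i j X S ω') r)) / (4 * 2 ^ z) =
        (up z (ztS D i j S ω (l + 1)) - up z (ztS D i j S ω' (l + 1))) -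
        (eval (vS D n z i j X S ω) r - eval (vS D n z i j X S ω') r) / (4 * 2 ^ z) := by
      rw [this]
      ring
    rw [e2]
    ring
  rw [e]
  have b1 : |((ztS D i j S ω (l + 1) - eval (vS D n z i j X S ω) r) -
        (ztS D i j S ω' (l + 1) - eval (vS D n z i j X S ω') r)) / (4 * 2 ^ z)| ≤ δ / 2 ^ X := by
    rw [abs_div, abs_of_pos h4, div_le_iff₀ h4]
    refine hd.trans (le_of_eq ?_)
    ring
  have b2 := abs_add_le ((vS D n z i j X S ω l - up z (ztS D i j S ω (l + 1))) -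
      (vS D n z i j X S ω' l - up z (ztS D i j S ω' (l + 1))))
      (((ztS D i j S ω (l + 1) - eval (vS D n z i j X S ω) r) -
        (ztS D i j S ω' (l + 1) - eval (vS D n z i j X S ω') r)) / (4 * 2 ^ z))
  have b3 := abs_sub (vS D n z i j X S ω l - up z (ztS D i j S ω (l + 1)))
      (vS D n z i j X S ω' l - up z (ztS D i j S ω' (l + 1)))
  have b4 := mul_le_mul_of_nonneg_left (b2.trans (add_le_add (b3.trans (add_le_add n1 n2)) b1))
    hX.le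
  refine b4.trans (le_of_eq ?_)
  field_simp
  ring

/-- The height of the target, two samples. -/
theorem targ_two {D : NDat2} {n z i j i₁ j₁ X bb h h₀ : ℕ} {S : D.Ω → ℕ → PN} {ω ω' : D.Ω}
    {δ : ℝ} (hδ : 0 ≤ δ) (hh : h ≤ h₀) (hX : h₀ ≤ X)
    (hg : GdsS D n z i j i₁ j₁ bb S n ω)
    (he : shrS D n z i j i₁ j₁ S n ω = shrS D n z i j i₁ j₁ S n ω')
    (hd : |(ztS D i j S ω n - eval (vS D n z i j X S ω) (shrS D n z i j i₁ j₁ S n ω)) -
      (ztS D i j S ω' n - eval (vS D n z i j X S ω') (shrS D n z i j i₁ j₁ S n ω'))| ≤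
        δ * (4 * 2 ^ z / 2 ^ X)) :
    2 ^ h * |((nuS D n i j h₀ S ω : ℝ) / 2 ^ h₀ -
        eval (vS D n z i j X S ω) (shpS D n z i j i₁ j₁ bb S n ω)) -
      ((nuS D n i j h₀ S ω' : ℝ) / 2 ^ h₀ -
        eval (vS D n z i j X S ω') (shpS D n z i j i₁ j₁ bb S n ω'))| ≤
      δ * (4 * 2 ^ z) + 2 := by
  have hg' : GdsS D n z i j i₁ j₁ bb S n ω' := by
    unfold GdsS at hg ⊢
    rw [← he]
    exact hg
  rw [shp_gds hg, shp_gds hg', ← he]
  rw [← he] at hd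
  obtain ⟨r, hr⟩ : ∃ r, r = shrS D n z i j i₁ j₁ S n ω := ⟨_, rfl⟩
  rw [← hr] at hd ⊢
  have n1 := nu_near (D := D) (n := n) (S := S) (i := i) (j := j) (h₀ := h₀) ω
  have n2 := nu_near (D := D) (n := n) (S := S) (i := i) (j := j) (h₀ := h₀) ω'
  have e : ((nuS D n i j h₀ S ω : ℝ) / 2 ^ h₀ - (eval (vS D n z i j X S ω) r - coeff 0 r)) -
      ((nuS D n i j h₀ S ω' : ℝ) / 2 ^ h₀ - (eval (vS D n z i j X S ω') r - coeff 0 r)) =
      (((nuS D n i j h₀ S ω : ℝ) / 2 ^ h₀ - ztS D i j S ω n) -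
        ((nuS D n i j h₀ S ω' : ℝ) / 2 ^ h₀ - ztS D i j S ω' n)) +
      ((ztS D i j S ω n - eval (vS D n z i j X S ω) r) -
        (ztS D i j S ω' n - eval (vS D n z i j X S ω') r)) := by ring
  rw [e]
  have b2 := abs_add_le (((nuS D n i j h₀ S ω : ℝ) / 2 ^ h₀ - ztS D i j S ω n) -
        ((nuS D n i j h₀ S ω' : ℝ) / 2 ^ h₀ - ztS D i j S ω' n))
      ((ztS D i j S ω n - eval (vS D n z i j X S ω) r) -
        (ztS D i j S ω' n - eval (vS D n z i j X S ω') r))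
  have b3 := abs_sub ((nuS D n i j h₀ S ω : ℝ) / 2 ^ h₀ - ztS D i j S ω n)
        ((nuS D n i j h₀ S ω' : ℝ) / 2 ^ h₀ - ztS D i j S ω' n)
  have p1 : (2 : ℝ) ^ h ≤ 2 ^ h₀ := pow_le_pow_right₀ (by norm_num) hh
  have p2 : (2 : ℝ) ^ h ≤ 2 ^ X := pow_le_pow_right₀ (by norm_num) (hh.trans hX)
  have q1 : (2 : ℝ) ^ h * (1 / 2 ^ h₀ + 1 / 2 ^ h₀) ≤ 2 := by
    have : (2 : ℝ) ^ h * (1 / 2 ^ h₀ + 1 / 2 ^ h₀) = 2 * (2 ^ h / 2 ^ h₀) := by ring
    rw [this]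
    have h3 : (2 : ℝ) ^ h / 2 ^ h₀ ≤ 1 := by
      rw [div_le_one (by positivity)]
      exact p1
    linarith
  have q2 : (2 : ℝ) ^ h * (δ * (4 * 2 ^ z / 2 ^ X)) ≤ δ * (4 * 2 ^ z) := by
    have : (2 : ℝ) ^ h * (δ * (4 * 2 ^ z / 2 ^ X)) = δ * (4 * 2 ^ z) * (2 ^ h / 2 ^ X) := by ring
    rw [this]
    have h3 : (2 : ℝ) ^ h / 2 ^ X ≤ 1 := by
      rw [div_le_one (by positivity)]
      exact p2
    calc δ * (4 * 2 ^ z) * (2 ^ h / 2 ^ X) ≤ δ * (4 * 2 ^ z) * 1 :=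
          mul_le_mul_of_nonneg_left h3 (by positivity)
      _ = _ := mul_one _
  have b4 := mul_le_mul_of_nonneg_left (b2.trans (add_le_add (b3.trans (add_le_add n1 n2)) hd))
    (by positivity : (0 : ℝ) ≤ 2 ^ h)
  rw [mul_add] at b4
  linarith

end Pool.GSD
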