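import Pool.Agent.H41.GSD.Own7
import Pool.Agent.H46.MicA.Der

/-!
# The full shape on the composite sheets of another place

`leaf2`: on the composite sheets at the place `(i₁, j₁)`, where the coordinates outside `Ms` are
narrow, the others wide and the target natural, the full shape `F` and the height of the label of
the target there differ by a constant, up to `2 ^ (-X₁)`. The input is that the restriction of `F` to
the sheets outside `Ms` is the own leaf of some place (matching). `near_w`: two points with the same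
coordinates in `Ms`.
-/

set_option autoImplicit false

namespace Pool.GSD

open Finset Real MvPolynomial
open Pool.Agent.H49.Ent Pool.Agent.H32.Dense Pool.STK Pool.STAT Pool.MIC.Frm Pool.MIC7 Pool.FRM
open Pool.MIC Pool.MicA
open Pool.BFL (Pl Pb)
open Pool.TIE (elim elim_vars elim_deg ml_le_of_cb lip2 Dat dg)

/-- The scaled coordinates of the point `b` over the side. -/
noncomputable def wof (D : NDat2) (n z i j : ℕ) (S : D.Ω → ℕ → PN) (ω : D.Ω) (b : ℕ → ℝ)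
    (l : Fin (n - 1)) : ℝ := up z (nat (D.g i j) (S ω) b (l + 1))

section pts

variable {D : NDat2} {n z i j : ℕ} {S : D.Ω → ℕ → PN} {ω : D.Ω} {b : ℕ → ℝ}

theorem fpt_wof (h : TriN (S ω)) (hb : b 0 = D.X ω 0) {r : ℕ} (hr : r < n) :
    fpt D n z i j S ω (wof D n z i j S ω b) r = b r := by
  unfold fpt
  have e : uco n z (wof D n z i j S ω b) =
      ex1 (fun l : Fin (n - 1) => nat (D.g i j) (S ω) b (l + 1)) := by
    funext k
    unfold uco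
    congr 1
    funext l
    unfold wof up
    have : (4 * 2 ^ z : ℝ) ≠ 0 := by positivity
    field_simp
    ring
  rw [e, ← hb]
  exact pt_own h b hr

theorem zs_wof (h : TriN (S ω)) {P : ℕ → PN} (hP : TriN P) (hb : b 0 = D.X ω 0)
    (l : Fin (n - 1)) :
    zs P (fpt D n z i j S ω (wof D n z i j S ω b)) ((l : ℕ) + 1) = zs P b ((l : ℕ) + 1) := by
  have hl := l.2
  unfold zs
  rw [fpt_wof h hb (by omega)]
  congr 1
  exact Pool.SYS35.eval_congr (hP _) fun k hk => fpt_wof h hb (by omega)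

theorem pi_wof (h : TriN (S ω)) {P : ℕ → PN} (hP : TriN P) (hb : b 0 = D.X ω 0) :
    eval (wof D n z i j S ω b) (PiS D n z i j S P ω) =
      2 ^ D.g i j n * (eval b (P n) - eval b (S ω n)) := by
  rw [eval_PiS]
  congr 2
  · exact Pool.SYS35.eval_congr (hP _) fun k hk => fpt_wof h hb hk
  · exact Pool.SYS35.eval_congr (h _) fun k hk => fpt_wof h hb hk

theorem wof_nat (l : Fin (n - 1)) :
    nat (D.g i j) (S ω) b ((l : ℕ) + 1) = 4 * 2 ^ z * wof D n z i j S ω b l - 2 * 2 ^ z := by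
  unfold wof up
  have : (4 * 2 ^ z : ℝ) ≠ 0 := by positivity
  field_simp
  ring

/-- The coordinate in the chart over the frame. -/
theorem zs_nat {P : ℕ → PN} (hP : TriN P) (hb : b 0 = D.X ω 0) {l : ℕ} (hl : 1 ≤ l) :
    zs P b l = eval (zs P b) (ch P (D.X ω 0) (S ω) l) +
      nat (D.g i j) (S ω) b l / 2 ^ D.g i j l := by
  rw [eval_ch hP hb hl]
  unfold zs nat
  have : (2 : ℝ) ^ D.g i j l ≠ 0 := by positivity
  field_simp
  ring

end pts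

/-- The point `b` at the exact time lies on the composite sheets of `S₁`. -/
structure OnS (D : NDat2) (n z i j i₁ j₁ : ℕ) (S S₁ : D.Ω → ℕ → PN) (ω : D.Ω)
    (b : ℕ → ℝ) : Prop where
  t0 : b 0 = D.X ω 0
  on : ∀ l, 1 ≤ l → l < n → D.g i j l < D.g i₁ j₁ l → b l = eval b (S₁ ω l)
  bx : ∀ l, 1 ≤ l → l < n → D.g i₁ j₁ l ≤ D.g i j l →
    |nat (D.g i j) (S ω) b l| ≤ 2 * 2 ^ z

section chart

variable {D : NDat2} {n K₂ z X₁ i j i₁ j₁ : ℕ} {S S₁ : D.Ω → ℕ → PN} {ω : D.Ω} {b : ℕ → ℝ}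
  {P : ℕ → PN} {E : ℝ} {x₀ : ℕ → ℝ}

theorem OnS.cp (h : OnS D n z i j i₁ j₁ S S₁ ω b) (hP : TriN P)
    (hx₀ : eval x₀ (P 0) = D.X ω 0) :
    Cp n (D.g i j) (ch P (D.X ω 0) (S ω)) (ch P (D.X ω 0) (S₁ ω))
      (fun l => D.g i j l < D.g i₁ j₁ l) (nat (D.g i j) (S ω) b) (zs P b) := by
  refine ⟨zs_zero hP h.t0 hx₀, fun l h1 h2 => ⟨fun ht => ?_, fun _ => zs_nat hP h.t0 h1⟩⟩
  rw [eval_ch hP h.t0 h1, ← h.on l h1 h2 ht]
  rfl

/-- The chart coordinates of a point on the composite sheets. -/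
theorem OnS.bd (h : OnS D n z i j i₁ j₁ S S₁ ω b) (hP : TriN P)
    (hx₀ : eval x₀ (P 0) = D.X ω 0) {ε : ℝ} (hE : 6 * 2 ^ z ≤ E)
    (T : Tr K₂ n (D.g i j) (D.g i₁ j₁) (ch P (D.X ω 0) (S ω)) (ch P (D.X ω 0) (S₁ ω))
      (fun l => D.g i j l < D.g i₁ j₁ l) E ε) :
    (∀ l < n, |zs P b l| ≤ (4 * E) ^ dd K₂ n / 2 ^ D.g i j l ∧
      |zs P b l| ≤ (4 * E) ^ dd K₂ n / 2 ^ D.g i₁ j₁ l) ∧
    ∀ l : Fin (n - 1), |wof D n z i j S ω b l| ≤ (4 * E) ^ dd K₂ (n + 2) := by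
  have h2z : (1 : ℝ) ≤ 2 ^ z := one_le_pow₀ (by norm_num)
  have hE1 := T.e1
  have hW4 : 4 ≤ 4 * E := by linarith
  have b1 := T.bd rfl (h.cp hP hx₀) (fun l l1 l2 ht =>
    (h.bx l l1 l2 (not_lt.1 ht)).trans (by linarith))
  have b2 : ∀ l < n, |zs P b l| ≤ (4 * E) ^ dd K₂ n / 2 ^ D.g i j l ∧
      |zs P b l| ≤ (4 * E) ^ dd K₂ n / 2 ^ D.g i₁ j₁ l := fun l hl =>
    ⟨(b1 l hl).1.trans (div_le_div_of_nonneg_right (wpow hE1 rfl hl.le) (by positivity)),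
      (b1 l hl).2.trans (div_le_div_of_nonneg_right (wpow hE1 rfl hl.le) (by positivity))⟩
  refine ⟨b2, fun l => ?_⟩
  have hl := l.2
  have hB : (1 : ℝ) ≤ (4 * E) ^ dd K₂ n := one_le_pow₀ (by linarith)
  have v1 := T.b.val (l := (l : ℕ) + 1) (by omega) hB (β := zs P b)
    (fun k hk => (b2 k (by omega)).1)
  have v2 : |nat (D.g i j) (S ω) b ((l : ℕ) + 1)| ≤ 2 * (4 * E) ^ dd K₂ (n + 1) := by
    have e1 : nat (D.g i j) (S ω) b ((l : ℕ) + 1) = 2 ^ D.g i j (l + 1) *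
        (zs P b (l + 1) - eval (zs P b) (ch P (D.X ω 0) (S ω) (l + 1))) := by
      rw [zs_nat (i := i) (j := j) (S := S) hP h.t0 (Nat.succ_pos _)]
      field_simp
      ring
    rw [e1, abs_mul, abs_of_pos (by positivity : (0 : ℝ) < 2 ^ D.g i j (l + 1))]
    have e2 := abs_sub (zs P b (l + 1)) (eval (zs P b) (ch P (D.X ω 0) (S ω) (l + 1)))
    have e3 := (b2 (l + 1) (by omega)).1
    have e4 : 2 ^ D.g i j (l + 1) *
        |zs P b (l + 1) - eval (zs P b) (ch P (D.X ω 0) (S ω) (l + 1))| ≤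
        2 ^ D.g i j (l + 1) * ((4 * E) ^ dd K₂ n / 2 ^ D.g i j (l + 1) +
          ((4 * E) ^ dd K₂ n) ^ K₂ * E / 2 ^ D.g i j (l + 1)) :=
      mul_le_mul_of_nonneg_left (e2.trans (add_le_add e3 v1)) (by positivity)
    have e5 : 2 ^ D.g i j (l + 1) * ((4 * E) ^ dd K₂ n / 2 ^ D.g i j (l + 1) +
          ((4 * E) ^ dd K₂ n) ^ K₂ * E / 2 ^ D.g i j (l + 1)) =
        (4 * E) ^ dd K₂ n + ((4 * E) ^ dd K₂ n) ^ K₂ * E := by field_simp
    rw [e5] at e4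
    have e6 := sz1 (K := K₂) (l := n) hE1 rfl
    have e7 : (4 * E) ^ dd K₂ n ≤ (4 * E) ^ dd K₂ (n + 1) := wpow hE1 rfl (by omega)
    linarith
  have v3 : |wof D n z i j S ω b l| ≤ |nat (D.g i j) (S ω) b ((l : ℕ) + 1)| + 1 := by
    unfold wof up
    rw [abs_div, abs_of_pos (by positivity : (0 : ℝ) < 4 * 2 ^ z),
      div_le_iff₀ (by positivity)]
    have e1 := abs_add_le (nat (D.g i j) (S ω) b ((l : ℕ) + 1)) (2 * 2 ^ z)
    rw [abs_of_pos (by positivity : (0 : ℝ) < 2 * 2 ^ z)] at e1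
    have p0 := abs_nonneg (nat (D.g i j) (S ω) b ((l : ℕ) + 1))
    nlinarith
  have w := w3 (K := K₂) (l := n + 1) hW4
  have w1 := Wone (K := K₂) hE1 rfl (n + 1)
  linarith

end chart

theorem tr_lo' {K₂ z X c : ℕ} {gb g₁ : ℕ → ℕ} {Fb F₁ : ℕ → PN} {E : ℝ}
    (hX : z + 2 ≤ X) (hE : 6 * 2 ^ z ≤ E) (hb : Nb K₂ c gb Fb E) (ho : Nb K₂ c g₁ F₁ E)
    (hL : ∀ l, 1 ≤ l → l < c → (g₁ l ≤ gb l ∧ X + g₁ l + gb c ≤ g₁ c + gb l) ∨
      gb l + X ≤ g₁ l) :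
    Tr K₂ c gb g₁ Fb F₁ (fun l => gb l < g₁ l) E (4 * 2 ^ z / 2 ^ X) := by
  have h2z : (1 : ℝ) ≤ 2 ^ z := one_le_pow₀ (by norm_num)
  have h2X : (0 : ℝ) < 2 ^ X := by positivity
  have hε : (2 : ℝ) ^ X * (4 * 2 ^ z / 2 ^ X) = 4 * 2 ^ z := by
    field_simp
  have hε1 : 1 ≤ (2 : ℝ) ^ X * (4 * 2 ^ z / 2 ^ X) := by
    rw [hε]
    linarith
  have hε0 : (0 : ℝ) ≤ 4 * 2 ^ z / 2 ^ X := by positivity
  refine ⟨hb, ho, by linarith, hε0, ?_, ?_, ?_, ?_⟩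
  · rw [div_le_one h2X]
    calc (4 : ℝ) * 2 ^ z = 2 ^ (z + 2) := by
          rw [pow_add]
          ring
      _ ≤ 2 ^ X := pow_le_pow_right₀ (by norm_num) hX
  · intro l h1 h2 ht
    rcases hL l h1 h2 with h3 | h3
    · exact absurd h3.1 (not_le.2 ht)
    · have h4 : (2 : ℝ) ^ gb l * 2 ^ X ≤ 2 ^ g₁ l := by
        rw [← pow_add]
        exact pow_le_pow_right₀ (by norm_num) h3
      calc (2 : ℝ) ^ gb l = 2 ^ gb l * 1 := (mul_one _).symm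
        _ ≤ 2 ^ gb l * (2 ^ X * (4 * 2 ^ z / 2 ^ X)) :=
            mul_le_mul_of_nonneg_left hε1 (by positivity)
        _ = 4 * 2 ^ z / 2 ^ X * (2 ^ gb l * 2 ^ X) := by ring
        _ ≤ 4 * 2 ^ z / 2 ^ X * 2 ^ g₁ l := mul_le_mul_of_nonneg_left h4 hε0
  · intro l h1 h2 ht
    exact not_lt.1 ht
  · intro l h1 h2 ht
    rcases hL l h1 h2 with h3 | h3
    · have h4 : (2 : ℝ) ^ X * 2 ^ g₁ l * 2 ^ gb c ≤ 2 ^ g₁ c * 2 ^ gb l := by
        rw [← pow_add, ← pow_add, ← pow_add]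
        exact pow_le_pow_right₀ (by norm_num) h3.2
      calc (2 : ℝ) ^ gb c * 2 ^ g₁ l = 1 * (2 ^ gb c * 2 ^ g₁ l) := (one_mul _).symm
        _ ≤ (2 ^ X * (4 * 2 ^ z / 2 ^ X)) * (2 ^ gb c * 2 ^ g₁ l) :=
            mul_le_mul_of_nonneg_right hε1 (by positivity)
        _ = 4 * 2 ^ z / 2 ^ X * (2 ^ X * 2 ^ g₁ l * 2 ^ gb c) := by ring
        _ ≤ 4 * 2 ^ z / 2 ^ X * (2 ^ g₁ c * 2 ^ gb l) :=
            mul_le_mul_of_nonneg_left h4 hε0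
        _ = 4 * 2 ^ z / 2 ^ X * 2 ^ g₁ c * 2 ^ gb l := by ring
    · exact absurd (lt_of_lt_of_le (by
        change gb l < gb l + X
        have := h2z
        omega) h3) ht

/-- **The full shape on the composite sheets of another place.** -/
theorem leaf2 (n K' Ds KF : ℕ) (C : ℝ) (hC : 0 ≤ C) : ∃ C' : ℝ, 0 ≤ C' ∧
    ∀ (D : NDat2)
    (K z X X₁ M i j iA jA i₁ j₁ bb t : ℕ) (pr : ℕ → ℕ × ℕ) (Ms : Finset (Fin (n - 1)))
    (S S₁ : D.Ω → ℕ → PN) (ω : D.Ω) (P : ℕ → PN) (nn : Fin (n - 1) → ℝ)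
    (s : Fin (n - 1) → Pl (n - 1)) (F F' : Pl (n - 1)) (B : ℝ), K ≤ K' → 1 ≤ z →
    z + 2 ≤ X → C' * z ≤ bb → C' * z ≤ X → 1 ≤ n → i < M → j < M → iA < M → jA < M →
    i₁ < M → j₁ < M → z + 2 ≤ X₁ → X₁ ≤ X →
    (∀ i j x, TriN (D.G i j x)) → (∀ i j x l, (D.G i j x l).totalDegree ≤ K) →
    FrP D n K' M z C P ω → Sd D n K i j S ω → Lo D n X (i, j) (iA, jA) →
    (∀ l : Fin (n - 1), l ∈ Ms ↔ D.g iA jA (l + 1) ≤ D.g i j (l + 1)) →
    (∀ l : Fin (n - 1), l ∉ Ms → (pr (l + 1)).1 < M ∧ (pr (l + 1)).2 < M ∧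
      Lo D (l + 1) X (i, j) (pr (l + 1)) ∧ ∀ k : Fin (n - 1), k < l →
        D.g i j (k + 1) < D.g (pr (l + 1)).1 (pr (l + 1)).2 (k + 1) → k ∉ Ms) →
    Shn D n z X i j bb Ds S pr ω Ms s →
    (∀ l : Fin (n - 1), l ∉ Ms → |nn l - (vS D n z i j X S ω l -
      eval (vS D n z i j X S ω) (s l))| ≤ 1 / 2 ^ X) →
    F.totalDegree ≤ KF → F'.totalDegree ≤ KF → 1 ≤ B → (∀ α, |coeff α F| ≤ B) →
    (∀ α, α ≠ 0 → |coeff α F' - coeff α F| ≤ 1 / 2 ^ t) →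
    (∀ α, α ≠ 0 → |coeff α (bind₁ (elim Ms nn s (n - 1)) F) -
      coeff α (shpS D n z i j iA jA bb S n ω)| ≤ 1 / 2 ^ t) →
    Sd D n K i₁ j₁ S₁ ω →
    (∀ l : Fin (n - 1), (l ∉ Ms → D.g i j (l + 1) + X₁ ≤ D.g i₁ j₁ (l + 1)) ∧
      (l ∈ Ms → D.g i₁ j₁ (l + 1) ≤ D.g i j (l + 1) ∧
        X₁ + D.g i₁ j₁ (l + 1) + D.g i j n ≤ D.g i₁ j₁ n + D.g i j (l + 1))) →
    ∀ b b' : ℕ → ℝ, OnS D n z i j i₁ j₁ S S₁ ω b → OnS D n z i j i₁ j₁ S S₁ ω b' →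
      |(eval (wof D n z i j S ω b) F' - 2 ^ D.g i j n * (eval b (S₁ ω n) - eval b (S ω n))) -
        (eval (wof D n z i j S ω b') F' -
          2 ^ D.g i j n * (eval b' (S₁ ω n) - eval b' (S ω n)))| ≤
        exp (C' * z) * (B / 2 ^ X₁ + 1 / 2 ^ t) := by
  obtain ⟨C₂, hC₂, hpk⟩ := fr_pack n K' C hC
  obtain ⟨K₂, hK₂⟩ : ∃ K₂ : ℕ, K₂ = K' * (K' + 1) ^ n := ⟨_, rfl⟩
  obtain ⟨a₀, ha₀⟩ : ∃ a₀ : ℝ, a₀ = (C₂ + 2) * dd K₂ (n + 2) := ⟨_, rfl⟩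
  have ha₀0 : 0 ≤ a₀ := by rw [ha₀]; positivity
  obtain ⟨C₃, hC₃, hcore⟩ := tot_core n K' Ds KF C a₀ hC ha₀0
  refine ⟨C₃ + 2 * a₀ + 4, by positivity, ?_⟩
  intro D K z X X₁ M i j iA jA i₁ j₁ bb t pr Ms S S₁ ω P nn s F F' B hK hz hX hbb hXz hn1 hi hj
    hiA hjA hi₁ hj₁ hX₁ hXX tG dG hF hS hLA hMs hpr hs hnn dF dF' hB hFc hFF hmt hS₁ hL₁ b b' hb
    hb'
  have hzr : (1 : ℝ) ≤ z := by exact_mod_cast hz
  have hz0 : (0 : ℝ) ≤ z := by linarith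
  have hle : C₃ * z ≤ (C₃ + 2 * a₀ + 4) * z := mul_le_mul_of_nonneg_right (by linarith) hz0
  obtain ⟨hNb, _, hE⟩ := hpk D K z M i j S ω P hK hz hi hj tG dG hF hS
  obtain ⟨hN₁, _, _⟩ := hpk D K z M i₁ j₁ S₁ ω P hK hz hi₁ hj₁ tG dG hF hS₁
  have hF' := hF
  obtain ⟨hP, dP, vP, nP⟩ := hF'
  have hx₀ : eval (D.X ω) (P 0) = D.X ω 0 := vP 0 (Nat.zero_le _)
  obtain ⟨E, hEe⟩ : ∃ E : ℝ, E = exp (C₂ * z) := ⟨_, rfl⟩
  rw [← hEe, ← hK₂] at hNb hN₁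
  rw [← hEe] at hE
  have h2z : (1 : ℝ) ≤ 2 ^ z := one_le_pow₀ (by norm_num)
  have hE1 : 1 ≤ E := by linarith
  have hEa : ∀ k ≤ n + 2, (4 * E) ^ dd K₂ k ≤ exp (a₀ * z) := fun k hk => by
    rw [hEe, ha₀]
    exact w_le hz hC₂ (dd_mono hk)
  -- the place
  have T := tr_lo' (g₁ := D.g i₁ j₁) hX₁ hE (hNb n le_rfl) (hN₁ n le_rfl) (fun l l1 l2 => by
    obtain ⟨l', rfl⟩ : ∃ l', l = l' + 1 := ⟨l - 1, by omega⟩
    have hl' : l' < n - 1 := by omega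
    by_cases hM : (⟨l', hl'⟩ : Fin (n - 1)) ∈ Ms
    · left
      exact (hL₁ ⟨l', hl'⟩).2 hM
    · right
      exact (hL₁ ⟨l', hl'⟩).1 hM)
  have b1 := hb.bd hP hx₀ hE T
  have b1' := hb'.bd hP hx₀ hE T
  have top := T.top rfl (hb.cp hP hx₀) (hb'.cp hP hx₀)
    (fun l l1 l2 ht => (hb.bx l l1 l2 (not_lt.1 ht)).trans (by linarith))
    (fun l l1 l2 ht => (hb'.bx l l1 l2 (not_lt.1 ht)).trans (by linarith))
  -- the core
  obtain ⟨A, hA⟩ : ∃ A : ℝ, A = (4 * E) ^ dd K₂ n * 2 ^ (X - X₁) := ⟨_, rfl⟩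
  have hA1 : 1 ≤ A := by
    rw [hA]
    exact one_le_mul_of_one_le_of_one_le (one_le_pow₀ (by linarith))
      (one_le_pow₀ (by norm_num))
  have hAX : A / 2 ^ X = (4 * E) ^ dd K₂ n / 2 ^ X₁ := by
    have e : (2 : ℝ) ^ X = 2 ^ (X - X₁) * 2 ^ X₁ := by
      rw [← pow_add]
      congr 1
      omega
    rw [hA, e]
    field_simp
  have near : ∀ c : ℕ → ℝ, OnS D n z i j i₁ j₁ S S₁ ω c → ∀ l : Fin (n - 1), l ∉ Ms →
      |zs P (fpt D n z i j S ω (wof D n z i j S ω c)) ((l : ℕ) + 1)| ≤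
        A / 2 ^ X / 2 ^ D.g i j (l + 1) := by
    intro c hc l hl
    have hl2 := l.2
    rw [zs_wof hS.tri hP hc.t0, hAX]
    refine (((hc.bd hP hx₀ hE T).1 ((l : ℕ) + 1) (by omega)).2).trans ?_
    rw [div_div]
    refine div_le_div_of_nonneg_left (by positivity) (by positivity) ?_
    rw [← pow_add]
    refine pow_le_pow_right₀ (by norm_num) ?_
    have := (hL₁ l).1 hl
    omega
  have box : ∀ c : ℕ → ℝ, OnS D n z i j i₁ j₁ S S₁ ω c → ∀ l ∈ Ms,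
      |wof D n z i j S ω c l| ≤ 1 := by
    intro c hc l hl
    have hl2 := l.2
    have h1 := hc.bx ((l : ℕ) + 1) (Nat.succ_pos _) (by omega) ((hL₁ l).2 hl).1
    unfold wof up
    rw [abs_div, abs_of_pos (by positivity : (0 : ℝ) < 4 * 2 ^ z),
      div_le_one (by positivity)]
    have e1 := abs_add_le (nat (D.g i j) (S ω) c ((l : ℕ) + 1)) (2 * 2 ^ z)
    rw [abs_of_pos (by positivity : (0 : ℝ) < 2 * 2 ^ z)] at e1
    linarith
  have core := hcore D K z X M i j iA jA bb t pr Ms S ω P nn s F F' A B hK hz hX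
    (hle.trans hbb) (hle.trans hXz) hn1 hi hj hiA hjA tG dG hF hS hLA hMs hpr hs hnn dF dF' hA1
    hB hFc hFF hmt (wof D n z i j S ω b) (wof D n z i j S ω b')
    (fun l => (b1.2 l).trans (hEa _ le_rfl)) (fun l => (b1'.2 l).trans (hEa _ le_rfl))
    (box b hb) (box b' hb') (near b hb) (near b' hb')
  rw [pi_wof hS.tri hP hb.t0, pi_wof hS.tri hP hb'.t0] at core
  rw [eval_ch hP hb.t0 hn1, eval_ch hP hb'.t0 hn1] at top
  -- together
  have h2X₁ : (0 : ℝ) < 2 ^ X₁ := by positivity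
  have hg : (0 : ℝ) < 2 ^ D.g i j n := by positivity
  have e1 : (eval (wof D n z i j S ω b) F' -
        2 ^ D.g i j n * (eval b (S₁ ω n) - eval b (S ω n))) -
      (eval (wof D n z i j S ω b') F' -
        2 ^ D.g i j n * (eval b' (S₁ ω n) - eval b' (S ω n))) =
      ((eval (wof D n z i j S ω b) F' - 2 ^ D.g i j n * (eval b (P n) - eval b (S ω n))) -
        (eval (wof D n z i j S ω b') F' -
          2 ^ D.g i j n * (eval b' (P n) - eval b' (S ω n)))) -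
      2 ^ D.g i j n * ((eval b (S₁ ω n) - eval b (P n)) -
        (eval b' (S₁ ω n) - eval b' (P n))) := by ring
  have e2 : |2 ^ D.g i j n * ((eval b (S₁ ω n) - eval b (P n)) -
      (eval b' (S₁ ω n) - eval b' (P n)))| ≤ exp ((a₀ + 3) * z) / 2 ^ X₁ := by
    rw [abs_mul, abs_of_pos hg]
    refine top.trans ?_
    rw [← mul_div_assoc]
    refine div_le_div_of_nonneg_right ?_ h2X₁.le
    have := six_le hz
    calc (4 * E) ^ dd K₂ (n + 1) * (4 * 2 ^ z) ≤ exp (a₀ * z) * exp (3 * z) :=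
          mul_le_mul (hEa _ (by omega)) (by linarith) (by positivity) (exp_pos _).le
      _ = exp ((a₀ + 3) * z) := by
          rw [← exp_add]
          congr 1
          ring
  rw [e1]
  refine (abs_sub _ _).trans ((add_le_add core e2).trans ?_)
  have e3 : A * B / 2 ^ X = A / 2 ^ X * B := by ring
  rw [e3, hAX]
  have hC3p : 0 < exp (C₃ * z) := exp_pos _
  have e4 : exp (C₃ * z) * ((4 * E) ^ dd K₂ n / 2 ^ X₁ * B + 1 / 2 ^ t) ≤
      exp ((C₃ + a₀) * z) * (B / 2 ^ X₁ + 1 / 2 ^ t) := by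
    have f1 : (4 * E) ^ dd K₂ n ≤ exp (a₀ * z) := hEa n (by omega)
    have f2 : 1 ≤ exp (a₀ * z) := one_le_exp (by positivity)
    have f3 : exp ((C₃ + a₀) * z) = exp (C₃ * z) * exp (a₀ * z) := by
      rw [← exp_add]
      congr 1
      ring
    rw [f3, mul_assoc]
    refine mul_le_mul_of_nonneg_left ?_ hC3p.le
    rw [mul_add]
    refine add_le_add ?_ (le_mul_of_one_le_left (by positivity) f2)
    have f4 : (4 * E) ^ dd K₂ n / 2 ^ X₁ * B = (4 * E) ^ dd K₂ n * (B / 2 ^ X₁) := by ring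
    rw [f4]
    exact mul_le_mul_of_nonneg_right f1 (by positivity)
  refine (add_le_add e4 le_rfl).trans ?_
  obtain ⟨Y, hY⟩ : ∃ Y : ℝ, Y = B / 2 ^ X₁ + 1 / 2 ^ t := ⟨_, rfl⟩
  have hY1 : 1 / 2 ^ X₁ ≤ Y := by
    rw [hY]
    have : 1 / 2 ^ X₁ ≤ B / 2 ^ X₁ := div_le_div_of_nonneg_right hB h2X₁.le
    have : (0 : ℝ) ≤ 1 / 2 ^ t := by positivity
    linarith
  have hY0 : 0 ≤ Y := by
    have : (0 : ℝ) ≤ 1 / 2 ^ X₁ := by positivity
    linarith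
  rw [← hY]
  have g2 : exp ((a₀ + 3) * z) / 2 ^ X₁ ≤ exp ((a₀ + 3) * z) * Y := by
    rw [div_eq_mul_one_div]
    exact mul_le_mul_of_nonneg_left hY1 (exp_pos _).le
  refine (add_le_add le_rfl g2).trans ?_
  rw [← add_mul]
  refine mul_le_mul_of_nonneg_right ?_ hY0
  have g6 : (2 : ℝ) ≤ exp z := by
    have h1 := Real.exp_one_gt_d9
    have h2 := exp_le_exp.2 hzr
    linarith
  have p1 : 1 ≤ exp ((C₃ + a₀) * z) := one_le_exp (by positivity)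
  have p2 : 1 ≤ exp ((a₀ + 3) * z) := one_le_exp (by positivity)
  have p3 : exp ((C₃ + a₀) * z) + exp ((a₀ + 3) * z) ≤
      2 * (exp ((C₃ + a₀) * z) * exp ((a₀ + 3) * z)) := by nlinarith
  have g5 : exp ((C₃ + 2 * a₀ + 4) * z) =
      exp z * (exp ((C₃ + a₀) * z) * exp ((a₀ + 3) * z)) := by
    rw [← exp_add, ← exp_add]
    congr 1
    ring
  rw [g5]
  exact p3.trans (mul_le_mul_of_nonneg_right g6 (by positivity))

/-- The heights of the data, in the form of `tot_core`, `leaf2`. -/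
theorem ht_nn (D : NDat2) {Γ' : Type} (n z i j X h₀ : ℕ) (S : D.Ω → ℕ → PN)
    (zz : D.Ω → Γ') (q : D.Ω → ℝ) (s : D.Ω → Fin (n - 1) → Pl (n - 1)) (ω : D.Ω)
    (l : Fin (n - 1)) :
    |((datS D n z i j X h₀ S zz q s).ht l ω : ℝ) / 2 ^ X - (vS D n z i j X S ω l -
      eval (vS D n z i j X S ω) (s ω l))| ≤ 1 / 2 ^ X := by
  have e := congrFun (datS_ht n z i j X h₀ S zz q s l) ω
  have e2 : (datS D n z i j X h₀ S zz q s).ht l ω =
    dg X (vS D n z i j X S ω l - eval (vS D n z i j X S ω) (s ω l)) := e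
  rw [e2]
  exact dg_div X _

/-- **Two points with the same coordinates in `Ms`**, near to the frame outside. -/
theorem near_w (n K' KF : ℕ) (C a₀ : ℝ) (hC : 0 ≤ C) (ha₀ : 0 ≤ a₀) : ∃ C' : ℝ, 0 ≤ C' ∧
    ∀ (D : NDat2) (K z M i j X : ℕ) (Ms : Finset (Fin (n - 1)))
    (S : D.Ω → ℕ → PN) (ω : D.Ω) (P : ℕ → PN) (F : Pl (n - 1)) (A B : ℝ), K ≤ K' → 1 ≤ z →
    i < M → j < M → (∀ i j x, TriN (D.G i j x)) → (∀ i j x l, (D.G i j x l).totalDegree ≤ K) →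
    FrP D n K' M z C P ω → Sd D n K i j S ω → F.totalDegree ≤ KF → 0 ≤ A → 0 ≤ B →
    (∀ α, |coeff α F| ≤ B) → ∀ b b' : ℕ → ℝ, b 0 = D.X ω 0 → b' 0 = D.X ω 0 →
    (∀ l, |wof D n z i j S ω b l| ≤ exp (a₀ * z)) →
    (∀ l, |wof D n z i j S ω b' l| ≤ exp (a₀ * z)) →
    (∀ l ∈ Ms, wof D n z i j S ω b l = wof D n z i j S ω b' l) →
    (∀ l, l ∉ Ms → |zs P b ((l : ℕ) + 1)| ≤ A / 2 ^ X / 2 ^ D.g i j (l + 1)) →
    (∀ l, l ∉ Ms → |zs P b' ((l : ℕ) + 1)| ≤ A / 2 ^ X / 2 ^ D.g i j (l + 1)) →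
    (∀ l, |wof D n z i j S ω b l - wof D n z i j S ω b' l| ≤ exp (C' * z) * (A / 2 ^ X)) ∧
      |eval (wof D n z i j S ω b) F - eval (wof D n z i j S ω b') F| ≤
        exp (C' * z) * (A * B / 2 ^ X) := by
  obtain ⟨C₂, hC₂, hpk⟩ := fr_pack n K' C hC
  obtain ⟨K₂, hK₂⟩ : ∃ K₂ : ℕ, K₂ = K' * (K' + 1) ^ n := ⟨_, rfl⟩
  obtain ⟨c₁, hc₁⟩ : ∃ c₁ : ℝ, c₁ = (C₂ + a₀ + 2) * dd K₂ (n + 1) + 2 := ⟨_, rfl⟩
  have hc₁0 : 0 ≤ c₁ := by rw [hc₁]; positivity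
  obtain ⟨a₁, ha₁⟩ : ∃ a₁ : ℝ, a₁ = ((KF : ℝ) + 1) ^ (n - 1) * KF := ⟨_, rfl⟩
  have ha₁0 : 0 ≤ a₁ := by rw [ha₁]; positivity
  have hl1 : 0 ≤ Real.log (a₁ + 1) := Real.log_nonneg (by linarith)
  refine ⟨c₁ + Real.log (a₁ + 1) + a₀ * KF, by positivity, ?_⟩
  intro D K z M i j X Ms S ω P F A B hK hz hi hj tG dG hF hS dF hA hB hFc b b' hb hb' hw hw' hM
    hn hn'
  have hzr : (1 : ℝ) ≤ z := by exact_mod_cast hz
  have hz0 : (0 : ℝ) ≤ z := by linarith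
  obtain ⟨hNb, _, hE⟩ := hpk D K z M i j S ω P hK hz hi hj tG dG hF hS
  obtain ⟨hP, dP, vP, nP⟩ := hF
  have hx₀ : eval (D.X ω) (P 0) = D.X ω 0 := vP 0 (Nat.zero_le _)
  obtain ⟨E, hEe⟩ : ∃ E : ℝ, E = exp ((C₂ + a₀) * z) := ⟨_, rfl⟩
  obtain ⟨R, hR⟩ : ∃ R : ℝ, R = exp (a₀ * z) := ⟨_, rfl⟩
  rw [← hR] at hw hw'
  rw [← hK₂] at hNb
  have hR1 : 1 ≤ R := by rw [hR]; exact one_le_exp (by positivity)
  have hE1 : exp (C₂ * z) * R = E := by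
    rw [hEe, hR, ← exp_add]
    congr 1
    ring
  have hCE : exp (C₂ * z) ≤ E := by
    rw [← hE1]
    exact le_mul_of_one_le_right (exp_pos _).le hR1
  have h2z : (1 : ℝ) ≤ 2 ^ z := one_le_pow₀ (by norm_num)
  have hE2 : 1 ≤ E := by linarith
  have h2X : (0 : ℝ) < 2 ^ X := by positivity
  have bx : ∀ c : ℕ → ℝ, (∀ l, |wof D n z i j S ω c l| ≤ R) → ∀ k, 1 ≤ k → k < n →
      |nat (D.g i j) (S ω) c k| ≤ E := by
    intro c hc k k1 k2
    obtain ⟨k', rfl⟩ : ∃ k', k = k' + 1 := ⟨k - 1, by omega⟩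
    have hk' : k' < n - 1 := by omega
    have e1 := wof_nat (D := D) (n := n) (z := z) (i := i) (j := j) (S := S) (ω := ω) (b := c)
      ⟨k', hk'⟩
    have e : ((⟨k', hk'⟩ : Fin (n - 1)) : ℕ) = k' := rfl
    rw [e] at e1
    rw [e1, ← hE1]
    have e2 := hc ⟨k', hk'⟩
    refine (abs_sub _ _).trans ?_
    rw [abs_mul, abs_of_pos (by positivity : (0 : ℝ) < 4 * 2 ^ z),
      abs_of_pos (by positivity : (0 : ℝ) < 2 * 2 ^ z)]
    have e3 : 4 * 2 ^ z * |wof D n z i j S ω c ⟨k', hk'⟩| + 2 * 2 ^ z ≤ 6 * 2 ^ z * R := by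
      nlinarith
    exact e3.trans (mul_le_mul_of_nonneg_right hE (by linarith))
  have pt : ∀ c : ℕ → ℝ, c 0 = D.X ω 0 →
      Ptl n (D.g i j) (ch P (D.X ω 0) (S ω)) (nat (D.g i j) (S ω) c) (zs P c) := fun c hc =>
    ⟨zs_zero hP hc hx₀, fun l l1 _ => zs_nat hP hc l1⟩
  have two := ((hNb n le_rfl).mono le_rfl hCE).two (W := 4 * E) (ε := 2 * (A / 2 ^ X))
    (M := inM Ms) hE2 rfl (by positivity) (pt b hb) (pt b' hb') (bx b hw) (bx b' hw')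
    (fun k k1 k2 hk => by
      obtain ⟨k', rfl⟩ : ∃ k', k = k' + 1 := ⟨k - 1, by omega⟩
      have hk' : k' < n - 1 := by omega
      have e1 := wof_nat (D := D) (n := n) (z := z) (i := i) (j := j) (S := S) (ω := ω) (b := b)
        ⟨k', hk'⟩
      have e1' := wof_nat (D := D) (n := n) (z := z) (i := i) (j := j) (S := S) (ω := ω)
        (b := b') ⟨k', hk'⟩
      have e : ((⟨k', hk'⟩ : Fin (n - 1)) : ℕ) = k' := rfl
      rw [e] at e1 e1'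
      have e3 : wof D n z i j S ω b ⟨k', hk'⟩ = wof D n z i j S ω b' ⟨k', hk'⟩ := hM _ (hk hk')
      rw [e1, e1', e3, sub_self, abs_zero]
      positivity)
    (fun k k1 k2 hk => by
      obtain ⟨k', rfl⟩ : ∃ k', k = k' + 1 := ⟨k - 1, by omega⟩
      have hk' : k' < n - 1 := by omega
      have hM' : (⟨k', hk'⟩ : Fin (n - 1)) ∉ Ms := fun h => hk fun _ => h
      refine (abs_sub _ _).trans ((add_le_add (hn _ hM') (hn' _ hM')).trans (le_of_eq ?_))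
      change A / 2 ^ X / 2 ^ D.g i j (k' + 1) + A / 2 ^ X / 2 ^ D.g i j (k' + 1) = _
      ring)
  have hEd : (4 * E) ^ dd K₂ (n + 1) ≤ exp ((C₂ + a₀ + 2) * dd K₂ (n + 1) * z) := by
    rw [hEe]
    exact w_le hz (by positivity) le_rfl
  have hdif : ∀ l, |wof D n z i j S ω b l - wof D n z i j S ω b' l| ≤
      exp (c₁ * z) * (A / 2 ^ X) := by
    intro l
    have hl := l.2
    have t := two ((l : ℕ) + 1) (Nat.succ_pos _) (by omega)
    rw [wof_nat l, wof_nat l] at t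
    have e2 : (4 * 2 ^ z * wof D n z i j S ω b l - 2 * 2 ^ z) -
        (4 * 2 ^ z * wof D n z i j S ω b' l - 2 * 2 ^ z) =
        4 * 2 ^ z * (wof D n z i j S ω b l - wof D n z i j S ω b' l) := by ring
    rw [e2, abs_mul, abs_of_pos (by positivity : (0 : ℝ) < 4 * 2 ^ z)] at t
    have h3 : (4 * E) ^ dd K₂ ((l : ℕ) + 1 + 2) ≤ (4 * E) ^ dd K₂ (n + 1) :=
      wpow hE2 rfl (by omega)
    have h4 : |wof D n z i j S ω b l - wof D n z i j S ω b' l| ≤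
        4 * 2 ^ z * |wof D n z i j S ω b l - wof D n z i j S ω b' l| := by
      refine le_mul_of_one_le_left (abs_nonneg _) ?_
      linarith
    refine h4.trans (t.trans ?_)
    have h5 : (4 * E) ^ dd K₂ ((l : ℕ) + 1 + 2) ≤
        exp ((C₂ + a₀ + 2) * dd K₂ (n + 1) * z) := h3.trans hEd
    have h6 : (2 : ℝ) ≤ exp (2 * z) := by
      have h1 := Real.exp_one_gt_d9
      have h2 := exp_le_exp.2 (by linarith : (1 : ℝ) ≤ 2 * z)
      linarith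
    calc (4 * E) ^ dd K₂ ((l : ℕ) + 1 + 2) * (2 * (A / 2 ^ X)) ≤
          exp ((C₂ + a₀ + 2) * dd K₂ (n + 1) * z) * (exp (2 * z) * (A / 2 ^ X)) :=
          mul_le_mul h5 (mul_le_mul_of_nonneg_right h6 (by positivity)) (by positivity)
            (exp_pos _).le
      _ = exp (c₁ * z) * (A / 2 ^ X) := by
          rw [← mul_assoc, ← exp_add, hc₁]
          congr 2
          ring
  have hc₁' : exp (c₁ * z) ≤ exp ((c₁ + Real.log (a₁ + 1) + a₀ * KF) * z) :=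
    exp_le_exp.2 (mul_le_mul_of_nonneg_right (by
      have : 0 ≤ a₀ * KF := by positivity
      linarith) hz0)
  have hAX : 0 ≤ A / 2 ^ X := by positivity
  refine ⟨fun l => (hdif l).trans (mul_le_mul_of_nonneg_right hc₁' hAX), ?_⟩
  have l1 := lip2 hR1 dF hw hw' (by positivity : 0 ≤ exp (c₁ * z) * (A / 2 ^ X)) hdif
  have mF : Pool.GLM.ml F ≤ ((KF : ℝ) + 1) ^ (n - 1) * B := ml_le_of_cb dF hB hFc
  refine l1.trans ((mul_le_mul_of_nonneg_right mF (by positivity)).trans ?_)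
  have e1 : ((KF : ℝ) + 1) ^ (n - 1) * B * (KF * R ^ KF * (exp (c₁ * z) * (A / 2 ^ X))) =
      a₁ * R ^ KF * exp (c₁ * z) * (A * B / 2 ^ X) := by
    rw [ha₁]
    ring
  rw [e1]
  refine mul_le_mul_of_nonneg_right ?_ (by positivity)
  have e2 : a₁ ≤ exp (Real.log (a₁ + 1) * z) := by
    calc a₁ ≤ a₁ + 1 := by linarith
      _ = exp (Real.log (a₁ + 1)) := (exp_log (by linarith)).symm
      _ ≤ _ := exp_le_exp.2 (by nlinarith)
  have e3 : R ^ KF = exp (a₀ * KF * z) := by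
    rw [hR, ← exp_nat_mul]
    congr 1
    ring
  calc a₁ * R ^ KF * exp (c₁ * z) ≤
        exp (Real.log (a₁ + 1) * z) * exp (a₀ * KF * z) * exp (c₁ * z) := by
        rw [e3]
        exact mul_le_mul_of_nonneg_right (mul_le_mul_of_nonneg_right e2 (exp_pos _).le)
          (exp_pos _).le
    _ = exp ((c₁ + Real.log (a₁ + 1) + a₀ * KF) * z) := by
        rw [← exp_add, ← exp_add]
        congr 1
        ring

end Pool.GSD
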