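import Pool.Agent.H41.GSD.Own8
import Pool.Agent.H41.GSD.Lf2

/-!
# The full shape on the composite sheets of another place, wide coordinates in a large box

`leaf2R`: as `leaf2`, the natural coordinates in `Ms` are bounded by `exp (a₀ * z)`.
-/

set_option autoImplicit false

namespace Pool.GSD

open Finset Real MvPolynomial
open Pool.Agent.H49.Ent Pool.Agent.H32.Dense Pool.STK Pool.STAT Pool.MIC.Frm Pool.MIC7 Pool.FRM
open Pool.MIC Pool.MicA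
open Pool.BFL (Pl Pb)
open Pool.TIE (elim elim_vars elim_deg ml_le_of_cb lip2 Dat dg)

/-- The point `b` at the exact time lies on the composite sheets of `S₁`, the other coordinates
are bounded by `ρ`. -/
structure OnSR (D : NDat2) (n i j i₁ j₁ : ℕ) (S S₁ : D.Ω → ℕ → PN) (ω : D.Ω) (ρ : ℝ)
    (b : ℕ → ℝ) : Prop where
  t0 : b 0 = D.X ω 0
  on : ∀ l, 1 ≤ l → l < n → D.g i j l < D.g i₁ j₁ l → b l = eval b (S₁ ω l)
  bx : ∀ l, 1 ≤ l → l < n → D.g i₁ j₁ l ≤ D.g i j l →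
    |nat (D.g i j) (S ω) b l| ≤ ρ

section chart

variable {D : NDat2} {n K₂ z X₁ i j i₁ j₁ : ℕ} {S S₁ : D.Ω → ℕ → PN} {ω : D.Ω} {b : ℕ → ℝ}
  {P : ℕ → PN} {E ρ : ℝ} {x₀ : ℕ → ℝ}

theorem OnSR.cp (h : OnSR D n i j i₁ j₁ S S₁ ω ρ b) (hP : TriN P)
    (hx₀ : eval x₀ (P 0) = D.X ω 0) :
    Cp n (D.g i j) (ch P (D.X ω 0) (S ω)) (ch P (D.X ω 0) (S₁ ω))
      (fun l => D.g i j l < D.g i₁ j₁ l) (nat (D.g i j) (S ω) b) (zs P b) := by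
  refine ⟨zs_zero hP h.t0 hx₀, fun l h1 h2 => ⟨fun ht => ?_, fun _ => zs_nat hP h.t0 h1⟩⟩
  rw [eval_ch hP h.t0 h1, ← h.on l h1 h2 ht]
  rfl

/-- The chart coordinates of a point on the composite sheets. -/
theorem OnSR.bd (h : OnSR D n i j i₁ j₁ S S₁ ω ρ b) (hP : TriN P)
    (hx₀ : eval x₀ (P 0) = D.X ω 0) {ε : ℝ} (hE : 6 * 2 ^ z ≤ E)
    (hρ : ρ ≤ E)
    (T : Tr K₂ n (D.g i j) (D.g i₁ j₁) (ch P (D.X ω 0) (S ω)) (ch P (D.X ω 0) (S₁ ω))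
      (fun l => D.g i j l < D.g i₁ j₁ l) E ε) :
    (∀ l < n, |zs P b l| ≤ (4 * E) ^ dd K₂ n / 2 ^ D.g i j l ∧
      |zs P b l| ≤ (4 * E) ^ dd K₂ n / 2 ^ D.g i₁ j₁ l) ∧
    ∀ l : Fin (n - 1), |wof D n z i j S ω b l| ≤ (4 * E) ^ dd K₂ (n + 2) := by
  have h2z : (1 : ℝ) ≤ 2 ^ z := one_le_pow₀ (by norm_num)
  have hE1 := T.e1
  have hW4 : 4 ≤ 4 * E := by linarith
  have b1 := T.bd rfl (h.cp hP hx₀) (fun l l1 l2 ht =>
    (h.bx l l1 l2 (not_lt.1 ht)).trans hρ)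
  have b2 : ∀ l < n, |zs P b l| ≤ (4 * E) ^ dd K₂ n / 2 ^ D.g i j l ∧
      |zs P b l| ≤ (4 * E) ^ dd K₂ n / 2 ^ D.g i₁ j₁ l := fun l hl =>
    ⟨(b1 l hl).1.trans (div_le_div_of_nonneg_right (wpow hE1 rfl hl.le) (by positivity)),
      (b1 l hl).2.trans (div_le_div_of_nonneg_right (wpow hE1 rfl hl.le) (by positivity))⟩
  refine ⟨b2, fun l => ?_⟩
  have hl := l.2
  have hB : (1 : ℝ) ≤ (4 * E) ^ dd K₂ n := one_le_pow₀ (by linarith)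
  have v1 := T.b.val (l := (l : ℕ) + 1) (by omega) hB (β := zs P b)
    (fun k hk => (b2 k (by omega)).1)
  have v2 : |nat (D.g i j) (S ω) b ((l : ℕ) + 1)| ≤ 2 * (4 * E) ^ dd K₂ (n + 1) := by
    have e1 : nat (D.g i j) (S ω) b ((l : ℕ) + 1) = 2 ^ D.g i j (l + 1) *
        (zs P b (l + 1) - eval (zs P b) (ch P (D.X ω 0) (S ω) (l + 1))) := by
      rw [zs_nat (i := i) (j := j) (S := S) hP h.t0 (Nat.succ_pos _)]
      field_simp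
      ring
    rw [e1, abs_mul, abs_of_pos (by positivity : (0 : ℝ) < 2 ^ D.g i j (l + 1))]
    have e2 := abs_sub (zs P b (l + 1)) (eval (zs P b) (ch P (D.X ω 0) (S ω) (l + 1)))
    have e3 := (b2 (l + 1) (by omega)).1
    have e4 : 2 ^ D.g i j (l + 1) *
        |zs P b (l + 1) - eval (zs P b) (ch P (D.X ω 0) (S ω) (l + 1))| ≤
        2 ^ D.g i j (l + 1) * ((4 * E) ^ dd K₂ n / 2 ^ D.g i j (l + 1) +
          ((4 * E) ^ dd K₂ n) ^ K₂ * E / 2 ^ D.g i j (l + 1)) :=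
      mul_le_mul_of_nonneg_left (e2.trans (add_le_add e3 v1)) (by positivity)
    have e5 : 2 ^ D.g i j (l + 1) * ((4 * E) ^ dd K₂ n / 2 ^ D.g i j (l + 1) +
          ((4 * E) ^ dd K₂ n) ^ K₂ * E / 2 ^ D.g i j (l + 1)) =
        (4 * E) ^ dd K₂ n + ((4 * E) ^ dd K₂ n) ^ K₂ * E := by field_simp
    rw [e5] at e4
    have e6 := sz1 (K := K₂) (l := n) hE1 rfl
    have e7 : (4 * E) ^ dd K₂ n ≤ (4 * E) ^ dd K₂ (n + 1) := wpow hE1 rfl (by omega)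
    linarith
  have v3 : |wof D n z i j S ω b l| ≤ |nat (D.g i j) (S ω) b ((l : ℕ) + 1)| + 1 := by
    unfold wof up
    rw [abs_div, abs_of_pos (by positivity : (0 : ℝ) < 4 * 2 ^ z),
      div_le_iff₀ (by positivity)]
    have e1 := abs_add_le (nat (D.g i j) (S ω) b ((l : ℕ) + 1)) (2 * 2 ^ z)
    rw [abs_of_pos (by positivity : (0 : ℝ) < 2 * 2 ^ z)] at e1
    have p0 := abs_nonneg (nat (D.g i j) (S ω) b ((l : ℕ) + 1))
    nlinarith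
  have w := w3 (K := K₂) (l := n + 1) hW4
  have w1 := Wone (K := K₂) hE1 rfl (n + 1)
  linarith

end chart

/-- **The full shape on the composite sheets of another place**, large box. -/
theorem leaf2R (n K' Ds KF : ℕ) (C r₀ : ℝ) (hC : 0 ≤ C) (hr₀ : 0 ≤ r₀) : ∃ C' : ℝ, 0 ≤ C' ∧
    ∀ (D : NDat2)
    (K z X X₁ M i j iA jA i₁ j₁ bb t : ℕ) (pr : ℕ → ℕ × ℕ) (Ms : Finset (Fin (n - 1)))
    (S S₁ : D.Ω → ℕ → PN) (ω : D.Ω) (P : ℕ → PN) (nn : Fin (n - 1) → ℝ)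
    (s : Fin (n - 1) → Pl (n - 1)) (F F' : Pl (n - 1)) (B : ℝ), K ≤ K' → 1 ≤ z →
    z + 2 ≤ X → C' * z ≤ bb → C' * z ≤ X → 1 ≤ n → i < M → j < M → iA < M → jA < M →
    i₁ < M → j₁ < M → z + 2 ≤ X₁ → X₁ ≤ X →
    (∀ i j x, TriN (D.G i j x)) → (∀ i j x l, (D.G i j x l).totalDegree ≤ K) →
    FrP D n K' M z C P ω → Sd D n K i j S ω → Lo D n X (i, j) (iA, jA) →
    (∀ l : Fin (n - 1), l ∈ Ms ↔ D.g iA jA (l + 1) ≤ D.g i j (l + 1)) →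
    (∀ l : Fin (n - 1), l ∉ Ms → (pr (l + 1)).1 < M ∧ (pr (l + 1)).2 < M ∧
      Lo D (l + 1) X (i, j) (pr (l + 1)) ∧ ∀ k : Fin (n - 1), k < l →
        D.g i j (k + 1) < D.g (pr (l + 1)).1 (pr (l + 1)).2 (k + 1) → k ∉ Ms) →
    Shn D n z X i j bb Ds S pr ω Ms s →
    (∀ l : Fin (n - 1), l ∉ Ms → |nn l - (vS D n z i j X S ω l -
      eval (vS D n z i j X S ω) (s l))| ≤ 1 / 2 ^ X) →
    F.totalDegree ≤ KF → F'.totalDegree ≤ KF → 1 ≤ B → (∀ α, |coeff α F| ≤ B) →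
    (∀ α, α ≠ 0 → |coeff α F' - coeff α F| ≤ 1 / 2 ^ t) →
    (∀ α, α ≠ 0 → |coeff α (bind₁ (elim Ms nn s (n - 1)) F) -
      coeff α (shpS D n z i j iA jA bb S n ω)| ≤ 1 / 2 ^ t) →
    Sd D n K i₁ j₁ S₁ ω →
    (∀ l : Fin (n - 1), (l ∉ Ms → D.g i j (l + 1) + X₁ ≤ D.g i₁ j₁ (l + 1)) ∧
      (l ∈ Ms → D.g i₁ j₁ (l + 1) ≤ D.g i j (l + 1) ∧
        X₁ + D.g i₁ j₁ (l + 1) + D.g i j n ≤ D.g i₁ j₁ n + D.g i j (l + 1))) →
    ∀ b b' : ℕ → ℝ, OnSR D n i j i₁ j₁ S S₁ ω (exp (r₀ * z)) b →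
      OnSR D n i j i₁ j₁ S S₁ ω (exp (r₀ * z)) b' →
      |(eval (wof D n z i j S ω b) F' - 2 ^ D.g i j n * (eval b (S₁ ω n) - eval b (S ω n))) -
        (eval (wof D n z i j S ω b') F' -
          2 ^ D.g i j n * (eval b' (S₁ ω n) - eval b' (S ω n)))| ≤
        exp (C' * z) * (B / 2 ^ X₁ + 1 / 2 ^ t) := by
  obtain ⟨C₁, hC₁, hpk⟩ := fr_pack n K' C hC
  obtain ⟨C₂, hC₂e⟩ : ∃ C₂ : ℝ, C₂ = C₁ + r₀ := ⟨_, rfl⟩
  have hC₂ : 0 ≤ C₂ := by rw [hC₂e]; positivity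
  obtain ⟨K₂, hK₂⟩ : ∃ K₂ : ℕ, K₂ = K' * (K' + 1) ^ n := ⟨_, rfl⟩
  obtain ⟨a₀, ha₀⟩ : ∃ a₀ : ℝ, a₀ = (C₂ + 2) * dd K₂ (n + 2) := ⟨_, rfl⟩
  have ha₀0 : 0 ≤ a₀ := by rw [ha₀]; positivity
  obtain ⟨C₃, hC₃, hcore⟩ := tot_coreR n K' Ds KF C a₀ hC ha₀0
  refine ⟨C₃ + 2 * a₀ + 4, by positivity, ?_⟩
  intro D K z X X₁ M i j iA jA i₁ j₁ bb t pr Ms S S₁ ω P nn s F F' B hK hz hX hbb hXz hn1 hi hj
    hiA hjA hi₁ hj₁ hX₁ hXX tG dG hF hS hLA hMs hpr hs hnn dF dF' hB hFc hFF hmt hS₁ hL₁ b b' hb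
    hb'
  have hzr : (1 : ℝ) ≤ z := by exact_mod_cast hz
  have hz0 : (0 : ℝ) ≤ z := by linarith
  have hle : C₃ * z ≤ (C₃ + 2 * a₀ + 4) * z := mul_le_mul_of_nonneg_right (by linarith) hz0
  obtain ⟨hNb', _, hE'⟩ := hpk D K z M i j S ω P hK hz hi hj tG dG hF hS
  obtain ⟨hN₁', _, _⟩ := hpk D K z M i₁ j₁ S₁ ω P hK hz hi₁ hj₁ tG dG hF hS₁
  have hF' := hF
  obtain ⟨hP, dP, vP, nP⟩ := hF'
  have hx₀ : eval (D.X ω) (P 0) = D.X ω 0 := vP 0 (Nat.zero_le _)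
  obtain ⟨E, hEe⟩ : ∃ E : ℝ, E = exp (C₂ * z) := ⟨_, rfl⟩
  rw [← hK₂] at hNb' hN₁'
  have hCE : exp (C₁ * z) ≤ E := by
    rw [hEe, hC₂e]
    exact exp_le_exp.2 (mul_le_mul_of_nonneg_right (by linarith) hz0)
  have hE : 6 * 2 ^ z ≤ E := hE'.trans hCE
  have hρE : exp (r₀ * z) ≤ E := by
    rw [hEe, hC₂e]
    exact exp_le_exp.2 (mul_le_mul_of_nonneg_right (by linarith) hz0)
  have hNb : ∀ c ≤ n, Nb K₂ c (D.g i j) (ch P (D.X ω 0) (S ω)) E := fun c hc =>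
    (hNb' c hc).mono le_rfl hCE
  have hN₁ : ∀ c ≤ n, Nb K₂ c (D.g i₁ j₁) (ch P (D.X ω 0) (S₁ ω)) E := fun c hc =>
    (hN₁' c hc).mono le_rfl hCE
  have h2z : (1 : ℝ) ≤ 2 ^ z := one_le_pow₀ (by norm_num)
  have hE1 : 1 ≤ E := by linarith
  have hEa : ∀ k ≤ n + 2, (4 * E) ^ dd K₂ k ≤ exp (a₀ * z) := fun k hk => by
    rw [hEe, ha₀]
    exact w_le hz hC₂ (dd_mono hk)
  -- the place
  have T := tr_lo' (g₁ := D.g i₁ j₁) hX₁ hE (hNb n le_rfl) (hN₁ n le_rfl) (fun l l1 l2 => by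
    obtain ⟨l', rfl⟩ : ∃ l', l = l' + 1 := ⟨l - 1, by omega⟩
    have hl' : l' < n - 1 := by omega
    by_cases hM : (⟨l', hl'⟩ : Fin (n - 1)) ∈ Ms
    · left
      exact (hL₁ ⟨l', hl'⟩).2 hM
    · right
      exact (hL₁ ⟨l', hl'⟩).1 hM)
  have b1 := hb.bd hP hx₀ hE hρE T
  have b1' := hb'.bd hP hx₀ hE hρE T
  have top := T.top rfl (hb.cp hP hx₀) (hb'.cp hP hx₀)
    (fun l l1 l2 ht => (hb.bx l l1 l2 (not_lt.1 ht)).trans hρE)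
    (fun l l1 l2 ht => (hb'.bx l l1 l2 (not_lt.1 ht)).trans hρE)
  -- the core
  obtain ⟨A, hA⟩ : ∃ A : ℝ, A = (4 * E) ^ dd K₂ n * 2 ^ (X - X₁) := ⟨_, rfl⟩
  have hA1 : 1 ≤ A := by
    rw [hA]
    exact one_le_mul_of_one_le_of_one_le (one_le_pow₀ (by linarith))
      (one_le_pow₀ (by norm_num))
  have hAX : A / 2 ^ X = (4 * E) ^ dd K₂ n / 2 ^ X₁ := by
    have e : (2 : ℝ) ^ X = 2 ^ (X - X₁) * 2 ^ X₁ := by
      rw [← pow_add]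
      congr 1
      omega
    rw [hA, e]
    field_simp
  have near : ∀ c : ℕ → ℝ, OnSR D n i j i₁ j₁ S S₁ ω (exp (r₀ * z)) c → ∀ l : Fin (n - 1), l ∉ Ms →
      |zs P (fpt D n z i j S ω (wof D n z i j S ω c)) ((l : ℕ) + 1)| ≤
        A / 2 ^ X / 2 ^ D.g i j (l + 1) := by
    intro c hc l hl
    have hl2 := l.2
    rw [zs_wof hS.tri hP hc.t0, hAX]
    refine (((hc.bd hP hx₀ hE hρE T).1 ((l : ℕ) + 1) (by omega)).2).trans ?_
    rw [div_div]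
    refine div_le_div_of_nonneg_left (by positivity) (by positivity) ?_
    rw [← pow_add]
    refine pow_le_pow_right₀ (by norm_num) ?_
    have := (hL₁ l).1 hl
    omega
  have core := hcore D K z X M i j iA jA bb t pr Ms S ω P nn s F F' A B hK hz hX
    (hle.trans hbb) (hle.trans hXz) hn1 hi hj hiA hjA tG dG hF hS hLA hMs hpr hs hnn dF dF' hA1
    hB hFc hFF hmt (wof D n z i j S ω b) (wof D n z i j S ω b')
    (fun l => (b1.2 l).trans (hEa _ le_rfl)) (fun l => (b1'.2 l).trans (hEa _ le_rfl))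
    (near b hb) (near b' hb')
  rw [pi_wof hS.tri hP hb.t0, pi_wof hS.tri hP hb'.t0] at core
  rw [eval_ch hP hb.t0 hn1, eval_ch hP hb'.t0 hn1] at top
  -- together
  have h2X₁ : (0 : ℝ) < 2 ^ X₁ := by positivity
  have hg : (0 : ℝ) < 2 ^ D.g i j n := by positivity
  have e1 : (eval (wof D n z i j S ω b) F' -
        2 ^ D.g i j n * (eval b (S₁ ω n) - eval b (S ω n))) -
      (eval (wof D n z i j S ω b') F' -
        2 ^ D.g i j n * (eval b' (S₁ ω n) - eval b' (S ω n))) =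
      ((eval (wof D n z i j S ω b) F' - 2 ^ D.g i j n * (eval b (P n) - eval b (S ω n))) -
        (eval (wof D n z i j S ω b') F' -
          2 ^ D.g i j n * (eval b' (P n) - eval b' (S ω n)))) -
      2 ^ D.g i j n * ((eval b (S₁ ω n) - eval b (P n)) -
        (eval b' (S₁ ω n) - eval b' (P n))) := by ring
  have e2 : |2 ^ D.g i j n * ((eval b (S₁ ω n) - eval b (P n)) -
      (eval b' (S₁ ω n) - eval b' (P n)))| ≤ exp ((a₀ + 3) * z) / 2 ^ X₁ := by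
    rw [abs_mul, abs_of_pos hg]
    refine top.trans ?_
    rw [← mul_div_assoc]
    refine div_le_div_of_nonneg_right ?_ h2X₁.le
    have := six_le hz
    calc (4 * E) ^ dd K₂ (n + 1) * (4 * 2 ^ z) ≤ exp (a₀ * z) * exp (3 * z) :=
          mul_le_mul (hEa _ (by omega)) (by linarith) (by positivity) (exp_pos _).le
      _ = exp ((a₀ + 3) * z) := by
          rw [← exp_add]
          congr 1
          ring
  rw [e1]
  refine (abs_sub _ _).trans ((add_le_add core e2).trans ?_)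
  have e3 : A * B / 2 ^ X = A / 2 ^ X * B := by ring
  rw [e3, hAX]
  have hC3p : 0 < exp (C₃ * z) := exp_pos _
  have e4 : exp (C₃ * z) * ((4 * E) ^ dd K₂ n / 2 ^ X₁ * B + 1 / 2 ^ t) ≤
      exp ((C₃ + a₀) * z) * (B / 2 ^ X₁ + 1 / 2 ^ t) := by
    have f1 : (4 * E) ^ dd K₂ n ≤ exp (a₀ * z) := hEa n (by omega)
    have f2 : 1 ≤ exp (a₀ * z) := one_le_exp (by positivity)
    have f3 : exp ((C₃ + a₀) * z) = exp (C₃ * z) * exp (a₀ * z) := by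
      rw [← exp_add]
      congr 1
      ring
    rw [f3, mul_assoc]
    refine mul_le_mul_of_nonneg_left ?_ hC3p.le
    rw [mul_add]
    refine add_le_add ?_ (le_mul_of_one_le_left (by positivity) f2)
    have f4 : (4 * E) ^ dd K₂ n / 2 ^ X₁ * B = (4 * E) ^ dd K₂ n * (B / 2 ^ X₁) := by ring
    rw [f4]
    exact mul_le_mul_of_nonneg_right f1 (by positivity)
  refine (add_le_add e4 le_rfl).trans ?_
  obtain ⟨Y, hY⟩ : ∃ Y : ℝ, Y = B / 2 ^ X₁ + 1 / 2 ^ t := ⟨_, rfl⟩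
  have hY1 : 1 / 2 ^ X₁ ≤ Y := by
    rw [hY]
    have : 1 / 2 ^ X₁ ≤ B / 2 ^ X₁ := div_le_div_of_nonneg_right hB h2X₁.le
    have : (0 : ℝ) ≤ 1 / 2 ^ t := by positivity
    linarith
  have hY0 : 0 ≤ Y := by
    have : (0 : ℝ) ≤ 1 / 2 ^ X₁ := by positivity
    linarith
  rw [← hY]
  have g2 : exp ((a₀ + 3) * z) / 2 ^ X₁ ≤ exp ((a₀ + 3) * z) * Y := by
    rw [div_eq_mul_one_div]
    exact mul_le_mul_of_nonneg_left hY1 (exp_pos _).le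
  refine (add_le_add le_rfl g2).trans ?_
  rw [← add_mul]
  refine mul_le_mul_of_nonneg_right ?_ hY0
  have g6 : (2 : ℝ) ≤ exp z := by
    have h1 := Real.exp_one_gt_d9
    have h2 := exp_le_exp.2 hzr
    linarith
  have p1 : 1 ≤ exp ((C₃ + a₀) * z) := one_le_exp (by positivity)
  have p2 : 1 ≤ exp ((a₀ + 3) * z) := one_le_exp (by positivity)
  have p3 : exp ((C₃ + a₀) * z) + exp ((a₀ + 3) * z) ≤
      2 * (exp ((C₃ + a₀) * z) * exp ((a₀ + 3) * z)) := by nlinarith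
  have g5 : exp ((C₃ + 2 * a₀ + 4) * z) =
      exp z * (exp ((C₃ + a₀) * z) * exp ((a₀ + 3) * z)) := by
    rw [← exp_add, ← exp_add]
    congr 1
    ring
  rw [g5]
  exact p3.trans (mul_le_mul_of_nonneg_right g6 (by positivity))

end Pool.GSD
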