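import Pool.Agent.H41.GSD.Lf3

/-!
# The full shape at a place of longer window

`Nb.hts`: two points with the same heights over the labels of a place in the coordinates of `M`,
near to each other in the others. `leaf3`: the full shape and the height of the target over the side
at `(i₁, j₁)`, for two points with the same heights of the narrow coordinates there.
-/

set_option autoImplicit false

namespace Pool.GSD

open Finset Real MvPolynomial
open Pool.Agent.H49.Ent Pool.Agent.H32.Dense Pool.STK Pool.STAT Pool.MIC.Frm Pool.MIC7 Pool.FRM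
open Pool.MIC Pool.MicA
open Pool.BFL (Pl Pb)
open Pool.TIE (elim elim_vars elim_deg ml_le_of_cb lip2 Dat dg)

/-- **Two points with the same heights in `M`**, near to each other outside `M`: the label of the
target varies little. -/
theorem _root_.Pool.FRM.Nb.hts {K n : ℕ} {g : ℕ → ℕ} {F : ℕ → PN} {E W ε : ℝ}
    (h : Nb K n g F E) (hE : 1 ≤ E) (hW : W = 4 * E) (hε : 0 ≤ ε) {M : ℕ → Prop}
    {β β' : ℕ → ℝ} (h0 : β 0 = β' 0) (hz : ∀ l < n, |β l| ≤ W ^ dd K l / 2 ^ g l)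
    (hz' : ∀ l < n, |β' l| ≤ W ^ dd K l / 2 ^ g l)
    (hM : ∀ l, 1 ≤ l → l < n → M l →
      |(β l - eval β (F l)) - (β' l - eval β' (F l))| ≤ ε / 2 ^ g l)
    (hn : ∀ l, 1 ≤ l → l < n → ¬ M l → |β l - β' l| ≤ ε / 2 ^ g l) :
    2 ^ g n * |eval β (F n) - eval β' (F n)| ≤ W ^ dd K (n + 1) * ε := by
  have hW4 : 4 ≤ W := by linarith
  -- the variation of the labels
  have lp : ∀ l ≤ n, (∀ k < l, |β k - β' k| ≤ W ^ dd K (k + 1) * ε / 2 ^ g k) →
      2 ^ g l * |eval β (F l) - eval β' (F l)| + 2 * ε ≤ W ^ dd K (l + 1) * ε := by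
    intro l hl hk
    have hB : (1 : ℝ) ≤ W ^ dd K l := one_le_pow₀ (by linarith)
    have e1 := h.lip (l := l) hl hB (δ := W ^ dd K l * ε) (by positivity)
      (β := β) (β' := β')
      (fun k hk => (hz k (hk.trans_le hl)).trans (div_le_div_of_nonneg_right
        (wpow hE hW hk.le) (by positivity)))
      (fun k hk => (hz' k (hk.trans_le hl)).trans (div_le_div_of_nonneg_right
        (wpow hE hW hk.le) (by positivity)))
      (fun k hk' => (hk k hk').trans (div_le_div_of_nonneg_right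
        (mul_le_mul_of_nonneg_right (wpow hE hW (by omega)) hε) (by positivity)))
    calc 2 ^ g l * |eval β (F l) - eval β' (F l)| + 2 * ε
        ≤ 2 ^ g l * (K * (W ^ dd K l) ^ K * E * (W ^ dd K l * ε) / 2 ^ g l) + 2 * ε :=
          add_le_add_left (mul_le_mul_of_nonneg_left e1 (by positivity)) _
      _ = (K * (W ^ dd K l) ^ K * E * W ^ dd K l + 2) * ε := by field_simp
      _ ≤ W ^ dd K (l + 1) * ε :=
          mul_le_mul_of_nonneg_right (sz2 (K := K) (l := l) hE hW) hε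
  have near : ∀ l < n, |β l - β' l| ≤ W ^ dd K (l + 1) * ε / 2 ^ g l := by
    intro l
    induction l using Nat.strong_induction_on with
    | _ l ih =>
      intro hl
      rcases Nat.eq_zero_or_pos l with h0' | h0'
      · subst h0'
        rw [h0, sub_self, abs_zero]
        positivity
      · by_cases hM' : M l
        · have e1 := lp l hl.le fun k hk => ih k hk (hk.trans hl)
          have e2 := hM l h0' hl hM'
          have hg : (0 : ℝ) < 2 ^ g l := by positivity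
          rw [le_div_iff₀ hg] at e2 ⊢
          have e3 : β l - β' l = (eval β (F l) - eval β' (F l)) +
              ((β l - eval β (F l)) - (β' l - eval β' (F l))) := by ring
          have e4 := mul_le_mul_of_nonneg_right (abs_add_le (eval β (F l) - eval β' (F l))
            ((β l - eval β (F l)) - (β' l - eval β' (F l)))) hg.le
          rw [← e3] at e4
          refine e4.trans ?_
          rw [add_mul]
          linarith
        · refine (hn l h0' hl hM').trans (div_le_div_of_nonneg_right ?_ (by positivity))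
          refine le_mul_of_one_le_left hε ?_
          have := Wone (K := K) hE hW (l + 1)
          linarith
  have e1 := lp n le_rfl near
  linarith

/-- The scaled coordinates of a point near to the frame. -/
theorem wof_bd {D : NDat2} {n K₂ z i j : ℕ} {S : D.Ω → ℕ → PN} {ω : D.Ω} {b : ℕ → ℝ}
    {P : ℕ → PN} {E : ℝ} (h : Nb K₂ n (D.g i j) (ch P (D.X ω 0) (S ω)) E) (hE : 6 * 2 ^ z ≤ E)
    (hP : TriN P) (hb : b 0 = D.X ω 0)
    (hz : ∀ l < n, |zs P b l| ≤ (4 * E) ^ dd K₂ n / 2 ^ D.g i j l) (l : Fin (n - 1)) :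
    |wof D n z i j S ω b l| ≤ (4 * E) ^ dd K₂ (n + 2) := by
  have h2z : (1 : ℝ) ≤ 2 ^ z := one_le_pow₀ (by norm_num)
  have hE1 : 1 ≤ E := by linarith
  have hW4 : 4 ≤ 4 * E := by linarith
  have hl := l.2
  have hB : (1 : ℝ) ≤ (4 * E) ^ dd K₂ n := one_le_pow₀ (by linarith)
  have v1 := h.val (l := (l : ℕ) + 1) (by omega) hB (β := zs P b) (fun k hk => hz k (by omega))
  have v2 : |nat (D.g i j) (S ω) b ((l : ℕ) + 1)| ≤ 2 * (4 * E) ^ dd K₂ (n + 1) := by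
    have e1 : nat (D.g i j) (S ω) b ((l : ℕ) + 1) = 2 ^ D.g i j (l + 1) *
        (zs P b (l + 1) - eval (zs P b) (ch P (D.X ω 0) (S ω) (l + 1))) := by
      rw [zs_nat (i := i) (j := j) (S := S) hP hb (Nat.succ_pos _)]
      field_simp
      ring
    rw [e1, abs_mul, abs_of_pos (by positivity : (0 : ℝ) < 2 ^ D.g i j (l + 1))]
    have e2 := abs_sub (zs P b (l + 1)) (eval (zs P b) (ch P (D.X ω 0) (S ω) (l + 1)))
    have e3 := hz (l + 1) (by omega)
    have e4 : 2 ^ D.g i j (l + 1) *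
        |zs P b (l + 1) - eval (zs P b) (ch P (D.X ω 0) (S ω) (l + 1))| ≤
        2 ^ D.g i j (l + 1) * ((4 * E) ^ dd K₂ n / 2 ^ D.g i j (l + 1) +
          ((4 * E) ^ dd K₂ n) ^ K₂ * E / 2 ^ D.g i j (l + 1)) :=
      mul_le_mul_of_nonneg_left (e2.trans (add_le_add e3 v1)) (by positivity)
    have e5 : 2 ^ D.g i j (l + 1) * ((4 * E) ^ dd K₂ n / 2 ^ D.g i j (l + 1) +
          ((4 * E) ^ dd K₂ n) ^ K₂ * E / 2 ^ D.g i j (l + 1)) =
        (4 * E) ^ dd K₂ n + ((4 * E) ^ dd K₂ n) ^ K₂ * E := by field_simp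
    rw [e5] at e4
    have e6 := sz1 (K := K₂) (l := n) hE1 rfl
    have e7 : (4 * E) ^ dd K₂ n ≤ (4 * E) ^ dd K₂ (n + 1) := wpow hE1 rfl (by omega)
    linarith
  have v3 : |wof D n z i j S ω b l| ≤ |nat (D.g i j) (S ω) b ((l : ℕ) + 1)| + 1 := by
    unfold wof up
    rw [abs_div, abs_of_pos (by positivity : (0 : ℝ) < 4 * 2 ^ z),
      div_le_iff₀ (by positivity)]
    have e1 := abs_add_le (nat (D.g i j) (S ω) b ((l : ℕ) + 1)) (2 * 2 ^ z)
    rw [abs_of_pos (by positivity : (0 : ℝ) < 2 * 2 ^ z)] at e1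
    have p0 := abs_nonneg (nat (D.g i j) (S ω) b ((l : ℕ) + 1))
    nlinarith
  have w := w3 (K := K₂) (l := n + 1) hW4
  have w1 := Wone (K := K₂) hE1 rfl (n + 1)
  linarith

/-- The point `b` at the exact time: in the box of size `ρ` of the frame at both places. -/
structure NrP (D : NDat2) (n i j i₁ j₁ : ℕ) (Ms : Finset (Fin (n - 1))) (P : ℕ → PN) (ω : D.Ω)
    (ρ : ℝ) (b : ℕ → ℝ) : Prop where
  t0 : b 0 = D.X ω 0
  bx : ∀ l < n, |zs P b l| ≤ ρ / 2 ^ D.g i j l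
  nr : ∀ l : Fin (n - 1), l ∉ Ms → |zs P b ((l : ℕ) + 1)| ≤ ρ / 2 ^ D.g i₁ j₁ (l + 1)

/-- **The full shape at a place of longer window.** -/
theorem leaf3 (n K' Ds KF c : ℕ) (C r₀ : ℝ) (hC : 0 ≤ C) (hr₀ : 0 ≤ r₀) : ∃ C' : ℝ, 0 ≤ C' ∧
    ∀ (D : NDat2)
    (K z X X₁ M i j iA jA i₁ j₁ bb t : ℕ) (pr : ℕ → ℕ × ℕ) (Ms : Finset (Fin (n - 1)))
    (S S₁ : D.Ω → ℕ → PN) (ω : D.Ω) (P : ℕ → PN) (nn : Fin (n - 1) → ℝ)
    (s : Fin (n - 1) → Pl (n - 1)) (F F' : Pl (n - 1)) (B : ℝ), K ≤ K' → 1 ≤ z →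
    z + 2 ≤ X → C' * z ≤ bb → C' * z ≤ X → 1 ≤ n → i < M → j < M → iA < M → jA < M →
    i₁ < M → j₁ < M → X₁ ≤ X →
    (∀ i j x, TriN (D.G i j x)) → (∀ i j x l, (D.G i j x l).totalDegree ≤ K) →
    FrP D n K' M z C P ω → Sd D n K i j S ω → Lo D n X (i, j) (iA, jA) →
    (∀ l : Fin (n - 1), l ∈ Ms ↔ D.g iA jA (l + 1) ≤ D.g i j (l + 1)) →
    (∀ l : Fin (n - 1), l ∉ Ms → (pr (l + 1)).1 < M ∧ (pr (l + 1)).2 < M ∧
      Lo D (l + 1) X (i, j) (pr (l + 1)) ∧ ∀ k : Fin (n - 1), k < l →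
        D.g i j (k + 1) < D.g (pr (l + 1)).1 (pr (l + 1)).2 (k + 1) → k ∉ Ms) →
    Shn D n z X i j bb Ds S pr ω Ms s →
    (∀ l : Fin (n - 1), l ∉ Ms → |nn l - (vS D n z i j X S ω l -
      eval (vS D n z i j X S ω) (s l))| ≤ 1 / 2 ^ X) →
    F.totalDegree ≤ KF → F'.totalDegree ≤ KF → 1 ≤ B → (∀ α, |coeff α F| ≤ B) →
    (∀ α, α ≠ 0 → |coeff α F' - coeff α F| ≤ 1 / 2 ^ t) →
    (∀ α, α ≠ 0 → |coeff α (bind₁ (elim Ms nn s (n - 1)) F) -
      coeff α (shpS D n z i j iA jA bb S n ω)| ≤ 1 / 2 ^ t) →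
    Sd D n K i₁ j₁ S₁ ω →
    (∀ l : Fin (n - 1), (l ∉ Ms → D.g i j (l + 1) + X₁ ≤ D.g i₁ j₁ (l + 1)) ∧
      (l ∈ Ms → D.g i₁ j₁ (l + 1) + X₁ ≤ D.g i j (l + 1))) →
    D.g i j n ≤ D.g i₁ j₁ n + c * z →
    ∀ b b' : ℕ → ℝ, NrP D n i j i₁ j₁ Ms P ω (exp (r₀ * z)) b →
      NrP D n i j i₁ j₁ Ms P ω (exp (r₀ * z)) b' →
      (∀ l : Fin (n - 1), l ∉ Ms → |(b (l + 1) - eval b (S₁ ω (l + 1))) -
        (b' (l + 1) - eval b' (S₁ ω (l + 1)))| ≤ exp (r₀ * z) / 2 ^ (D.g i₁ j₁ (l + 1) + X₁)) →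
      |(eval (wof D n z i j S ω b) F' - 2 ^ D.g i j n * (eval b (S₁ ω n) - eval b (S ω n))) -
        (eval (wof D n z i j S ω b') F' -
          2 ^ D.g i j n * (eval b' (S₁ ω n) - eval b' (S ω n)))| ≤
        exp (C' * z) * (B / 2 ^ X₁ + 1 / 2 ^ t) := by
  obtain ⟨C₁, hC₁, hpk⟩ := fr_pack n K' C hC
  obtain ⟨C₂, hC₂e⟩ : ∃ C₂ : ℝ, C₂ = C₁ + r₀ := ⟨_, rfl⟩
  have hC₂ : 0 ≤ C₂ := by rw [hC₂e]; positivity
  obtain ⟨K₂, hK₂⟩ : ∃ K₂ : ℕ, K₂ = K' * (K' + 1) ^ n := ⟨_, rfl⟩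
  obtain ⟨a₀, ha₀⟩ : ∃ a₀ : ℝ, a₀ = (C₂ + 2) * dd K₂ (n + 2) := ⟨_, rfl⟩
  have ha₀0 : 0 ≤ a₀ := by rw [ha₀]; positivity
  obtain ⟨C₃, hC₃, hcore⟩ := tot_coreR n K' Ds KF C a₀ hC ha₀0
  refine ⟨C₃ + r₀ + a₀ + r₀ + c + 2 + 1, by positivity, ?_⟩
  intro D K z X X₁ M i j iA jA i₁ j₁ bb t pr Ms S S₁ ω P nn s F F' B hK hz hX hbb hXz hn1 hi hj
    hiA hjA hi₁ hj₁ hXX tG dG hF hS hLA hMs hpr hs hnn dF dF' hB hFc hFF hmt hS₁ hL₁ hcn b b' hb
    hb' hht
  have hzr : (1 : ℝ) ≤ z := by exact_mod_cast hz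
  have hz0 : (0 : ℝ) ≤ z := by linarith
  have hle : C₃ * z ≤ (C₃ + r₀ + a₀ + r₀ + c + 2 + 1) * z :=
    mul_le_mul_of_nonneg_right (by
      have : (0 : ℝ) ≤ c := Nat.cast_nonneg _
      linarith) hz0
  obtain ⟨hNb', _, hE'⟩ := hpk D K z M i j S ω P hK hz hi hj tG dG hF hS
  obtain ⟨hN₁', _, _⟩ := hpk D K z M i₁ j₁ S₁ ω P hK hz hi₁ hj₁ tG dG hF hS₁
  have hF' := hF
  obtain ⟨hP, dP, vP, nP⟩ := hF'
  have hx₀ : eval (D.X ω) (P 0) = D.X ω 0 := vP 0 (Nat.zero_le _)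
  obtain ⟨E, hEe⟩ : ∃ E : ℝ, E = exp (C₂ * z) := ⟨_, rfl⟩
  obtain ⟨ρ, hρe⟩ : ∃ ρ : ℝ, ρ = exp (r₀ * z) := ⟨_, rfl⟩
  rw [← hρe] at hb hb' hht
  rw [← hK₂] at hNb' hN₁'
  have hCE : exp (C₁ * z) ≤ E := by
    rw [hEe, hC₂e]
    exact exp_le_exp.2 (mul_le_mul_of_nonneg_right (by linarith) hz0)
  have hE : 6 * 2 ^ z ≤ E := hE'.trans hCE
  have hρE : ρ ≤ E := by
    rw [hEe, hC₂e, hρe]
    exact exp_le_exp.2 (mul_le_mul_of_nonneg_right (by linarith) hz0)
  have hρ1 : 1 ≤ ρ := by rw [hρe]; exact one_le_exp (by positivity)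
  have hNb : ∀ c ≤ n, Nb K₂ c (D.g i j) (ch P (D.X ω 0) (S ω)) E := fun c hc =>
    (hNb' c hc).mono le_rfl hCE
  have hN₁ : ∀ c ≤ n, Nb K₂ c (D.g i₁ j₁) (ch P (D.X ω 0) (S₁ ω)) E := fun c hc =>
    (hN₁' c hc).mono le_rfl hCE
  have h2z : (1 : ℝ) ≤ 2 ^ z := one_le_pow₀ (by norm_num)
  have hE1 : 1 ≤ E := by linarith
  have hEW : ∀ k, E ≤ (4 * E) ^ dd K₂ k := fun k => by
    calc E ≤ (4 * E) ^ 1 := by rw [pow_one]; linarith
      _ ≤ (4 * E) ^ dd K₂ k := pow_le_pow_right₀ (by linarith) (dd_pos _ _)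
  have hEa : ∀ k ≤ n + 2, (4 * E) ^ dd K₂ k ≤ exp (a₀ * z) := fun k hk => by
    rw [hEe, ha₀]
    exact w_le hz hC₂ (dd_mono hk)
  -- the scaled coordinates
  have wb : ∀ x : ℕ → ℝ, NrP D n i j i₁ j₁ Ms P ω ρ x →
      ∀ l, |wof D n z i j S ω x l| ≤ exp (a₀ * z) := by
    intro x hx l
    refine (wof_bd (hNb n le_rfl) hE hP hx.t0 (fun l hl => ?_) l).trans (hEa _ le_rfl)
    exact (hx.bx l hl).trans (div_le_div_of_nonneg_right (hρE.trans (hEW n)) (by positivity))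
  -- the core
  have h2X₁ : (0 : ℝ) < 2 ^ X₁ := by positivity
  obtain ⟨A, hA⟩ : ∃ A : ℝ, A = ρ * 2 ^ (X - X₁) := ⟨_, rfl⟩
  have hA1 : 1 ≤ A := by
    rw [hA]
    exact one_le_mul_of_one_le_of_one_le hρ1 (one_le_pow₀ (by norm_num))
  have hAX : A / 2 ^ X = ρ / 2 ^ X₁ := by
    have e : (2 : ℝ) ^ X = 2 ^ (X - X₁) * 2 ^ X₁ := by
      rw [← pow_add]
      congr 1
      omega
    rw [hA, e]
    field_simp
  have near : ∀ x : ℕ → ℝ, NrP D n i j i₁ j₁ Ms P ω ρ x → ∀ l : Fin (n - 1), l ∉ Ms →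
      |zs P (fpt D n z i j S ω (wof D n z i j S ω x)) ((l : ℕ) + 1)| ≤
        A / 2 ^ X / 2 ^ D.g i j (l + 1) := by
    intro x hx l hl
    rw [zs_wof hS.tri hP hx.t0, hAX]
    refine (hx.nr l hl).trans ?_
    rw [div_div]
    refine div_le_div_of_nonneg_left (by positivity) (by positivity) ?_
    rw [← pow_add]
    refine pow_le_pow_right₀ (by norm_num) ?_
    have := (hL₁ l).1 hl
    omega
  have core := hcore D K z X M i j iA jA bb t pr Ms S ω P nn s F F' A B hK hz hX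
    (hle.trans hbb) (hle.trans hXz) hn1 hi hj hiA hjA tG dG hF hS hLA hMs hpr hs hnn dF dF' hA1
    hB hFc hFF hmt (wof D n z i j S ω b) (wof D n z i j S ω b') (wb b hb) (wb b' hb')
    (near b hb) (near b' hb')
  rw [pi_wof hS.tri hP hb.t0, pi_wof hS.tri hP hb'.t0] at core
  -- the label at the second place
  have top := (hN₁ n le_rfl).hts (W := 4 * E) (ε := 2 * ρ / 2 ^ X₁) (β := zs P b)
    (β' := zs P b') (M := fun l => ∃ h : l - 1 < n - 1, (⟨l - 1, h⟩ : Fin (n - 1)) ∉ Ms)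
    hE1 rfl (by positivity)
    (by rw [zs_zero hP hb.t0 hx₀, zs_zero hP hb'.t0 hx₀])
    (fun l hl => by
      rcases Nat.eq_zero_or_pos l with h0 | h0
      · subst h0
        rw [zs_zero hP hb.t0 hx₀, abs_zero]
        positivity
      · obtain ⟨l', rfl⟩ : ∃ l', l = l' + 1 := ⟨l - 1, by omega⟩
        have hl' : l' < n - 1 := by omega
        by_cases hM : (⟨l', hl'⟩ : Fin (n - 1)) ∈ Ms
        · have h1 := (hL₁ ⟨l', hl'⟩).2 hM
          refine (hb.bx (l' + 1) hl).trans ((div_le_div_of_nonneg_left (by positivity)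
            (by positivity) (pow_le_pow_right₀ (by norm_num) ?_)).trans
            (div_le_div_of_nonneg_right (hρE.trans (hEW _)) (by positivity)))
          have e : ((⟨l', hl'⟩ : Fin (n - 1)) : ℕ) = l' := rfl
          rw [e] at h1
          omega
        · exact (hb.nr ⟨l', hl'⟩ hM).trans (div_le_div_of_nonneg_right (hρE.trans (hEW _))
            (by positivity)))
    (fun l hl => by
      rcases Nat.eq_zero_or_pos l with h0 | h0
      · subst h0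
        rw [zs_zero hP hb'.t0 hx₀, abs_zero]
        positivity
      · obtain ⟨l', rfl⟩ : ∃ l', l = l' + 1 := ⟨l - 1, by omega⟩
        have hl' : l' < n - 1 := by omega
        by_cases hM : (⟨l', hl'⟩ : Fin (n - 1)) ∈ Ms
        · have h1 := (hL₁ ⟨l', hl'⟩).2 hM
          refine (hb'.bx (l' + 1) hl).trans ((div_le_div_of_nonneg_left (by positivity)
            (by positivity) (pow_le_pow_right₀ (by norm_num) ?_)).trans
            (div_le_div_of_nonneg_right (hρE.trans (hEW _)) (by positivity)))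
          have e : ((⟨l', hl'⟩ : Fin (n - 1)) : ℕ) = l' := rfl
          rw [e] at h1
          omega
        · exact (hb'.nr ⟨l', hl'⟩ hM).trans (div_le_div_of_nonneg_right (hρE.trans (hEW _))
            (by positivity)))
    (fun l l1 l2 hl => by
      obtain ⟨l', rfl⟩ : ∃ l', l = l' + 1 := ⟨l - 1, by omega⟩
      obtain ⟨hl', hM⟩ := hl
      have h1 := hht ⟨l', hl'⟩ hM
      have e : ((⟨l', hl'⟩ : Fin (n - 1)) : ℕ) = l' := rfl
      rw [e] at h1
      rw [eval_ch hP hb.t0 l1, eval_ch hP hb'.t0 l1]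
      have e1 : (zs P b (l' + 1) - (eval b (S₁ ω (l' + 1)) - eval b (P (l' + 1)))) -
          (zs P b' (l' + 1) - (eval b' (S₁ ω (l' + 1)) - eval b' (P (l' + 1)))) =
          (b (l' + 1) - eval b (S₁ ω (l' + 1))) - (b' (l' + 1) - eval b' (S₁ ω (l' + 1))) := by
        unfold zs
        ring
      rw [e1]
      refine h1.trans ?_
      rw [pow_add, div_div, mul_comm ((2 : ℝ) ^ X₁)]
      exact div_le_div_of_nonneg_right (by linarith) (by positivity))
    (fun l l1 l2 hl => by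
      obtain ⟨l', rfl⟩ : ∃ l', l = l' + 1 := ⟨l - 1, by omega⟩
      have hl' : l' < n - 1 := by omega
      have hM : (⟨l', hl'⟩ : Fin (n - 1)) ∈ Ms := by
        by_contra hM
        exact hl ⟨hl', hM⟩
      have h1 := (hL₁ ⟨l', hl'⟩).2 hM
      have e : ((⟨l', hl'⟩ : Fin (n - 1)) : ℕ) = l' := rfl
      rw [e] at h1
      have h2 : ρ / 2 ^ D.g i j (l' + 1) ≤ ρ / 2 ^ X₁ / 2 ^ D.g i₁ j₁ (l' + 1) := by
        rw [div_div, ← pow_add]
        refine div_le_div_of_nonneg_left (by positivity) (by positivity)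
          (pow_le_pow_right₀ (by norm_num) (by omega))
      refine (abs_sub _ _).trans ((add_le_add ((hb.bx _ l2).trans h2)
        ((hb'.bx _ l2).trans h2)).trans (le_of_eq ?_))
      ring)
  rw [eval_ch hP hb.t0 hn1, eval_ch hP hb'.t0 hn1] at top
  -- together
  have hg : (0 : ℝ) < 2 ^ D.g i j n := by positivity
  have e1 : (eval (wof D n z i j S ω b) F' -
        2 ^ D.g i j n * (eval b (S₁ ω n) - eval b (S ω n))) -
      (eval (wof D n z i j S ω b') F' -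
        2 ^ D.g i j n * (eval b' (S₁ ω n) - eval b' (S ω n))) =
      ((eval (wof D n z i j S ω b) F' - 2 ^ D.g i j n * (eval b (P n) - eval b (S ω n))) -
        (eval (wof D n z i j S ω b') F' -
          2 ^ D.g i j n * (eval b' (P n) - eval b' (S ω n)))) -
      2 ^ D.g i j n * ((eval b (S₁ ω n) - eval b (P n)) -
        (eval b' (S₁ ω n) - eval b' (P n))) := by ring
  have e2 : |2 ^ D.g i j n * ((eval b (S₁ ω n) - eval b (P n)) -
      (eval b' (S₁ ω n) - eval b' (P n)))| ≤ exp ((a₀ + r₀ + c + 2) * z) / 2 ^ X₁ := by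
    rw [abs_mul, abs_of_pos hg]
    have f1 : (2 : ℝ) ^ D.g i j n ≤ 2 ^ (c * z) * 2 ^ D.g i₁ j₁ n := by
      rw [← pow_add]
      exact pow_le_pow_right₀ (by norm_num) (by omega)
    have f2 : (2 : ℝ) ^ (c * z) ≤ exp (c * z) := by
      have h3 : (2 : ℝ) ≤ exp 1 := by
        have h1 := Real.exp_one_gt_d9
        linarith
      calc (2 : ℝ) ^ (c * z) ≤ exp 1 ^ (c * z) := pow_le_pow_left₀ (by norm_num) h3 _
        _ = exp (c * z) := by
            rw [← exp_nat_mul]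
            push_cast
            rw [mul_one]
    have f3 : (2 : ℝ) ≤ exp (2 * z) := by
      have h1 := Real.exp_one_gt_d9
      have h2 := exp_le_exp.2 (by linarith : (1 : ℝ) ≤ 2 * z)
      linarith
    obtain ⟨y, hy⟩ : ∃ y : ℝ, y = |(eval b (S₁ ω n) - eval b (P n)) -
      (eval b' (S₁ ω n) - eval b' (P n))| := ⟨_, rfl⟩
    rw [← hy] at top ⊢
    have hy0 : 0 ≤ y := by rw [hy]; exact abs_nonneg _
    calc 2 ^ D.g i j n * y ≤ 2 ^ (c * z) * 2 ^ D.g i₁ j₁ n * y :=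
          mul_le_mul_of_nonneg_right f1 hy0
      _ = 2 ^ (c * z) * (2 ^ D.g i₁ j₁ n * y) := by ring
      _ ≤ exp (c * z) * ((4 * E) ^ dd K₂ (n + 1) * (2 * ρ / 2 ^ X₁)) :=
          mul_le_mul f2 top (by positivity) (exp_pos _).le
      _ ≤ exp (c * z) * (exp (a₀ * z) * (exp (2 * z) * exp (r₀ * z) / 2 ^ X₁)) := by
          refine mul_le_mul_of_nonneg_left (mul_le_mul (hEa _ (by omega)) ?_ (by positivity)
            (exp_pos _).le) (exp_pos _).le
          refine div_le_div_of_nonneg_right ?_ h2X₁.le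
          rw [← hρe]
          exact mul_le_mul_of_nonneg_right f3 (by linarith)
      _ = exp ((a₀ + r₀ + c + 2) * z) / 2 ^ X₁ := by
          rw [← mul_div_assoc, ← mul_div_assoc, ← exp_add, ← exp_add, ← exp_add]
          congr 2
          ring
  rw [e1]
  refine (abs_sub _ _).trans ((add_le_add core e2).trans ?_)
  have e3 : A * B / 2 ^ X = A / 2 ^ X * B := by ring
  rw [e3, hAX]
  have hC3p : 0 < exp (C₃ * z) := exp_pos _
  have e4 : exp (C₃ * z) * (ρ / 2 ^ X₁ * B + 1 / 2 ^ t) ≤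
      exp ((C₃ + r₀) * z) * (B / 2 ^ X₁ + 1 / 2 ^ t) := by
    have f3 : exp ((C₃ + r₀) * z) = exp (C₃ * z) * ρ := by
      rw [hρe, ← exp_add]
      congr 1
      ring
    rw [f3, mul_assoc]
    refine mul_le_mul_of_nonneg_left ?_ hC3p.le
    rw [mul_add]
    refine add_le_add (le_of_eq ?_) (le_mul_of_one_le_left (by positivity) hρ1)
    ring
  refine (add_le_add e4 le_rfl).trans ?_
  obtain ⟨Y, hY⟩ : ∃ Y : ℝ, Y = B / 2 ^ X₁ + 1 / 2 ^ t := ⟨_, rfl⟩
  have hY1 : 1 / 2 ^ X₁ ≤ Y := by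
    rw [hY]
    have : 1 / 2 ^ X₁ ≤ B / 2 ^ X₁ := div_le_div_of_nonneg_right hB h2X₁.le
    have : (0 : ℝ) ≤ 1 / 2 ^ t := by positivity
    linarith
  have hY0 : 0 ≤ Y := by
    have : (0 : ℝ) ≤ 1 / 2 ^ X₁ := by positivity
    linarith
  rw [← hY]
  have g2 : exp ((a₀ + r₀ + c + 2) * z) / 2 ^ X₁ ≤ exp ((a₀ + r₀ + c + 2) * z) * Y := by
    rw [div_eq_mul_one_div]
    exact mul_le_mul_of_nonneg_left hY1 (exp_pos _).le
  refine (add_le_add le_rfl g2).trans ?_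
  rw [← add_mul]
  refine mul_le_mul_of_nonneg_right ?_ hY0
  have hc0 : (0 : ℝ) ≤ c := Nat.cast_nonneg _
  have g6 : (2 : ℝ) ≤ exp z := by
    have h1 := Real.exp_one_gt_d9
    have h2 := exp_le_exp.2 hzr
    linarith
  have p1 : 1 ≤ exp ((C₃ + r₀) * z) := one_le_exp (by positivity)
  have p2 : 1 ≤ exp ((a₀ + r₀ + c + 2) * z) := one_le_exp (by positivity)
  have p3 : exp ((C₃ + r₀) * z) + exp ((a₀ + r₀ + c + 2) * z) ≤
      2 * (exp ((C₃ + r₀) * z) * exp ((a₀ + r₀ + c + 2) * z)) := by nlinarith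
  have g5 : exp ((C₃ + r₀ + a₀ + r₀ + c + 2 + 1) * z) =
      exp z * (exp ((C₃ + r₀) * z) * exp ((a₀ + r₀ + c + 2) * z)) := by
    rw [← exp_add, ← exp_add]
    congr 1
    ring
  rw [g5]
  exact p3.trans (mul_le_mul_of_nonneg_right g6 (by positivity))

end Pool.GSD
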