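import Pool.Agent.H41.GSD.Lf4
import Pool.Agent.H19.VAS.Def

/-!
# The leaf on the line side

`eval_tot`: the value of the total sheet. `lfB`: the total sheet is the line side of the label at
`(i₁, j₁)` for points with the same heights of the narrow coordinates there (`Pool.VAS.LfB`).
-/

set_option autoImplicit false

namespace Pool.GSD

open Finset Real MvPolynomial
open Pool.Agent.H49.Ent Pool.Agent.H32.Dense Pool.STK Pool.STAT Pool.MIC.Frm Pool.MIC7 Pool.FRM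
open Pool.MIC Pool.MicA
open Pool.BFL (Pl Pb)
open Pool.TIE (elim elim_vars elim_deg ml_le_of_cb lip2 Dat dg)

/-- The value of the total sheet. -/
theorem eval_tot (D : NDat2) (n z i j : ℕ) (S : D.Ω → ℕ → PN) (ω : D.Ω) (F : Pl (n - 1))
    (b : ℕ → ℝ) : eval b (vtP n z (D.g i j) (S ω) F) =
      eval b (S ω n) + 1 / 2 ^ D.g i j n * eval (wof D n z i j S ω b) F :=
  eval_vtP n z (D.g i j) (S ω) F b

theorem two_le_exp (B z : ℕ) : (2 : ℝ) ^ (B * z) ≤ exp (B * z) := by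
  have h3 : (2 : ℝ) ≤ exp 1 := by
    have h1 := Real.exp_one_gt_d9
    linarith
  calc (2 : ℝ) ^ (B * z) ≤ exp 1 ^ (B * z) := pow_le_pow_left₀ (by norm_num) h3 _
    _ = exp (B * z) := by
        rw [← exp_nat_mul]
        push_cast
        rw [mul_one]

/-- **The leaf on the line side.** -/
theorem lfB (n K' Ds KF Bb c : ℕ) (C : ℝ) (hC : 0 ≤ C) : ∃ C' : ℝ, 0 ≤ C' ∧
    ∀ (D : NDat2)
    (K z X X₁ M i j iA jA i₁ j₁ bb t : ℕ) (pr : ℕ → ℕ × ℕ) (Ms : Finset (Fin (n - 1)))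
    (ω : D.Ω) (P : ℕ → PN) (nn : Fin (n - 1) → ℝ)
    (s : Fin (n - 1) → Pl (n - 1)) (F F' : Pl (n - 1)) (B : ℝ), K ≤ K' → 1 ≤ z →
    z + 2 ≤ X → C' * z ≤ bb → C' * z ≤ X → 1 ≤ n → i < M → j < M → iA < M → jA < M →
    i₁ < M → j₁ < M → 1 ≤ X₁ → X₁ ≤ X →
    (∀ i j x, TriN (D.G i j x)) → (∀ i j x l, (D.G i j x l).totalDegree ≤ K) →
    FrP D n K' M z C P ω → Sd D n K i j (D.Ψ i j) ω → Sd D n K i j (D.Φ i j) ω →
    Lo D n X (i, j) (iA, jA) →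
    (∀ l : Fin (n - 1), l ∈ Ms ↔ D.g iA jA (l + 1) ≤ D.g i j (l + 1)) →
    (∀ l : Fin (n - 1), l ∉ Ms → (pr (l + 1)).1 < M ∧ (pr (l + 1)).2 < M ∧
      Lo D (l + 1) X (i, j) (pr (l + 1)) ∧ ∀ k : Fin (n - 1), k < l →
        D.g i j (k + 1) < D.g (pr (l + 1)).1 (pr (l + 1)).2 (k + 1) → k ∉ Ms) →
    Shn D n z X i j bb Ds (D.Ψ i j) pr ω Ms s →
    (∀ l : Fin (n - 1), l ∉ Ms → |nn l - (vS D n z i j X (D.Ψ i j) ω l -
      eval (vS D n z i j X (D.Ψ i j) ω) (s l))| ≤ 1 / 2 ^ X) →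
    F.totalDegree ≤ KF → F'.totalDegree ≤ KF → 1 ≤ B → (∀ α, |coeff α F| ≤ B) →
    (∀ α, α ≠ 0 → |coeff α F' - coeff α F| ≤ 1 / 2 ^ t) →
    (∀ α, α ≠ 0 → |coeff α (bind₁ (elim Ms nn s (n - 1)) F) -
      coeff α (shpS D n z i j iA jA bb (D.Ψ i j) n ω)| ≤ 1 / 2 ^ t) →
    Sd D n K i₁ j₁ (D.Φ i₁ j₁) ω →
    (∀ l : Fin (n - 1), (l ∉ Ms → D.g i j (l + 1) + X₁ ≤ D.g i₁ j₁ (l + 1)) ∧
      (l ∈ Ms → D.g i₁ j₁ (l + 1) + X₁ ≤ D.g i j (l + 1))) →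
    D.g i j n ≤ D.g i₁ j₁ n + c * z →
    Pool.VAS.LfB D n z i j i₁ j₁ X₁ F' (2 ^ (Bb * z))
      (exp (C' * z) * (B / 2 ^ X₁ + 1 / 2 ^ t)) ω := by
  obtain ⟨C₁, hC₁, hpk⟩ := fr_pack n K' C hC
  obtain ⟨K₂, hK₂⟩ : ∃ K₂ : ℕ, K₂ = K' * (K' + 1) ^ n := ⟨_, rfl⟩
  obtain ⟨C₂, hC₂e⟩ : ∃ C₂ : ℝ, C₂ = C₁ + Bb := ⟨_, rfl⟩
  have hC₂ : 0 ≤ C₂ := by rw [hC₂e]; positivity
  obtain ⟨r₀, hr₀⟩ : ∃ r₀ : ℝ, r₀ = (C₂ + 2) * dd K₂ (n + 2) := ⟨_, rfl⟩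
  have hr₀0 : 0 ≤ r₀ := by rw [hr₀]; positivity
  obtain ⟨C₃, hC₃, h3⟩ := leaf3 n K' Ds KF c C r₀ hC hr₀0
  refine ⟨C₃, hC₃, ?_⟩
  intro D K z X X₁ M i j iA jA i₁ j₁ bb t pr Ms ω P nn s F F' B hK hz hX hbb hXz hn1 hi hj
    hiA hjA hi₁ hj₁ hX₁ hXX tG dG hF hS hSΦ hLA hMs hpr hs hnn dF dF' hB hFc hFF hmt hS₁ hL₁ hcn
    b b' hb hb' hht
  have hzr : (1 : ℝ) ≤ z := by exact_mod_cast hz
  have hz0 : (0 : ℝ) ≤ z := by linarith
  obtain ⟨hNb', _, hE'⟩ := hpk D K z M i j (D.Φ i j) ω P hK hz hi hj tG dG hF hSΦ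
  obtain ⟨hN₁', _, _⟩ := hpk D K z M i₁ j₁ (D.Φ i₁ j₁) ω P hK hz hi₁ hj₁ tG dG hF hS₁
  have hF' := hF
  obtain ⟨hP, dP, vP, nP⟩ := hF'
  have hx₀ : eval (D.X ω) (P 0) = D.X ω 0 := vP 0 (Nat.zero_le _)
  obtain ⟨E, hEe⟩ : ∃ E : ℝ, E = exp (C₂ * z) := ⟨_, rfl⟩
  obtain ⟨ρ, hρ⟩ : ∃ ρ : ℝ, ρ = 2 ^ (Bb * z) := ⟨_, rfl⟩
  rw [← hρ] at hb hb' hht
  rw [← hK₂] at hNb' hN₁'
  have hCE : exp (C₁ * z) ≤ E := by
    rw [hEe, hC₂e]
    refine exp_le_exp.2 (mul_le_mul_of_nonneg_right ?_ hz0)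
    have : (0 : ℝ) ≤ Bb := Nat.cast_nonneg _
    linarith
  have hρE : ρ ≤ E := by
    rw [hρ, hEe, hC₂e]
    exact (two_le_exp Bb z).trans (exp_le_exp.2 (mul_le_mul_of_nonneg_right (by linarith) hz0))
  have hE : 6 * 2 ^ z ≤ E := hE'.trans hCE
  have h2z : (1 : ℝ) ≤ 2 ^ z := one_le_pow₀ (by norm_num)
  have hE1 : 1 ≤ E := by linarith
  have hNb : Nb K₂ n (D.g i j) (ch P (D.X ω 0) (D.Φ i j ω)) E :=
    (hNb' n le_rfl).mono le_rfl hCE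
  have hN₁ : Nb K₂ n (D.g i₁ j₁) (ch P (D.X ω 0) (D.Φ i₁ j₁ ω)) E :=
    (hN₁' n le_rfl).mono le_rfl hCE
  have hEa : ∀ k ≤ n + 2, (4 * E) ^ dd K₂ k ≤ exp (r₀ * z) := fun k hk => by
    rw [hEe, hr₀]
    exact w_le hz hC₂ (dd_mono hk)
  have thin : ∀ l : Fin (n - 1), l ∉ Ms → D.g i j (l + 1) < D.g i₁ j₁ (l + 1) := fun l hl => by
    have := (hL₁ l).1 hl
    omega
  -- the boxes
  have bx : ∀ x : ℕ → ℝ, Pool.VAS.BxB D n i j i₁ j₁ ρ ω x →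
      NrP D n i j i₁ j₁ Ms P ω (exp (r₀ * z)) x := by
    intro x hx
    obtain ⟨x0, x1, x2⟩ := hx
    have m := mix_bd hNb hN₁ hE1 rfl (zs_zero hP x0 hx₀)
      (fun l l1 l2 hl => by
        rw [eval_ch hP x0 l1]
        have h1 := x2 l l1 l2 hl
        have e : zs P x l - (eval x (D.Φ i₁ j₁ ω l) - eval x (P l)) =
            x l - eval x (D.Φ i₁ j₁ ω l) := by
          unfold zs
          ring
        rw [e]
        exact h1.trans (div_le_div_of_nonneg_right hρE (by positivity)))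
      (fun l l1 l2 _ => by
        rw [eval_ch hP x0 l1]
        have h1 := x1 l l1 l2
        have e : zs P x l - (eval x (D.Φ i j ω l) - eval x (P l)) =
            x l - eval x (D.Φ i j ω l) := by
          unfold zs
          ring
        rw [e]
        exact h1.trans (div_le_div_of_nonneg_right hρE (by positivity)))
    refine ⟨x0, fun l hl => (m l hl).1.trans (div_le_div_of_nonneg_right (hEa _ (by omega))
      (by positivity)), fun l hl => ?_⟩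
    have hl2 := l.2
    exact (m ((l : ℕ) + 1) (by omega)).2.trans (div_le_div_of_nonneg_right (hEa _ (by omega))
      (by positivity))
  have hρr : ρ ≤ exp (r₀ * z) := by
    refine hρE.trans (le_trans ?_ (hEa 0 (by omega)))
    calc E ≤ (4 * E) ^ 1 := by rw [pow_one]; linarith
      _ ≤ (4 * E) ^ dd K₂ 0 := pow_le_pow_right₀ (by linarith) (dd_pos _ _)
  have key := h3 D K z X X₁ M i j iA jA i₁ j₁ bb t pr Ms (D.Ψ i j) (D.Φ i₁ j₁) ω P nn s F F' B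
    hK hz hX hbb hXz hn1 hi hj hiA hjA hi₁ hj₁ hXX tG dG hF hS hLA hMs hpr hs hnn dF dF' hB hFc
    hFF hmt hS₁ hL₁ hcn b b' (bx b hb) (bx b' hb') (fun l hl => by
      have hl2 := l.2
      exact (hht ((l : ℕ) + 1) (Nat.succ_pos _) (by omega) (thin l hl)).trans
        (div_le_div_of_nonneg_right hρr (by positivity)))
  rw [eval_tot, eval_tot]
  have hg : (0 : ℝ) < 2 ^ D.g i j n := by positivity
  rw [le_div_iff₀ hg]
  refine le_trans (le_of_eq ?_) key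
  have e4 : ∀ y : ℝ, |y| * 2 ^ D.g i j n = |y * 2 ^ D.g i j n| := fun y => by
    rw [abs_mul, abs_of_pos hg]
  rw [e4]
  congr 1
  field_simp
  ring

end Pool.GSD
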