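import Pool.Agent.H41.GSD.Own1
import Pool.Agent.H41.GSD.HtA

/-!
# The own leaf of the target over the eliminated coordinates
-/

set_option autoImplicit false

namespace Pool.GSD

open Finset Real MvPolynomial
open Pool.Agent.H49.Ent Pool.Agent.H32.Dense Pool.STK Pool.STAT Pool.MIC.Frm Pool.MIC7 Pool.FRM
open Pool.MIC Pool.MicA
open Pool.BFL (Pl Pb)
open Pool.TIE (elim elim_vars elim_deg)

theorem elim_stab {m : ℕ} {M' : Finset (Fin m)} {n : Fin m → ℝ} {s : Fin m → Pl m}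
    (hv : ∀ c, ∀ c' ∈ (s c).vars, c' < c) (k : ℕ) : ∀ c : Fin m, (c : ℕ) < k →
    elim M' n s (k + 1) c = elim M' n s k c := by
  induction k with
  | zero => exact fun c hc => absurd hc (Nat.not_lt_zero _)
  | succ k ih =>
    intro c hc
    conv_lhs => unfold elim
    conv_rhs => unfold elim
    by_cases hM : c ∈ M'
    · rw [if_pos hM, if_pos hM]
    · rw [if_neg hM, if_neg hM]
      congr 1
      refine AdxRow.bnd_congr fun i hi => ih i ?_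
      have h1 : (i : ℕ) < (c : ℕ) := hv c i hi
      omega

/-- The values of the eliminated coordinates. -/
noncomputable def wv {m : ℕ} (M' : Finset (Fin m)) (n : Fin m → ℝ) (s : Fin m → Pl m)
    (v : Fin m → ℝ) (l : Fin m) : ℝ := eval v (elim M' n s m l)

theorem wv_in {m : ℕ} {M' : Finset (Fin m)} {n : Fin m → ℝ} {s : Fin m → Pl m}
    {v : Fin m → ℝ} {l : Fin m} (hl : l ∈ M') : wv M' n s v l = v l := by
  unfold wv
  obtain ⟨m', rfl⟩ : ∃ m', m = m' + 1 := ⟨m - 1, by have := l.2; omega⟩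
  unfold elim
  rw [if_pos hl, eval_X]

theorem wv_out {m : ℕ} {M' : Finset (Fin m)} {n : Fin m → ℝ} {s : Fin m → Pl m}
    (hv : ∀ c, ∀ c' ∈ (s c).vars, c' < c) {v : Fin m → ℝ} {l : Fin m} (hl : l ∉ M') :
    wv M' n s v l = n l + eval (wv M' n s v) (s l) := by
  obtain ⟨m', rfl⟩ : ∃ m', m = m' + 1 := ⟨m - 1, by have := l.2; omega⟩
  have e : elim M' n s (m' + 1) l = C (n l) + bind₁ (elim M' n s (m' + 1)) (s l) := by
    conv_lhs => unfold elim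
    rw [if_neg hl]
    congr 1
    refine AdxRow.bnd_congr fun i hi => (elim_stab hv m' i ?_).symm
    have h1 : (i : ℕ) < (l : ℕ) := hv l i hi
    omega
  have e2 : eval v (bind₁ (elim M' n s (m' + 1)) (s l)) = eval (wv M' n s v) (s l) :=
    eval₂Hom_bind₁ (RingHom.id ℝ) v _ _
  unfold wv at e2 ⊢
  rw [e, map_add, eval_C, e2]

/-- The predicate on the indices. -/
def inM {n : ℕ} (Ms : Finset (Fin (n - 1))) (l : ℕ) : Prop :=
  ∀ h : l - 1 < n - 1, (⟨l - 1, h⟩ : Fin (n - 1)) ∈ Ms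

theorem inM_succ {n : ℕ} {Ms : Finset (Fin (n - 1))} {l : Fin (n - 1)} :
    inM Ms ((l : ℕ) + 1) ↔ l ∈ Ms := by
  constructor
  · intro h
    exact h l.2
  · intro h _
    exact h

theorem uco_fin {n z : ℕ} {v : Fin (n - 1) → ℝ} (l : Fin (n - 1)) :
    uco n z v ((l : ℕ) + 1) = 4 * 2 ^ z * v l - 2 * 2 ^ z := by
  rw [uco_succ (Nat.succ_pos _) (by omega)]
  rfl

theorem Cp.congr {c : ℕ} {gb : ℕ → ℕ} {Fb F₁ : ℕ → PN} {th : ℕ → Prop} {u u' β : ℕ → ℝ}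
    (h : Cp c gb Fb F₁ th u β) (hu : ∀ l, 1 ≤ l → l < c → ¬ th l → u l = u' l) :
    Cp c gb Fb F₁ th u' β :=
  ⟨h.1, fun l h1 h2 => ⟨(h.2 l h1 h2).1, fun ht => by
    rw [← hu l h1 h2 ht]
    exact (h.2 l h1 h2).2 ht⟩⟩

/-- The constants are exponentials. -/
theorem zc_exp (K : ℕ) (a : ℝ) (ha : 0 ≤ a) (l : ℕ) : ∃ b : ℝ, 0 ≤ b ∧ ∀ z : ℕ, 1 ≤ z →
    zc K (exp (a * z)) l ≤ exp (b * z) := by
  induction l with
  | zero => exact ⟨a, ha, fun z _ => le_rfl⟩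
  | succ l ih =>
    obtain ⟨b, hb, h⟩ := ih
    refine ⟨(b + 2) * dd K (l + 3), by positivity, fun z hz => ?_⟩
    have h0 : 0 ≤ zc K (exp (a * z)) l := by
      have := zc_ge K (one_le_exp (by positivity : 0 ≤ a * (z : ℝ))) l
      linarith [exp_pos (a * z)]
    calc zc K (exp (a * z)) (l + 1) = (4 * zc K (exp (a * z)) l) ^ dd K (l + 3) := rfl
      _ ≤ (4 * exp (b * z)) ^ dd K (l + 3) :=
          pow_le_pow_left₀ (by positivity) (mul_le_mul_of_nonneg_left (h z hz) (by norm_num)) _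
      _ ≤ exp ((b + 2) * dd K (l + 3) * z) := w_le hz hb le_rfl

section cell

variable {D : NDat2} {n K' K₂ z X i j bb : ℕ} {S : D.Ω → ℕ → PN} {ω : D.Ω} {P : ℕ → PN}
  {E : ℝ} {pr : ℕ → ℕ × ℕ} {Ms : Finset (Fin (n - 1))} {nn : Fin (n - 1) → ℝ}

theorem eval_shr_ch (hP : TriN P) (tS : TriN (S ω)) {i₁ j₁ c : ℕ}
    (tΨ : TriN (D.Ψ i₁ j₁ ω)) (hc : 1 ≤ c) (v : Fin (n - 1) → ℝ) :
    eval v (shrS D n z i j i₁ j₁ S c ω) = 2 ^ D.g i j c *
      (eval (zs P (cpt D n z i j i₁ j₁ S ω v)) (ch P (D.X ω 0) (D.Ψ i₁ j₁ ω) c) -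
        eval (zs P (cpt D n z i j i₁ j₁ S ω v)) (ch P (D.X ω 0) (S ω) c)) := by
  have hcz : cpt D n z i j i₁ j₁ S ω v 0 = D.X ω 0 := cpt_zero tS tΨ
  rw [eval_ch hP hcz hc, eval_ch hP hcz hc, eval_shrS]
  ring

/-- The coefficients of the shapes. -/
theorem cf_lo (n D₀ : ℕ) : ∃ Cb : ℝ, 0 ≤ Cb ∧ ∀ {D : NDat2} {K₂ z i j i₁ j₁ c : ℕ}
    {S : D.Ω → ℕ → PN} {ω : D.Ω} {P : ℕ → PN} {E ε : ℝ} {x₀ : ℕ → ℝ}, TriN P →
    eval x₀ (P 0) = D.X ω 0 → TriN (S ω) → TriN (D.Ψ i₁ j₁ ω) → 1 ≤ c → c ≤ n →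
    (shrS D n z i j i₁ j₁ S c ω).totalDegree ≤ D₀ → 6 * 2 ^ z ≤ E →
    Tr K₂ c (D.g i j) (D.g i₁ j₁) (ch P (D.X ω 0) (S ω)) (ch P (D.X ω 0) (D.Ψ i₁ j₁ ω))
      (fun l => D.g i j l < D.g i₁ j₁ l) E ε →
    ∀ α, α ≠ 0 → |coeff α (shrS D n z i j i₁ j₁ S c ω)| ≤ Cb * (4 * E) ^ dd K₂ (c + 2) := by
  obtain ⟨Cb, hCb, hcb⟩ := Pool.Agent.H36.KBX.coef_bound (n - 1) D₀
  refine ⟨Cb, hCb, ?_⟩
  intro D K₂ z i j i₁ j₁ c S ω P E ε x₀ hP hx₀ tS tΨ hc1 hc hdeg hE hT α hα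
  obtain ⟨Q, hQ⟩ : ∃ Q : Pl (n - 1), Q = shrS D n z i j i₁ j₁ S c ω -
    MvPolynomial.C (eval 0 (shrS D n z i j i₁ j₁ S c ω)) := ⟨_, rfl⟩
  have key := hcb Q ((4 * E) ^ dd K₂ (c + 2)) (by
    rw [hQ]
    refine (totalDegree_sub _ _).trans (max_le hdeg ?_)
    rw [totalDegree_C]
    exact Nat.zero_le _) (fun y hy => by
    rw [hQ, map_sub, eval_C, eval_shr_ch hP tS tΨ hc1, eval_shr_ch hP tS tΨ hc1]
    exact hT.cf rfl (cp_of (v := y) (z := z) hP hx₀ tS tΨ hc)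
      (cp_of (v := 0) (z := z) hP hx₀ tS tΨ hc)
      (fun l a b _ => (uco_bd hy a (b.trans_le hc)).trans hE)
      (fun l a b _ => (uco_bd (fun _ => by
        rw [Pi.zero_apply, abs_zero]
        exact zero_le_one) a (b.trans_le hc)).trans hE)) α
  have h1 : coeff α Q = coeff α (shrS D n z i j i₁ j₁ S c ω) := by
    rw [hQ, coeff_sub, coeff_C, if_neg (Ne.symm hα), sub_zero]
  rw [← h1]
  exact key

/-- The eliminated point. -/
theorem elp_of (hP : TriN P) (vP : ∀ l ≤ n, eval (D.X ω) (P l) = D.X ω l) {K : ℕ}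
    (hS : Sd D n K i j S ω) (tG : ∀ i j x, TriN (D.G i j x)) (hE : 6 * 2 ^ z ≤ E)
    (hg : ∀ l, l ∉ Ms → GdsS D n z i j (pr ((l : ℕ) + 1)).1 (pr ((l : ℕ) + 1)).2 bb S
      ((l : ℕ) + 1) ω)
    (hn : ∀ l, l ∉ Ms → |nn l - (vS D n z i j X S ω l -
      eval (vS D n z i j X S ω) (shsS D n z i j bb S pr ω l))| ≤ 1 / 2 ^ X)
    {v : Fin (n - 1) → ℝ} (hv : ∀ l, |v l| ≤ 1) :
    Elp n (D.g i j) (ch P (D.X ω 0) (S ω)) (fun l => D.g (pr l).1 (pr l).2)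
      (fun l => ch P (D.X ω 0) (D.Ψ (pr l).1 (pr l).2 ω)) (inM Ms) E (4 * 2 ^ z / 2 ^ X)
      (uco n z (wv Ms nn (shsS D n z i j bb S pr ω) v))
      (zs P (fpt D n z i j S ω (wv Ms nn (shsS D n z i j bb S pr ω) v)))
      (uco n z (vS D n z i j X S ω)) (ztS D i j S ω) (zs P (D.X ω))
      (fun l => zs P (cpt D n z i j (pr l).1 (pr l).2 S ω
        (wv Ms nn (shsS D n z i j bb S pr ω) v)))
      (fun l => zs P (cpt D n z i j (pr l).1 (pr l).2 S ω (vS D n z i j X S ω))) := by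
  have hx₀ : eval (D.X ω) (P 0) = D.X ω 0 := vP 0 (Nat.zero_le _)
  have h2z : (1 : ℝ) ≤ 2 ^ z := one_le_pow₀ (by norm_num)
  have hE1 : 1 ≤ E := by linarith
  have hy : ∀ l, 1 ≤ l → l ≤ n → |ztS D i j S ω l| ≤ 1 := fun l a b => nat_le (hS.hgt l a b)
  have hvb := vS_bd (D := D) (z := z) (X := X) hy
  have hsv : ∀ c, ∀ c' ∈ (shsS D n z i j bb S pr ω c).vars, c' < c := by
    intro c c' hc'
    have h1 := vars_C_mul_le hc'
    have h2 := (vars_shpS hS.tri (tG _ _ _) h1).2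
    have : (c' : ℕ) < (c : ℕ) := by omega
    exact this
  obtain ⟨w, hw⟩ : ∃ w, w = wv Ms nn (shsS D n z i j bb S pr ω) v := ⟨_, rfl⟩
  rw [← hw]
  have hvS1 : ∀ l, |vS D n z i j X S ω l| ≤ 1 := fun l => by
    rw [abs_le]
    have := hvb l
    constructor <;> linarith [this.1, this.2]
  have hpt := pt_of (g := D.g i j) (Ψ := S ω) (x := D.X ω) hP rfl hx₀ n
  refine ⟨fpt_ptl hP hx₀ hS.tri, ?_, ⟨hpt.1, fun l a b => hpt.2 l a b.le⟩, ?_,
    fun l a b => (hy l a b.le).trans hE1, fun l a b => (uco_bd hvS1 a b).trans hE,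
    fun l a b => uco_near a b (hy l a b.le), fun l a b _ => cp_of hP hx₀ hS.tri (tG _ _ _) b.le,
    fun l a b _ => cp_of hP hx₀ hS.tri (tG _ _ _) b.le, ?_⟩
  · intro l h1 h2 hM
    have e1 : w ⟨l - 1, by omega⟩ = v ⟨l - 1, by omega⟩ := by
      rw [hw]
      exact wv_in (hM _)
    rw [uco_succ h1 h2, e1]
    exact (two_bd (hv _)).trans hE
  · intro l hl
    unfold zs
    rw [vP l hl.le, sub_self]
  · intro l h1 h2 hM
    obtain ⟨l', rfl⟩ : ∃ l', l = l' + 1 := ⟨l - 1, by omega⟩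
    have hl' : l' < n - 1 := by omega
    obtain ⟨f, hf⟩ : ∃ f : Fin (n - 1), f = ⟨l', hl'⟩ := ⟨_, rfl⟩
    have ef : (f : ℕ) = l' := by rw [hf]
    rw [← ef] at hM ⊢
    rw [inM_succ] at hM
    have g := hg f hM
    have e1 : w f = nn f + eval w (shsS D n z i j bb S pr ω f) := by
      rw [hw]
      exact wv_out hsv hM
    have ev : ∀ v' : Fin (n - 1) → ℝ, eval v' (shsS D n z i j bb S pr ω f) =
        (eval v' (shrS D n z i j (pr ((f : ℕ) + 1)).1 (pr ((f : ℕ) + 1)).2 S ((f : ℕ) + 1) ω) -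
          coeff 0 (shrS D n z i j (pr ((f : ℕ) + 1)).1 (pr ((f : ℕ) + 1)).2 S
            ((f : ℕ) + 1) ω)) / (4 * 2 ^ z) := by
      intro v'
      unfold shsS
      rw [map_mul, eval_C, shp_gds g]
      ring
    have h3 := hn f hM
    have hz4 : (0 : ℝ) < 4 * 2 ^ z := by positivity
    have e2 : uco n z w ((f : ℕ) + 1) - uco n z (vS D n z i j X S ω) ((f : ℕ) + 1) -
        2 ^ D.g i j ((f : ℕ) + 1) *
          ((eval (zs P (cpt D n z i j (pr ((f : ℕ) + 1)).1 (pr ((f : ℕ) + 1)).2 S ω w))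
              (ch P (D.X ω 0) (D.Ψ (pr ((f : ℕ) + 1)).1 (pr ((f : ℕ) + 1)).2 ω) ((f : ℕ) + 1)) -
            eval (zs P (cpt D n z i j (pr ((f : ℕ) + 1)).1 (pr ((f : ℕ) + 1)).2 S ω w))
              (ch P (D.X ω 0) (S ω) ((f : ℕ) + 1))) -
          (eval (zs P (cpt D n z i j (pr ((f : ℕ) + 1)).1 (pr ((f : ℕ) + 1)).2 S ω
              (vS D n z i j X S ω)))
              (ch P (D.X ω 0) (D.Ψ (pr ((f : ℕ) + 1)).1 (pr ((f : ℕ) + 1)).2 ω) ((f : ℕ) + 1)) -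
            eval (zs P (cpt D n z i j (pr ((f : ℕ) + 1)).1 (pr ((f : ℕ) + 1)).2 S ω
              (vS D n z i j X S ω)))
              (ch P (D.X ω 0) (S ω) ((f : ℕ) + 1)))) =
        4 * 2 ^ z * (nn f - (vS D n z i j X S ω f -
          eval (vS D n z i j X S ω) (shsS D n z i j bb S pr ω f))) := by
      rw [uco_fin, uco_fin, e1, ev, ev, eval_shr_ch hP hS.tri (tG _ _ _) (Nat.succ_pos _),
        eval_shr_ch hP hS.tri (tG _ _ _) (Nat.succ_pos _)]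
      field_simp
      ring
    rw [e2, abs_mul, abs_of_pos hz4]
    calc 4 * 2 ^ z * |nn f - (vS D n z i j X S ω f -
          eval (vS D n z i j X S ω) (shsS D n z i j bb S pr ω f))| ≤ 4 * 2 ^ z * (1 / 2 ^ X) :=
          mul_le_mul_of_nonneg_left h3 hz4.le
      _ = 4 * 2 ^ z / 2 ^ X := by ring

end cell

end Pool.GSD
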