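import Pool.Agent.H41.GSD.Own2

/-!
# The gradient of the own leaf of the target

`own_det`: the gradient of the own leaf of the target in the direction of a coordinate is the
gradient of the height of the frame in the direction of the composite sheet, where the coordinates
outside `Ms` are eliminated over the sheets of their own pairs.
-/

set_option autoImplicit false

namespace Pool.GSD

open Finset Real MvPolynomial
open Pool.Agent.H49.Ent Pool.Agent.H32.Dense Pool.STK Pool.STAT Pool.MIC.Frm Pool.MIC7 Pool.FRM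
open Pool.MIC Pool.MicA
open Pool.BFL (Pl Pb)
open Pool.TIE (elim elim_vars elim_deg ml_le_of_cb lip2)

theorem exp_le_two' {a : ℝ} {z bb : ℕ} (h : 2 * a * z ≤ bb) : exp (a * z) ≤ 2 ^ bb := by
  have h1 : (2 : ℝ) ^ bb = exp (Real.log 2 * bb) := by
    rw [mul_comm, exp_nat_mul, exp_log (by norm_num)]
  rw [h1]
  refine exp_le_exp.2 ?_
  have h2 : 1 / 2 ≤ Real.log 2 := by linarith [Real.log_two_gt_d9]
  have h3 : (0 : ℝ) ≤ bb := Nat.cast_nonneg _
  nlinarith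

/-- The height of the frame is bounded. -/
theorem pi_bd {D : NDat2} {n K₂ z i j : ℕ} {S : D.Ω → ℕ → PN} {ω : D.Ω} {P : ℕ → PN} {E : ℝ}
    {x₀ : ℕ → ℝ} (hn : 1 ≤ n) (hP : TriN P) (hx₀ : eval x₀ (P 0) = D.X ω 0) (tS : TriN (S ω))
    (hE : 6 * 2 ^ z ≤ E) (hb : Nb K₂ n (D.g i j) (ch P (D.X ω 0) (S ω)) E)
    {v : Fin (n - 1) → ℝ} (hv : ∀ l, |v l| ≤ 1) :
    |eval v (PiS D n z i j S P ω)| ≤ (4 * E) ^ dd K₂ (n + 1) := by
  have h2z : (1 : ℝ) ≤ 2 ^ z := one_le_pow₀ (by norm_num)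
  have hE1 : 1 ≤ E := by linarith
  rw [eval_PiS' hn hP tS, abs_neg, abs_mul, abs_of_pos (by positivity : (0 : ℝ) < 2 ^ D.g i j n)]
  have hp := fpt_ptl (D := D) (n := n) (z := z) (i := i) (j := j) (v := v) hP hx₀ tS
  have hz := hb.ptl hE1 rfl hp (fun l a b => (uco_bd hv a b).trans hE)
  have hB : (1 : ℝ) ≤ (4 * E) ^ dd K₂ n := one_le_pow₀ (by linarith)
  have v1 := hb.val (l := n) le_rfl hB (fun k hk => (hz k hk).trans
    (div_le_div_of_nonneg_right (wpow hE1 rfl hk.le) (by positivity)))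
  calc 2 ^ D.g i j n * |eval (zs P (fpt D n z i j S ω v)) (ch P (D.X ω 0) (S ω) n)|
      ≤ 2 ^ D.g i j n * (((4 * E) ^ dd K₂ n) ^ K₂ * E / 2 ^ D.g i j n) :=
        mul_le_mul_of_nonneg_left v1 (by positivity)
    _ = ((4 * E) ^ dd K₂ n) ^ K₂ * E := by field_simp
    _ ≤ (4 * E) ^ dd K₂ (n + 1) := by
        have := sz1 (K := K₂) (l := n) hE1 rfl
        linarith

/-- The derivatives of a polynomial which varies little. -/
theorem der_var (m D₀ : ℕ) : ∃ C : ℝ, 0 ≤ C ∧ ∀ (Q : Pl m) (δ : ℝ), Q.totalDegree ≤ D₀ →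
    (∀ y : Fin m → ℝ, (∀ i, |y i| ≤ 1) → |eval y Q - eval 0 Q| ≤ δ) →
    ∀ y : Fin m → ℝ, (∀ i, |y i| ≤ 2) → ∀ i, |eval y (pderiv i Q)| ≤ C * δ := by
  obtain ⟨C, hC, h⟩ := Pool.Agent.H36.KBX.der_bound m D₀
  refine ⟨C, hC, ?_⟩
  intro Q δ hQ hδ y hy i
  have h1 := ((h (Q - MvPolynomial.C (eval 0 Q)) δ ((totalDegree_sub _ _).trans (max_le hQ (by
    rw [totalDegree_C]
    exact Nat.zero_le _))) (fun y hy => by
    rw [map_sub, eval_C]
    exact hδ y hy) y hy).2.1) i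
  rw [map_sub, pderiv_C, sub_zero] at h1
  exact h1

/-- The derivatives of a bounded polynomial are Lipschitz. -/
theorem der_lip (m D₀ : ℕ) : ∃ C : ℝ, 0 ≤ C ∧ ∀ (Q : Pl m) (B δ : ℝ), Q.totalDegree ≤ D₀ →
    0 ≤ δ → (∀ y : Fin m → ℝ, (∀ i, |y i| ≤ 1) → |eval y Q| ≤ B) →
    ∀ y y' : Fin m → ℝ, (∀ i, |y i| ≤ 2) → (∀ i, |y' i| ≤ 2) → (∀ i, |y i - y' i| ≤ δ) →
    ∀ i, |eval y (pderiv i Q) - eval y' (pderiv i Q)| ≤ C * B * δ := by
  obtain ⟨C, hC, h⟩ := Pool.Agent.H36.KBX.coef_bound m D₀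
  refine ⟨((D₀ : ℝ) + 1) ^ m * (C * (D₀ + 1)) * (D₀ * 2 ^ D₀), by positivity, ?_⟩
  intro Q B δ hQ hδ hB y y' hy hy' hyy i
  have hB0 : 0 ≤ B := (abs_nonneg _).trans (hB 0 fun i => by
    rw [Pi.zero_apply, abs_zero]
    exact zero_le_one)
  have c1 := h Q B hQ hB
  have c2 := fun α => Pool.Agent.H36.KBX.coeff_pderiv_bound Q hQ _ c1 i α
  have d2 : (pderiv i Q).totalDegree ≤ D₀ :=
    (Pool.Agent.H50.PW.totalDegree_pderiv_le Q i).trans hQ
  have c3 := ml_le_of_cb d2 (by positivity) c2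
  have c4 := lip2 (R := 2) (by norm_num) d2 hy hy' hδ hyy
  refine c4.trans ((mul_le_mul_of_nonneg_right c3 (by positivity)).trans (le_of_eq ?_))
  ring

/-- **The gradient of the own leaf.** -/
theorem own_det (n K' : ℕ) (C : ℝ) (hC : 0 ≤ C) : ∃ C' : ℝ, 0 ≤ C' ∧ ∀ (D : NDat2)
    (K z X M i j iA jA bb : ℕ) (pr : ℕ → ℕ × ℕ) (Ms : Finset (Fin (n - 1)))
    (S : D.Ω → ℕ → PN) (ω : D.Ω) (P : ℕ → PN) (nn : Fin (n - 1) → ℝ), K ≤ K' → 1 ≤ z →
    z + 2 ≤ X → C' * z ≤ bb → C' * z ≤ X → 1 ≤ n → i < M → j < M → iA < M → jA < M →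
    (∀ i j x, TriN (D.G i j x)) → (∀ i j x l, (D.G i j x l).totalDegree ≤ K) →
    FrP D n K' M z C P ω → Sd D n K i j S ω → Lo D n X (i, j) (iA, jA) →
    (∀ l : Fin (n - 1), l ∈ Ms ↔ D.g iA jA (l + 1) ≤ D.g i j (l + 1)) →
    (∀ l : Fin (n - 1), l ∉ Ms → (pr (l + 1)).1 < M ∧ (pr (l + 1)).2 < M ∧
      Lo D (l + 1) X (i, j) (pr (l + 1)) ∧ ∀ k : Fin (n - 1), k < l →
        D.g i j (k + 1) < D.g (pr (l + 1)).1 (pr (l + 1)).2 (k + 1) → k ∉ Ms) →
    (∀ l : Fin (n - 1), l ∉ Ms → |nn l - (vS D n z i j X S ω l -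
      eval (vS D n z i j X S ω) (shsS D n z i j bb S pr ω l))| ≤ 1 / 2 ^ X) →
    ∀ c : Fin (n - 1), |∑ l, eval (vS D n z i j X S ω) (pderiv l (PiS D n z i j S P ω)) *
        eval (vS D n z i j X S ω) (pderiv c (elim Ms nn (shsS D n z i j bb S pr ω) (n - 1) l)) -
      eval (vS D n z i j X S ω) (pderiv c (shpS D n z i j iA jA bb S n ω))| ≤
        exp (C' * z) / 2 ^ X := by
  obtain ⟨C₂, hC₂, hpk⟩ := fr_pack n K' C hC
  obtain ⟨K₂, hK₂⟩ : ∃ K₂ : ℕ, K₂ = K' * (K' + 1) ^ n := ⟨_, rfl⟩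
  obtain ⟨Cb, hCb, hcf⟩ := cf_lo n (dK n K')
  obtain ⟨b₁, hb₁, hzc⟩ := zc_exp K₂ C₂ hC₂ (n + 1)
  obtain ⟨De, hDe⟩ : ∃ De : ℕ, De = (dK n K' + 1) ^ (n - 1) := ⟨_, rfl⟩
  obtain ⟨Ce, hCe, hder⟩ := Pool.Agent.H36.KBX.der_bound (n - 1) De
  obtain ⟨Cl, hCl, hlip⟩ := der_lip (n - 1) (dK n K')
  obtain ⟨Cv, hCv, hvar⟩ := der_var (n - 1) (dK n K' + dK n K' * De)
  -- the exponent
  obtain ⟨bG, hbG⟩ : ∃ bG : ℝ, bG = b₁ + (C₂ + 2) * dd K₂ (n + 2) := ⟨_, rfl⟩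
  have hbG0 : 0 ≤ bG := by rw [hbG]; positivity
  obtain ⟨A₂, hA₂⟩ : ∃ A₂ : ℝ, A₂ = 4 * (n - 1 : ℕ) * Cl * Ce + Cv := ⟨_, rfl⟩
  have hA₂0 : 0 ≤ A₂ := by rw [hA₂]; positivity
  have hl1 : 0 ≤ Real.log (A₂ + 1) := Real.log_nonneg (by linarith)
  have hl2 : 0 ≤ Real.log (Cb + 1) := Real.log_nonneg (by linarith)
  refine ⟨2 * (Real.log (A₂ + 1) + 3 * bG + Real.log (Cb + 1) + 2), by positivity, ?_⟩
  intro D K z X M i j iA jA bb pr Ms S ω P nn hK hz hX hbb hXz hn1 hi hj hiA hjA tG dG hF hS hLA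
    hMs hpr hnn c
  obtain ⟨hNb, hNo, hE⟩ := hpk D K z M i j S ω P hK hz hi hj tG dG hF hS
  obtain ⟨hP, dP, vP, nP⟩ := hF
  have hx₀ : eval (D.X ω) (P 0) = D.X ω 0 := vP 0 (Nat.zero_le _)
  obtain ⟨E, hEe⟩ : ∃ E : ℝ, E = exp (C₂ * z) := ⟨_, rfl⟩
  rw [← hEe, ← hK₂] at hNb hNo
  rw [← hEe] at hE
  have hzr : (1 : ℝ) ≤ z := by exact_mod_cast hz
  have hz0 : (0 : ℝ) ≤ z := by linarith
  have h2z : (1 : ℝ) ≤ 2 ^ z := one_le_pow₀ (by norm_num)
  have hE1 : 1 ≤ E := by linarith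
  obtain ⟨G, hG⟩ : ∃ G : ℝ, G = exp (bG * z) := ⟨_, rfl⟩
  have hG1 : 1 ≤ G := by rw [hG]; exact one_le_exp (by positivity)
  have hzcG : zc K₂ E (n + 1) ≤ G := by
    rw [hEe, hG]
    refine (hzc z hz).trans (exp_le_exp.2 (mul_le_mul_of_nonneg_right ?_ hz0))
    rw [hbG]
    have : 0 ≤ (C₂ + 2) * dd K₂ (n + 2) := by positivity
    linarith
  have hWG : ∀ k ≤ n + 2, (4 * E) ^ dd K₂ k ≤ G := by
    intro k hk
    rw [hEe, hG]
    refine (w_le hz hC₂ (dd_mono hk)).trans (exp_le_exp.2 (mul_le_mul_of_nonneg_right ?_ hz0))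
    rw [hbG]
    linarith
  have hEz : E ≤ zc K₂ E (n + 1) := zc_ge K₂ hE1 _
  have dS : ∀ l, (S ω l).totalDegree ≤ K' := fun l => (hS.deg l).trans hK
  have dG' : ∀ i j x l, (D.G i j x l).totalDegree ≤ K' := fun i j x l => (dG i j x l).trans hK
  -- the small number
  obtain ⟨ε, hε⟩ : ∃ ε : ℝ, ε = 4 * 2 ^ z / 2 ^ X := ⟨_, rfl⟩
  have h2X : (0 : ℝ) < 2 ^ X := by positivity
  -- not truncated
  have hgds : ∀ i₁ j₁ c', i₁ < M → j₁ < M → 1 ≤ c' → c' ≤ n → Lo D c' X (i, j) (i₁, j₁) →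
      GdsS D n z i j i₁ j₁ bb S c' ω := by
    intro i₁ j₁ c' h1 h1' hc1 hc hL α hα
    have T := tr_lo hX hE (hNb c' hc) (hNo i₁ h1 j₁ h1' c' hc) hL
    refine (hcf hP hx₀ hS.tri (tG _ _ _) hc1 hc (deg_shrS hS.tri (tG _ _ _) dS
      (fun k => dG' _ _ _ k) hc) hE T α hα).trans ?_
    have e1 : (4 * E) ^ dd K₂ (c' + 2) ≤ G := hWG _ (by omega)
    have e2 : Cb ≤ exp (Real.log (Cb + 1) * z) := by
      calc Cb ≤ Cb + 1 := by linarith
        _ = exp (Real.log (Cb + 1)) := (exp_log (by linarith)).symm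
        _ ≤ _ := exp_le_exp.2 (by nlinarith)
    calc Cb * (4 * E) ^ dd K₂ (c' + 2) ≤ exp (Real.log (Cb + 1) * z) * G :=
          mul_le_mul e2 e1 (by positivity) (exp_pos _).le
      _ = exp ((Real.log (Cb + 1) + bG) * z) := by
          rw [hG, ← exp_add]
          congr 1
          ring
      _ ≤ 2 ^ bb := by
          refine exp_le_two' ?_
          refine le_trans (mul_le_mul_of_nonneg_right ?_ hz0) hbb
          linarith
  have hgM : ∀ l, l ∉ Ms → GdsS D n z i j (pr ((l : ℕ) + 1)).1 (pr ((l : ℕ) + 1)).2 bb S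
      ((l : ℕ) + 1) ω := fun l hl => by
    obtain ⟨a1, a2, a3, _⟩ := hpr l hl
    exact hgds _ _ _ a1 a2 (Nat.succ_pos _) (by have := l.2; omega) a3
  have hgA : GdsS D n z i j iA jA bb S n ω := hgds _ _ _ hiA hjA hn1 le_rfl hLA
  -- the places
  have TA := tr_lo hX hE (hNb n le_rfl) (hNo iA hiA jA hjA n le_rfl) hLA
  rw [← hε] at TA
  have hEl : El K₂ n (D.g i j) (ch P (D.X ω 0) (S ω)) (fun l => D.g (pr l).1 (pr l).2)
      (fun l => ch P (D.X ω 0) (D.Ψ (pr l).1 (pr l).2 ω)) (inM Ms) E ε := by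
    refine ⟨?_, ?_, hNb n le_rfl, hE1, TA.eps, TA.eps1⟩
    · intro l h1 h2 hM
      obtain ⟨l', rfl⟩ : ∃ l', l = l' + 1 := ⟨l - 1, by omega⟩
      have hl' : l' < n - 1 := by omega
      have hM' : (⟨l', hl'⟩ : Fin (n - 1)) ∉ Ms := fun h => hM fun _ => h
      obtain ⟨a1, a2, a3, _⟩ := hpr ⟨l', hl'⟩ hM'
      have := tr_lo hX hE (hNb (l' + 1) h2.le) (hNo _ a1 _ a2 (l' + 1) h2.le) a3
      rw [← hε] at this
      exact this
    · intro l h1 h2 hM k k1 k2 hk hkM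
      obtain ⟨l', rfl⟩ : ∃ l', l = l' + 1 := ⟨l - 1, by omega⟩
      obtain ⟨k', rfl⟩ : ∃ k', k = k' + 1 := ⟨k - 1, by omega⟩
      have hl' : l' < n - 1 := by omega
      have hk' : k' < n - 1 := by omega
      have hM' : (⟨l', hl'⟩ : Fin (n - 1)) ∉ Ms := fun h => hM fun _ => h
      obtain ⟨_, _, _, a4⟩ := hpr ⟨l', hl'⟩ hM'
      exact a4 ⟨k', hk'⟩ (by
        change k' < l'
        omega) hk (hkM _)
  have hAM : ∀ k, 1 ≤ k → k < n → D.g i j k < D.g iA jA k → ¬ inM Ms k := by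
    intro k k1 k2 hk hkM
    obtain ⟨k', rfl⟩ : ∃ k', k = k' + 1 := ⟨k - 1, by omega⟩
    have hk' : k' < n - 1 := by omega
    have := (hMs ⟨k', hk'⟩).1 (hkM _)
    have e : ((⟨k', hk'⟩ : Fin (n - 1)) : ℕ) = k' := rfl
    rw [e] at this
    omega
  -- notation
  obtain ⟨s, hs⟩ : ∃ s, s = shsS D n z i j bb S pr ω := ⟨_, rfl⟩
  obtain ⟨vo, hvo⟩ : ∃ vo, vo = vS D n z i j X S ω := ⟨_, rfl⟩
  obtain ⟨Q, hQ⟩ : ∃ Q, Q = PiS D n z i j S P ω := ⟨_, rfl⟩
  obtain ⟨F, hFd⟩ : ∃ F, F = shrS D n z i j iA jA S n ω := ⟨_, rfl⟩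
  have hy : ∀ l, 1 ≤ l → l ≤ n → |ztS D i j S ω l| ≤ 1 := fun l a b => nat_le (hS.hgt l a b)
  have hvo1 : ∀ l, |vo l| ≤ 1 := fun l => by
    rw [abs_le, hvo]
    have := vS_bd (D := D) (z := z) (X := X) hy l
    constructor <;> linarith [this.1, this.2]
  have hvo2 : ∀ l, |vo l| ≤ 2 := fun l => (hvo1 l).trans one_le_two
  have elp : ∀ v : Fin (n - 1) → ℝ, (∀ l, |v l| ≤ 1) → _ := fun v hv =>
    elp_of (D := D) (X := X) (E := E) (pr := pr) (nn := nn) (z := z) hP vP hS tG hE hgM hnn hv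
  rw [← hs, ← hε, ← hvo] at elp
  rw [← hs, ← hvo, ← hQ]
  have hshp : pderiv c (shpS D n z i j iA jA bb S n ω) = pderiv c F := by
    unfold shpS
    rw [if_pos hgA, map_sub, pderiv_C, sub_zero, hFd]
  rw [hshp]
  -- degrees
  have ds : ∀ l, (s l).totalDegree ≤ dK n K' := fun l => by
    rw [hs]
    exact (deg_C_mul _ _).trans (deg_shpS hS.tri (tG _ _ _) dS (fun k => dG' _ _ _ k) (by
      have := l.2
      omega))
  have de : ∀ l, (elim Ms nn s (n - 1) l).totalDegree ≤ De := fun l => by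
    rw [hDe]
    exact elim_deg ds _ l
  have dQ : Q.totalDegree ≤ dK n K' := by
    rw [hQ]
    exact deg_PiS hP hS.tri dP dS
  have dF : F.totalDegree ≤ dK n K' := by
    rw [hFd]
    exact deg_shrS hS.tri (tG _ _ _) dS (fun k => dG' _ _ _ k) le_rfl
  have dR : (F - bind₁ (elim Ms nn s (n - 1)) Q).totalDegree ≤ dK n K' + dK n K' * De := by
    refine (totalDegree_sub _ _).trans (max_le (dF.trans (Nat.le_add_right _ _)) ?_)
    exact (Pool.TIE.deg_bind de dQ).trans (Nat.le_add_left _ _)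
  -- the values of the eliminated coordinates
  have hwv : ∀ v : Fin (n - 1) → ℝ, (∀ l, |v l| ≤ 1) → ∀ l,
      |eval v (elim Ms nn s (n - 1) l)| ≤ 2 * G := by
    intro v hv l
    have s1 := (hEl.small (elp v hv) ((l : ℕ) + 1) (Nat.succ_pos _) (by
      have := l.2
      omega)).1
    rw [uco_fin] at s1
    have s2 : zc K₂ E ((l : ℕ) + 1 + 1) ≤ G := (zc_mono K₂ hE1 (by
      have := l.2
      omega)).trans hzcG
    have s3 : |4 * 2 ^ z * wv Ms nn s v l| ≤ G + 2 * 2 ^ z := by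
      have e1 : 4 * 2 ^ z * wv Ms nn s v l = (4 * 2 ^ z * wv Ms nn s v l - 2 * 2 ^ z) +
          2 * 2 ^ z := by ring
      rw [e1]
      refine (abs_add_le _ _).trans (add_le_add (s1.trans s2) (le_of_eq ?_))
      exact abs_of_pos (by positivity)
    rw [abs_mul, abs_of_pos (by positivity : (0 : ℝ) < 4 * 2 ^ z)] at s3
    have e0 : |eval v (elim Ms nn s (n - 1) l)| = |wv Ms nn s v l| := rfl
    rw [e0]
    have p0 := abs_nonneg (wv Ms nn s v l)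
    nlinarith
  have hsl : ∀ l, |eval vo (pderiv c (elim Ms nn s (n - 1) l))| ≤ Ce * (2 * G) := fun l =>
    ((hder _ (2 * G) (de l) (fun y hy => hwv y hy l) vo hvo2).2.1) c
  -- the own point
  have hown := hEl.own (elp vo hvo1) (fun l h1 h2 hM => by
    obtain ⟨l', rfl⟩ : ∃ l', l = l' + 1 := ⟨l - 1, by omega⟩
    have hl' : l' < n - 1 := by omega
    have e1 : wv Ms nn s vo ⟨l', hl'⟩ = vo ⟨l', hl'⟩ := wv_in (hM _)
    have e2 : uco n z (wv Ms nn s vo) (l' + 1) = uco n z vo (l' + 1) := by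
      have a1 := uco_fin (n := n) (z := z) (v := wv Ms nn s vo) ⟨l', hl'⟩
      have a2 := uco_fin (n := n) (z := z) (v := vo) ⟨l', hl'⟩
      have e : ((⟨l', hl'⟩ : Fin (n - 1)) : ℕ) = l' := rfl
      rw [e] at a1 a2
      rw [a1, a2, e1]
    rw [e2, hε, hvo]
    exact uco_near (Nat.succ_pos _) h2 (hy _ (Nat.succ_pos _) h2.le))
  have hεp : 0 ≤ ε := TA.eps
  have hdw : ∀ l, |wv Ms nn s vo l - vo l| ≤ 2 * G / 2 ^ X := by
    intro l
    have hl2 := l.2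
    have o1 := hown ((l : ℕ) + 1) (Nat.succ_pos _) (by omega)
    have o2 : |uco n z vo ((l : ℕ) + 1) - ztS D i j S ω ((l : ℕ) + 1)| ≤ ε := by
      rw [hε, hvo]
      exact uco_near (Nat.succ_pos _) (by omega) (hy _ (Nat.succ_pos _) (by omega))
    have o3 : |uco n z (wv Ms nn s vo) ((l : ℕ) + 1) - uco n z vo ((l : ℕ) + 1)| ≤
        2 * G * ε := by
      have e1 : uco n z (wv Ms nn s vo) ((l : ℕ) + 1) - uco n z vo ((l : ℕ) + 1) =
          (uco n z (wv Ms nn s vo) ((l : ℕ) + 1) - ztS D i j S ω ((l : ℕ) + 1)) -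
          (uco n z vo ((l : ℕ) + 1) - ztS D i j S ω ((l : ℕ) + 1)) := by ring
      rw [e1]
      refine (abs_sub _ _).trans ((add_le_add o1 o2).trans ?_)
      have : zc K₂ E (n + 1) * ε ≤ G * ε := mul_le_mul_of_nonneg_right hzcG hεp
      have : ε ≤ G * ε := le_mul_of_one_le_left hεp hG1
      linarith
    rw [uco_fin, uco_fin] at o3
    have e2 : (4 * 2 ^ z * wv Ms nn s vo l - 2 * 2 ^ z) - (4 * 2 ^ z * vo l - 2 * 2 ^ z) =
        4 * 2 ^ z * (wv Ms nn s vo l - vo l) := by ring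
    rw [e2, abs_mul, abs_of_pos (by positivity : (0 : ℝ) < 4 * 2 ^ z), hε] at o3
    have e3 : 2 * G * (4 * 2 ^ z / 2 ^ X) = 4 * 2 ^ z * (2 * G / 2 ^ X) := by ring
    rw [e3] at o3
    exact le_of_mul_le_mul_left o3 (by positivity)
  have hw2 : ∀ l, |wv Ms nn s vo l| ≤ 2 := by
    intro l
    have h1 := hdw l
    have h2 : 2 * G / 2 ^ X ≤ 1 := by
      rw [div_le_one h2X]
      have e1 : 2 * G ≤ exp ((bG + 1) * z) := by
        have : (2 : ℝ) ≤ exp z := by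
          have h1 := Real.exp_one_gt_d9
          have h2 := exp_le_exp.2 hzr
          linarith
        calc 2 * G ≤ exp z * exp (bG * z) := by
              rw [hG]
              exact mul_le_mul_of_nonneg_right this (exp_pos _).le
          _ = exp ((bG + 1) * z) := by
              rw [← exp_add]
              congr 1
              ring
      refine e1.trans (exp_le_two' ?_)
      refine le_trans (mul_le_mul_of_nonneg_right ?_ hz0) hXz
      linarith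
    have h3 : wv Ms nn s vo l = (wv Ms nn s vo l - vo l) + vo l := by ring
    rw [h3]
    refine (abs_add_le _ _).trans ?_
    have := hvo1 l
    linarith
  -- the difference of the two leaves
  have hR : ∀ y : Fin (n - 1) → ℝ, (∀ l, |y l| ≤ 1) →
      |eval y (F - bind₁ (elim Ms nn s (n - 1)) Q) -
        eval 0 (F - bind₁ (elim Ms nn s (n - 1)) Q)| ≤ G * ε := by
    intro y hy1
    have hy0 : ∀ l, |(0 : Fin (n - 1) → ℝ) l| ≤ 1 := fun l => by
      rw [Pi.zero_apply, abs_zero]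
      exact zero_le_one
    have ev : ∀ v : Fin (n - 1) → ℝ, eval v (F - bind₁ (elim Ms nn s (n - 1)) Q) =
        2 ^ D.g i j n * (eval (zs P (cpt D n z i j iA jA S ω v))
            (ch P (D.X ω 0) (D.Ψ iA jA ω) n) -
          eval (zs P (cpt D n z i j iA jA S ω v)) (ch P (D.X ω 0) (S ω) n)) +
        2 ^ D.g i j n * eval (zs P (fpt D n z i j S ω (wv Ms nn s v)))
          (ch P (D.X ω 0) (S ω) n) := by
      intro v
      have e1 : eval v (bind₁ (elim Ms nn s (n - 1)) Q) = eval (wv Ms nn s v) Q :=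
        eval₂Hom_bind₁ (RingHom.id ℝ) v _ _
      rw [map_sub, e1, hQ, eval_PiS' hn1 hP hS.tri, hFd,
        eval_shr_ch hP hS.tri (tG _ _ _) hn1]
      ring
    have cpc : ∀ v : Fin (n - 1) → ℝ, Cp n (D.g i j) (ch P (D.X ω 0) (S ω))
        (ch P (D.X ω 0) (D.Ψ iA jA ω)) (fun l => D.g i j l < D.g iA jA l)
        (uco n z (wv Ms nn s v)) (zs P (cpt D n z i j iA jA S ω v)) := by
      intro v
      refine Cp.congr (cp_of (v := v) hP hx₀ hS.tri (tG _ _ _) le_rfl) ?_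
      intro l h1 h2 ht
      obtain ⟨l', rfl⟩ : ∃ l', l = l' + 1 := ⟨l - 1, by omega⟩
      have hl' : l' < n - 1 := by omega
      have hM : (⟨l', hl'⟩ : Fin (n - 1)) ∈ Ms := (hMs ⟨l', hl'⟩).2 (not_lt.1 ht)
      have e1 : wv Ms nn s v ⟨l', hl'⟩ = v ⟨l', hl'⟩ := wv_in hM
      have a1 := uco_fin (n := n) (z := z) (v := wv Ms nn s v) ⟨l', hl'⟩
      have a2 := uco_fin (n := n) (z := z) (v := v) ⟨l', hl'⟩
      have e : ((⟨l', hl'⟩ : Fin (n - 1)) : ℕ) = l' := rfl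
      rw [e] at a1 a2
      rw [a1, a2, e1]
    rw [ev, ev]
    refine (hEl.targ TA hAM (elp y hy1) (elp 0 hy0) (cpc y) (cpc 0)).trans ?_
    exact mul_le_mul_of_nonneg_right hzcG hεp
  have k1 := hvar _ (G * ε) dR hR vo hvo2 c
  rw [map_sub, pderiv_bind, map_sub, map_sum] at k1
  have hQb : ∀ y : Fin (n - 1) → ℝ, (∀ l, |y l| ≤ 1) → |eval y Q| ≤ G := fun y hy1 => by
    rw [hQ]
    exact (pi_bd hn1 hP hx₀ hS.tri hE (hNb n le_rfl) hy1).trans (hWG _ (by omega))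
  have k2 : ∀ l, |eval vo (pderiv l Q) - eval (wv Ms nn s vo) (pderiv l Q)| ≤
      Cl * G * (2 * G / 2 ^ X) := fun l => by
    rw [abs_sub_comm]
    exact hlip Q G (2 * G / 2 ^ X) dQ (by positivity) hQb _ _ hw2 hvo2 hdw l
  -- together
  have e1 : ∀ l, eval vo (bind₁ (elim Ms nn s (n - 1)) (pderiv l Q) *
      pderiv c (elim Ms nn s (n - 1) l)) =
      eval (wv Ms nn s vo) (pderiv l Q) * eval vo (pderiv c (elim Ms nn s (n - 1) l)) := by
    intro l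
    rw [map_mul]
    congr 1
    exact eval₂Hom_bind₁ (RingHom.id ℝ) vo _ _
  rw [Finset.sum_congr rfl fun l _ => e1 l] at k1
  have e2 : ∑ l, eval vo (pderiv l Q) * eval vo (pderiv c (elim Ms nn s (n - 1) l)) -
      eval vo (pderiv c F) =
      ∑ l, (eval vo (pderiv l Q) - eval (wv Ms nn s vo) (pderiv l Q)) *
        eval vo (pderiv c (elim Ms nn s (n - 1) l)) -
      (eval vo (pderiv c F) - ∑ l, eval (wv Ms nn s vo) (pderiv l Q) *
        eval vo (pderiv c (elim Ms nn s (n - 1) l))) := by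
    simp only [sub_mul, Finset.sum_sub_distrib]
    ring
  rw [e2]
  have k3 : |∑ l, (eval vo (pderiv l Q) - eval (wv Ms nn s vo) (pderiv l Q)) *
        eval vo (pderiv c (elim Ms nn s (n - 1) l))| ≤
      (n - 1 : ℕ) * ((Cl * G * (2 * G / 2 ^ X)) * (Ce * (2 * G))) := by
    refine (Finset.abs_sum_le_sum_abs _ _).trans ?_
    refine (Finset.sum_le_sum fun l _ => (abs_mul _ _).le.trans
      (mul_le_mul (k2 l) (hsl l) (abs_nonneg _) (by positivity))).trans (le_of_eq ?_)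
    rw [Finset.sum_const, Finset.card_univ, Fintype.card_fin, nsmul_eq_mul]
  refine (abs_sub _ _).trans ((add_le_add k3 k1).trans ?_)
  have e3 : Cv * (G * ε) ≤ Cv * G ^ 3 / 2 ^ X := by
    have a1 : 4 * (2 : ℝ) ^ z ≤ G := by linarith
    have a2 : G * (4 * 2 ^ z) ≤ G ^ 3 := by
      calc G * (4 * 2 ^ z) ≤ G * G := mul_le_mul_of_nonneg_left a1 (by linarith)
        _ = G ^ 2 := by ring
        _ ≤ G ^ 3 := pow_le_pow_right₀ hG1 (by norm_num)
    rw [hε]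
    have e4 : Cv * (G * (4 * 2 ^ z / 2 ^ X)) = Cv * (G * (4 * 2 ^ z)) / 2 ^ X := by ring
    rw [e4]
    exact div_le_div_of_nonneg_right (mul_le_mul_of_nonneg_left a2 hCv) h2X.le
  have e5 : (n - 1 : ℕ) * ((Cl * G * (2 * G / 2 ^ X)) * (Ce * (2 * G))) + Cv * G ^ 3 / 2 ^ X =
      A₂ * G ^ 3 / 2 ^ X := by
    rw [hA₂]
    ring
  have e6 : A₂ * G ^ 3 ≤ exp (2 * (Real.log (A₂ + 1) + 3 * bG + Real.log (Cb + 1) + 2) * z) := by
    have a1 : A₂ ≤ exp (Real.log (A₂ + 1) * z) := by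
      calc A₂ ≤ A₂ + 1 := by linarith
        _ = exp (Real.log (A₂ + 1)) := (exp_log (by linarith)).symm
        _ ≤ _ := exp_le_exp.2 (by nlinarith)
    have a2 : G ^ 3 = exp (3 * bG * z) := by
      rw [hG, ← exp_nat_mul]
      congr 1
      push_cast
      ring
    calc A₂ * G ^ 3 ≤ exp (Real.log (A₂ + 1) * z) * exp (3 * bG * z) := by
          rw [a2]
          exact mul_le_mul_of_nonneg_right a1 (exp_pos _).le
      _ = exp ((Real.log (A₂ + 1) + 3 * bG) * z) := by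
          rw [← exp_add]
          congr 1
          ring
      _ ≤ _ := exp_le_exp.2 (mul_le_mul_of_nonneg_right (by linarith) hz0)
  calc (n - 1 : ℕ) * ((Cl * G * (2 * G / 2 ^ X)) * (Ce * (2 * G))) + Cv * (G * ε)
      ≤ (n - 1 : ℕ) * ((Cl * G * (2 * G / 2 ^ X)) * (Ce * (2 * G))) + Cv * G ^ 3 / 2 ^ X :=
        add_le_add_right e3 _
    _ = A₂ * G ^ 3 / 2 ^ X := e5
    _ ≤ _ := div_le_div_of_nonneg_right e6 h2X.le

end Pool.GSD
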