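import Pool.Agent.H41.GSD.Own3
import Pool.Agent.H20.TIE.Rst

/-!
# The gradient of the own leaf, in the form of MATCH

`pvc`: the gradient of the height of the frame at the position.
-/

set_option autoImplicit false

namespace Pool.GSD

open Finset Real MvPolynomial
open Pool.Agent.H49.Ent Pool.Agent.H32.Dense Pool.STK Pool.STAT Pool.MIC.Frm Pool.MIC7 Pool.FRM
open Pool.MIC Pool.MicA
open Pool.BFL (Pl Pb)
open Pool.TIE (elim Dat dg)

/-- The gradient of the height of the frame `P` at the position `v`. -/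
noncomputable def pvc (D : NDat2) (n z i j X : ℕ) (S : D.Ω → ℕ → PN) (P : ℕ → PN) (ω : D.Ω)
    (l : Fin (n - 1)) : ℝ :=
  eval (vS D n z i j X S ω) (pderiv l (PiS D n z i j S P ω))

theorem dg_div (X : ℕ) (x : ℝ) : |(dg X x : ℝ) / 2 ^ X - x| ≤ 1 / 2 ^ X := by
  have h0 : (0 : ℝ) < 2 ^ X := by positivity
  have h1 := Int.floor_le ((2 : ℝ) ^ X * x)
  have h2 := Int.lt_floor_add_one ((2 : ℝ) ^ X * x)
  unfold dg
  have e : (⌊(2 : ℝ) ^ X * x⌋ : ℝ) / 2 ^ X - x = ((⌊(2 : ℝ) ^ X * x⌋ : ℝ) - 2 ^ X * x) /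
      2 ^ X := by field_simp
  rw [e, abs_div, abs_of_pos h0]
  refine div_le_div_of_nonneg_right ?_ h0.le
  rw [abs_le]
  constructor <;> linarith

/-- **The own leaf, gradient** (deterministic). -/
theorem own_slp (n K' : ℕ) (C : ℝ) (hC : 0 ≤ C) : ∃ C' : ℝ, 0 ≤ C' ∧ ∀ (D : NDat2)
    (K z X M i j iA jA bb h₀ : ℕ) (pr : ℕ → ℕ × ℕ) (Ms : Finset (Fin (n - 1)))
    (S : D.Ω → ℕ → PN) (ω : D.Ω) (P : ℕ → PN) (Γ' : Type) (zz : D.Ω → Γ') (q : D.Ω → ℝ),
    K ≤ K' → 1 ≤ z →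
    z + 2 ≤ X → C' * z ≤ bb → C' * z ≤ X → 1 ≤ n → i < M → j < M → iA < M → jA < M →
    (∀ i j x, TriN (D.G i j x)) → (∀ i j x l, (D.G i j x l).totalDegree ≤ K) →
    FrP D n K' M z C P ω → Sd D n K i j S ω → Lo D n X (i, j) (iA, jA) →
    (∀ l : Fin (n - 1), l ∈ Ms ↔ D.g iA jA (l + 1) ≤ D.g i j (l + 1)) →
    (∀ l : Fin (n - 1), l ∉ Ms → (pr (l + 1)).1 < M ∧ (pr (l + 1)).2 < M ∧
      Lo D (l + 1) X (i, j) (pr (l + 1)) ∧ ∀ k : Fin (n - 1), k < l →
        D.g i j (k + 1) < D.g (pr (l + 1)).1 (pr (l + 1)).2 (k + 1) → k ∉ Ms) →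
    ∀ c : Fin (n - 1), |(∑ l, (datS D n z i j X h₀ S zz q (shsS D n z i j bb S pr)).slp Ms ω c l *
        pvc D n z i j X S P ω l) -
      eval ((datS D n z i j X h₀ S zz q (shsS D n z i j bb S pr)).v ω)
        (pderiv c (shpS D n z i j iA jA bb S n ω))| ≤ exp (C' * z) / 2 ^ X := by
  obtain ⟨C', hC', h⟩ := own_det n K' C hC
  refine ⟨C', hC', ?_⟩
  intro D K z X M i j iA jA bb h₀ pr Ms S ω P Γ' zz q hK hz hX hbb hXz hn1 hi hj hiA hjA tG dG
    hF hS hLA hMs hpr c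
  obtain ⟨nn, hnn⟩ : ∃ nn : Fin (n - 1) → ℝ, nn = fun l =>
    ((datS D n z i j X h₀ S zz q (shsS D n z i j bb S pr)).ht l ω : ℝ) / 2 ^ X := ⟨_, rfl⟩
  have key := h D K z X M i j iA jA bb pr Ms S ω P nn hK hz hX hbb hXz hn1 hi hj hiA hjA tG dG
    hF hS hLA hMs hpr (fun l _ => by
      rw [hnn]
      simp only
      have e := congrFun (datS_ht n z i j X h₀ S zz q (shsS D n z i j bb S pr) l) ω
      have e2 : (datS D n z i j X h₀ S zz q (shsS D n z i j bb S pr)).ht l ω =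
        dg X (vS D n z i j X S ω l -
          eval (vS D n z i j X S ω) (shsS D n z i j bb S pr ω l)) := e
      rw [e2]
      exact dg_div X _) c
  have hv := datS_v n z i j X h₀ S zz q (shsS D n z i j bb S pr) ω
  have e1 : ∀ l, (datS D n z i j X h₀ S zz q (shsS D n z i j bb S pr)).slp Ms ω c l *
      pvc D n z i j X S P ω l =
      eval (vS D n z i j X S ω) (pderiv l (PiS D n z i j S P ω)) *
        eval (vS D n z i j X S ω)
          (pderiv c (elim Ms nn (shsS D n z i j bb S pr ω) (n - 1) l)) := by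
    intro l
    rw [mul_comm, hnn]
    have e3 : (datS D n z i j X h₀ S zz q (shsS D n z i j bb S pr)).slp Ms ω c l =
        eval ((datS D n z i j X h₀ S zz q (shsS D n z i j bb S pr)).v ω)
          (pderiv c (elim Ms (fun c =>
            ((datS D n z i j X h₀ S zz q (shsS D n z i j bb S pr)).ht c ω : ℝ) / 2 ^ X)
              (shsS D n z i j bb S pr ω) (n - 1) l)) := rfl
    rw [e3, hv]
    rfl
  rw [Finset.sum_congr rfl fun l _ => e1 l, hv]
  exact key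

end Pool.GSD
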