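import Pool.Agent.H41.GSD.Own4
import Pool.Agent.H41.FRM.Cmp4

/-!
# The eliminated point, sheets known up to `2 ^ (-X)`

As in `Own2`, for any sheets `s` whose coefficients are near to the coefficients of the shapes:
for example the rounded shapes. `own_ctx` collects everything which is needed for the own leaf.
-/

set_option autoImplicit false

namespace Pool.GSD

open Finset Real MvPolynomial
open Pool.Agent.H49.Ent Pool.Agent.H32.Dense Pool.STK Pool.STAT Pool.MIC.Frm Pool.MIC7 Pool.FRM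
open Pool.MIC Pool.MicA
open Pool.BFL (Pl Pb)
open Pool.TIE (elim elim_vars elim_deg)

theorem _root_.Pool.FRM.Tr.epsm {K c : ℕ} {gb g₁ : ℕ → ℕ} {Fb F₁ : ℕ → PN} {th : ℕ → Prop}
    {E ε ε' : ℝ} (H : Tr K c gb g₁ Fb F₁ th E ε) (h : ε ≤ ε') (h1 : ε' ≤ 1) :
    Tr K c gb g₁ Fb F₁ th E ε' :=
  ⟨H.b, H.o, H.e1, H.eps.trans h, h1, fun l a b t => (H.th_le l a b t).trans
    (mul_le_mul_of_nonneg_right h (by positivity)), H.ft_le, fun l a b t =>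
    (H.ft_c l a b t).trans (mul_le_mul_of_nonneg_right (mul_le_mul_of_nonneg_right h
      (by positivity)) (by positivity))⟩

/-- Two polynomials with near coefficients, in the variables before `l`. -/
theorem eval_dif {m D : ℕ} {s s₀ : Pl m} {ρ δ : ℝ} (h : s.totalDegree ≤ D)
    (h₀ : s₀.totalDegree ≤ D) (hρ : 1 ≤ ρ) (hc : ∀ α, |coeff α s - coeff α s₀| ≤ δ) {l : Fin m}
    (hv : ∀ c ∈ s.vars, c < l) (hv₀ : ∀ c ∈ s₀.vars, c < l) {w : Fin m → ℝ}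
    (hw : ∀ k, k < l → |w k| ≤ ρ) :
    |eval w s - eval w s₀| ≤ (Pool.Agent.H36.KBX.bx m D).card * (δ * ρ ^ (m * D)) := by
  classical
  obtain ⟨w', hw'⟩ : ∃ w' : Fin m → ℝ, w' = fun k => if k < l then w k else 0 := ⟨_, rfl⟩
  have e : ∀ F : Pl m, (∀ c ∈ F.vars, c < l) → eval w F = eval w' F := fun F hF =>
    Pool.STAT.AdxRow.evl_congr fun k hk => by
      rw [hw']
      simp only [if_pos (hF k hk)]
  rw [e s hv, e s₀ hv₀, ← map_sub]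
  refine Pool.Agent.H36.KBX.eval_bound (s - s₀) ((totalDegree_sub _ _).trans (max_le h h₀)) δ ρ
    hρ (fun α => by rw [coeff_sub]; exact hc α) w' fun k => ?_
  rw [hw']
  simp only
  split_ifs with hk
  · exact hw k hk
  · rw [abs_zero]
    linarith

/-- Sheets near to the shapes. -/
structure Shn (D : NDat2) (n z X i j bb Ds : ℕ) (S : D.Ω → ℕ → PN) (pr : ℕ → ℕ × ℕ) (ω : D.Ω)
    (Ms : Finset (Fin (n - 1))) (s : Fin (n - 1) → Pl (n - 1)) : Prop where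
  vars : ∀ c, ∀ c' ∈ (s c).vars, c' < c
  deg : ∀ c, (s c).totalDegree ≤ Ds
  deg0 : ∀ c, (shsS D n z i j bb S pr ω c).totalDegree ≤ Ds
  near : ∀ l, l ∉ Ms → ∀ α, |coeff α (s l) - coeff α (shsS D n z i j bb S pr ω l)| ≤ 1 / 2 ^ X

section cell

variable {D : NDat2} {n K' K₂ z X i j bb Ds : ℕ} {S : D.Ω → ℕ → PN} {ω : D.Ω} {P : ℕ → PN}
  {E G ε : ℝ} {pr : ℕ → ℕ × ℕ} {Ms : Finset (Fin (n - 1))} {nn : Fin (n - 1) → ℝ}
  {s : Fin (n - 1) → Pl (n - 1)}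

/-- The eliminated point. -/
theorem elp_gen (hP : TriN P) (vP : ∀ l ≤ n, eval (D.X ω) (P l) = D.X ω l) {K : ℕ}
    (hS : Sd D n K i j S ω) (tG : ∀ i j x, TriN (D.G i j x)) (hE : 6 * 2 ^ z ≤ E)
    (hg : ∀ l, l ∉ Ms → GdsS D n z i j (pr ((l : ℕ) + 1)).1 (pr ((l : ℕ) + 1)).2 bb S
      ((l : ℕ) + 1) ω)
    (hs : Shn D n z X i j bb Ds S pr ω Ms s)
    (hn : ∀ l, l ∉ Ms → |nn l - (vS D n z i j X S ω l -
      eval (vS D n z i j X S ω) (s l))| ≤ 1 / 2 ^ X)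
    (hG : zc K₂ E (n + 1) ≤ G)
    (hε : 4 * 2 ^ z * (1 + 2 * ((Pool.Agent.H36.KBX.bx (n - 1) Ds).card *
      (2 * G) ^ ((n - 1) * Ds))) / 2 ^ X ≤ ε)
    (hEl : El K₂ n (D.g i j) (ch P (D.X ω 0) (S ω)) (fun l => D.g (pr l).1 (pr l).2)
      (fun l => ch P (D.X ω 0) (D.Ψ (pr l).1 (pr l).2 ω)) (inM Ms) E ε)
    {v : Fin (n - 1) → ℝ} (hv : ∀ l, |v l| ≤ 1) :
    Elp n (D.g i j) (ch P (D.X ω 0) (S ω)) (fun l => D.g (pr l).1 (pr l).2)
      (fun l => ch P (D.X ω 0) (D.Ψ (pr l).1 (pr l).2 ω)) (inM Ms) E ε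
      (uco n z (wv Ms nn s v)) (zs P (fpt D n z i j S ω (wv Ms nn s v)))
      (uco n z (vS D n z i j X S ω)) (ztS D i j S ω) (zs P (D.X ω))
      (fun l => zs P (cpt D n z i j (pr l).1 (pr l).2 S ω (wv Ms nn s v)))
      (fun l => zs P (cpt D n z i j (pr l).1 (pr l).2 S ω (vS D n z i j X S ω))) := by
  have hx₀ : eval (D.X ω) (P 0) = D.X ω 0 := vP 0 (Nat.zero_le _)
  have h2z : (1 : ℝ) ≤ 2 ^ z := one_le_pow₀ (by norm_num)
  have hE1 : 1 ≤ E := by linarith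
  have hEz : E ≤ zc K₂ E (n + 1) := zc_ge K₂ hE1 _
  have hG6 : 6 * 2 ^ z ≤ G := by linarith
  have hy : ∀ l, 1 ≤ l → l ≤ n → |ztS D i j S ω l| ≤ 1 := fun l a b => nat_le (hS.hgt l a b)
  have hvb := vS_bd (D := D) (z := z) (X := X) hy
  obtain ⟨w, hw⟩ : ∃ w, w = wv Ms nn s v := ⟨_, rfl⟩
  rw [← hw]
  have hvS1 : ∀ l, |vS D n z i j X S ω l| ≤ 1 := fun l => by
    rw [abs_le]
    have := hvb l
    constructor <;> linarith [this.1, this.2]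
  have hpt := pt_of (g := D.g i j) (Ψ := S ω) (x := D.X ω) hP rfl hx₀ n
  obtain ⟨N, hN⟩ : ∃ N : ℝ, N = ((Pool.Agent.H36.KBX.bx (n - 1) Ds).card : ℝ) := ⟨_, rfl⟩
  have hN0 : 0 ≤ N := by rw [hN]; exact Nat.cast_nonneg _
  obtain ⟨A, hA⟩ : ∃ A : ℝ, A = (2 * G) ^ ((n - 1) * Ds) := ⟨_, rfl⟩
  have hA1 : 1 ≤ A := by rw [hA]; exact one_le_pow₀ (by linarith)
  rw [← hN, ← hA] at hε
  have h2X : (0 : ℝ) < 2 ^ X := by positivity
  have hε0 : 4 * 2 ^ z / 2 ^ X ≤ ε := by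
    refine le_trans (div_le_div_of_nonneg_right ?_ h2X.le) hε
    refine le_mul_of_one_le_right (by positivity) ?_
    have : 0 ≤ 2 * (N * A) := by positivity
    linarith
  refine Elp.of hEl (fpt_ptl hP hx₀ hS.tri) ?_ ⟨hpt.1, fun l a b => hpt.2 l a b.le⟩ ?_
    (fun l a b => (hy l a b.le).trans hE1) (fun l a b => (uco_bd hvS1 a b).trans hE)
    (fun l a b => (uco_near a b (hy l a b.le)).trans hε0)
    (fun l a b _ => cp_of hP hx₀ hS.tri (tG _ _ _) b.le)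
    (fun l a b _ => cp_of hP hx₀ hS.tri (tG _ _ _) b.le) ?_
  · intro l h1 h2 hM
    have e1 : w ⟨l - 1, by omega⟩ = v ⟨l - 1, by omega⟩ := by
      rw [hw]
      exact wv_in (hM _)
    rw [uco_succ h1 h2, e1]
    exact (two_bd (hv _)).trans hE
  · intro l hl
    unfold zs
    rw [vP l hl.le, sub_self]
  · intro l h1 h2 hM hbef
    obtain ⟨l', rfl⟩ : ∃ l', l = l' + 1 := ⟨l - 1, by omega⟩
    have hl' : l' < n - 1 := by omega
    obtain ⟨f, hf⟩ : ∃ f : Fin (n - 1), f = ⟨l', hl'⟩ := ⟨_, rfl⟩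
    have ef : (f : ℕ) = l' := by rw [hf]
    rw [← ef] at hM hbef ⊢
    rw [inM_succ] at hM
    have g := hg f hM
    have e1 : w f = nn f + eval w (s f) := by
      rw [hw]
      exact wv_out hs.vars hM
    have ev : ∀ v' : Fin (n - 1) → ℝ, eval v' (shsS D n z i j bb S pr ω f) =
        (eval v' (shrS D n z i j (pr ((f : ℕ) + 1)).1 (pr ((f : ℕ) + 1)).2 S ((f : ℕ) + 1) ω) -
          coeff 0 (shrS D n z i j (pr ((f : ℕ) + 1)).1 (pr ((f : ℕ) + 1)).2 S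
            ((f : ℕ) + 1) ω)) / (4 * 2 ^ z) := by
      intro v'
      unfold shsS
      rw [map_mul, eval_C, shp_gds g]
      ring
    have h3 := hn f hM
    have hz4 : (0 : ℝ) < 4 * 2 ^ z := by positivity
    have hsv : ∀ c' ∈ (shsS D n z i j bb S pr ω f).vars, c' < f := by
      intro c' hc'
      have h1 := vars_C_mul_le hc'
      have h2 := (vars_shpS hS.tri (tG _ _ _) h1).2
      have : (c' : ℕ) < (f : ℕ) := by omega
      exact this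
    -- the values before
    have hwb : ∀ k, k < f → |w k| ≤ 2 * G := by
      intro k hk
      have hk' : (k : ℕ) < (f : ℕ) := hk
      have s1 := hbef ((k : ℕ) + 1) (Nat.succ_pos _) (by omega)
      rw [uco_fin] at s1
      have s2 : zc K₂ E ((k : ℕ) + 1 + 1) ≤ G := (zc_mono K₂ hE1 (by
        have := f.2
        omega)).trans hG
      have s3 : |4 * 2 ^ z * w k| ≤ G + 2 * 2 ^ z := by
        have e1 : 4 * 2 ^ z * w k = (4 * 2 ^ z * w k - 2 * 2 ^ z) + 2 * 2 ^ z := by ring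
        rw [e1]
        refine (abs_add_le _ _).trans (add_le_add (s1.trans s2) (le_of_eq ?_))
        exact abs_of_pos (by positivity)
      rw [abs_mul, abs_of_pos (by positivity : (0 : ℝ) < 4 * 2 ^ z)] at s3
      have p0 := abs_nonneg (w k)
      nlinarith
    have d1 := eval_dif (w := w) (ρ := 2 * G) (hs.deg f) (hs.deg0 f) (by linarith)
      (hs.near f hM) (hs.vars f) hsv hwb
    have d2 := eval_dif (w := vS D n z i j X S ω) (ρ := 2 * G) (hs.deg f) (hs.deg0 f)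
      (by linarith) (hs.near f hM) (hs.vars f) hsv (fun k _ => (hvS1 k).trans (by linarith))
    rw [← hN, ← hA] at d1 d2
    have e2 : uco n z w ((f : ℕ) + 1) - uco n z (vS D n z i j X S ω) ((f : ℕ) + 1) -
        2 ^ D.g i j ((f : ℕ) + 1) *
          ((eval (zs P (cpt D n z i j (pr ((f : ℕ) + 1)).1 (pr ((f : ℕ) + 1)).2 S ω w))
              (ch P (D.X ω 0) (D.Ψ (pr ((f : ℕ) + 1)).1 (pr ((f : ℕ) + 1)).2 ω) ((f : ℕ) + 1)) -
            eval (zs P (cpt D n z i j (pr ((f : ℕ) + 1)).1 (pr ((f : ℕ) + 1)).2 S ω w))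
              (ch P (D.X ω 0) (S ω) ((f : ℕ) + 1))) -
          (eval (zs P (cpt D n z i j (pr ((f : ℕ) + 1)).1 (pr ((f : ℕ) + 1)).2 S ω
              (vS D n z i j X S ω)))
              (ch P (D.X ω 0) (D.Ψ (pr ((f : ℕ) + 1)).1 (pr ((f : ℕ) + 1)).2 ω) ((f : ℕ) + 1)) -
            eval (zs P (cpt D n z i j (pr ((f : ℕ) + 1)).1 (pr ((f : ℕ) + 1)).2 S ω
              (vS D n z i j X S ω)))
              (ch P (D.X ω 0) (S ω) ((f : ℕ) + 1)))) =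
        4 * 2 ^ z * ((nn f - (vS D n z i j X S ω f - eval (vS D n z i j X S ω) (s f))) +
          (eval w (s f) - eval w (shsS D n z i j bb S pr ω f)) -
          (eval (vS D n z i j X S ω) (s f) -
            eval (vS D n z i j X S ω) (shsS D n z i j bb S pr ω f))) := by
      rw [uco_fin, uco_fin, e1, ev, ev, eval_shr_ch hP hS.tri (tG _ _ _) (Nat.succ_pos _),
        eval_shr_ch hP hS.tri (tG _ _ _) (Nat.succ_pos _)]
      field_simp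
      ring
    rw [e2, abs_mul, abs_of_pos hz4]
    refine le_trans ?_ hε
    have e3 : 4 * 2 ^ z * (1 + 2 * (N * A)) / 2 ^ X =
        4 * 2 ^ z * (1 / 2 ^ X + (N * (1 / 2 ^ X * A) + N * (1 / 2 ^ X * A))) := by ring
    rw [e3]
    refine mul_le_mul_of_nonneg_left ?_ hz4.le
    rw [abs_le] at h3 d1 d2 ⊢
    constructor <;> linarith [h3.1, h3.2, d1.1, d1.2, d2.1, d2.2]

end cell

/-- **The context of the own leaf.** -/
structure Octx (D : NDat2) (n K₂ z X M i j iA jA bb : ℕ) (pr : ℕ → ℕ × ℕ)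
    (Ms : Finset (Fin (n - 1))) (S : D.Ω → ℕ → PN) (ω : D.Ω) (P : ℕ → PN)
    (nn : Fin (n - 1) → ℝ) (s : Fin (n - 1) → Pl (n - 1)) (E G ε : ℝ) : Prop where
  E6 : 6 * 2 ^ z ≤ E
  E1 : 1 ≤ E
  G1 : 1 ≤ G
  zcG : zc K₂ E (n + 1) ≤ G
  WG : ∀ k ≤ n + 2, (4 * E) ^ dd K₂ k ≤ G
  e0 : 4 * 2 ^ z / 2 ^ X ≤ ε
  e1 : ε ≤ 1
  nb : ∀ c ≤ n, Nb K₂ c (D.g i j) (ch P (D.X ω 0) (S ω)) E
  no : ∀ i₁ < M, ∀ j₁ < M, ∀ c ≤ n, Nb K₂ c (D.g i₁ j₁) (ch P (D.X ω 0) (D.Ψ i₁ j₁ ω)) E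
  el : El K₂ n (D.g i j) (ch P (D.X ω 0) (S ω)) (fun l => D.g (pr l).1 (pr l).2)
    (fun l => ch P (D.X ω 0) (D.Ψ (pr l).1 (pr l).2 ω)) (inM Ms) E ε
  TA : Tr K₂ n (D.g i j) (D.g iA jA) (ch P (D.X ω 0) (S ω)) (ch P (D.X ω 0) (D.Ψ iA jA ω))
    (fun l => D.g i j l < D.g iA jA l) E ε
  AM : ∀ k, 1 ≤ k → k < n → D.g i j k < D.g iA jA k → ¬ inM Ms k
  gA : GdsS D n z i j iA jA bb S n ω
  vo1 : ∀ l, |vS D n z i j X S ω l| ≤ 1
  elp : ∀ v : Fin (n - 1) → ℝ, (∀ l, |v l| ≤ 1) →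
    Elp n (D.g i j) (ch P (D.X ω 0) (S ω)) (fun l => D.g (pr l).1 (pr l).2)
      (fun l => ch P (D.X ω 0) (D.Ψ (pr l).1 (pr l).2 ω)) (inM Ms) E ε
      (uco n z (wv Ms nn s v)) (zs P (fpt D n z i j S ω (wv Ms nn s v)))
      (uco n z (vS D n z i j X S ω)) (ztS D i j S ω) (zs P (D.X ω))
      (fun l => zs P (cpt D n z i j (pr l).1 (pr l).2 S ω (wv Ms nn s v)))
      (fun l => zs P (cpt D n z i j (pr l).1 (pr l).2 S ω (vS D n z i j X S ω)))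

/-- The sizes. -/
theorem own_ctx (n K' Ds : ℕ) (C : ℝ) (hC : 0 ≤ C) : ∃ C' bE bG : ℝ, 0 ≤ C' ∧ 0 ≤ bE ∧
    0 ≤ bG ∧ 2 * (bG + 1) ≤ C' ∧ ∀ (D : NDat2)
    (K z X M i j iA jA bb : ℕ) (pr : ℕ → ℕ × ℕ) (Ms : Finset (Fin (n - 1)))
    (S : D.Ω → ℕ → PN) (ω : D.Ω) (P : ℕ → PN) (nn : Fin (n - 1) → ℝ)
    (s : Fin (n - 1) → Pl (n - 1)), K ≤ K' → 1 ≤ z →
    z + 2 ≤ X → C' * z ≤ bb → C' * z ≤ X → 1 ≤ n → i < M → j < M → iA < M → jA < M →
    (∀ i j x, TriN (D.G i j x)) → (∀ i j x l, (D.G i j x l).totalDegree ≤ K) →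
    FrP D n K' M z C P ω → Sd D n K i j S ω → Lo D n X (i, j) (iA, jA) →
    (∀ l : Fin (n - 1), l ∈ Ms ↔ D.g iA jA (l + 1) ≤ D.g i j (l + 1)) →
    (∀ l : Fin (n - 1), l ∉ Ms → (pr (l + 1)).1 < M ∧ (pr (l + 1)).2 < M ∧
      Lo D (l + 1) X (i, j) (pr (l + 1)) ∧ ∀ k : Fin (n - 1), k < l →
        D.g i j (k + 1) < D.g (pr (l + 1)).1 (pr (l + 1)).2 (k + 1) → k ∉ Ms) →
    Shn D n z X i j bb Ds S pr ω Ms s →
    (∀ l : Fin (n - 1), l ∉ Ms → |nn l - (vS D n z i j X S ω l -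
      eval (vS D n z i j X S ω) (s l))| ≤ 1 / 2 ^ X) →
    Octx D n (K' * (K' + 1) ^ n) z X M i j iA jA bb pr Ms S ω P nn s (exp (bE * z))
      (exp (bG * z)) (exp (bG * z) / 2 ^ X) := by
  obtain ⟨C₂, hC₂, hpk⟩ := fr_pack n K' C hC
  obtain ⟨K₂, hK₂⟩ : ∃ K₂ : ℕ, K₂ = K' * (K' + 1) ^ n := ⟨_, rfl⟩
  obtain ⟨Cb, hCb, hcf⟩ := cf_lo n (dK n K')
  obtain ⟨b₁, hb₁, hzc⟩ := zc_exp K₂ C₂ hC₂ (n + 1)
  obtain ⟨N, hN⟩ : ∃ N : ℝ, N = ((Pool.Agent.H36.KBX.bx (n - 1) Ds).card : ℝ) := ⟨_, rfl⟩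
  have hN0 : 0 ≤ N := by rw [hN]; exact Nat.cast_nonneg _
  obtain ⟨m, hm⟩ : ∃ m : ℕ, m = (n - 1) * Ds := ⟨_, rfl⟩
  -- the exponents
  obtain ⟨b₀, hb₀⟩ : ∃ b₀ : ℝ, b₀ = b₁ + (C₂ + 2) * dd K₂ (n + 2) := ⟨_, rfl⟩
  have hb₀0 : 0 ≤ b₀ := by rw [hb₀]; positivity
  have hl1 : 0 ≤ Real.log (1 + 2 * N) := Real.log_nonneg (by linarith)
  have hl2 : 0 ≤ Real.log (Cb + 1) := Real.log_nonneg (by linarith)
  obtain ⟨bG, hbG⟩ : ∃ bG : ℝ, bG = b₀ + Real.log (1 + 2 * N) + m * (1 + b₀) := ⟨_, rfl⟩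
  have hm0 : 0 ≤ m * (1 + b₀) := by positivity
  have hbG0 : 0 ≤ bG := by rw [hbG]; positivity
  have hb₀G : b₀ ≤ bG := by rw [hbG]; linarith
  refine ⟨2 * (bG + Real.log (Cb + 1) + 1), C₂, bG, by positivity, hC₂, hbG0, by linarith, ?_⟩
  intro D K z X M i j iA jA bb pr Ms S ω P nn s hK hz hX hbb hXz hn1 hi hj hiA hjA tG dG hF hS hLA
    hMs hpr hs hnn
  obtain ⟨hNb, hNo, hE⟩ := hpk D K z M i j S ω P hK hz hi hj tG dG hF hS
  obtain ⟨hP, dP, vP, nP⟩ := hF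
  have hx₀ : eval (D.X ω) (P 0) = D.X ω 0 := vP 0 (Nat.zero_le _)
  obtain ⟨E, hEe⟩ : ∃ E : ℝ, E = exp (C₂ * z) := ⟨_, rfl⟩
  rw [← hEe, ← hK₂] at hNb hNo
  rw [← hEe] at hE
  rw [← hK₂]
  rw [← hEe]
  have hzr : (1 : ℝ) ≤ z := by exact_mod_cast hz
  have hz0 : (0 : ℝ) ≤ z := by linarith
  have h2z : (1 : ℝ) ≤ 2 ^ z := one_le_pow₀ (by norm_num)
  have hE1 : 1 ≤ E := by linarith
  obtain ⟨G₀, hG₀⟩ : ∃ G₀ : ℝ, G₀ = exp (b₀ * z) := ⟨_, rfl⟩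
  obtain ⟨G, hG⟩ : ∃ G : ℝ, G = exp (bG * z) := ⟨_, rfl⟩
  rw [← hG]
  have hG₀G : G₀ ≤ G := by
    rw [hG₀, hG]
    exact exp_le_exp.2 (mul_le_mul_of_nonneg_right hb₀G hz0)
  have hG₀1 : 1 ≤ G₀ := by rw [hG₀]; exact one_le_exp (by positivity)
  have hG1 : 1 ≤ G := hG₀1.trans hG₀G
  have hzcG : zc K₂ E (n + 1) ≤ G₀ := by
    rw [hEe, hG₀]
    refine (hzc z hz).trans (exp_le_exp.2 (mul_le_mul_of_nonneg_right ?_ hz0))
    rw [hb₀]
    have : 0 ≤ (C₂ + 2) * dd K₂ (n + 2) := by positivity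
    linarith
  have hWG : ∀ k ≤ n + 2, (4 * E) ^ dd K₂ k ≤ G₀ := by
    intro k hk
    rw [hEe, hG₀]
    refine (w_le hz hC₂ (dd_mono hk)).trans (exp_le_exp.2 (mul_le_mul_of_nonneg_right ?_ hz0))
    rw [hb₀]
    linarith
  have hEz : E ≤ zc K₂ E (n + 1) := zc_ge K₂ hE1 _
  have dS : ∀ l, (S ω l).totalDegree ≤ K' := fun l => (hS.deg l).trans hK
  have dG' : ∀ i j x l, (D.G i j x l).totalDegree ≤ K' := fun i j x l => (dG i j x l).trans hK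
  -- the small number
  have h2X : (0 : ℝ) < 2 ^ X := by positivity
  have hA : 4 * 2 ^ z * (1 + 2 * (N * (2 * G₀) ^ m)) ≤ G := by
    have a1 : 4 * (2 : ℝ) ^ z ≤ G₀ := by linarith
    have a2 : (1 : ℝ) ≤ (2 * G₀) ^ m := one_le_pow₀ (by linarith)
    have a3 : 1 + 2 * (N * (2 * G₀) ^ m) ≤ (1 + 2 * N) * (2 * G₀) ^ m := by nlinarith
    have a4 : 1 + 2 * N ≤ exp (Real.log (1 + 2 * N) * z) := by
      calc 1 + 2 * N = exp (Real.log (1 + 2 * N)) := (exp_log (by linarith)).symm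
        _ ≤ _ := exp_le_exp.2 (by nlinarith)
    have a5 : (2 * G₀) ^ m ≤ exp (m * (1 + b₀) * z) := by
      have : 2 * G₀ ≤ exp ((1 + b₀) * z) := by
        have h2 : (2 : ℝ) ≤ exp z := by
          have h1 := Real.exp_one_gt_d9
          have h2 := exp_le_exp.2 hzr
          linarith
        calc 2 * G₀ ≤ exp z * exp (b₀ * z) := by
              rw [hG₀]
              exact mul_le_mul_of_nonneg_right h2 (exp_pos _).le
          _ = exp ((1 + b₀) * z) := by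
              rw [← exp_add]
              congr 1
              ring
      calc (2 * G₀) ^ m ≤ exp ((1 + b₀) * z) ^ m := pow_le_pow_left₀ (by positivity) this m
        _ = exp (m * (1 + b₀) * z) := by
            rw [← exp_nat_mul]
            congr 1
            ring
    calc 4 * 2 ^ z * (1 + 2 * (N * (2 * G₀) ^ m)) ≤ G₀ * ((1 + 2 * N) * (2 * G₀) ^ m) :=
          mul_le_mul a1 a3 (by positivity) (by positivity)
      _ ≤ exp (b₀ * z) * (exp (Real.log (1 + 2 * N) * z) * exp (m * (1 + b₀) * z)) := by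
          rw [← hG₀]
          refine mul_le_mul_of_nonneg_left ?_ (by linarith)
          exact mul_le_mul a4 a5 (by positivity) (exp_pos _).le
      _ = G := by
          rw [hG, hbG, ← exp_add, ← exp_add]
          congr 1
          ring
  have hε0 : 4 * 2 ^ z * (1 + 2 * (N * (2 * G₀) ^ m)) / 2 ^ X ≤ G / 2 ^ X :=
    div_le_div_of_nonneg_right hA h2X.le
  have hε4 : 4 * 2 ^ z / 2 ^ X ≤ G / 2 ^ X := by
    refine div_le_div_of_nonneg_right ?_ h2X.le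
    linarith
  have hε1 : G / 2 ^ X ≤ 1 := by
    rw [div_le_one h2X, hG]
    refine exp_le_two' (le_trans (mul_le_mul_of_nonneg_right ?_ hz0) hXz)
    linarith
  -- not truncated
  have hgds : ∀ i₁ j₁ c', i₁ < M → j₁ < M → 1 ≤ c' → c' ≤ n → Lo D c' X (i, j) (i₁, j₁) →
      GdsS D n z i j i₁ j₁ bb S c' ω := by
    intro i₁ j₁ c' h1 h1' hc1 hc hL α hα
    have T := tr_lo hX hE (hNb c' hc) (hNo i₁ h1 j₁ h1' c' hc) hL
    refine (hcf hP hx₀ hS.tri (tG _ _ _) hc1 hc (deg_shrS hS.tri (tG _ _ _) dS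
      (fun k => dG' _ _ _ k) hc) hE T α hα).trans ?_
    have e1 : (4 * E) ^ dd K₂ (c' + 2) ≤ G := (hWG _ (by omega)).trans hG₀G
    have e2 : Cb ≤ exp (Real.log (Cb + 1) * z) := by
      calc Cb ≤ Cb + 1 := by linarith
        _ = exp (Real.log (Cb + 1)) := (exp_log (by linarith)).symm
        _ ≤ _ := exp_le_exp.2 (by nlinarith)
    calc Cb * (4 * E) ^ dd K₂ (c' + 2) ≤ exp (Real.log (Cb + 1) * z) * G :=
          mul_le_mul e2 e1 (by positivity) (exp_pos _).le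
      _ = exp ((Real.log (Cb + 1) + bG) * z) := by
          rw [hG, ← exp_add]
          congr 1
          ring
      _ ≤ 2 ^ bb := by
          refine exp_le_two' ?_
          refine le_trans (mul_le_mul_of_nonneg_right ?_ hz0) hbb
          linarith
  have hgM : ∀ l, l ∉ Ms → GdsS D n z i j (pr ((l : ℕ) + 1)).1 (pr ((l : ℕ) + 1)).2 bb S
      ((l : ℕ) + 1) ω := fun l hl => by
    obtain ⟨a1, a2, a3, _⟩ := hpr l hl
    exact hgds _ _ _ a1 a2 (Nat.succ_pos _) (by have := l.2; omega) a3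
  have hgA : GdsS D n z i j iA jA bb S n ω := hgds _ _ _ hiA hjA hn1 le_rfl hLA
  -- the places
  have TA := (tr_lo hX hE (hNb n le_rfl) (hNo iA hiA jA hjA n le_rfl) hLA).epsm hε4 hε1
  have hEl : El K₂ n (D.g i j) (ch P (D.X ω 0) (S ω)) (fun l => D.g (pr l).1 (pr l).2)
      (fun l => ch P (D.X ω 0) (D.Ψ (pr l).1 (pr l).2 ω)) (inM Ms) E (G / 2 ^ X) := by
    refine ⟨?_, ?_, hNb n le_rfl, hE1, TA.eps, TA.eps1⟩
    · intro l h1 h2 hM
      obtain ⟨l', rfl⟩ : ∃ l', l = l' + 1 := ⟨l - 1, by omega⟩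
      have hl' : l' < n - 1 := by omega
      have hM' : (⟨l', hl'⟩ : Fin (n - 1)) ∉ Ms := fun h => hM fun _ => h
      obtain ⟨a1, a2, a3, _⟩ := hpr ⟨l', hl'⟩ hM'
      exact (tr_lo hX hE (hNb (l' + 1) h2.le) (hNo _ a1 _ a2 (l' + 1) h2.le) a3).epsm hε4 hε1
    · intro l h1 h2 hM k k1 k2 hk hkM
      obtain ⟨l', rfl⟩ : ∃ l', l = l' + 1 := ⟨l - 1, by omega⟩
      obtain ⟨k', rfl⟩ : ∃ k', k = k' + 1 := ⟨k - 1, by omega⟩
      have hl' : l' < n - 1 := by omega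
      have hk' : k' < n - 1 := by omega
      have hM' : (⟨l', hl'⟩ : Fin (n - 1)) ∉ Ms := fun h => hM fun _ => h
      obtain ⟨_, _, _, a4⟩ := hpr ⟨l', hl'⟩ hM'
      exact a4 ⟨k', hk'⟩ (by
        change k' < l'
        omega) hk (hkM _)
  have hAM : ∀ k, 1 ≤ k → k < n → D.g i j k < D.g iA jA k → ¬ inM Ms k := by
    intro k k1 k2 hk hkM
    obtain ⟨k', rfl⟩ : ∃ k', k = k' + 1 := ⟨k - 1, by omega⟩
    have hk' : k' < n - 1 := by omega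
    have := (hMs ⟨k', hk'⟩).1 (hkM _)
    have e : ((⟨k', hk'⟩ : Fin (n - 1)) : ℕ) = k' := rfl
    rw [e] at this
    omega
  have hy : ∀ l, 1 ≤ l → l ≤ n → |ztS D i j S ω l| ≤ 1 := fun l a b => nat_le (hS.hgt l a b)
  have hvo1 : ∀ l, |vS D n z i j X S ω l| ≤ 1 := fun l => by
    rw [abs_le]
    have := vS_bd (D := D) (z := z) (X := X) hy l
    constructor <;> linarith [this.1, this.2]
  rw [hN, hm] at hε0
  exact ⟨hE, hE1, hG1, hzcG.trans hG₀G, fun k hk => (hWG k hk).trans hG₀G, hε4, hε1, hNb, hNo,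
    hEl, TA, hAM, hgA, hvo1, fun v hv => elp_gen hP vP hS tG hE hgM hs hnn hzcG hε0 hEl hv⟩

end Pool.GSD
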