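import Pool.Agent.H41.GSD.Own5
import Pool.Agent.H24.GSD.Rnd

/-!
# The gradient of the own leaf, sheets known up to `2 ^ (-X)`

`own_detR`, `own_slpR`: as `own_det`, `own_slp` for any sheets near to the shapes. `shn_rnd`: the
rounded shapes.
-/

set_option autoImplicit false

namespace Pool.GSD

open Finset Real MvPolynomial
open Pool.Agent.H49.Ent Pool.Agent.H32.Dense Pool.STK Pool.STAT Pool.MIC.Frm Pool.MIC7 Pool.FRM
open Pool.MIC Pool.MicA
open Pool.BFL (Pl Pb)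
open Pool.TIE (elim elim_vars elim_deg ml_le_of_cb lip2 Dat dg)

section ctx

variable {D : NDat2} {n K₂ z X M i j iA jA bb : ℕ} {S : D.Ω → ℕ → PN} {ω : D.Ω} {P : ℕ → PN}
  {E G ε : ℝ} {pr : ℕ → ℕ × ℕ} {Ms : Finset (Fin (n - 1))} {nn : Fin (n - 1) → ℝ}
  {s : Fin (n - 1) → Pl (n - 1)}

/-- The values of the eliminated coordinates. -/
theorem Octx.wv_le (H : Octx D n K₂ z X M i j iA jA bb pr Ms S ω P nn s E G ε)
    {v : Fin (n - 1) → ℝ} (hv : ∀ l, |v l| ≤ 1) (l : Fin (n - 1)) :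
    |wv Ms nn s v l| ≤ 2 * G := by
  have h2z : (1 : ℝ) ≤ 2 ^ z := one_le_pow₀ (by norm_num)
  have hE := H.E6
  have hEz : E ≤ zc K₂ E (n + 1) := zc_ge K₂ H.E1 _
  have hzcG := H.zcG
  have s1 := (H.el.small (H.elp v hv) ((l : ℕ) + 1) (Nat.succ_pos _) (by
    have := l.2
    omega)).1
  rw [uco_fin] at s1
  have s2 : zc K₂ E ((l : ℕ) + 1 + 1) ≤ G := (zc_mono K₂ H.E1 (by
    have := l.2
    omega)).trans hzcG
  have s3 : |4 * 2 ^ z * wv Ms nn s v l| ≤ G + 2 * 2 ^ z := by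
    have e1 : 4 * 2 ^ z * wv Ms nn s v l = (4 * 2 ^ z * wv Ms nn s v l - 2 * 2 ^ z) +
        2 * 2 ^ z := by ring
    rw [e1]
    refine (abs_add_le _ _).trans (add_le_add (s1.trans s2) (le_of_eq ?_))
    exact abs_of_pos (by positivity)
  rw [abs_mul, abs_of_pos (by positivity : (0 : ℝ) < 4 * 2 ^ z)] at s3
  have p0 := abs_nonneg (wv Ms nn s v l)
  nlinarith

/-- The eliminated coordinates of the own point. -/
theorem Octx.own (H : Octx D n K₂ z X M i j iA jA bb pr Ms S ω P nn s E G ε) {K : ℕ}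
    (hS : Sd D n K i j S ω) (l : Fin (n - 1)) :
    |wv Ms nn s (vS D n z i j X S ω) l - vS D n z i j X S ω l| ≤ G * ε := by
  obtain ⟨vo, hvo⟩ : ∃ vo, vo = vS D n z i j X S ω := ⟨_, rfl⟩
  have hy : ∀ l, 1 ≤ l → l ≤ n → |ztS D i j S ω l| ≤ 1 := fun l a b => nat_le (hS.hgt l a b)
  have h2z : (1 : ℝ) ≤ 2 ^ z := one_le_pow₀ (by norm_num)
  have hεp : 0 ≤ ε := H.el.eps
  have hvo1 : ∀ l, |vo l| ≤ 1 := by rw [hvo]; exact H.vo1
  rw [← hvo]
  have hown := H.el.own (H.elp _ H.vo1) (fun l h1 h2 hM => by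
    obtain ⟨l', rfl⟩ : ∃ l', l = l' + 1 := ⟨l - 1, by omega⟩
    have hl' : l' < n - 1 := by omega
    have e1 : wv Ms nn s vo ⟨l', hl'⟩ = vo ⟨l', hl'⟩ := wv_in (hM _)
    have e2 : uco n z (wv Ms nn s vo) (l' + 1) = uco n z vo (l' + 1) := by
      have a1 := uco_fin (n := n) (z := z) (v := wv Ms nn s vo) ⟨l', hl'⟩
      have a2 := uco_fin (n := n) (z := z) (v := vo) ⟨l', hl'⟩
      have e : ((⟨l', hl'⟩ : Fin (n - 1)) : ℕ) = l' := rfl
      rw [e] at a1 a2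
      rw [a1, a2, e1]
    rw [hvo] at e2
    rw [e2]
    exact (uco_near (Nat.succ_pos _) h2 (hy _ (Nat.succ_pos _) h2.le)).trans H.e0)
  rw [← hvo] at hown
  have hl2 := l.2
  have o1 := hown ((l : ℕ) + 1) (Nat.succ_pos _) (by omega)
  have o2 : |uco n z vo ((l : ℕ) + 1) - ztS D i j S ω ((l : ℕ) + 1)| ≤ ε := by
    rw [hvo]
    exact (uco_near (Nat.succ_pos _) (by omega) (hy _ (Nat.succ_pos _) (by omega))).trans H.e0
  have o3 : |uco n z (wv Ms nn s vo) ((l : ℕ) + 1) - uco n z vo ((l : ℕ) + 1)| ≤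
      2 * G * ε := by
    have e1 : uco n z (wv Ms nn s vo) ((l : ℕ) + 1) - uco n z vo ((l : ℕ) + 1) =
        (uco n z (wv Ms nn s vo) ((l : ℕ) + 1) - ztS D i j S ω ((l : ℕ) + 1)) -
        (uco n z vo ((l : ℕ) + 1) - ztS D i j S ω ((l : ℕ) + 1)) := by ring
    rw [e1]
    refine (abs_sub _ _).trans ((add_le_add o1 o2).trans ?_)
    have : zc K₂ E (n + 1) * ε ≤ G * ε := mul_le_mul_of_nonneg_right H.zcG hεp
    have : ε ≤ G * ε := le_mul_of_one_le_left hεp H.G1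
    linarith
  rw [uco_fin, uco_fin] at o3
  have e2 : (4 * 2 ^ z * wv Ms nn s vo l - 2 * 2 ^ z) - (4 * 2 ^ z * vo l - 2 * 2 ^ z) =
      4 * 2 ^ z * (wv Ms nn s vo l - vo l) := by ring
  rw [e2, abs_mul, abs_of_pos (by positivity : (0 : ℝ) < 4 * 2 ^ z)] at o3
  have p0 := abs_nonneg (wv Ms nn s vo l - vo l)
  nlinarith

/-- **The values of the two leaves**: the height of the frame over the eliminated point is the
own leaf, up to a constant. -/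
theorem Octx.val (H : Octx D n K₂ z X M i j iA jA bb pr Ms S ω P nn s E G ε) {K : ℕ}
    (hn1 : 1 ≤ n) (hP : TriN P) (vP : ∀ l ≤ n, eval (D.X ω) (P l) = D.X ω l)
    (hS : Sd D n K i j S ω) (tG : ∀ i j x, TriN (D.G i j x))
    (hMs : ∀ l : Fin (n - 1), l ∈ Ms ↔ D.g iA jA (l + 1) ≤ D.g i j (l + 1))
    {y y' : Fin (n - 1) → ℝ} (hy : ∀ l, |y l| ≤ 1) (hy' : ∀ l, |y' l| ≤ 1) :
    |(eval y (shrS D n z i j iA jA S n ω) - eval (wv Ms nn s y) (PiS D n z i j S P ω)) -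
      (eval y' (shrS D n z i j iA jA S n ω) - eval (wv Ms nn s y') (PiS D n z i j S P ω))| ≤
      G * ε := by
  have hx₀ : eval (D.X ω) (P 0) = D.X ω 0 := vP 0 (Nat.zero_le _)
  have ev : ∀ v : Fin (n - 1) → ℝ, eval v (shrS D n z i j iA jA S n ω) -
      eval (wv Ms nn s v) (PiS D n z i j S P ω) =
      2 ^ D.g i j n * (eval (zs P (cpt D n z i j iA jA S ω v))
          (ch P (D.X ω 0) (D.Ψ iA jA ω) n) -
        eval (zs P (cpt D n z i j iA jA S ω v)) (ch P (D.X ω 0) (S ω) n)) +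
      2 ^ D.g i j n * eval (zs P (fpt D n z i j S ω (wv Ms nn s v)))
        (ch P (D.X ω 0) (S ω) n) := by
    intro v
    rw [eval_PiS' hn1 hP hS.tri, eval_shr_ch hP hS.tri (tG _ _ _) hn1]
    ring
  have cpc : ∀ v : Fin (n - 1) → ℝ, Cp n (D.g i j) (ch P (D.X ω 0) (S ω))
      (ch P (D.X ω 0) (D.Ψ iA jA ω)) (fun l => D.g i j l < D.g iA jA l)
      (uco n z (wv Ms nn s v)) (zs P (cpt D n z i j iA jA S ω v)) := by
    intro v
    refine Cp.congr (cp_of (v := v) hP hx₀ hS.tri (tG _ _ _) le_rfl) ?_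
    intro l h1 h2 ht
    obtain ⟨l', rfl⟩ : ∃ l', l = l' + 1 := ⟨l - 1, by omega⟩
    have hl' : l' < n - 1 := by omega
    have hM : (⟨l', hl'⟩ : Fin (n - 1)) ∈ Ms := (hMs ⟨l', hl'⟩).2 (not_lt.1 ht)
    have e1 : wv Ms nn s v ⟨l', hl'⟩ = v ⟨l', hl'⟩ := wv_in hM
    have a1 := uco_fin (n := n) (z := z) (v := wv Ms nn s v) ⟨l', hl'⟩
    have a2 := uco_fin (n := n) (z := z) (v := v) ⟨l', hl'⟩
    have e : ((⟨l', hl'⟩ : Fin (n - 1)) : ℕ) = l' := rfl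
    rw [e] at a1 a2
    rw [a1, a2, e1]
  rw [ev, ev]
  refine (H.el.targ H.TA H.AM (H.elp y hy) (H.elp y' hy') (cpc y) (cpc y')).trans ?_
  exact mul_le_mul_of_nonneg_right H.zcG H.el.eps

end ctx

/-- **The gradient of the own leaf**, sheets near to the shapes. -/
theorem own_detR (n K' Ds : ℕ) (C : ℝ) (hC : 0 ≤ C) : ∃ C' : ℝ, 0 ≤ C' ∧ ∀ (D : NDat2)
    (K z X M i j iA jA bb : ℕ) (pr : ℕ → ℕ × ℕ) (Ms : Finset (Fin (n - 1)))
    (S : D.Ω → ℕ → PN) (ω : D.Ω) (P : ℕ → PN) (nn : Fin (n - 1) → ℝ)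
    (s : Fin (n - 1) → Pl (n - 1)), K ≤ K' → 1 ≤ z →
    z + 2 ≤ X → C' * z ≤ bb → C' * z ≤ X → 1 ≤ n → i < M → j < M → iA < M → jA < M →
    (∀ i j x, TriN (D.G i j x)) → (∀ i j x l, (D.G i j x l).totalDegree ≤ K) →
    FrP D n K' M z C P ω → Sd D n K i j S ω → Lo D n X (i, j) (iA, jA) →
    (∀ l : Fin (n - 1), l ∈ Ms ↔ D.g iA jA (l + 1) ≤ D.g i j (l + 1)) →
    (∀ l : Fin (n - 1), l ∉ Ms → (pr (l + 1)).1 < M ∧ (pr (l + 1)).2 < M ∧
      Lo D (l + 1) X (i, j) (pr (l + 1)) ∧ ∀ k : Fin (n - 1), k < l →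
        D.g i j (k + 1) < D.g (pr (l + 1)).1 (pr (l + 1)).2 (k + 1) → k ∉ Ms) →
    Shn D n z X i j bb Ds S pr ω Ms s →
    (∀ l : Fin (n - 1), l ∉ Ms → |nn l - (vS D n z i j X S ω l -
      eval (vS D n z i j X S ω) (s l))| ≤ 1 / 2 ^ X) →
    ∀ c : Fin (n - 1), |∑ l, eval (vS D n z i j X S ω) (pderiv l (PiS D n z i j S P ω)) *
        eval (vS D n z i j X S ω) (pderiv c (elim Ms nn s (n - 1) l)) -
      eval (vS D n z i j X S ω) (pderiv c (shpS D n z i j iA jA bb S n ω))| ≤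
        exp (C' * z) / 2 ^ X := by
  obtain ⟨C₀, bE, bG, hC₀, hbE, hbG, hCG, hctx⟩ := own_ctx n K' Ds C hC
  obtain ⟨K₂, hK₂⟩ : ∃ K₂ : ℕ, K₂ = K' * (K' + 1) ^ n := ⟨_, rfl⟩
  obtain ⟨De, hDe⟩ : ∃ De : ℕ, De = (Ds + 1) ^ (n - 1) := ⟨_, rfl⟩
  obtain ⟨Ce, hCe, hder⟩ := Pool.Agent.H36.KBX.der_bound (n - 1) De
  obtain ⟨Cl, hCl, hlip⟩ := der_lip (n - 1) (dK n K')
  obtain ⟨Cv, hCv, hvar⟩ := der_var (n - 1) (dK n K' + dK n K' * De)
  obtain ⟨A₂, hA₂⟩ : ∃ A₂ : ℝ, A₂ = (n - 1 : ℕ) * (Cl * (Ce * 2)) + Cv := ⟨_, rfl⟩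
  have hA₂0 : 0 ≤ A₂ := by rw [hA₂]; positivity
  have hl1 : 0 ≤ Real.log (A₂ + 1) := Real.log_nonneg (by linarith)
  refine ⟨C₀ + 2 * (Real.log (A₂ + 1) + 4 * bG + 2), by positivity, ?_⟩
  intro D K z X M i j iA jA bb pr Ms S ω P nn s hK hz hX hbb hXz hn1 hi hj hiA hjA tG dG hF hS hLA
    hMs hpr hs hnn c
  have hzr : (1 : ℝ) ≤ z := by exact_mod_cast hz
  have hz0 : (0 : ℝ) ≤ z := by linarith
  have hrest : 0 ≤ 2 * (Real.log (A₂ + 1) + 4 * bG + 2) := by positivity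
  have hle : C₀ * z ≤ (C₀ + 2 * (Real.log (A₂ + 1) + 4 * bG + 2)) * z :=
    mul_le_mul_of_nonneg_right (by linarith) hz0
  have H := hctx D K z X M i j iA jA bb pr Ms S ω P nn s hK hz hX (hle.trans hbb)
    (hle.trans hXz) hn1 hi hj hiA hjA tG dG hF hS hLA hMs hpr hs hnn
  obtain ⟨hP, dP, vP, nP⟩ := hF
  have hx₀ : eval (D.X ω) (P 0) = D.X ω 0 := vP 0 (Nat.zero_le _)
  obtain ⟨E, hE⟩ : ∃ E : ℝ, E = exp (bE * z) := ⟨_, rfl⟩
  obtain ⟨G, hG⟩ : ∃ G : ℝ, G = exp (bG * z) := ⟨_, rfl⟩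
  rw [← hE, ← hG, ← hK₂] at H
  obtain ⟨ε, hε⟩ : ∃ ε : ℝ, ε = G / 2 ^ X := ⟨_, rfl⟩
  rw [← hε] at H
  have hG1 := H.G1
  have h2X : (0 : ℝ) < 2 ^ X := by positivity
  have dS : ∀ l, (S ω l).totalDegree ≤ K' := fun l => (hS.deg l).trans hK
  have dG' : ∀ i j x l, (D.G i j x l).totalDegree ≤ K' := fun i j x l => (dG i j x l).trans hK
  -- notation
  obtain ⟨vo, hvo⟩ : ∃ vo, vo = vS D n z i j X S ω := ⟨_, rfl⟩
  obtain ⟨Q, hQ⟩ : ∃ Q, Q = PiS D n z i j S P ω := ⟨_, rfl⟩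
  obtain ⟨F, hFd⟩ : ∃ F, F = shrS D n z i j iA jA S n ω := ⟨_, rfl⟩
  have hvo1 : ∀ l, |vo l| ≤ 1 := by rw [hvo]; exact H.vo1
  have hvo2 : ∀ l, |vo l| ≤ 2 := fun l => (hvo1 l).trans one_le_two
  rw [← hvo, ← hQ]
  have hshp : pderiv c (shpS D n z i j iA jA bb S n ω) = pderiv c F := by
    unfold shpS
    rw [if_pos H.gA, map_sub, pderiv_C, sub_zero, hFd]
  rw [hshp]
  -- degrees
  have de : ∀ l, (elim Ms nn s (n - 1) l).totalDegree ≤ De := fun l => by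
    rw [hDe]
    exact elim_deg hs.deg _ l
  have dQ : Q.totalDegree ≤ dK n K' := by
    rw [hQ]
    exact deg_PiS hP hS.tri dP dS
  have dF : F.totalDegree ≤ dK n K' := by
    rw [hFd]
    exact deg_shrS hS.tri (tG _ _ _) dS (fun k => dG' _ _ _ k) le_rfl
  have dR : (F - bind₁ (elim Ms nn s (n - 1)) Q).totalDegree ≤ dK n K' + dK n K' * De := by
    refine (totalDegree_sub _ _).trans (max_le (dF.trans (Nat.le_add_right _ _)) ?_)
    exact (Pool.TIE.deg_bind de dQ).trans (Nat.le_add_left _ _)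
  have hsl : ∀ l, |eval vo (pderiv c (elim Ms nn s (n - 1) l))| ≤ Ce * (2 * G) := fun l =>
    ((hder _ (2 * G) (de l) (fun y hy => H.wv_le hy l) vo hvo2).2.1) c
  -- the own point
  have hεp : 0 ≤ ε := H.el.eps
  have hdw : ∀ l, |wv Ms nn s vo l - vo l| ≤ G * ε := by
    rw [hvo]
    exact H.own hS
  have hGX : G * ε ≤ 1 := by
    rw [hε, ← mul_div_assoc, div_le_one h2X]
    have e1 : G * G = exp (2 * bG * z) := by
      rw [hG, ← exp_add]
      congr 1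
      ring
    rw [e1]
    refine exp_le_two' (le_trans (mul_le_mul_of_nonneg_right ?_ hz0) hXz)
    linarith
  have hw2 : ∀ l, |wv Ms nn s vo l| ≤ 2 := by
    intro l
    have h1 := hdw l
    have h3 : wv Ms nn s vo l = (wv Ms nn s vo l - vo l) + vo l := by ring
    rw [h3]
    refine (abs_add_le _ _).trans ?_
    have := hvo1 l
    linarith
  -- the difference of the two leaves
  have e0 : ∀ v : Fin (n - 1) → ℝ, eval v (bind₁ (elim Ms nn s (n - 1)) Q) =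
      eval (wv Ms nn s v) Q := fun v => eval₂Hom_bind₁ (RingHom.id ℝ) v _ _
  have hR : ∀ y : Fin (n - 1) → ℝ, (∀ l, |y l| ≤ 1) →
      |eval y (F - bind₁ (elim Ms nn s (n - 1)) Q) -
        eval 0 (F - bind₁ (elim Ms nn s (n - 1)) Q)| ≤ G * ε := by
    intro y hy1
    have hy0 : ∀ l, |(0 : Fin (n - 1) → ℝ) l| ≤ 1 := fun l => by
      rw [Pi.zero_apply, abs_zero]
      exact zero_le_one
    rw [map_sub, map_sub, e0, e0, hFd, hQ]
    exact H.val hn1 hP vP hS tG hMs hy1 hy0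
  have k1 := hvar _ (G * ε) dR hR vo hvo2 c
  rw [map_sub, pderiv_bind, map_sub, map_sum] at k1
  have hQb : ∀ y : Fin (n - 1) → ℝ, (∀ l, |y l| ≤ 1) → |eval y Q| ≤ G := fun y hy1 => by
    rw [hQ]
    exact (pi_bd hn1 hP hx₀ hS.tri H.E6 (H.nb n le_rfl) hy1).trans (H.WG _ (by omega))
  have k2 : ∀ l, |eval vo (pderiv l Q) - eval (wv Ms nn s vo) (pderiv l Q)| ≤
      Cl * G * (G * ε) := fun l => by
    rw [abs_sub_comm]
    exact hlip Q G (G * ε) dQ (by positivity) hQb _ _ hw2 hvo2 hdw l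
  -- together
  have e1 : ∀ l, eval vo (bind₁ (elim Ms nn s (n - 1)) (pderiv l Q) *
      pderiv c (elim Ms nn s (n - 1) l)) =
      eval (wv Ms nn s vo) (pderiv l Q) * eval vo (pderiv c (elim Ms nn s (n - 1) l)) := by
    intro l
    rw [map_mul]
    congr 1
    exact eval₂Hom_bind₁ (RingHom.id ℝ) vo _ _
  rw [Finset.sum_congr rfl fun l _ => e1 l] at k1
  have e2 : ∑ l, eval vo (pderiv l Q) * eval vo (pderiv c (elim Ms nn s (n - 1) l)) -
      eval vo (pderiv c F) =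
      ∑ l, (eval vo (pderiv l Q) - eval (wv Ms nn s vo) (pderiv l Q)) *
        eval vo (pderiv c (elim Ms nn s (n - 1) l)) -
      (eval vo (pderiv c F) - ∑ l, eval (wv Ms nn s vo) (pderiv l Q) *
        eval vo (pderiv c (elim Ms nn s (n - 1) l))) := by
    simp only [sub_mul, Finset.sum_sub_distrib]
    ring
  rw [e2]
  have k3 : |∑ l, (eval vo (pderiv l Q) - eval (wv Ms nn s vo) (pderiv l Q)) *
        eval vo (pderiv c (elim Ms nn s (n - 1) l))| ≤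
      (n - 1 : ℕ) * ((Cl * G * (G * ε)) * (Ce * (2 * G))) := by
    refine (Finset.abs_sum_le_sum_abs _ _).trans ?_
    refine (Finset.sum_le_sum fun l _ => (abs_mul _ _).le.trans
      (mul_le_mul (k2 l) (hsl l) (abs_nonneg _) (by positivity))).trans (le_of_eq ?_)
    rw [Finset.sum_const, Finset.card_univ, Fintype.card_fin, nsmul_eq_mul]
  refine (abs_sub _ _).trans ((add_le_add k3 k1).trans ?_)
  have hG4 : G * G ≤ G ^ 4 := by
    calc G * G = G ^ 2 := by ring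
      _ ≤ G ^ 4 := pow_le_pow_right₀ hG1 (by norm_num)
  have e5 : (n - 1 : ℕ) * ((Cl * G * (G * ε)) * (Ce * (2 * G))) + Cv * (G * ε) ≤
      A₂ * G ^ 4 / 2 ^ X := by
    have a1 : (n - 1 : ℕ) * ((Cl * G * (G * ε)) * (Ce * (2 * G))) =
        (n - 1 : ℕ) * (Cl * (Ce * 2)) * G ^ 4 / 2 ^ X := by
      rw [hε]
      ring
    have a2 : Cv * (G * ε) ≤ Cv * G ^ 4 / 2 ^ X := by
      rw [hε]
      have e4 : Cv * (G * (G / 2 ^ X)) = Cv * (G * G) / 2 ^ X := by ring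
      rw [e4]
      exact div_le_div_of_nonneg_right (mul_le_mul_of_nonneg_left hG4 hCv) h2X.le
    rw [a1, hA₂]
    refine (add_le_add_right a2 _).trans (le_of_eq ?_)
    ring
  have e6 : A₂ * G ^ 4 ≤ exp ((C₀ + 2 * (Real.log (A₂ + 1) + 4 * bG + 2)) * z) := by
    have a1 : A₂ ≤ exp (Real.log (A₂ + 1) * z) := by
      calc A₂ ≤ A₂ + 1 := by linarith
        _ = exp (Real.log (A₂ + 1)) := (exp_log (by linarith)).symm
        _ ≤ _ := exp_le_exp.2 (by nlinarith)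
    have a2 : G ^ 4 = exp (4 * bG * z) := by
      rw [hG, ← exp_nat_mul]
      congr 1
      push_cast
      ring
    calc A₂ * G ^ 4 ≤ exp (Real.log (A₂ + 1) * z) * exp (4 * bG * z) := by
          rw [a2]
          exact mul_le_mul_of_nonneg_right a1 (exp_pos _).le
      _ = exp ((Real.log (A₂ + 1) + 4 * bG) * z) := by
          rw [← exp_add]
          congr 1
          ring
      _ ≤ _ := exp_le_exp.2 (mul_le_mul_of_nonneg_right (by linarith) hz0)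
  exact e5.trans (div_le_div_of_nonneg_right e6 h2X.le)

/-- **The own leaf, gradient** (deterministic), sheets near to the shapes. -/
theorem own_slpR (n K' Ds : ℕ) (C : ℝ) (hC : 0 ≤ C) : ∃ C' : ℝ, 0 ≤ C' ∧ ∀ (D : NDat2)
    (K z X M i j iA jA bb h₀ : ℕ) (pr : ℕ → ℕ × ℕ) (Ms : Finset (Fin (n - 1)))
    (S : D.Ω → ℕ → PN) (ω : D.Ω) (P : ℕ → PN) (Γ' : Type) (zz : D.Ω → Γ') (q : D.Ω → ℝ)
    (s : D.Ω → Fin (n - 1) → Pl (n - 1)), K ≤ K' → 1 ≤ z →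
    z + 2 ≤ X → C' * z ≤ bb → C' * z ≤ X → 1 ≤ n → i < M → j < M → iA < M → jA < M →
    (∀ i j x, TriN (D.G i j x)) → (∀ i j x l, (D.G i j x l).totalDegree ≤ K) →
    FrP D n K' M z C P ω → Sd D n K i j S ω → Lo D n X (i, j) (iA, jA) →
    (∀ l : Fin (n - 1), l ∈ Ms ↔ D.g iA jA (l + 1) ≤ D.g i j (l + 1)) →
    (∀ l : Fin (n - 1), l ∉ Ms → (pr (l + 1)).1 < M ∧ (pr (l + 1)).2 < M ∧
      Lo D (l + 1) X (i, j) (pr (l + 1)) ∧ ∀ k : Fin (n - 1), k < l →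
        D.g i j (k + 1) < D.g (pr (l + 1)).1 (pr (l + 1)).2 (k + 1) → k ∉ Ms) →
    Shn D n z X i j bb Ds S pr ω Ms (s ω) →
    ∀ c : Fin (n - 1), |(∑ l, (datS D n z i j X h₀ S zz q s).slp Ms ω c l *
        pvc D n z i j X S P ω l) -
      eval ((datS D n z i j X h₀ S zz q s).v ω)
        (pderiv c (shpS D n z i j iA jA bb S n ω))| ≤ exp (C' * z) / 2 ^ X := by
  obtain ⟨C', hC', h⟩ := own_detR n K' Ds C hC
  refine ⟨C', hC', ?_⟩
  intro D K z X M i j iA jA bb h₀ pr Ms S ω P Γ' zz q s hK hz hX hbb hXz hn1 hi hj hiA hjA tG dG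
    hF hS hLA hMs hpr hs c
  obtain ⟨nn, hnn⟩ : ∃ nn : Fin (n - 1) → ℝ, nn = fun l =>
    ((datS D n z i j X h₀ S zz q s).ht l ω : ℝ) / 2 ^ X := ⟨_, rfl⟩
  have key := h D K z X M i j iA jA bb pr Ms S ω P nn (s ω) hK hz hX hbb hXz hn1 hi hj hiA hjA tG
    dG hF hS hLA hMs hpr hs (fun l _ => by
      rw [hnn]
      simp only
      have e := congrFun (datS_ht n z i j X h₀ S zz q s l) ω
      have e2 : (datS D n z i j X h₀ S zz q s).ht l ω =
        dg X (vS D n z i j X S ω l - eval (vS D n z i j X S ω) (s ω l)) := e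
      rw [e2]
      exact dg_div X _) c
  have hv := datS_v n z i j X h₀ S zz q s ω
  have e1 : ∀ l, (datS D n z i j X h₀ S zz q s).slp Ms ω c l * pvc D n z i j X S P ω l =
      eval (vS D n z i j X S ω) (pderiv l (PiS D n z i j S P ω)) *
        eval (vS D n z i j X S ω) (pderiv c (elim Ms nn (s ω) (n - 1) l)) := by
    intro l
    rw [mul_comm, hnn]
    have e3 : (datS D n z i j X h₀ S zz q s).slp Ms ω c l =
        eval ((datS D n z i j X h₀ S zz q s).v ω)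
          (pderiv c (elim Ms (fun c =>
            ((datS D n z i j X h₀ S zz q s).ht c ω : ℝ) / 2 ^ X) (s ω) (n - 1) l)) := rfl
    rw [e3, hv]
    rfl
  rw [Finset.sum_congr rfl fun l _ => e1 l, hv]
  exact key

/-- The rounded shapes. -/
theorem shn_rnd {D : NDat2} {n K K' z X i j bb : ℕ} {S : D.Ω → ℕ → PN} {pr : ℕ → ℕ × ℕ}
    {ω : D.Ω} {Ms : Finset (Fin (n - 1))} (hS : Sd D n K i j S ω) (hK : K ≤ K')
    (tG : ∀ i j x, TriN (D.G i j x)) (dG : ∀ i j x l, (D.G i j x l).totalDegree ≤ K) :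
    Shn D n z X i j bb (dK n K') S pr ω Ms (fun l => rnd X (shsS D n z i j bb S pr ω l)) := by
  have d0 : ∀ l, (shsS D n z i j bb S pr ω l).totalDegree ≤ dK n K' := fun l =>
    (deg_C_mul _ _).trans (deg_shpS hS.tri (tG _ _ _) (fun k => (hS.deg k).trans hK)
      (fun k => (dG _ _ _ k).trans hK) (by
        have := l.2
        omega))
  refine ⟨?_, fun c => (deg_rnd X _).trans (d0 c), d0, fun l _ α => rnd_near X _ α⟩
  intro c c' hc'
  have h1 := vars_C_mul_le (vars_rnd X _ hc')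
  have h2 := (vars_shpS hS.tri (tG _ _ _) h1).2
  have : (c' : ℕ) < (c : ℕ) := by omega
  exact this

end Pool.GSD
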