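import Pool.Agent.H41.GSD.Own6

/-!
# The full shape is the height of the frame, near to the composite sheets

`tot_core`: if the restriction of `F` to the sheets outside `Ms` agrees with the own leaf of a
place `t`, then `F` is the height of the frame, up to a constant, at all points of the unit box which
are near to the frame in the coordinates outside `Ms`.
-/

set_option autoImplicit false

namespace Pool.GSD

open Finset Real MvPolynomial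
open Pool.Agent.H49.Ent Pool.Agent.H32.Dense Pool.STK Pool.STAT Pool.MIC.Frm Pool.MIC7 Pool.FRM
open Pool.MIC Pool.MicA
open Pool.BFL (Pl Pb)
open Pool.TIE (elim elim_vars elim_deg ml_le_of_cb lip2 Dat dg)

theorem big_le {z : ℕ} (hz : 1 ≤ z) {a b : ℝ} (ha : 0 ≤ a) (hb : 0 ≤ b) (q : ℕ) :
    a * (4 * exp (b * z)) ^ q ≤ exp ((Real.log (a + 1) + (b + 2) * q) * z) := by
  have hzr : (1 : ℝ) ≤ z := by exact_mod_cast hz
  have h0 : 0 ≤ Real.log (a + 1) := Real.log_nonneg (by linarith)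
  have a1 : a ≤ exp (Real.log (a + 1) * z) := by
    calc a ≤ a + 1 := by linarith
      _ = exp (Real.log (a + 1)) := (exp_log (by linarith)).symm
      _ ≤ _ := exp_le_exp.2 (by nlinarith)
  calc a * (4 * exp (b * z)) ^ q ≤ exp (Real.log (a + 1) * z) * exp ((b + 2) * q * z) :=
        mul_le_mul a1 (w_le hz hb le_rfl) (by positivity) (exp_pos _).le
    _ = _ := by
        rw [← exp_add]
        congr 1
        ring

/-- A polynomial with small coefficients except for the constant one. -/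
theorem cf_two {m D : ℕ} {Q : Pl m} {δ ρ : ℝ} (h : Q.totalDegree ≤ D) (hδ : 0 ≤ δ) (hρ : 1 ≤ ρ)
    (hc : ∀ α, α ≠ 0 → |coeff α Q| ≤ δ) {w w' : Fin m → ℝ} (hw : ∀ l, |w l| ≤ ρ)
    (hw' : ∀ l, |w' l| ≤ ρ) :
    |eval w Q - eval w' Q| ≤ 2 * (Pool.Agent.H36.KBX.bx m D).card * (δ * ρ ^ (m * D)) := by
  classical
  have one : ∀ v : Fin m → ℝ, (∀ l, |v l| ≤ ρ) →
      |eval v Q - coeff 0 Q| ≤ (Pool.Agent.H36.KBX.bx m D).card * (δ * ρ ^ (m * D)) := by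
    intro v hv
    have e := Pool.Agent.H36.KBX.eval_bound (Q - MvPolynomial.C (coeff 0 Q))
      ((totalDegree_sub _ _).trans (max_le h (by
        rw [totalDegree_C]
        exact Nat.zero_le _))) δ ρ hρ (fun α => by
        rw [coeff_sub, coeff_C]
        by_cases h0 : α = 0
        · subst h0
          rw [if_pos rfl, sub_self, abs_zero]
          exact hδ
        · rw [if_neg (Ne.symm h0), sub_zero]
          exact hc α h0) v hv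
    rwa [map_sub, eval_C] at e
  have h1 := one w hw
  have h2 := one w' hw'
  rw [abs_le] at h1 h2 ⊢
  constructor <;> linarith [h1.1, h1.2, h2.1, h2.2]

theorem num_a {W δ V : ℝ} {k p Q : ℕ} (hW : 1 ≤ W) (hV : 0 ≤ V) (h : δ ≤ 2 * W ^ p * V)
    (hQ : k + p ≤ Q) : W ^ k * δ ≤ 2 * W ^ Q * V := by
  have hW0 : 0 ≤ W := by linarith
  calc W ^ k * δ ≤ W ^ k * (2 * W ^ p * V) := mul_le_mul_of_nonneg_left h (by positivity)
    _ = 2 * W ^ (k + p) * V := by ring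
    _ ≤ 2 * W ^ Q * V := mul_le_mul_of_nonneg_right (mul_le_mul_of_nonneg_left
        (pow_le_pow_right₀ hW hQ) (by norm_num)) hV

theorem num_c {g g' f f' e e' q q' r r' σ σ' c x y u v k : ℝ} (h1 : |f - e| ≤ x)
    (h2 : |f' - e'| ≤ x) (h3 : |q - r| ≤ y) (h4 : |q' - r'| ≤ y)
    (h5 : |(e - (σ - c)) - (e' - (σ' - c))| ≤ u) (h6 : |(g - f) - (g' - f')| ≤ v)
    (h7 : |(σ - r) - (σ' - r')| ≤ k) :
    |(g - q) - (g' - q')| ≤ 2 * x + 2 * y + k + u + v := by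
  rw [abs_le] at h1 h2 h3 h4 h5 h6 h7 ⊢
  constructor
  · linarith [h1.1, h2.2, h3.2, h4.1, h5.1, h6.1, h7.1]
  · linarith [h1.2, h2.1, h3.1, h4.2, h5.2, h6.2, h7.2]

theorem num_f {a₁ a₂ N₁ N₂ a w w₂ U τ : ℝ} (ha₁ : 0 ≤ a₁) (ha₂ : 0 ≤ a₂) (hN₁ : 0 ≤ N₁)
    (hN₂ : 0 ≤ N₂) (hw : 1 ≤ w) (hw₂ : w₂ ≤ w) (hU : 0 ≤ U) (hτ : 0 ≤ τ)
    (ha : a = 4 * (a₁ + a₂) + 2 * N₁ + 2 * N₂ + 1) :
    2 * (2 * a₁ * w * U) + 2 * (2 * a₂ * w * U) + w * U + 2 * N₁ * τ + 2 * N₂ * (τ * w₂) ≤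
      a * w * (U + τ) := by
  have b1 : 0 ≤ (2 * N₁ + 2 * N₂) * w * U := by positivity
  have b2 : 2 * N₁ * τ ≤ 2 * N₁ * w * τ :=
    mul_le_mul_of_nonneg_right (le_mul_of_one_le_right (by positivity) hw) hτ
  have b4 : 2 * N₂ * (τ * w₂) ≤ 2 * N₂ * (τ * w) :=
    mul_le_mul_of_nonneg_left (mul_le_mul_of_nonneg_left hw₂ hτ) (by positivity)
  have b3 : 0 ≤ (4 * (a₁ + a₂) + 1) * w * τ := by positivity
  rw [ha]
  have e : (4 * (a₁ + a₂) + 2 * N₁ + 2 * N₂ + 1) * w * (U + τ) =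
      (4 * (a₁ + a₂) + 1) * w * U + (2 * N₁ + 2 * N₂) * w * U +
        (2 * N₁ * w * τ + 2 * N₂ * (τ * w)) + (4 * (a₁ + a₂) + 1) * w * τ := by ring
  rw [e]
  linarith

theorem num_d {W G A V : ℝ} {p X : ℕ} (hG : 1 ≤ G) (hA : 1 ≤ A) (hW : G ≤ W)
    (hV : V = A / 2 ^ X) :
    W ^ p * (A / 2 ^ X + G * (G / 2 ^ X)) ≤ 2 * W ^ (p + 2) * V := by
  have h2X : (0 : ℝ) < 2 ^ X := by positivity
  have hW1 : 1 ≤ W := by linarith
  have b1 : A / 2 ^ X + G * (G / 2 ^ X) ≤ 2 * W ^ 2 * (A / 2 ^ X) := by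
    have c1 : G * G ≤ W ^ 2 * A := by
      have : G * G ≤ W ^ 2 := by
        rw [pow_two]
        exact mul_le_mul hW hW (by linarith) (by linarith)
      calc G * G ≤ W ^ 2 * 1 := by rw [mul_one]; exact this
        _ ≤ W ^ 2 * A := mul_le_mul_of_nonneg_left hA (by positivity)
    have c2 : A ≤ W ^ 2 * A := le_mul_of_one_le_left (by linarith) (one_le_pow₀ hW1)
    have e : A / 2 ^ X + G * (G / 2 ^ X) = (A + G * G) / 2 ^ X := by ring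
    have e' : 2 * W ^ 2 * (A / 2 ^ X) = (2 * (W ^ 2 * A)) / 2 ^ X := by ring
    rw [e, e']
    exact div_le_div_of_nonneg_right (by linarith) h2X.le
  calc W ^ p * (A / 2 ^ X + G * (G / 2 ^ X)) ≤ W ^ p * (2 * W ^ 2 * (A / 2 ^ X)) :=
        mul_le_mul_of_nonneg_left b1 (by positivity)
    _ = 2 * W ^ (p + 2) * V := by
        rw [hV]
        ring

theorem num_g {W G A B : ℝ} {Q X : ℕ} (hG : 1 ≤ G) (hA : 1 ≤ A) (hB : 1 ≤ B)
    (hW : G ≤ W) (hQ : 2 ≤ Q) : G * (G / 2 ^ X) ≤ W ^ Q * (A * B / 2 ^ X) := by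
  have h2X : (0 : ℝ) < 2 ^ X := by positivity
  have hW1 : 1 ≤ W := by linarith
  have b0 : G * G ≤ W ^ 2 := by
    rw [pow_two]
    exact mul_le_mul hW hW (by linarith) (by linarith)
  have b2 : 1 ≤ A * B := one_le_mul_of_one_le_of_one_le hA hB
  have b1 : G * G ≤ W ^ Q * (A * B) := by
    calc G * G ≤ W ^ 2 := b0
      _ ≤ W ^ Q := pow_le_pow_right₀ hW1 hQ
      _ = W ^ Q * 1 := (mul_one _).symm
      _ ≤ W ^ Q * (A * B) := mul_le_mul_of_nonneg_left b2 (by positivity)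
  rw [← mul_div_assoc, ← mul_div_assoc]
  exact div_le_div_of_nonneg_right b1 h2X.le

theorem num_h {W G δ V U a₁ a₂ B : ℝ} {k₁ k₂ p Q : ℕ} (hW : 1 ≤ W) (hGW : G ≤ W) (hV : 0 ≤ V)
    (hδ0 : 0 ≤ δ) (h : δ ≤ 2 * W ^ p * V) (hQ : k₁ + p ≤ Q) (hQ' : k₂ + 1 + p ≤ Q)
    (ha₁ : 0 ≤ a₁) (ha₂ : 0 ≤ a₂) (hB : 1 ≤ B) (hBV : B * V = U) :
    a₁ * B * (W ^ k₁ * δ) ≤ 2 * a₁ * W ^ Q * U ∧ a₂ * G * (W ^ k₂ * δ) ≤ 2 * a₂ * W ^ Q * U := by
  have hW0 : 0 ≤ W := by linarith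
  have hVU : V ≤ U := by
    rw [← hBV]
    exact le_mul_of_one_le_left hV hB
  constructor
  · have b1 := num_a (Q := Q) (k := k₁) hW hV h hQ
    calc a₁ * B * (W ^ k₁ * δ) ≤ a₁ * B * (2 * W ^ Q * V) :=
          mul_le_mul_of_nonneg_left b1 (by positivity)
      _ = 2 * a₁ * W ^ Q * U := by
          rw [← hBV]
          ring
  · have b1 := num_a (Q := Q) (k := k₂ + 1) hW hV h hQ'
    calc a₂ * G * (W ^ k₂ * δ) ≤ a₂ * W * (W ^ k₂ * δ) :=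
          mul_le_mul_of_nonneg_right (mul_le_mul_of_nonneg_left hGW ha₂) (by positivity)
      _ = a₂ * (W ^ (k₂ + 1) * δ) := by ring
      _ ≤ a₂ * (2 * W ^ Q * V) := mul_le_mul_of_nonneg_left b1 ha₂
      _ ≤ a₂ * (2 * W ^ Q * U) :=
          mul_le_mul_of_nonneg_left (mul_le_mul_of_nonneg_left hVU (by positivity)) ha₂
      _ = 2 * a₂ * W ^ Q * U := by ring

section ctx

variable {D : NDat2} {n K₂ z X M i j iA jA bb : ℕ} {S : D.Ω → ℕ → PN} {ω : D.Ω} {P : ℕ → PN}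
  {E G ε : ℝ} {pr : ℕ → ℕ × ℕ} {Ms : Finset (Fin (n - 1))} {nn : Fin (n - 1) → ℝ}
  {s : Fin (n - 1) → Pl (n - 1)}

/-- The eliminated point depends on the coordinates in `Ms` only. -/
theorem wv_congr {m : ℕ} {M' : Finset (Fin m)} {n : Fin m → ℝ} {s : Fin m → Pl m}
    {v v' : Fin m → ℝ} (h : ∀ l ∈ M', v l = v' l) : wv M' n s v = wv M' n s v' := by
  funext l
  exact AdxRow.evl_congr fun k hk => h k (elim_vars m l hk)

/-- The eliminated point over a point which is near to the frame outside `Ms`. -/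
theorem Octx.near (H : Octx D n K₂ z X M i j iA jA bb pr Ms S ω P nn s E G ε) {K : ℕ}
    (hP : TriN P) (vP : ∀ l ≤ n, eval (D.X ω) (P l) = D.X ω l) (hS : Sd D n K i j S ω)
    {w w₀ : Fin (n - 1) → ℝ} {R : ℝ} (hR : 1 ≤ R) (hw : ∀ l, |w l| ≤ R)
    (hw₀ : ∀ l, |w₀ l| ≤ 1) (hww : ∀ l ∈ Ms, w₀ l = w l) {ρ : ℝ} (hρ : 0 ≤ ρ)
    (hn : ∀ l, l ∉ Ms → |zs P (fpt D n z i j S ω w) ((l : ℕ) + 1)| ≤ ρ / 2 ^ D.g i j (l + 1))
    (l : Fin (n - 1)) :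
    |w l - wv Ms nn s w₀ l| ≤ (4 * (G * R)) ^ dd K₂ (n + 1) * (ρ + G * ε) := by
  have hx₀ : eval (D.X ω) (P 0) = D.X ω 0 := vP 0 (Nat.zero_le _)
  have h2z : (1 : ℝ) ≤ 2 ^ z := one_le_pow₀ (by norm_num)
  have hε := H.el.eps
  have hG1 := H.G1
  have hEG : E ≤ G := (zc_ge K₂ H.E1 _).trans H.zcG
  have hGR : G ≤ G * R := le_mul_of_one_le_right (by linarith) hR
  have hGR1 : 1 ≤ G * R := hG1.trans hGR
  have ep := H.elp w₀ hw₀
  have sm := H.el.small ep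
  obtain ⟨w₁, hw₁⟩ : ∃ w₁, w₁ = wv Ms nn s w₀ := ⟨_, rfl⟩
  rw [← hw₁] at ep sm ⊢
  have p1 := fpt_ptl (D := D) (n := n) (z := z) (i := i) (j := j) (S := S) (ω := ω) (v := w)
    hP hx₀ hS.tri
  have two := (H.nb n le_rfl |>.mono le_rfl (hEG.trans hGR)).two (W := 4 * (G * R))
    (ε := ρ + G * ε) (M := inM Ms) hGR1 rfl (by positivity) p1 ep.pt
    (fun k k1 k2 => by
      rw [uco_succ k1 k2]
      have b1 := hw ⟨k - 1, by omega⟩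
      have b2 : |4 * 2 ^ z * w ⟨k - 1, by omega⟩ - 2 * 2 ^ z| ≤ 6 * 2 ^ z * R := by
        refine (abs_sub _ _).trans ?_
        rw [abs_mul, abs_of_pos (by positivity : (0 : ℝ) < 4 * 2 ^ z),
          abs_of_pos (by positivity : (0 : ℝ) < 2 * 2 ^ z)]
        nlinarith
      exact b2.trans (mul_le_mul_of_nonneg_right (H.E6.trans hEG) (by linarith)))
    (fun k k1 k2 => (((sm k k1 k2).1.trans (zc_mono K₂ H.E1 (by omega))).trans H.zcG).trans hGR)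
    (fun k k1 k2 hk => by
      have e1 : w₁ ⟨k - 1, by omega⟩ = w ⟨k - 1, by omega⟩ := by
        rw [hw₁, wv_in (hk _)]
        exact hww _ (hk _)
      rw [uco_succ k1 k2, uco_succ k1 k2, e1, sub_self, abs_zero]
      positivity)
    (fun k k1 k2 hk => by
      obtain ⟨k', rfl⟩ : ∃ k', k = k' + 1 := ⟨k - 1, by omega⟩
      have hk' : k' < n - 1 := by omega
      have hM : (⟨k', hk'⟩ : Fin (n - 1)) ∉ Ms := fun h => hk fun _ => h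
      have b1 := hn ⟨k', hk'⟩ hM
      have b2 := (sm (k' + 1) k1 k2).2 hk
      have b3 : zc K₂ E (k' + 1 + 1) * ε / 2 ^ D.g i j (k' + 1) ≤
          G * ε / 2 ^ D.g i j (k' + 1) :=
        div_le_div_of_nonneg_right (mul_le_mul_of_nonneg_right
          ((zc_mono K₂ H.E1 (by omega)).trans H.zcG) hε) (by positivity)
      refine (abs_sub _ _).trans ?_
      rw [add_div]
      exact add_le_add b1 (b2.trans b3))
    ((l : ℕ) + 1) (Nat.succ_pos _) (by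
      have := l.2
      omega)
  rw [uco_fin, uco_fin] at two
  have e2 : (4 * 2 ^ z * w l - 2 * 2 ^ z) - (4 * 2 ^ z * w₁ l - 2 * 2 ^ z) =
      4 * 2 ^ z * (w l - w₁ l) := by ring
  rw [e2, abs_mul, abs_of_pos (by positivity : (0 : ℝ) < 4 * 2 ^ z)] at two
  have h3 : (4 * (G * R)) ^ dd K₂ ((l : ℕ) + 1 + 2) ≤ (4 * (G * R)) ^ dd K₂ (n + 1) :=
    wpow hGR1 rfl (by
      have := l.2
      omega)
  have h4 : |w l - w₁ l| ≤ 4 * 2 ^ z * |w l - w₁ l| := by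
    refine le_mul_of_one_le_left (abs_nonneg _) ?_
    linarith
  exact h4.trans (two.trans (mul_le_mul_of_nonneg_right h3 (by positivity)))

end ctx

/-- **The full shape and the height of the frame.** -/
theorem tot_core (n K' Ds KF : ℕ) (C a₀ : ℝ) (hC : 0 ≤ C) (ha₀ : 0 ≤ a₀) : ∃ C' : ℝ, 0 ≤ C' ∧
    ∀ (D : NDat2)
    (K z X M i j iA jA bb t : ℕ) (pr : ℕ → ℕ × ℕ) (Ms : Finset (Fin (n - 1)))
    (S : D.Ω → ℕ → PN) (ω : D.Ω) (P : ℕ → PN) (nn : Fin (n - 1) → ℝ)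
    (s : Fin (n - 1) → Pl (n - 1)) (F F' : Pl (n - 1)) (A B : ℝ), K ≤ K' → 1 ≤ z →
    z + 2 ≤ X → C' * z ≤ bb → C' * z ≤ X → 1 ≤ n → i < M → j < M → iA < M → jA < M →
    (∀ i j x, TriN (D.G i j x)) → (∀ i j x l, (D.G i j x l).totalDegree ≤ K) →
    FrP D n K' M z C P ω → Sd D n K i j S ω → Lo D n X (i, j) (iA, jA) →
    (∀ l : Fin (n - 1), l ∈ Ms ↔ D.g iA jA (l + 1) ≤ D.g i j (l + 1)) →
    (∀ l : Fin (n - 1), l ∉ Ms → (pr (l + 1)).1 < M ∧ (pr (l + 1)).2 < M ∧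
      Lo D (l + 1) X (i, j) (pr (l + 1)) ∧ ∀ k : Fin (n - 1), k < l →
        D.g i j (k + 1) < D.g (pr (l + 1)).1 (pr (l + 1)).2 (k + 1) → k ∉ Ms) →
    Shn D n z X i j bb Ds S pr ω Ms s →
    (∀ l : Fin (n - 1), l ∉ Ms → |nn l - (vS D n z i j X S ω l -
      eval (vS D n z i j X S ω) (s l))| ≤ 1 / 2 ^ X) →
    F.totalDegree ≤ KF → F'.totalDegree ≤ KF → 1 ≤ A → 1 ≤ B → (∀ α, |coeff α F| ≤ B) →
    (∀ α, α ≠ 0 → |coeff α F' - coeff α F| ≤ 1 / 2 ^ t) →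
    (∀ α, α ≠ 0 → |coeff α (bind₁ (elim Ms nn s (n - 1)) F) -
      coeff α (shpS D n z i j iA jA bb S n ω)| ≤ 1 / 2 ^ t) →
    ∀ w w' : Fin (n - 1) → ℝ, (∀ l, |w l| ≤ exp (a₀ * z)) → (∀ l, |w' l| ≤ exp (a₀ * z)) →
      (∀ l ∈ Ms, |w l| ≤ 1) → (∀ l ∈ Ms, |w' l| ≤ 1) →
      (∀ l, l ∉ Ms → |zs P (fpt D n z i j S ω w) ((l : ℕ) + 1)| ≤
        A / 2 ^ X / 2 ^ D.g i j (l + 1)) →
      (∀ l, l ∉ Ms → |zs P (fpt D n z i j S ω w') ((l : ℕ) + 1)| ≤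
        A / 2 ^ X / 2 ^ D.g i j (l + 1)) →
      |(eval w F' - eval w (PiS D n z i j S P ω)) -
        (eval w' F' - eval w' (PiS D n z i j S P ω))| ≤
        exp (C' * z) * (A * B / 2 ^ X + 1 / 2 ^ t) := by
  obtain ⟨C₀, bE, bG, hC₀, hbE, hbG, hCG, hctx⟩ := own_ctx n K' Ds C hC
  obtain ⟨K₂, hK₂⟩ : ∃ K₂ : ℕ, K₂ = K' * (K' + 1) ^ n := ⟨_, rfl⟩
  obtain ⟨De, hDe⟩ : ∃ De : ℕ, De = (Ds + 1) ^ (n - 1) := ⟨_, rfl⟩
  obtain ⟨Cc, hCc, hcb⟩ := Pool.Agent.H36.KBX.coef_bound (n - 1) (dK n K')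
  obtain ⟨D₁, hD₁⟩ : ∃ D₁ : ℕ, D₁ = KF * De + dK n K' := ⟨_, rfl⟩
  obtain ⟨N₁, hN₁⟩ : ∃ N₁ : ℝ, N₁ = ((Pool.Agent.H36.KBX.bx (n - 1) D₁).card : ℝ) := ⟨_, rfl⟩
  obtain ⟨N₂, hN₂⟩ : ∃ N₂ : ℝ, N₂ = ((Pool.Agent.H36.KBX.bx (n - 1) KF).card : ℝ) := ⟨_, rfl⟩
  have hN₁0 : 0 ≤ N₁ := by rw [hN₁]; exact Nat.cast_nonneg _
  have hN₂0 : 0 ≤ N₂ := by rw [hN₂]; exact Nat.cast_nonneg _
  -- the constants of the Lipschitz bounds
  obtain ⟨a₁, ha₁⟩ : ∃ a₁ : ℝ, a₁ = ((KF : ℝ) + 1) ^ (n - 1) * KF := ⟨_, rfl⟩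
  obtain ⟨a₂, ha₂⟩ : ∃ a₂ : ℝ, a₂ = ((dK n K' : ℝ) + 1) ^ (n - 1) * Cc * dK n K' := ⟨_, rfl⟩
  have ha₁0 : 0 ≤ a₁ := by rw [ha₁]; positivity
  have ha₂0 : 0 ≤ a₂ := by rw [ha₂]; positivity
  obtain ⟨Q, hQ⟩ : ∃ Q : ℕ, Q = KF + dK n K' + 1 + dd K₂ (n + 1) + 2 + (n - 1) * KF :=
    ⟨_, rfl⟩
  obtain ⟨a, ha⟩ : ∃ a : ℝ, a = 4 * (a₁ + a₂) + 2 * N₁ + 2 * N₂ + 1 := ⟨_, rfl⟩
  have ha0 : 0 ≤ a := by rw [ha]; positivity
  have hla : 0 ≤ Real.log (a + 1) := Real.log_nonneg (by linarith)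
  obtain ⟨cF, hcF⟩ : ∃ cF : ℝ, cF = Real.log (a + 1) + (bG + a₀ + 2) * Q := ⟨_, rfl⟩
  have hcF0 : 0 ≤ cF := by rw [hcF]; positivity
  refine ⟨C₀ + cF, by positivity, ?_⟩
  intro D K z X M i j iA jA bb t pr Ms S ω P nn s F F' A B hK hz hX hbb hXz hn1 hi hj hiA hjA tG
    dG hF hS hLA hMs hpr hs hnn dF dF' hA hB hFc hFF hmt w w' hw hw' hwM hwM' hnw hnw'
  have hzr : (1 : ℝ) ≤ z := by exact_mod_cast hz
  have hz0 : (0 : ℝ) ≤ z := by linarith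
  have hle : C₀ * z ≤ (C₀ + cF) * z := mul_le_mul_of_nonneg_right (by linarith) hz0
  have H := hctx D K z X M i j iA jA bb pr Ms S ω P nn s hK hz hX (hle.trans hbb)
    (hle.trans hXz) hn1 hi hj hiA hjA tG dG hF hS hLA hMs hpr hs hnn
  obtain ⟨hP, dP, vP, nP⟩ := hF
  have hx₀ : eval (D.X ω) (P 0) = D.X ω 0 := vP 0 (Nat.zero_le _)
  obtain ⟨E, hE⟩ : ∃ E : ℝ, E = exp (bE * z) := ⟨_, rfl⟩
  obtain ⟨G, hG⟩ : ∃ G : ℝ, G = exp (bG * z) := ⟨_, rfl⟩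
  obtain ⟨R, hR⟩ : ∃ R : ℝ, R = exp (a₀ * z) := ⟨_, rfl⟩
  rw [← hE, ← hG, ← hK₂] at H
  rw [← hR] at hw hw'
  have hR1 : 1 ≤ R := by rw [hR]; exact one_le_exp (by positivity)
  have hG1 := H.G1
  have h2X : (0 : ℝ) < 2 ^ X := by positivity
  have dS : ∀ l, (S ω l).totalDegree ≤ K' := fun l => (hS.deg l).trans hK
  have dG' : ∀ i j x l, (D.G i j x l).totalDegree ≤ K' := fun i j x l => (dG i j x l).trans hK
  obtain ⟨W, hW⟩ : ∃ W : ℝ, W = 4 * (G * R) := ⟨_, rfl⟩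
  have hGR : G ≤ G * R := le_mul_of_one_le_right (by linarith) hR1
  have hRG : R ≤ G * R := le_mul_of_one_le_left (by linarith) hG1
  have hGW : G ≤ W := by linarith
  have hGW2 : 2 * G ≤ W := by linarith
  have hRW : R ≤ W := by linarith
  have hW1 : 1 ≤ W := by linarith
  -- the points of the leaf
  obtain ⟨w₀, hw₀⟩ : ∃ w₀ : Fin (n - 1) → ℝ, w₀ = fun l => if l ∈ Ms then w l else 0 := ⟨_, rfl⟩
  obtain ⟨w₀', hw₀'⟩ : ∃ w₀' : Fin (n - 1) → ℝ, w₀' = fun l => if l ∈ Ms then w' l else 0 :=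
    ⟨_, rfl⟩
  have b0 : ∀ l, |w₀ l| ≤ 1 := fun l => by
    rw [hw₀]
    simp only
    split_ifs with h
    · exact hwM l h
    · rw [abs_zero]
      exact zero_le_one
  have b0' : ∀ l, |w₀' l| ≤ 1 := fun l => by
    rw [hw₀']
    simp only
    split_ifs with h
    · exact hwM' l h
    · rw [abs_zero]
      exact zero_le_one
  have i0 : ∀ l ∈ Ms, w₀ l = w l := fun l hl => by
    rw [hw₀]
    simp only [if_pos hl]
  have i0' : ∀ l ∈ Ms, w₀' l = w' l := fun l hl => by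
    rw [hw₀']
    simp only [if_pos hl]
  -- the distance to the eliminated points
  obtain ⟨δ, hδ⟩ : ∃ δ : ℝ, δ = W ^ dd K₂ (n + 1) * (A / 2 ^ X + G * (G / 2 ^ X)) := ⟨_, rfl⟩
  have hA0 : 0 ≤ A / 2 ^ X := by positivity
  have hδ0 : 0 ≤ δ := by rw [hδ]; positivity
  have n1 : ∀ l, |w l - wv Ms nn s w₀ l| ≤ δ := fun l => by
    rw [hδ, hW]
    exact H.near hP vP hS hR1 hw b0 i0 hA0 hnw l
  have n2 : ∀ l, |w' l - wv Ms nn s w₀' l| ≤ δ := fun l => by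
    rw [hδ, hW]
    exact H.near hP vP hS hR1 hw' b0' i0' hA0 hnw' l
  obtain ⟨V, hV⟩ : ∃ V : ℝ, V = A / 2 ^ X := ⟨_, rfl⟩
  have hδ1 : δ ≤ 2 * W ^ (dd K₂ (n + 1) + 2) * V := by
    rw [hδ]
    exact num_d hG1 hA hGW hV
  -- the boxes
  have wR : ∀ v : Fin (n - 1) → ℝ, (∀ l, |v l| ≤ R) → ∀ l, |v l| ≤ W := fun v hv l =>
    (hv l).trans hRW
  have wR' : ∀ v : Fin (n - 1) → ℝ, (∀ l, |v l| ≤ 1) → ∀ l, |wv Ms nn s v l| ≤ W :=
    fun v hv l => (H.wv_le hv l).trans hGW2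
  -- Lipschitz
  have mF : Pool.GLM.ml F ≤ ((KF : ℝ) + 1) ^ (n - 1) * B :=
    ml_le_of_cb dF (by linarith) hFc
  obtain ⟨Qp, hQp⟩ : ∃ Qp, Qp = PiS D n z i j S P ω := ⟨_, rfl⟩
  have dQ : Qp.totalDegree ≤ dK n K' := by
    rw [hQp]
    exact deg_PiS hP hS.tri dP dS
  have hQb : ∀ y : Fin (n - 1) → ℝ, (∀ l, |y l| ≤ 1) → |eval y Qp| ≤ G := fun y hy1 => by
    rw [hQp]
    exact (pi_bd hn1 hP hx₀ hS.tri H.E6 (H.nb n le_rfl) hy1).trans (H.WG _ (by omega))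
  have mQ : Pool.GLM.ml Qp ≤ ((dK n K' : ℝ) + 1) ^ (n - 1) * (Cc * G) :=
    ml_le_of_cb dQ (by positivity) (hcb Qp G dQ hQb)
  have LF : ∀ v v₀ : Fin (n - 1) → ℝ, (∀ l, |v l| ≤ R) → (∀ l, |v₀ l| ≤ 1) →
      (∀ l, |v l - wv Ms nn s v₀ l| ≤ δ) →
      |eval v F - eval (wv Ms nn s v₀) F| ≤ a₁ * B * (W ^ KF * δ) := by
    intro v v₀ hv hv₀ hd
    refine (lip2 hW1 dF (wR v hv) (wR' v₀ hv₀) hδ0 hd).trans ?_
    calc Pool.GLM.ml F * (KF * W ^ KF * δ) ≤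
        ((KF : ℝ) + 1) ^ (n - 1) * B * (KF * W ^ KF * δ) :=
          mul_le_mul_of_nonneg_right mF (by positivity)
      _ = a₁ * B * (W ^ KF * δ) := by
          rw [ha₁]
          ring
  have LQ : ∀ v v₀ : Fin (n - 1) → ℝ, (∀ l, |v l| ≤ R) → (∀ l, |v₀ l| ≤ 1) →
      (∀ l, |v l - wv Ms nn s v₀ l| ≤ δ) →
      |eval v Qp - eval (wv Ms nn s v₀) Qp| ≤ a₂ * G * (W ^ dK n K' * δ) := by
    intro v v₀ hv hv₀ hd
    refine (lip2 hW1 dQ (wR v hv) (wR' v₀ hv₀) hδ0 hd).trans ?_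
    calc Pool.GLM.ml Qp * (dK n K' * W ^ dK n K' * δ) ≤
        ((dK n K' : ℝ) + 1) ^ (n - 1) * (Cc * G) * (dK n K' * W ^ dK n K' * δ) :=
          mul_le_mul_of_nonneg_right mQ (by positivity)
      _ = a₂ * G * (W ^ dK n K' * δ) := by
          rw [ha₂]
          ring
  -- the restriction
  have hshp : shpS D n z i j iA jA bb S n ω = shrS D n z i j iA jA S n ω -
      MvPolynomial.C (coeff 0 (shrS D n z i j iA jA S n ω)) := by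
    unfold shpS
    rw [if_pos H.gA]
  have e0 : ∀ v : Fin (n - 1) → ℝ, eval v (bind₁ (elim Ms nn s (n - 1)) F) =
      eval (wv Ms nn s v) F := fun v => eval₂Hom_bind₁ (RingHom.id ℝ) v _ _
  have de : ∀ l, (elim Ms nn s (n - 1) l).totalDegree ≤ De := fun l => by
    rw [hDe]
    exact elim_deg hs.deg _ l
  have dshr : (shpS D n z i j iA jA bb S n ω).totalDegree ≤ dK n K' :=
    deg_shpS hS.tri (tG _ _ _) dS (fun k => dG' _ _ _ k) le_rfl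
  have dR : (bind₁ (elim Ms nn s (n - 1)) F - shpS D n z i j iA jA bb S n ω).totalDegree ≤
      D₁ := by
    rw [hD₁]
    exact (totalDegree_sub _ _).trans (max_le ((Pool.TIE.deg_bind de dF).trans
      (Nat.le_add_right _ _)) (dshr.trans (Nat.le_add_left _ _)))
  have ht0 : (0 : ℝ) ≤ 1 / 2 ^ t := by positivity
  have r1 := cf_two (w := w₀) (w' := w₀') (ρ := 1) dR ht0 le_rfl
    (fun α hα => by
      rw [coeff_sub]
      exact hmt α hα) b0 b0'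
  rw [map_sub, map_sub, e0, e0, hshp, map_sub, map_sub, eval_C, eval_C, ← hN₁, one_pow,
    mul_one] at r1
  have r2 := cf_two (w := w) (w' := w') (ρ := W) (Q := F' - F) ((totalDegree_sub _ _).trans
    (max_le dF' dF)) ht0 hW1 (fun α hα => by
      rw [coeff_sub]
      exact hFF α hα) (wR w hw) (wR w' hw')
  rw [map_sub, map_sub, ← hN₂] at r2
  have r3 := H.val hn1 hP vP hS tG hMs b0 b0'
  have l1 := LF w w₀ hw b0 n1
  have l2 := LF w' w₀' hw' b0' n2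
  have l3 := LQ w w₀ hw b0 n1
  have l4 := LQ w' w₀' hw' b0' n2
  rw [← hQp] at r3 ⊢
  -- the sizes
  have hV0 : 0 ≤ V := by rw [hV]; positivity
  obtain ⟨U, hUd⟩ : ∃ U : ℝ, U = A * B / 2 ^ X := ⟨_, rfl⟩
  have hBV : B * V = U := by
    rw [hV, hUd]
    ring
  have hU0 : 0 ≤ U := by rw [hUd]; positivity
  have z12 := num_h (k₁ := KF) (k₂ := dK n K') (Q := Q) hW1 hGW hV0 hδ0 hδ1
    (by rw [hQ]; omega) (by rw [hQ]; omega) ha₁0 ha₂0 hB hBV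
  have z1 := z12.1
  have z2 := z12.2
  have z3 : G * (G / 2 ^ X) ≤ W ^ Q * U := by
    rw [hUd]
    exact num_g hG1 hA hB hGW (by rw [hQ]; omega)
  have hWQ : 1 ≤ W ^ Q := one_le_pow₀ hW1
  have hWQ2 : W ^ ((n - 1) * KF) ≤ W ^ Q := pow_le_pow_right₀ hW1 (by rw [hQ]; omega)
  -- the sum
  have tot := num_c (l1.trans z1) (l2.trans z1) (l3.trans z2) (l4.trans z2) r1 r2 (r3.trans z3)
  have fin := num_f (τ := 1 / 2 ^ t) ha₁0 ha₂0 hN₁0 hN₂0 hWQ hWQ2 hU0 ht0 ha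
  have hbig : a * W ^ Q ≤ exp ((C₀ + cF) * z) := by
    have e1 : W = 4 * exp ((bG + a₀) * z) := by
      rw [hW, hG, hR, ← exp_add]
      congr 2
      ring
    rw [e1]
    refine (big_le hz ha0 (by positivity) Q).trans
      (exp_le_exp.2 (mul_le_mul_of_nonneg_right ?_ hz0))
    rw [hcF]
    linarith
  refine tot.trans (fin.trans ?_)
  rw [← hUd]
  exact mul_le_mul_of_nonneg_right hbig (by linarith)

end Pool.GSD
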