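import Pool.Agent.H41.GSD.Own7

/-!
# The full shape is the height of the frame: wide coordinates in a large box

`tot_coreR`: as `tot_core`, for points whose coordinates in `Ms` are bounded by `exp (a₀ * z)`. It
is needed when the points are given by the chart over `Φ` and the full shape by the chart over
`Ψ`. `own_ctxR`, `OctR`: the context of the own leaf on a large box.
-/

set_option autoImplicit false

namespace Pool.GSD

open Finset Real MvPolynomial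
open Pool.Agent.H49.Ent Pool.Agent.H32.Dense Pool.STK Pool.STAT Pool.MIC.Frm Pool.MIC7 Pool.FRM
open Pool.MIC Pool.MicA
open Pool.BFL (Pl Pb)
open Pool.TIE (elim elim_vars elim_deg ml_le_of_cb lip2 Dat dg)

theorem two_bdR {z : ℕ} {x ρ : ℝ} (hρ : 1 ≤ ρ) (h : |x| ≤ ρ) :
    |4 * 2 ^ z * x - 2 * 2 ^ z| ≤ 6 * 2 ^ z * ρ := by
  have h1 : (0 : ℝ) < 2 ^ z := by positivity
  have h2 : |4 * 2 ^ z * x| ≤ 4 * 2 ^ z * ρ := by
    rw [abs_mul, abs_of_pos (by positivity : (0 : ℝ) < 4 * 2 ^ z)]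
    exact mul_le_mul_of_nonneg_left h (by positivity)
  have h3 : |(2 : ℝ) * 2 ^ z| = 2 * 2 ^ z := abs_of_pos (by positivity)
  have h4 : 2 * 2 ^ z * 1 ≤ 2 * 2 ^ z * ρ := mul_le_mul_of_nonneg_left hρ (by positivity)
  have := abs_sub (4 * 2 ^ z * x) (2 * 2 ^ z)
  linarith

section cell

variable {D : NDat2} {n K' K₂ z X i j bb Ds : ℕ} {S : D.Ω → ℕ → PN} {ω : D.Ω} {P : ℕ → PN}
  {E G ε : ℝ} {pr : ℕ → ℕ × ℕ} {Ms : Finset (Fin (n - 1))} {nn : Fin (n - 1) → ℝ}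
  {s : Fin (n - 1) → Pl (n - 1)} {ρ : ℝ}

/-- The eliminated point on a large box. -/
theorem elp_genR (hP : TriN P) (vP : ∀ l ≤ n, eval (D.X ω) (P l) = D.X ω l) {K : ℕ}
    (hS : Sd D n K i j S ω) (tG : ∀ i j x, TriN (D.G i j x)) (hρ : 1 ≤ ρ)
    (hEρ : 6 * 2 ^ z * ρ ≤ E)
    (hg : ∀ l, l ∉ Ms → GdsS D n z i j (pr ((l : ℕ) + 1)).1 (pr ((l : ℕ) + 1)).2 bb S
      ((l : ℕ) + 1) ω)
    (hs : Shn D n z X i j bb Ds S pr ω Ms s)
    (hn : ∀ l, l ∉ Ms → |nn l - (vS D n z i j X S ω l -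
      eval (vS D n z i j X S ω) (s l))| ≤ 1 / 2 ^ X)
    (hG : zc K₂ E (n + 1) ≤ G)
    (hε : 4 * 2 ^ z * (1 + 2 * ((Pool.Agent.H36.KBX.bx (n - 1) Ds).card *
      (2 * G) ^ ((n - 1) * Ds))) / 2 ^ X ≤ ε)
    (hEl : El K₂ n (D.g i j) (ch P (D.X ω 0) (S ω)) (fun l => D.g (pr l).1 (pr l).2)
      (fun l => ch P (D.X ω 0) (D.Ψ (pr l).1 (pr l).2 ω)) (inM Ms) E ε)
    {v : Fin (n - 1) → ℝ} (hv : ∀ l, |v l| ≤ ρ) :
    Elp n (D.g i j) (ch P (D.X ω 0) (S ω)) (fun l => D.g (pr l).1 (pr l).2)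
      (fun l => ch P (D.X ω 0) (D.Ψ (pr l).1 (pr l).2 ω)) (inM Ms) E ε
      (uco n z (wv Ms nn s v)) (zs P (fpt D n z i j S ω (wv Ms nn s v)))
      (uco n z (vS D n z i j X S ω)) (ztS D i j S ω) (zs P (D.X ω))
      (fun l => zs P (cpt D n z i j (pr l).1 (pr l).2 S ω (wv Ms nn s v)))
      (fun l => zs P (cpt D n z i j (pr l).1 (pr l).2 S ω (vS D n z i j X S ω))) := by
  have hx₀ : eval (D.X ω) (P 0) = D.X ω 0 := vP 0 (Nat.zero_le _)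
  have h2z : (1 : ℝ) ≤ 2 ^ z := one_le_pow₀ (by norm_num)
  have hE : 6 * 2 ^ z ≤ E := (le_mul_of_one_le_right (by positivity) hρ).trans hEρ
  have hE1 : 1 ≤ E := by linarith
  have hEz : E ≤ zc K₂ E (n + 1) := zc_ge K₂ hE1 _
  have hG6 : 6 * 2 ^ z ≤ G := by linarith
  have hy : ∀ l, 1 ≤ l → l ≤ n → |ztS D i j S ω l| ≤ 1 := fun l a b => nat_le (hS.hgt l a b)
  have hvb := vS_bd (D := D) (z := z) (X := X) hy
  obtain ⟨w, hw⟩ : ∃ w, w = wv Ms nn s v := ⟨_, rfl⟩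
  rw [← hw]
  have hvS1 : ∀ l, |vS D n z i j X S ω l| ≤ 1 := fun l => by
    rw [abs_le]
    have := hvb l
    constructor <;> linarith [this.1, this.2]
  have hpt := pt_of (g := D.g i j) (Ψ := S ω) (x := D.X ω) hP rfl hx₀ n
  obtain ⟨N, hN⟩ : ∃ N : ℝ, N = ((Pool.Agent.H36.KBX.bx (n - 1) Ds).card : ℝ) := ⟨_, rfl⟩
  have hN0 : 0 ≤ N := by rw [hN]; exact Nat.cast_nonneg _
  obtain ⟨A, hA⟩ : ∃ A : ℝ, A = (2 * G) ^ ((n - 1) * Ds) := ⟨_, rfl⟩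
  have hA1 : 1 ≤ A := by rw [hA]; exact one_le_pow₀ (by linarith)
  rw [← hN, ← hA] at hε
  have h2X : (0 : ℝ) < 2 ^ X := by positivity
  have hε0 : 4 * 2 ^ z / 2 ^ X ≤ ε := by
    refine le_trans (div_le_div_of_nonneg_right ?_ h2X.le) hε
    refine le_mul_of_one_le_right (by positivity) ?_
    have : 0 ≤ 2 * (N * A) := by positivity
    linarith
  refine Elp.of hEl (fpt_ptl hP hx₀ hS.tri) ?_ ⟨hpt.1, fun l a b => hpt.2 l a b.le⟩ ?_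
    (fun l a b => (hy l a b.le).trans hE1) (fun l a b => (uco_bd hvS1 a b).trans hE)
    (fun l a b => (uco_near a b (hy l a b.le)).trans hε0)
    (fun l a b _ => cp_of hP hx₀ hS.tri (tG _ _ _) b.le)
    (fun l a b _ => cp_of hP hx₀ hS.tri (tG _ _ _) b.le) ?_
  · intro l h1 h2 hM
    have e1 : w ⟨l - 1, by omega⟩ = v ⟨l - 1, by omega⟩ := by
      rw [hw]
      exact wv_in (hM _)
    rw [uco_succ h1 h2, e1]
    exact (two_bdR hρ (hv _)).trans hEρ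
  · intro l hl
    unfold zs
    rw [vP l hl.le, sub_self]
  · intro l h1 h2 hM hbef
    obtain ⟨l', rfl⟩ : ∃ l', l = l' + 1 := ⟨l - 1, by omega⟩
    have hl' : l' < n - 1 := by omega
    obtain ⟨f, hf⟩ : ∃ f : Fin (n - 1), f = ⟨l', hl'⟩ := ⟨_, rfl⟩
    have ef : (f : ℕ) = l' := by rw [hf]
    rw [← ef] at hM hbef ⊢
    rw [inM_succ] at hM
    have g := hg f hM
    have e1 : w f = nn f + eval w (s f) := by
      rw [hw]
      exact wv_out hs.vars hM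
    have ev : ∀ v' : Fin (n - 1) → ℝ, eval v' (shsS D n z i j bb S pr ω f) =
        (eval v' (shrS D n z i j (pr ((f : ℕ) + 1)).1 (pr ((f : ℕ) + 1)).2 S ((f : ℕ) + 1) ω) -
          coeff 0 (shrS D n z i j (pr ((f : ℕ) + 1)).1 (pr ((f : ℕ) + 1)).2 S
            ((f : ℕ) + 1) ω)) / (4 * 2 ^ z) := by
      intro v'
      unfold shsS
      rw [map_mul, eval_C, shp_gds g]
      ring
    have h3 := hn f hM
    have hz4 : (0 : ℝ) < 4 * 2 ^ z := by positivity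
    have hsv : ∀ c' ∈ (shsS D n z i j bb S pr ω f).vars, c' < f := by
      intro c' hc'
      have h1 := vars_C_mul_le hc'
      have h2 := (vars_shpS hS.tri (tG _ _ _) h1).2
      have : (c' : ℕ) < (f : ℕ) := by omega
      exact this
    -- the values before
    have hwb : ∀ k, k < f → |w k| ≤ 2 * G := by
      intro k hk
      have hk' : (k : ℕ) < (f : ℕ) := hk
      have s1 := hbef ((k : ℕ) + 1) (Nat.succ_pos _) (by omega)
      rw [uco_fin] at s1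
      have s2 : zc K₂ E ((k : ℕ) + 1 + 1) ≤ G := (zc_mono K₂ hE1 (by
        have := f.2
        omega)).trans hG
      have s3 : |4 * 2 ^ z * w k| ≤ G + 2 * 2 ^ z := by
        have e1 : 4 * 2 ^ z * w k = (4 * 2 ^ z * w k - 2 * 2 ^ z) + 2 * 2 ^ z := by ring
        rw [e1]
        refine (abs_add_le _ _).trans (add_le_add (s1.trans s2) (le_of_eq ?_))
        exact abs_of_pos (by positivity)
      rw [abs_mul, abs_of_pos (by positivity : (0 : ℝ) < 4 * 2 ^ z)] at s3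
      have p0 := abs_nonneg (w k)
      nlinarith
    have d1 := eval_dif (w := w) (ρ := 2 * G) (hs.deg f) (hs.deg0 f) (by linarith)
      (hs.near f hM) (hs.vars f) hsv hwb
    have d2 := eval_dif (w := vS D n z i j X S ω) (ρ := 2 * G) (hs.deg f) (hs.deg0 f)
      (by linarith) (hs.near f hM) (hs.vars f) hsv (fun k _ => (hvS1 k).trans (by linarith))
    rw [← hN, ← hA] at d1 d2
    have e2 : uco n z w ((f : ℕ) + 1) - uco n z (vS D n z i j X S ω) ((f : ℕ) + 1) -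
        2 ^ D.g i j ((f : ℕ) + 1) *
          ((eval (zs P (cpt D n z i j (pr ((f : ℕ) + 1)).1 (pr ((f : ℕ) + 1)).2 S ω w))
              (ch P (D.X ω 0) (D.Ψ (pr ((f : ℕ) + 1)).1 (pr ((f : ℕ) + 1)).2 ω) ((f : ℕ) + 1)) -
            eval (zs P (cpt D n z i j (pr ((f : ℕ) + 1)).1 (pr ((f : ℕ) + 1)).2 S ω w))
              (ch P (D.X ω 0) (S ω) ((f : ℕ) + 1))) -
          (eval (zs P (cpt D n z i j (pr ((f : ℕ) + 1)).1 (pr ((f : ℕ) + 1)).2 S ω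
              (vS D n z i j X S ω)))
              (ch P (D.X ω 0) (D.Ψ (pr ((f : ℕ) + 1)).1 (pr ((f : ℕ) + 1)).2 ω) ((f : ℕ) + 1)) -
            eval (zs P (cpt D n z i j (pr ((f : ℕ) + 1)).1 (pr ((f : ℕ) + 1)).2 S ω
              (vS D n z i j X S ω)))
              (ch P (D.X ω 0) (S ω) ((f : ℕ) + 1)))) =
        4 * 2 ^ z * ((nn f - (vS D n z i j X S ω f - eval (vS D n z i j X S ω) (s f))) +
          (eval w (s f) - eval w (shsS D n z i j bb S pr ω f)) -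
          (eval (vS D n z i j X S ω) (s f) -
            eval (vS D n z i j X S ω) (shsS D n z i j bb S pr ω f))) := by
      rw [uco_fin, uco_fin, e1, ev, ev, eval_shr_ch hP hS.tri (tG _ _ _) (Nat.succ_pos _),
        eval_shr_ch hP hS.tri (tG _ _ _) (Nat.succ_pos _)]
      field_simp
      ring
    rw [e2, abs_mul, abs_of_pos hz4]
    refine le_trans ?_ hε
    have e3 : 4 * 2 ^ z * (1 + 2 * (N * A)) / 2 ^ X =
        4 * 2 ^ z * (1 / 2 ^ X + (N * (1 / 2 ^ X * A) + N * (1 / 2 ^ X * A))) := by ring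
    rw [e3]
    refine mul_le_mul_of_nonneg_left ?_ hz4.le
    rw [abs_le] at h3 d1 d2 ⊢
    constructor <;> linarith [h3.1, h3.2, d1.1, d1.2, d2.1, d2.2]

end cell

/-- **The context of the own leaf**, on the box of radius `ρ`. -/
structure OctR (D : NDat2) (n K₂ z X M i j iA jA bb : ℕ) (pr : ℕ → ℕ × ℕ)
    (Ms : Finset (Fin (n - 1))) (S : D.Ω → ℕ → PN) (ω : D.Ω) (P : ℕ → PN)
    (nn : Fin (n - 1) → ℝ) (s : Fin (n - 1) → Pl (n - 1)) (E G ε ρ : ℝ) : Prop where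
  oct : Octx D n K₂ z X M i j iA jA bb pr Ms S ω P nn s E G ε
  ρ1 : 1 ≤ ρ
  Eρ : 6 * 2 ^ z * ρ ≤ E
  elp : ∀ v : Fin (n - 1) → ℝ, (∀ l, |v l| ≤ ρ) →
    Elp n (D.g i j) (ch P (D.X ω 0) (S ω)) (fun l => D.g (pr l).1 (pr l).2)
      (fun l => ch P (D.X ω 0) (D.Ψ (pr l).1 (pr l).2 ω)) (inM Ms) E ε
      (uco n z (wv Ms nn s v)) (zs P (fpt D n z i j S ω (wv Ms nn s v)))
      (uco n z (vS D n z i j X S ω)) (ztS D i j S ω) (zs P (D.X ω))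
      (fun l => zs P (cpt D n z i j (pr l).1 (pr l).2 S ω (wv Ms nn s v)))
      (fun l => zs P (cpt D n z i j (pr l).1 (pr l).2 S ω (vS D n z i j X S ω)))

/-- The sizes, on a large box. -/
theorem own_ctxR (n K' Ds : ℕ) (C a₀ : ℝ) (hC : 0 ≤ C) (ha₀ : 0 ≤ a₀) : ∃ C' bE bG : ℝ, 0 ≤ C' ∧ 0 ≤ bE ∧
    0 ≤ bG ∧ 2 * (bG + 1) ≤ C' ∧ ∀ (D : NDat2)
    (K z X M i j iA jA bb : ℕ) (pr : ℕ → ℕ × ℕ) (Ms : Finset (Fin (n - 1)))
    (S : D.Ω → ℕ → PN) (ω : D.Ω) (P : ℕ → PN) (nn : Fin (n - 1) → ℝ)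
    (s : Fin (n - 1) → Pl (n - 1)), K ≤ K' → 1 ≤ z →
    z + 2 ≤ X → C' * z ≤ bb → C' * z ≤ X → 1 ≤ n → i < M → j < M → iA < M → jA < M →
    (∀ i j x, TriN (D.G i j x)) → (∀ i j x l, (D.G i j x l).totalDegree ≤ K) →
    FrP D n K' M z C P ω → Sd D n K i j S ω → Lo D n X (i, j) (iA, jA) →
    (∀ l : Fin (n - 1), l ∈ Ms ↔ D.g iA jA (l + 1) ≤ D.g i j (l + 1)) →
    (∀ l : Fin (n - 1), l ∉ Ms → (pr (l + 1)).1 < M ∧ (pr (l + 1)).2 < M ∧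
      Lo D (l + 1) X (i, j) (pr (l + 1)) ∧ ∀ k : Fin (n - 1), k < l →
        D.g i j (k + 1) < D.g (pr (l + 1)).1 (pr (l + 1)).2 (k + 1) → k ∉ Ms) →
    Shn D n z X i j bb Ds S pr ω Ms s →
    (∀ l : Fin (n - 1), l ∉ Ms → |nn l - (vS D n z i j X S ω l -
      eval (vS D n z i j X S ω) (s l))| ≤ 1 / 2 ^ X) →
    OctR D n (K' * (K' + 1) ^ n) z X M i j iA jA bb pr Ms S ω P nn s (exp (bE * z))
      (exp (bG * z)) (exp (bG * z) / 2 ^ X) (exp (a₀ * z)) := by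
  obtain ⟨C₁, hC₁, hpk⟩ := fr_pack n K' C hC
  obtain ⟨C₂, hC₂e⟩ : ∃ C₂ : ℝ, C₂ = C₁ + a₀ := ⟨_, rfl⟩
  have hC₂ : 0 ≤ C₂ := by rw [hC₂e]; positivity
  obtain ⟨K₂, hK₂⟩ : ∃ K₂ : ℕ, K₂ = K' * (K' + 1) ^ n := ⟨_, rfl⟩
  obtain ⟨Cb, hCb, hcf⟩ := cf_lo n (dK n K')
  obtain ⟨b₁, hb₁, hzc⟩ := zc_exp K₂ C₂ hC₂ (n + 1)
  obtain ⟨N, hN⟩ : ∃ N : ℝ, N = ((Pool.Agent.H36.KBX.bx (n - 1) Ds).card : ℝ) := ⟨_, rfl⟩
  have hN0 : 0 ≤ N := by rw [hN]; exact Nat.cast_nonneg _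
  obtain ⟨m, hm⟩ : ∃ m : ℕ, m = (n - 1) * Ds := ⟨_, rfl⟩
  -- the exponents
  obtain ⟨b₀, hb₀⟩ : ∃ b₀ : ℝ, b₀ = b₁ + (C₂ + 2) * dd K₂ (n + 2) := ⟨_, rfl⟩
  have hb₀0 : 0 ≤ b₀ := by rw [hb₀]; positivity
  have hl1 : 0 ≤ Real.log (1 + 2 * N) := Real.log_nonneg (by linarith)
  have hl2 : 0 ≤ Real.log (Cb + 1) := Real.log_nonneg (by linarith)
  obtain ⟨bG, hbG⟩ : ∃ bG : ℝ, bG = b₀ + Real.log (1 + 2 * N) + m * (1 + b₀) := ⟨_, rfl⟩
  have hm0 : 0 ≤ m * (1 + b₀) := by positivity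
  have hbG0 : 0 ≤ bG := by rw [hbG]; positivity
  have hb₀G : b₀ ≤ bG := by rw [hbG]; linarith
  refine ⟨2 * (bG + Real.log (Cb + 1) + 1), C₂, bG, by positivity, hC₂, hbG0, by linarith, ?_⟩
  intro D K z X M i j iA jA bb pr Ms S ω P nn s hK hz hX hbb hXz hn1 hi hj hiA hjA tG dG hF hS hLA
    hMs hpr hs hnn
  obtain ⟨hNb', hNo', hE'⟩ := hpk D K z M i j S ω P hK hz hi hj tG dG hF hS
  obtain ⟨hP, dP, vP, nP⟩ := hF
  have hx₀ : eval (D.X ω) (P 0) = D.X ω 0 := vP 0 (Nat.zero_le _)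
  obtain ⟨E, hEe⟩ : ∃ E : ℝ, E = exp (C₂ * z) := ⟨_, rfl⟩
  obtain ⟨ρ, hρe⟩ : ∃ ρ : ℝ, ρ = exp (a₀ * z) := ⟨_, rfl⟩
  rw [← hK₂] at hNb' hNo'
  rw [← hK₂]
  rw [← hEe, ← hρe]
  have hzr : (1 : ℝ) ≤ z := by exact_mod_cast hz
  have hz0 : (0 : ℝ) ≤ z := by linarith
  have hρ : 1 ≤ ρ := by rw [hρe]; exact one_le_exp (by positivity)
  have hEe1 : exp (C₁ * z) * ρ = E := by
    rw [hρe, hEe, hC₂e, ← exp_add]
    congr 1
    ring
  have hCE : exp (C₁ * z) ≤ E := by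
    rw [← hEe1]
    exact le_mul_of_one_le_right (exp_pos _).le hρ
  have hEρ : 6 * 2 ^ z * ρ ≤ E := by
    rw [← hEe1]
    exact mul_le_mul_of_nonneg_right hE' (by linarith)
  have hE : 6 * 2 ^ z ≤ E := hE'.trans hCE
  have hNb : ∀ c ≤ n, Nb K₂ c (D.g i j) (ch P (D.X ω 0) (S ω)) E := fun c hc =>
    (hNb' c hc).mono le_rfl hCE
  have hNo : ∀ i₁ < M, ∀ j₁ < M, ∀ c ≤ n, Nb K₂ c (D.g i₁ j₁)
      (ch P (D.X ω 0) (D.Ψ i₁ j₁ ω)) E := fun i₁ h₁ j₁ h₂ c hc =>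
    (hNo' i₁ h₁ j₁ h₂ c hc).mono le_rfl hCE
  have h2z : (1 : ℝ) ≤ 2 ^ z := one_le_pow₀ (by norm_num)
  have hE1 : 1 ≤ E := by linarith
  obtain ⟨G₀, hG₀⟩ : ∃ G₀ : ℝ, G₀ = exp (b₀ * z) := ⟨_, rfl⟩
  obtain ⟨G, hG⟩ : ∃ G : ℝ, G = exp (bG * z) := ⟨_, rfl⟩
  rw [← hG]
  have hG₀G : G₀ ≤ G := by
    rw [hG₀, hG]
    exact exp_le_exp.2 (mul_le_mul_of_nonneg_right hb₀G hz0)
  have hG₀1 : 1 ≤ G₀ := by rw [hG₀]; exact one_le_exp (by positivity)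
  have hG1 : 1 ≤ G := hG₀1.trans hG₀G
  have hzcG : zc K₂ E (n + 1) ≤ G₀ := by
    rw [hEe, hG₀]
    refine (hzc z hz).trans (exp_le_exp.2 (mul_le_mul_of_nonneg_right ?_ hz0))
    rw [hb₀]
    have : 0 ≤ (C₂ + 2) * dd K₂ (n + 2) := by positivity
    linarith
  have hWG : ∀ k ≤ n + 2, (4 * E) ^ dd K₂ k ≤ G₀ := by
    intro k hk
    rw [hEe, hG₀]
    refine (w_le hz hC₂ (dd_mono hk)).trans (exp_le_exp.2 (mul_le_mul_of_nonneg_right ?_ hz0))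
    rw [hb₀]
    linarith
  have hEz : E ≤ zc K₂ E (n + 1) := zc_ge K₂ hE1 _
  have dS : ∀ l, (S ω l).totalDegree ≤ K' := fun l => (hS.deg l).trans hK
  have dG' : ∀ i j x l, (D.G i j x l).totalDegree ≤ K' := fun i j x l => (dG i j x l).trans hK
  -- the small number
  have h2X : (0 : ℝ) < 2 ^ X := by positivity
  have hA : 4 * 2 ^ z * (1 + 2 * (N * (2 * G₀) ^ m)) ≤ G := by
    have a1 : 4 * (2 : ℝ) ^ z ≤ G₀ := by linarith
    have a2 : (1 : ℝ) ≤ (2 * G₀) ^ m := one_le_pow₀ (by linarith)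
    have a3 : 1 + 2 * (N * (2 * G₀) ^ m) ≤ (1 + 2 * N) * (2 * G₀) ^ m := by nlinarith
    have a4 : 1 + 2 * N ≤ exp (Real.log (1 + 2 * N) * z) := by
      calc 1 + 2 * N = exp (Real.log (1 + 2 * N)) := (exp_log (by linarith)).symm
        _ ≤ _ := exp_le_exp.2 (by nlinarith)
    have a5 : (2 * G₀) ^ m ≤ exp (m * (1 + b₀) * z) := by
      have : 2 * G₀ ≤ exp ((1 + b₀) * z) := by
        have h2 : (2 : ℝ) ≤ exp z := by
          have h1 := Real.exp_one_gt_d9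
          have h2 := exp_le_exp.2 hzr
          linarith
        calc 2 * G₀ ≤ exp z * exp (b₀ * z) := by
              rw [hG₀]
              exact mul_le_mul_of_nonneg_right h2 (exp_pos _).le
          _ = exp ((1 + b₀) * z) := by
              rw [← exp_add]
              congr 1
              ring
      calc (2 * G₀) ^ m ≤ exp ((1 + b₀) * z) ^ m := pow_le_pow_left₀ (by positivity) this m
        _ = exp (m * (1 + b₀) * z) := by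
            rw [← exp_nat_mul]
            congr 1
            ring
    calc 4 * 2 ^ z * (1 + 2 * (N * (2 * G₀) ^ m)) ≤ G₀ * ((1 + 2 * N) * (2 * G₀) ^ m) :=
          mul_le_mul a1 a3 (by positivity) (by positivity)
      _ ≤ exp (b₀ * z) * (exp (Real.log (1 + 2 * N) * z) * exp (m * (1 + b₀) * z)) := by
          rw [← hG₀]
          refine mul_le_mul_of_nonneg_left ?_ (by linarith)
          exact mul_le_mul a4 a5 (by positivity) (exp_pos _).le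
      _ = G := by
          rw [hG, hbG, ← exp_add, ← exp_add]
          congr 1
          ring
  have hε0 : 4 * 2 ^ z * (1 + 2 * (N * (2 * G₀) ^ m)) / 2 ^ X ≤ G / 2 ^ X :=
    div_le_div_of_nonneg_right hA h2X.le
  have hε4 : 4 * 2 ^ z / 2 ^ X ≤ G / 2 ^ X := by
    refine div_le_div_of_nonneg_right ?_ h2X.le
    linarith
  have hε1 : G / 2 ^ X ≤ 1 := by
    rw [div_le_one h2X, hG]
    refine exp_le_two' (le_trans (mul_le_mul_of_nonneg_right ?_ hz0) hXz)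
    linarith
  -- not truncated
  have hgds : ∀ i₁ j₁ c', i₁ < M → j₁ < M → 1 ≤ c' → c' ≤ n → Lo D c' X (i, j) (i₁, j₁) →
      GdsS D n z i j i₁ j₁ bb S c' ω := by
    intro i₁ j₁ c' h1 h1' hc1 hc hL α hα
    have T := tr_lo hX hE (hNb c' hc) (hNo i₁ h1 j₁ h1' c' hc) hL
    refine (hcf hP hx₀ hS.tri (tG _ _ _) hc1 hc (deg_shrS hS.tri (tG _ _ _) dS
      (fun k => dG' _ _ _ k) hc) hE T α hα).trans ?_
    have e1 : (4 * E) ^ dd K₂ (c' + 2) ≤ G := (hWG _ (by omega)).trans hG₀G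
    have e2 : Cb ≤ exp (Real.log (Cb + 1) * z) := by
      calc Cb ≤ Cb + 1 := by linarith
        _ = exp (Real.log (Cb + 1)) := (exp_log (by linarith)).symm
        _ ≤ _ := exp_le_exp.2 (by nlinarith)
    calc Cb * (4 * E) ^ dd K₂ (c' + 2) ≤ exp (Real.log (Cb + 1) * z) * G :=
          mul_le_mul e2 e1 (by positivity) (exp_pos _).le
      _ = exp ((Real.log (Cb + 1) + bG) * z) := by
          rw [hG, ← exp_add]
          congr 1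
          ring
      _ ≤ 2 ^ bb := by
          refine exp_le_two' ?_
          refine le_trans (mul_le_mul_of_nonneg_right ?_ hz0) hbb
          linarith
  have hgM : ∀ l, l ∉ Ms → GdsS D n z i j (pr ((l : ℕ) + 1)).1 (pr ((l : ℕ) + 1)).2 bb S
      ((l : ℕ) + 1) ω := fun l hl => by
    obtain ⟨a1, a2, a3, _⟩ := hpr l hl
    exact hgds _ _ _ a1 a2 (Nat.succ_pos _) (by have := l.2; omega) a3
  have hgA : GdsS D n z i j iA jA bb S n ω := hgds _ _ _ hiA hjA hn1 le_rfl hLA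
  -- the places
  have TA := (tr_lo hX hE (hNb n le_rfl) (hNo iA hiA jA hjA n le_rfl) hLA).epsm hε4 hε1
  have hEl : El K₂ n (D.g i j) (ch P (D.X ω 0) (S ω)) (fun l => D.g (pr l).1 (pr l).2)
      (fun l => ch P (D.X ω 0) (D.Ψ (pr l).1 (pr l).2 ω)) (inM Ms) E (G / 2 ^ X) := by
    refine ⟨?_, ?_, hNb n le_rfl, hE1, TA.eps, TA.eps1⟩
    · intro l h1 h2 hM
      obtain ⟨l', rfl⟩ : ∃ l', l = l' + 1 := ⟨l - 1, by omega⟩
      have hl' : l' < n - 1 := by omega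
      have hM' : (⟨l', hl'⟩ : Fin (n - 1)) ∉ Ms := fun h => hM fun _ => h
      obtain ⟨a1, a2, a3, _⟩ := hpr ⟨l', hl'⟩ hM'
      exact (tr_lo hX hE (hNb (l' + 1) h2.le) (hNo _ a1 _ a2 (l' + 1) h2.le) a3).epsm hε4 hε1
    · intro l h1 h2 hM k k1 k2 hk hkM
      obtain ⟨l', rfl⟩ : ∃ l', l = l' + 1 := ⟨l - 1, by omega⟩
      obtain ⟨k', rfl⟩ : ∃ k', k = k' + 1 := ⟨k - 1, by omega⟩
      have hl' : l' < n - 1 := by omega
      have hk' : k' < n - 1 := by omega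
      have hM' : (⟨l', hl'⟩ : Fin (n - 1)) ∉ Ms := fun h => hM fun _ => h
      obtain ⟨_, _, _, a4⟩ := hpr ⟨l', hl'⟩ hM'
      exact a4 ⟨k', hk'⟩ (by
        change k' < l'
        omega) hk (hkM _)
  have hAM : ∀ k, 1 ≤ k → k < n → D.g i j k < D.g iA jA k → ¬ inM Ms k := by
    intro k k1 k2 hk hkM
    obtain ⟨k', rfl⟩ : ∃ k', k = k' + 1 := ⟨k - 1, by omega⟩
    have hk' : k' < n - 1 := by omega
    have := (hMs ⟨k', hk'⟩).1 (hkM _)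
    have e : ((⟨k', hk'⟩ : Fin (n - 1)) : ℕ) = k' := rfl
    rw [e] at this
    omega
  have hy : ∀ l, 1 ≤ l → l ≤ n → |ztS D i j S ω l| ≤ 1 := fun l a b => nat_le (hS.hgt l a b)
  have hvo1 : ∀ l, |vS D n z i j X S ω l| ≤ 1 := fun l => by
    rw [abs_le]
    have := vS_bd (D := D) (z := z) (X := X) hy l
    constructor <;> linarith [this.1, this.2]
  rw [hN, hm] at hε0
  have hel := fun (v : Fin (n - 1) → ℝ) (hv : ∀ l, |v l| ≤ ρ) =>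
    elp_genR hP vP hS tG hρ hEρ hgM hs hnn hzcG hε0 hEl hv
  exact ⟨⟨hE, hE1, hG1, hzcG.trans hG₀G, fun k hk => (hWG k hk).trans hG₀G, hε4, hε1, hNb, hNo,
    hEl, TA, hAM, hgA, hvo1, fun v hv => hel v fun l => (hv l).trans hρ⟩, hρ, hEρ, hel⟩

section ctx

variable {D : NDat2} {n K₂ z X M i j iA jA bb : ℕ} {S : D.Ω → ℕ → PN} {ω : D.Ω} {P : ℕ → PN}
  {E G ε : ℝ} {pr : ℕ → ℕ × ℕ} {Ms : Finset (Fin (n - 1))} {nn : Fin (n - 1) → ℝ}
  {s : Fin (n - 1) → Pl (n - 1)} {ρ : ℝ}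

/-- The values of the eliminated coordinates. -/
theorem OctR.wv_le (H : OctR D n K₂ z X M i j iA jA bb pr Ms S ω P nn s E G ε ρ)
    {v : Fin (n - 1) → ℝ} (hv : ∀ l, |v l| ≤ ρ) (l : Fin (n - 1)) :
    |wv Ms nn s v l| ≤ 2 * G := by
  have h2z : (1 : ℝ) ≤ 2 ^ z := one_le_pow₀ (by norm_num)
  have hE := H.oct.E6
  have hEz : E ≤ zc K₂ E (n + 1) := zc_ge K₂ H.oct.E1 _
  have hzcG := H.oct.zcG
  have s1 := (H.oct.el.small (H.elp v hv) ((l : ℕ) + 1) (Nat.succ_pos _) (by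
    have := l.2
    omega)).1
  rw [uco_fin] at s1
  have s2 : zc K₂ E ((l : ℕ) + 1 + 1) ≤ G := (zc_mono K₂ H.oct.E1 (by
    have := l.2
    omega)).trans hzcG
  have s3 : |4 * 2 ^ z * wv Ms nn s v l| ≤ G + 2 * 2 ^ z := by
    have e1 : 4 * 2 ^ z * wv Ms nn s v l = (4 * 2 ^ z * wv Ms nn s v l - 2 * 2 ^ z) +
        2 * 2 ^ z := by ring
    rw [e1]
    refine (abs_add_le _ _).trans (add_le_add (s1.trans s2) (le_of_eq ?_))
    exact abs_of_pos (by positivity)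
  rw [abs_mul, abs_of_pos (by positivity : (0 : ℝ) < 4 * 2 ^ z)] at s3
  have p0 := abs_nonneg (wv Ms nn s v l)
  nlinarith

/-- **The values of the two leaves**: the height of the frame over the eliminated point is the
own leaf, up to a constant. -/
theorem OctR.val (H : OctR D n K₂ z X M i j iA jA bb pr Ms S ω P nn s E G ε ρ) {K : ℕ}
    (hn1 : 1 ≤ n) (hP : TriN P) (vP : ∀ l ≤ n, eval (D.X ω) (P l) = D.X ω l)
    (hS : Sd D n K i j S ω) (tG : ∀ i j x, TriN (D.G i j x))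
    (hMs : ∀ l : Fin (n - 1), l ∈ Ms ↔ D.g iA jA (l + 1) ≤ D.g i j (l + 1))
    {y y' : Fin (n - 1) → ℝ} (hy : ∀ l, |y l| ≤ ρ) (hy' : ∀ l, |y' l| ≤ ρ) :
    |(eval y (shrS D n z i j iA jA S n ω) - eval (wv Ms nn s y) (PiS D n z i j S P ω)) -
      (eval y' (shrS D n z i j iA jA S n ω) - eval (wv Ms nn s y') (PiS D n z i j S P ω))| ≤
      G * ε := by
  have hx₀ : eval (D.X ω) (P 0) = D.X ω 0 := vP 0 (Nat.zero_le _)
  have ev : ∀ v : Fin (n - 1) → ℝ, eval v (shrS D n z i j iA jA S n ω) -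
      eval (wv Ms nn s v) (PiS D n z i j S P ω) =
      2 ^ D.g i j n * (eval (zs P (cpt D n z i j iA jA S ω v))
          (ch P (D.X ω 0) (D.Ψ iA jA ω) n) -
        eval (zs P (cpt D n z i j iA jA S ω v)) (ch P (D.X ω 0) (S ω) n)) +
      2 ^ D.g i j n * eval (zs P (fpt D n z i j S ω (wv Ms nn s v)))
        (ch P (D.X ω 0) (S ω) n) := by
    intro v
    rw [eval_PiS' hn1 hP hS.tri, eval_shr_ch hP hS.tri (tG _ _ _) hn1]
    ring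
  have cpc : ∀ v : Fin (n - 1) → ℝ, Cp n (D.g i j) (ch P (D.X ω 0) (S ω))
      (ch P (D.X ω 0) (D.Ψ iA jA ω)) (fun l => D.g i j l < D.g iA jA l)
      (uco n z (wv Ms nn s v)) (zs P (cpt D n z i j iA jA S ω v)) := by
    intro v
    refine Cp.congr (cp_of (v := v) hP hx₀ hS.tri (tG _ _ _) le_rfl) ?_
    intro l h1 h2 ht
    obtain ⟨l', rfl⟩ : ∃ l', l = l' + 1 := ⟨l - 1, by omega⟩
    have hl' : l' < n - 1 := by omega
    have hM : (⟨l', hl'⟩ : Fin (n - 1)) ∈ Ms := (hMs ⟨l', hl'⟩).2 (not_lt.1 ht)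
    have e1 : wv Ms nn s v ⟨l', hl'⟩ = v ⟨l', hl'⟩ := wv_in hM
    have a1 := uco_fin (n := n) (z := z) (v := wv Ms nn s v) ⟨l', hl'⟩
    have a2 := uco_fin (n := n) (z := z) (v := v) ⟨l', hl'⟩
    have e : ((⟨l', hl'⟩ : Fin (n - 1)) : ℕ) = l' := rfl
    rw [e] at a1 a2
    rw [a1, a2, e1]
  rw [ev, ev]
  refine (H.oct.el.targ H.oct.TA H.oct.AM (H.elp y hy) (H.elp y' hy') (cpc y)
    (cpc y')).trans ?_
  exact mul_le_mul_of_nonneg_right H.oct.zcG H.oct.el.eps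

/-- The eliminated point over a point which is near to the frame outside `Ms`. -/
theorem OctR.near (H : OctR D n K₂ z X M i j iA jA bb pr Ms S ω P nn s E G ε ρ) {K : ℕ}
    (hP : TriN P) (vP : ∀ l ≤ n, eval (D.X ω) (P l) = D.X ω l) (hS : Sd D n K i j S ω)
    {w w₀ : Fin (n - 1) → ℝ} {R : ℝ} (hR : 1 ≤ R) (hw : ∀ l, |w l| ≤ R)
    (hw₀ : ∀ l, |w₀ l| ≤ ρ) (hww : ∀ l ∈ Ms, w₀ l = w l) {r : ℝ} (hr : 0 ≤ r)
    (hn : ∀ l, l ∉ Ms → |zs P (fpt D n z i j S ω w) ((l : ℕ) + 1)| ≤ r / 2 ^ D.g i j (l + 1))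
    (l : Fin (n - 1)) :
    |w l - wv Ms nn s w₀ l| ≤ (4 * (G * R)) ^ dd K₂ (n + 1) * (r + G * ε) := by
  have hx₀ : eval (D.X ω) (P 0) = D.X ω 0 := vP 0 (Nat.zero_le _)
  have h2z : (1 : ℝ) ≤ 2 ^ z := one_le_pow₀ (by norm_num)
  have hε := H.oct.el.eps
  have hG1 := H.oct.G1
  have hEG : E ≤ G := (zc_ge K₂ H.oct.E1 _).trans H.oct.zcG
  have hGR : G ≤ G * R := le_mul_of_one_le_right (by linarith) hR
  have hGR1 : 1 ≤ G * R := hG1.trans hGR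
  have ep := H.elp w₀ hw₀
  have sm := H.oct.el.small ep
  obtain ⟨w₁, hw₁⟩ : ∃ w₁, w₁ = wv Ms nn s w₀ := ⟨_, rfl⟩
  rw [← hw₁] at ep sm ⊢
  have p1 := fpt_ptl (D := D) (n := n) (z := z) (i := i) (j := j) (S := S) (ω := ω) (v := w)
    hP hx₀ hS.tri
  have two := (H.oct.nb n le_rfl |>.mono le_rfl (hEG.trans hGR)).two (W := 4 * (G * R))
    (ε := r + G * ε) (M := inM Ms) hGR1 rfl (by positivity) p1 ep.pt
    (fun k k1 k2 => by
      rw [uco_succ k1 k2]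
      have b1 := hw ⟨k - 1, by omega⟩
      have b2 : |4 * 2 ^ z * w ⟨k - 1, by omega⟩ - 2 * 2 ^ z| ≤ 6 * 2 ^ z * R := by
        refine (abs_sub _ _).trans ?_
        rw [abs_mul, abs_of_pos (by positivity : (0 : ℝ) < 4 * 2 ^ z),
          abs_of_pos (by positivity : (0 : ℝ) < 2 * 2 ^ z)]
        nlinarith
      exact b2.trans (mul_le_mul_of_nonneg_right (H.oct.E6.trans hEG) (by linarith)))
    (fun k k1 k2 => (((sm k k1 k2).1.trans (zc_mono K₂ H.oct.E1 (by omega))).trans H.oct.zcG).trans hGR)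
    (fun k k1 k2 hk => by
      have e1 : w₁ ⟨k - 1, by omega⟩ = w ⟨k - 1, by omega⟩ := by
        rw [hw₁, wv_in (hk _)]
        exact hww _ (hk _)
      rw [uco_succ k1 k2, uco_succ k1 k2, e1, sub_self, abs_zero]
      positivity)
    (fun k k1 k2 hk => by
      obtain ⟨k', rfl⟩ : ∃ k', k = k' + 1 := ⟨k - 1, by omega⟩
      have hk' : k' < n - 1 := by omega
      have hM : (⟨k', hk'⟩ : Fin (n - 1)) ∉ Ms := fun h => hk fun _ => h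
      have b1 := hn ⟨k', hk'⟩ hM
      have b2 := (sm (k' + 1) k1 k2).2 hk
      have b3 : zc K₂ E (k' + 1 + 1) * ε / 2 ^ D.g i j (k' + 1) ≤
          G * ε / 2 ^ D.g i j (k' + 1) :=
        div_le_div_of_nonneg_right (mul_le_mul_of_nonneg_right
          ((zc_mono K₂ H.oct.E1 (by omega)).trans H.oct.zcG) hε) (by positivity)
      refine (abs_sub _ _).trans ?_
      rw [add_div]
      exact add_le_add b1 (b2.trans b3))
    ((l : ℕ) + 1) (Nat.succ_pos _) (by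
      have := l.2
      omega)
  rw [uco_fin, uco_fin] at two
  have e2 : (4 * 2 ^ z * w l - 2 * 2 ^ z) - (4 * 2 ^ z * w₁ l - 2 * 2 ^ z) =
      4 * 2 ^ z * (w l - w₁ l) := by ring
  rw [e2, abs_mul, abs_of_pos (by positivity : (0 : ℝ) < 4 * 2 ^ z)] at two
  have h3 : (4 * (G * R)) ^ dd K₂ ((l : ℕ) + 1 + 2) ≤ (4 * (G * R)) ^ dd K₂ (n + 1) :=
    wpow hGR1 rfl (by
      have := l.2
      omega)
  have h4 : |w l - w₁ l| ≤ 4 * 2 ^ z * |w l - w₁ l| := by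
    refine le_mul_of_one_le_left (abs_nonneg _) ?_
    linarith
  exact h4.trans (two.trans (mul_le_mul_of_nonneg_right h3 (by positivity)))

end ctx

theorem num_fR {a₁ a₂ N₁ N₂ a w w₁ w₂ U τ : ℝ} (ha₁ : 0 ≤ a₁) (ha₂ : 0 ≤ a₂) (hN₁ : 0 ≤ N₁)
    (hN₂ : 0 ≤ N₂) (hw : 1 ≤ w) (hw₁ : w₁ ≤ w) (hw₂ : w₂ ≤ w) (hU : 0 ≤ U) (hτ : 0 ≤ τ)
    (ha : a = 4 * (a₁ + a₂) + 2 * N₁ + 2 * N₂ + 1) :
    2 * (2 * a₁ * w * U) + 2 * (2 * a₂ * w * U) + w * U + 2 * N₁ * (τ * w₁) +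
      2 * N₂ * (τ * w₂) ≤ a * w * (U + τ) := by
  have b1 : 0 ≤ (2 * N₁ + 2 * N₂) * w * U := by positivity
  have b2 : 2 * N₁ * (τ * w₁) ≤ 2 * N₁ * (τ * w) :=
    mul_le_mul_of_nonneg_left (mul_le_mul_of_nonneg_left hw₁ hτ) (by positivity)
  have b4 : 2 * N₂ * (τ * w₂) ≤ 2 * N₂ * (τ * w) :=
    mul_le_mul_of_nonneg_left (mul_le_mul_of_nonneg_left hw₂ hτ) (by positivity)
  have b3 : 0 ≤ (4 * (a₁ + a₂) + 1) * w * τ := by positivity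
  rw [ha]
  have e : (4 * (a₁ + a₂) + 2 * N₁ + 2 * N₂ + 1) * w * (U + τ) =
      (4 * (a₁ + a₂) + 1) * w * U + (2 * N₁ + 2 * N₂) * w * U +
        (2 * N₁ * (τ * w) + 2 * N₂ * (τ * w)) + (4 * (a₁ + a₂) + 1) * w * τ := by ring
  rw [e]
  linarith

/-- **The full shape and the height of the frame**, wide coordinates in a large box. -/
theorem tot_coreR (n K' Ds KF : ℕ) (C a₀ : ℝ) (hC : 0 ≤ C) (ha₀ : 0 ≤ a₀) : ∃ C' : ℝ, 0 ≤ C' ∧
    ∀ (D : NDat2)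
    (K z X M i j iA jA bb t : ℕ) (pr : ℕ → ℕ × ℕ) (Ms : Finset (Fin (n - 1)))
    (S : D.Ω → ℕ → PN) (ω : D.Ω) (P : ℕ → PN) (nn : Fin (n - 1) → ℝ)
    (s : Fin (n - 1) → Pl (n - 1)) (F F' : Pl (n - 1)) (A B : ℝ), K ≤ K' → 1 ≤ z →
    z + 2 ≤ X → C' * z ≤ bb → C' * z ≤ X → 1 ≤ n → i < M → j < M → iA < M → jA < M →
    (∀ i j x, TriN (D.G i j x)) → (∀ i j x l, (D.G i j x l).totalDegree ≤ K) →
    FrP D n K' M z C P ω → Sd D n K i j S ω → Lo D n X (i, j) (iA, jA) →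
    (∀ l : Fin (n - 1), l ∈ Ms ↔ D.g iA jA (l + 1) ≤ D.g i j (l + 1)) →
    (∀ l : Fin (n - 1), l ∉ Ms → (pr (l + 1)).1 < M ∧ (pr (l + 1)).2 < M ∧
      Lo D (l + 1) X (i, j) (pr (l + 1)) ∧ ∀ k : Fin (n - 1), k < l →
        D.g i j (k + 1) < D.g (pr (l + 1)).1 (pr (l + 1)).2 (k + 1) → k ∉ Ms) →
    Shn D n z X i j bb Ds S pr ω Ms s →
    (∀ l : Fin (n - 1), l ∉ Ms → |nn l - (vS D n z i j X S ω l -
      eval (vS D n z i j X S ω) (s l))| ≤ 1 / 2 ^ X) →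
    F.totalDegree ≤ KF → F'.totalDegree ≤ KF → 1 ≤ A → 1 ≤ B → (∀ α, |coeff α F| ≤ B) →
    (∀ α, α ≠ 0 → |coeff α F' - coeff α F| ≤ 1 / 2 ^ t) →
    (∀ α, α ≠ 0 → |coeff α (bind₁ (elim Ms nn s (n - 1)) F) -
      coeff α (shpS D n z i j iA jA bb S n ω)| ≤ 1 / 2 ^ t) →
    ∀ w w' : Fin (n - 1) → ℝ, (∀ l, |w l| ≤ exp (a₀ * z)) → (∀ l, |w' l| ≤ exp (a₀ * z)) →
      (∀ l, l ∉ Ms → |zs P (fpt D n z i j S ω w) ((l : ℕ) + 1)| ≤
        A / 2 ^ X / 2 ^ D.g i j (l + 1)) →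
      (∀ l, l ∉ Ms → |zs P (fpt D n z i j S ω w') ((l : ℕ) + 1)| ≤
        A / 2 ^ X / 2 ^ D.g i j (l + 1)) →
      |(eval w F' - eval w (PiS D n z i j S P ω)) -
        (eval w' F' - eval w' (PiS D n z i j S P ω))| ≤
        exp (C' * z) * (A * B / 2 ^ X + 1 / 2 ^ t) := by
  obtain ⟨C₀, bE, bG, hC₀, hbE, hbG, hCG, hctx⟩ := own_ctxR n K' Ds C a₀ hC ha₀
  obtain ⟨K₂, hK₂⟩ : ∃ K₂ : ℕ, K₂ = K' * (K' + 1) ^ n := ⟨_, rfl⟩
  obtain ⟨De, hDe⟩ : ∃ De : ℕ, De = (Ds + 1) ^ (n - 1) := ⟨_, rfl⟩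
  obtain ⟨Cc, hCc, hcb⟩ := Pool.Agent.H36.KBX.coef_bound (n - 1) (dK n K')
  obtain ⟨D₁, hD₁⟩ : ∃ D₁ : ℕ, D₁ = KF * De + dK n K' := ⟨_, rfl⟩
  obtain ⟨N₁, hN₁⟩ : ∃ N₁ : ℝ, N₁ = ((Pool.Agent.H36.KBX.bx (n - 1) D₁).card : ℝ) := ⟨_, rfl⟩
  obtain ⟨N₂, hN₂⟩ : ∃ N₂ : ℝ, N₂ = ((Pool.Agent.H36.KBX.bx (n - 1) KF).card : ℝ) := ⟨_, rfl⟩
  have hN₁0 : 0 ≤ N₁ := by rw [hN₁]; exact Nat.cast_nonneg _
  have hN₂0 : 0 ≤ N₂ := by rw [hN₂]; exact Nat.cast_nonneg _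
  -- the constants of the Lipschitz bounds
  obtain ⟨a₁, ha₁⟩ : ∃ a₁ : ℝ, a₁ = ((KF : ℝ) + 1) ^ (n - 1) * KF := ⟨_, rfl⟩
  obtain ⟨a₂, ha₂⟩ : ∃ a₂ : ℝ, a₂ = ((dK n K' : ℝ) + 1) ^ (n - 1) * Cc * dK n K' := ⟨_, rfl⟩
  have ha₁0 : 0 ≤ a₁ := by rw [ha₁]; positivity
  have ha₂0 : 0 ≤ a₂ := by rw [ha₂]; positivity
  obtain ⟨Q, hQ⟩ : ∃ Q : ℕ, Q = KF + dK n K' + 1 + dd K₂ (n + 1) + 2 + (n - 1) * KF +
    (n - 1) * D₁ := ⟨_, rfl⟩
  obtain ⟨a, ha⟩ : ∃ a : ℝ, a = 4 * (a₁ + a₂) + 2 * N₁ + 2 * N₂ + 1 := ⟨_, rfl⟩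
  have ha0 : 0 ≤ a := by rw [ha]; positivity
  have hla : 0 ≤ Real.log (a + 1) := Real.log_nonneg (by linarith)
  obtain ⟨cF, hcF⟩ : ∃ cF : ℝ, cF = Real.log (a + 1) + (bG + a₀ + 2) * Q := ⟨_, rfl⟩
  have hcF0 : 0 ≤ cF := by rw [hcF]; positivity
  refine ⟨C₀ + cF, by positivity, ?_⟩
  intro D K z X M i j iA jA bb t pr Ms S ω P nn s F F' A B hK hz hX hbb hXz hn1 hi hj hiA hjA tG
    dG hF hS hLA hMs hpr hs hnn dF dF' hA hB hFc hFF hmt w w' hw hw' hnw hnw'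
  have hzr : (1 : ℝ) ≤ z := by exact_mod_cast hz
  have hz0 : (0 : ℝ) ≤ z := by linarith
  have hle : C₀ * z ≤ (C₀ + cF) * z := mul_le_mul_of_nonneg_right (by linarith) hz0
  have H := hctx D K z X M i j iA jA bb pr Ms S ω P nn s hK hz hX (hle.trans hbb)
    (hle.trans hXz) hn1 hi hj hiA hjA tG dG hF hS hLA hMs hpr hs hnn
  obtain ⟨hP, dP, vP, nP⟩ := hF
  have hx₀ : eval (D.X ω) (P 0) = D.X ω 0 := vP 0 (Nat.zero_le _)
  obtain ⟨E, hE⟩ : ∃ E : ℝ, E = exp (bE * z) := ⟨_, rfl⟩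
  obtain ⟨G, hG⟩ : ∃ G : ℝ, G = exp (bG * z) := ⟨_, rfl⟩
  obtain ⟨R, hR⟩ : ∃ R : ℝ, R = exp (a₀ * z) := ⟨_, rfl⟩
  rw [← hE, ← hG, ← hR, ← hK₂] at H
  rw [← hR] at hw hw'
  have hR1 : 1 ≤ R := by rw [hR]; exact one_le_exp (by positivity)
  have hG1 := H.oct.G1
  have h2X : (0 : ℝ) < 2 ^ X := by positivity
  have dS : ∀ l, (S ω l).totalDegree ≤ K' := fun l => (hS.deg l).trans hK
  have dG' : ∀ i j x l, (D.G i j x l).totalDegree ≤ K' := fun i j x l => (dG i j x l).trans hK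
  obtain ⟨W, hW⟩ : ∃ W : ℝ, W = 4 * (G * R) := ⟨_, rfl⟩
  have hGR : G ≤ G * R := le_mul_of_one_le_right (by linarith) hR1
  have hRG : R ≤ G * R := le_mul_of_one_le_left (by linarith) hG1
  have hGW : G ≤ W := by linarith
  have hGW2 : 2 * G ≤ W := by linarith
  have hRW : R ≤ W := by linarith
  have hW1 : 1 ≤ W := by linarith
  -- the points of the leaf
  obtain ⟨w₀, hw₀⟩ : ∃ w₀ : Fin (n - 1) → ℝ, w₀ = fun l => if l ∈ Ms then w l else 0 := ⟨_, rfl⟩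
  obtain ⟨w₀', hw₀'⟩ : ∃ w₀' : Fin (n - 1) → ℝ, w₀' = fun l => if l ∈ Ms then w' l else 0 :=
    ⟨_, rfl⟩
  have b0 : ∀ l, |w₀ l| ≤ R := fun l => by
    rw [hw₀]
    simp only
    split_ifs with h
    · exact hw l
    · rw [abs_zero]
      linarith
  have b0' : ∀ l, |w₀' l| ≤ R := fun l => by
    rw [hw₀']
    simp only
    split_ifs with h
    · exact hw' l
    · rw [abs_zero]
      linarith
  have i0 : ∀ l ∈ Ms, w₀ l = w l := fun l hl => by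
    rw [hw₀]
    simp only [if_pos hl]
  have i0' : ∀ l ∈ Ms, w₀' l = w' l := fun l hl => by
    rw [hw₀']
    simp only [if_pos hl]
  -- the distance to the eliminated points
  obtain ⟨δ, hδ⟩ : ∃ δ : ℝ, δ = W ^ dd K₂ (n + 1) * (A / 2 ^ X + G * (G / 2 ^ X)) := ⟨_, rfl⟩
  have hA0 : 0 ≤ A / 2 ^ X := by positivity
  have hδ0 : 0 ≤ δ := by rw [hδ]; positivity
  have n1 : ∀ l, |w l - wv Ms nn s w₀ l| ≤ δ := fun l => by
    rw [hδ, hW]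
    exact H.near hP vP hS hR1 hw b0 i0 hA0 hnw l
  have n2 : ∀ l, |w' l - wv Ms nn s w₀' l| ≤ δ := fun l => by
    rw [hδ, hW]
    exact H.near hP vP hS hR1 hw' b0' i0' hA0 hnw' l
  obtain ⟨V, hV⟩ : ∃ V : ℝ, V = A / 2 ^ X := ⟨_, rfl⟩
  have hδ1 : δ ≤ 2 * W ^ (dd K₂ (n + 1) + 2) * V := by
    rw [hδ]
    exact num_d hG1 hA hGW hV
  -- the boxes
  have wR : ∀ v : Fin (n - 1) → ℝ, (∀ l, |v l| ≤ R) → ∀ l, |v l| ≤ W := fun v hv l =>
    (hv l).trans hRW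
  have wR' : ∀ v : Fin (n - 1) → ℝ, (∀ l, |v l| ≤ R) → ∀ l, |wv Ms nn s v l| ≤ W :=
    fun v hv l => (H.wv_le hv l).trans hGW2
  -- Lipschitz
  have mF : Pool.GLM.ml F ≤ ((KF : ℝ) + 1) ^ (n - 1) * B :=
    ml_le_of_cb dF (by linarith) hFc
  obtain ⟨Qp, hQp⟩ : ∃ Qp, Qp = PiS D n z i j S P ω := ⟨_, rfl⟩
  have dQ : Qp.totalDegree ≤ dK n K' := by
    rw [hQp]
    exact deg_PiS hP hS.tri dP dS
  have hQb : ∀ y : Fin (n - 1) → ℝ, (∀ l, |y l| ≤ 1) → |eval y Qp| ≤ G := fun y hy1 => by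
    rw [hQp]
    exact (pi_bd hn1 hP hx₀ hS.tri H.oct.E6 (H.oct.nb n le_rfl) hy1).trans
      (H.oct.WG _ (by omega))
  have mQ : Pool.GLM.ml Qp ≤ ((dK n K' : ℝ) + 1) ^ (n - 1) * (Cc * G) :=
    ml_le_of_cb dQ (by positivity) (hcb Qp G dQ hQb)
  have LF : ∀ v v₀ : Fin (n - 1) → ℝ, (∀ l, |v l| ≤ R) → (∀ l, |v₀ l| ≤ R) →
      (∀ l, |v l - wv Ms nn s v₀ l| ≤ δ) →
      |eval v F - eval (wv Ms nn s v₀) F| ≤ a₁ * B * (W ^ KF * δ) := by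
    intro v v₀ hv hv₀ hd
    refine (lip2 hW1 dF (wR v hv) (wR' v₀ hv₀) hδ0 hd).trans ?_
    calc Pool.GLM.ml F * (KF * W ^ KF * δ) ≤
        ((KF : ℝ) + 1) ^ (n - 1) * B * (KF * W ^ KF * δ) :=
          mul_le_mul_of_nonneg_right mF (by positivity)
      _ = a₁ * B * (W ^ KF * δ) := by
          rw [ha₁]
          ring
  have LQ : ∀ v v₀ : Fin (n - 1) → ℝ, (∀ l, |v l| ≤ R) → (∀ l, |v₀ l| ≤ R) →
      (∀ l, |v l - wv Ms nn s v₀ l| ≤ δ) →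
      |eval v Qp - eval (wv Ms nn s v₀) Qp| ≤ a₂ * G * (W ^ dK n K' * δ) := by
    intro v v₀ hv hv₀ hd
    refine (lip2 hW1 dQ (wR v hv) (wR' v₀ hv₀) hδ0 hd).trans ?_
    calc Pool.GLM.ml Qp * (dK n K' * W ^ dK n K' * δ) ≤
        ((dK n K' : ℝ) + 1) ^ (n - 1) * (Cc * G) * (dK n K' * W ^ dK n K' * δ) :=
          mul_le_mul_of_nonneg_right mQ (by positivity)
      _ = a₂ * G * (W ^ dK n K' * δ) := by
          rw [ha₂]
          ring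
  -- the restriction
  have hshp : shpS D n z i j iA jA bb S n ω = shrS D n z i j iA jA S n ω -
      MvPolynomial.C (coeff 0 (shrS D n z i j iA jA S n ω)) := by
    unfold shpS
    rw [if_pos H.oct.gA]
  have e0 : ∀ v : Fin (n - 1) → ℝ, eval v (bind₁ (elim Ms nn s (n - 1)) F) =
      eval (wv Ms nn s v) F := fun v => eval₂Hom_bind₁ (RingHom.id ℝ) v _ _
  have de : ∀ l, (elim Ms nn s (n - 1) l).totalDegree ≤ De := fun l => by
    rw [hDe]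
    exact elim_deg hs.deg _ l
  have dshr : (shpS D n z i j iA jA bb S n ω).totalDegree ≤ dK n K' :=
    deg_shpS hS.tri (tG _ _ _) dS (fun k => dG' _ _ _ k) le_rfl
  have dR : (bind₁ (elim Ms nn s (n - 1)) F - shpS D n z i j iA jA bb S n ω).totalDegree ≤
      D₁ := by
    rw [hD₁]
    exact (totalDegree_sub _ _).trans (max_le ((Pool.TIE.deg_bind de dF).trans
      (Nat.le_add_right _ _)) (dshr.trans (Nat.le_add_left _ _)))
  have ht0 : (0 : ℝ) ≤ 1 / 2 ^ t := by positivity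
  have r1 := cf_two (w := w₀) (w' := w₀') (ρ := R) dR ht0 hR1
    (fun α hα => by
      rw [coeff_sub]
      exact hmt α hα) b0 b0'
  rw [map_sub, map_sub, e0, e0, hshp, map_sub, map_sub, eval_C, eval_C, ← hN₁] at r1
  have r2 := cf_two (w := w) (w' := w') (ρ := W) (Q := F' - F) ((totalDegree_sub _ _).trans
    (max_le dF' dF)) ht0 hW1 (fun α hα => by
      rw [coeff_sub]
      exact hFF α hα) (wR w hw) (wR w' hw')
  rw [map_sub, map_sub, ← hN₂] at r2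
  have r3 := H.val hn1 hP vP hS tG hMs b0 b0'
  have l1 := LF w w₀ hw b0 n1
  have l2 := LF w' w₀' hw' b0' n2
  have l3 := LQ w w₀ hw b0 n1
  have l4 := LQ w' w₀' hw' b0' n2
  rw [← hQp] at r3 ⊢
  -- the sizes
  have hV0 : 0 ≤ V := by rw [hV]; positivity
  obtain ⟨U, hUd⟩ : ∃ U : ℝ, U = A * B / 2 ^ X := ⟨_, rfl⟩
  have hBV : B * V = U := by
    rw [hV, hUd]
    ring
  have hU0 : 0 ≤ U := by rw [hUd]; positivity
  have z12 := num_h (k₁ := KF) (k₂ := dK n K') (Q := Q) hW1 hGW hV0 hδ0 hδ1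
    (by rw [hQ]; omega) (by rw [hQ]; omega) ha₁0 ha₂0 hB hBV
  have z1 := z12.1
  have z2 := z12.2
  have z3 : G * (G / 2 ^ X) ≤ W ^ Q * U := by
    rw [hUd]
    exact num_g hG1 hA hB hGW (by rw [hQ]; omega)
  have hWQ : 1 ≤ W ^ Q := one_le_pow₀ hW1
  have hWQ2 : W ^ ((n - 1) * KF) ≤ W ^ Q := pow_le_pow_right₀ hW1 (by rw [hQ]; omega)
  have hWQ1 : R ^ ((n - 1) * D₁) ≤ W ^ Q := (pow_le_pow_left₀ (by linarith) hRW _).trans
    (pow_le_pow_right₀ hW1 (by rw [hQ]; omega))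
  -- the sum
  have tot := num_c (l1.trans z1) (l2.trans z1) (l3.trans z2) (l4.trans z2) r1 r2 (r3.trans z3)
  have fin := num_fR (τ := 1 / 2 ^ t) ha₁0 ha₂0 hN₁0 hN₂0 hWQ hWQ1 hWQ2 hU0 ht0 ha
  have hbig : a * W ^ Q ≤ exp ((C₀ + cF) * z) := by
    have e1 : W = 4 * exp ((bG + a₀) * z) := by
      rw [hW, hG, hR, ← exp_add]
      congr 2
      ring
    rw [e1]
    refine (big_le hz ha0 (by positivity) Q).trans
      (exp_le_exp.2 (mul_le_mul_of_nonneg_right ?_ hz0))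
    rw [hcF]
    linarith
  refine tot.trans (fin.trans ?_)
  rw [← hUd]
  exact mul_le_mul_of_nonneg_right hbig (by linarith)

end Pool.GSD
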