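import Pool.Agent.H41.GSD.Own5
import Pool.Agent.H24.GSD.Lvl
import Pool.Agent.H19.VAS.Def

/-!
# The places of STEP V in the form of the leaves

`sideR`, `sideL`: the own places of the target and of the sheets outside the wide coordinates
satisfy the hypotheses of `lfA`, `lfB`. `plA_lv`, `plB_lv`: the places of the leaves.
-/

set_option autoImplicit false

namespace Pool.GSD.Cls

open Finset Real MvPolynomial
open Pool.Agent.H49.Ent Pool.Agent.H32.Dense Pool.STK Pool.STAT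
open Pool.GSD.Row
open Pool.VAS (PlA PlB)

/-- The own place `t` of the target with the wide coordinates `Ms`, own places `pr` of the sheets. -/
structure Sde (D : NDat2) (n X M : ℕ) (b t : ℕ × ℕ) (Ms : Finset (Fin (n - 1)))
    (pr : ℕ → ℕ × ℕ) : Prop where
  t1 : t.1 < M
  t2 : t.2 < M
  lo : Lo D n X b t
  ms : ∀ l : Fin (n - 1), l ∈ Ms ↔ D.g t.1 t.2 (l + 1) ≤ D.g b.1 b.2 (l + 1)
  pr : ∀ l : Fin (n - 1), l ∉ Ms → (pr (l + 1)).1 < M ∧ (pr (l + 1)).2 < M ∧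
    Lo D (l + 1) X b (pr (l + 1)) ∧ ∀ k : Fin (n - 1), k < l →
      D.g b.1 b.2 (k + 1) < D.g (pr (l + 1)).1 (pr (l + 1)).2 (k + 1) → k ∉ Ms

section places

variable {D : NDat2} {n K J a₀ w₀ z M : ℕ} {lam gam : ℕ → ℝ} {κ C₁ : ℝ} {q : D.Ω → ℝ}
  {Λ W : ℝ} {N v Wd l u i j M' : ℕ} {x : ℕ → ℤ} {a : ℕ → ℕ} {X s : ℕ}

theorem nt_lt {p : ℤ × ℤ} (h2 : p.1 ≤ M') (h4 : p.2 ≤ M') (hM : M' < M) : (nt p).1 < M ∧ (nt p).2 < M := by
  unfold nt
  simp only
  omega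

/-- From a near place. -/
theorem lo_of_gl {P R : ℕ → Prop} {b t : ℕ × ℕ} (h : Gl D n X s b t P R)
    (hn : ¬ P n) (hnR : ¬ R n) (hall : ∀ m, 1 ≤ m → m < n → P m ∨ R m) (hn1 : 1 ≤ n)
    (hX : 1 ≤ X) :
    Lo D n X b t ∧ ∀ m, 1 ≤ m → m < n → (R m ↔ D.g t.1 t.2 m ≤ D.g b.1 b.2 m) := by
  constructor
  · intro m m1 m2
    rcases hall m m1 m2 with hP | hR
    · right
      exact h.dp m m1 m2.le hP
    · left
      have h1 := h.co m m1 m2.le hR
      have h2 := h.sm n hn1 le_rfl hn hnR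
      constructor <;> omega
  · intro m m1 m2
    constructor
    · intro hR
      have h1 := h.co m m1 m2.le hR
      omega
    · intro hle
      rcases hall m m1 m2 with hP | hR
      · have := h.dp m m1 m2.le hP
        omega
      · exact hR

/-- From a far place. -/
theorem lo_of_gf {P : ℕ → Prop} {b t : ℕ × ℕ} (h : Gf D n X b t P) {c : ℕ} (hc : P c)
    (c1 : 1 ≤ c) (c2 : c ≤ n) :
    Lo D c X b t ∧ ∀ m, 1 ≤ m → m < c → D.g b.1 b.2 m < D.g t.1 t.2 m → P m := by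
  constructor
  · intro m m1 m2
    by_cases hP : P m
    · right
      exact h.dp m m1 (m2.le.trans c2) hP
    · left
      have h1 := h.re m m1 (m2.le.trans c2) hP
      have h2 := h.dp c c1 c2 hc
      constructor <;> omega
  · intro m m1 m2 hlt
    by_contra hP
    have h1 := h.re m m1 (m2.le.trans c2) hP
    omega

/-- **The right side.** -/
theorem sideR (hO : D.Ok2 n K J a₀ w₀ z M lam gam κ C₁ q) (hM : M' < M) (hn1 : 1 ≤ n)
    (hd : Dirs n lam gam (2 ^ u + 2 * Λ + 8) N v x a) (hΛ : ∀ m, 1 ≤ m → m ≤ n → lam m ≤ Λ)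
    (hN : Nu C₁ Λ z l u X s) (hx : ∀ k ≤ N, |x k| ≤ Wd) (hv : v ≤ Wd)
    (h1 : Wd * 2 ^ l ≤ i) (h2 : i + Wd * 2 ^ l ≤ M') (h3 : Wd * 2 ^ l ≤ j)
    (h4 : j + Wd * 2 ^ l ≤ M') :
    Sde D n X M (i, j) (nt (nR v x l u i j (a n)))
      (univ.filter fun c : Fin (n - 1) => a n < a (c + 1)) (own n v x a l i j) := by
  have hX : 1 ≤ X := by
    rw [hN.X_eq]
    omega
  have hk : a n ≤ N := (hd.a_lt n hn1 le_rfl).le
  have hr : 2 ^ (l - u) ≤ 2 ^ l := Nat.pow_le_pow_right (by norm_num) (Nat.sub_le _ _)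
  obtain ⟨⟨b1, b2, b3, b4⟩, _⟩ := range_pl hx hv h1 h2 h3 h4 hk hr
  have ht := nt_lt (p := nR v x l u i j (a n)) b2 b4 hM
  have hgl := gl_R hO hM.le hd hΛ hN hx hv h1 h2 h3 h4 hk (hd.ev n)
  obtain ⟨hlo, hms⟩ := lo_of_gl hgl (lt_irrefl _) (lt_irrefl _)
    (fun m m1 m2 => by
      have := hd.ne m m1 m2
      omega) hn1 hX
  refine ⟨ht.1, ht.2, hlo, fun c => ?_, fun c hc => ?_⟩
  · have hc2 := c.2
    rw [mem_filter]
    have := hms (c + 1) (Nat.succ_pos _) (by omega)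
    simpa using this
  · have hc2 := c.2
    have hlt : a (c + 1) < a n := by
      have h5 := hd.ne (c + 1) (Nat.succ_pos _) (by omega)
      have h6 : ¬ a n < a (c + 1) := fun h => hc (mem_filter.2 ⟨mem_univ _, h⟩)
      omega
    have hown : own n v x a l i j (c + 1) = nt (fR v x l i j (a (c + 1) + 1)) := by
      unfold own
      rw [if_pos hlt]
    have hk' : a (c + 1) + 1 ≤ N := hd.a_lt (c + 1) (Nat.succ_pos _) (by omega)
    obtain ⟨⟨c1, c2, c3, c4⟩, _⟩ := range_pl hx hv h1 h2 h3 h4 hk' (le_refl (2 ^ l))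
    have hp := nt_lt (p := fR v x l i j (a (c + 1) + 1)) c2 c4 hM
    have hgf := gf_R hO hM.le hd hN hx hv h1 h2 h3 h4 hk'
    obtain ⟨l1, l2⟩ := lo_of_gf hgf (c := (c : ℕ) + 1) (Nat.lt_succ_self _) (Nat.succ_pos _)
      (by omega)
    rw [hown]
    refine ⟨hp.1, hp.2, l1, fun k hkc hlt' hk2 => ?_⟩
    have hkc' : (k : ℕ) < (c : ℕ) := hkc
    have h7 := l2 (k + 1) (Nat.succ_pos _) (by omega) hlt'
    have h8 := (mem_filter.1 hk2).2
    omega

/-- **The left side.** -/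
theorem sideL (hO : D.Ok2 n K J a₀ w₀ z M lam gam κ C₁ q) (hM : M' < M) (hn1 : 1 ≤ n)
    (hd : Dirs n lam gam (2 ^ u + 2 * Λ + 8) N v x a) (hΛ : ∀ m, 1 ≤ m → m ≤ n → lam m ≤ Λ)
    (hN : Nu C₁ Λ z l u X s) (hx : ∀ k ≤ N, |x k| ≤ Wd) (hv : v ≤ Wd)
    (h1 : Wd * 2 ^ l ≤ i) (h2 : i + Wd * 2 ^ l ≤ M') (h3 : Wd * 2 ^ l ≤ j)
    (h4 : j + Wd * 2 ^ l ≤ M') :
    Sde D n X M (i, j) (nt (nL v x l u i j (a n + 1)))
      (univ.filter fun c : Fin (n - 1) => a (c + 1) < a n) (own n v x a l i j) := by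
  have hX : 1 ≤ X := by
    rw [hN.X_eq]
    omega
  have hk : a n + 1 ≤ N := hd.a_lt n hn1 le_rfl
  have hr : 2 ^ (l - u) ≤ 2 ^ l := Nat.pow_le_pow_right (by norm_num) (Nat.sub_le _ _)
  obtain ⟨_, b1, b2, b3, b4⟩ := range_pl hx hv h1 h2 h3 h4 hk hr
  have ht := nt_lt (p := nL v x l u i j (a n + 1)) b2 b4 hM
  have hgl := gl_L hO hM.le hd hΛ hN hx hv h1 h2 h3 h4 hk (hd.ev n)
  obtain ⟨hlo, hms⟩ := lo_of_gl hgl (by omega) (lt_irrefl _)
    (fun m m1 m2 => by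
      have := hd.ne m m1 m2
      omega) hn1 hX
  refine ⟨ht.1, ht.2, hlo, fun c => ?_, fun c hc => ?_⟩
  · have hc2 := c.2
    rw [mem_filter]
    have := hms (c + 1) (Nat.succ_pos _) (by omega)
    simpa using this
  · have hc2 := c.2
    have hlt : a n < a (c + 1) := by
      have h5 := hd.ne (c + 1) (Nat.succ_pos _) (by omega)
      have h6 : ¬ a (c + 1) < a n := fun h => hc (mem_filter.2 ⟨mem_univ _, h⟩)
      omega
    have hown : own n v x a l i j (c + 1) = nt (fL v x l i j (a (c + 1))) := by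
      unfold own
      rw [if_neg (by omega)]
    have hk' : a (c + 1) ≤ N := (hd.a_lt (c + 1) (Nat.succ_pos _) (by omega)).le
    obtain ⟨_, c1, c2, c3, c4⟩ := range_pl hx hv h1 h2 h3 h4 hk' (le_refl (2 ^ l))
    have hp := nt_lt (p := fL v x l i j (a (c + 1))) c2 c4 hM
    have hgf := gf_L hO hM.le hd hN hx hv h1 h2 h3 h4 hk'
    obtain ⟨l1, l2⟩ := lo_of_gf hgf (c := (c : ℕ) + 1) (le_refl _) (Nat.succ_pos _) (by omega)
    rw [hown]
    refine ⟨hp.1, hp.2, l1, fun k hkc hlt' hk2 => ?_⟩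
    have hkc' : (k : ℕ) < (c : ℕ) := hkc
    have h7 := l2 (k + 1) (Nat.succ_pos _) (by omega) hlt'
    have h8 := (mem_filter.1 hk2).2
    omega

end places

/-- The order of the ratios. -/
theorem ratio_lt {n N v : ℕ} {lam gam : ℕ → ℝ} {W : ℝ} {x : ℕ → ℤ} {a : ℕ → ℕ}
    (hd : Dirs n lam gam W N v x a) (hlam : ∀ l, 1 ≤ l → l ≤ n → 0 < lam l) {m m' : ℕ}
    (h1 : 1 ≤ m) (h2 : m ≤ n) (h1' : 1 ≤ m') (h2' : m' ≤ n) (h : a m < a m') :
    gam m' * lam m < gam m * lam m' := by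
  have hN := hd.a_lt m' h1' h2'
  have p1 := hd.p1 (a m + 1) (by omega) m h1 h2 (Nat.lt_succ_self _)
  have p2 := hd.p2 (a m + 1) (by omega) m' h1' h2' (by omega)
  have l1 := hlam m h1 h2
  have l2 := hlam m' h1' h2'
  have hv : (0 : ℝ) ≤ v := Nat.cast_nonneg v
  have e1 := mul_le_mul_of_nonneg_right p1 l2.le
  have e2 := mul_le_mul_of_nonneg_right p2 l1.le
  have e3 : 0 < lam m * lam m' := mul_pos l1 l2
  by_contra hle
  have e4 : (gam m * lam m' - gam m' * lam m) * v ≤ 0 :=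
    mul_nonpos_of_nonpos_of_nonneg (by linarith) hv
  nlinarith

/-- **The places of the visible leaves.** -/
theorem plA_lv {D : NDat2} {n N v s i j i' j' : ℕ} {lam gam : ℕ → ℝ} {W : ℝ} {x : ℕ → ℤ}
    {a : ℕ → ℕ} (hd : Dirs n lam gam W N v x a) (hlam : ∀ l, 1 ≤ l → l ≤ n → 0 < lam l)
    (hn1 : 1 ≤ n) (h : PlA D n s lam gam i j i' j') :
    D.g i j n + s ≤ D.g i' j' n ∧
    (∀ l ∈ univ.filter fun c : Fin (n - 1) => a n < a (c + 1),
      D.g i' j' (l + 1) ≤ D.g i j (l + 1)) ∧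
    ∀ l, l ∉ univ.filter (fun c : Fin (n - 1) => a n < a (c + 1)) →
      D.g i j (l + 1) + s ≤ D.g i' j' (l + 1) := by
  refine ⟨h.tgt, fun l hl => ?_, fun l hl => ?_⟩
  · have hl2 := l.2
    exact h.small (l + 1) (Nat.succ_pos _) (by omega) (ratio_lt hd hlam hn1 le_rfl
      (Nat.succ_pos _) (by omega) (mem_filter.1 hl).2)
  · have hl2 := l.2
    have h5 := hd.ne (l + 1) (Nat.succ_pos _) (by omega)
    have h6 : ¬ a n < a (l + 1) := fun h => hl (mem_filter.2 ⟨mem_univ _, h⟩)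
    exact h.big (l + 1) (Nat.succ_pos _) (by omega) (ratio_lt hd hlam (Nat.succ_pos _)
      (by omega) hn1 le_rfl (by omega))

/-- **The places of the line leaves.** -/
theorem plB_lv {D : NDat2} {n N v s c z i j i₁ j₁ : ℕ} {lam gam : ℕ → ℝ} {W : ℝ} {x : ℕ → ℤ}
    {a : ℕ → ℕ} (hd : Dirs n lam gam W N v x a) (hlam : ∀ l, 1 ≤ l → l ≤ n → 0 < lam l)
    (hn1 : 1 ≤ n) (h : PlB D n s c z lam gam i j i₁ j₁) :
    D.g i j n ≤ D.g i₁ j₁ n + c * z ∧
    ∀ l : Fin (n - 1), (l ∉ univ.filter (fun c : Fin (n - 1) => a (c + 1) < a n) →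
        D.g i j (l + 1) + s ≤ D.g i₁ j₁ (l + 1)) ∧
      (l ∈ univ.filter (fun c : Fin (n - 1) => a (c + 1) < a n) →
        D.g i₁ j₁ (l + 1) + s ≤ D.g i j (l + 1)) := by
  refine ⟨h.tgt.2, fun l => ⟨fun hl => ?_, fun hl => ?_⟩⟩
  · have hl2 := l.2
    have h5 := hd.ne (l + 1) (Nat.succ_pos _) (by omega)
    have h6 : ¬ a (l + 1) < a n := fun h => hl (mem_filter.2 ⟨mem_univ _, h⟩)
    exact h.small (l + 1) (Nat.succ_pos _) (by omega) (ratio_lt hd hlam hn1 le_rfl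
      (Nat.succ_pos _) (by omega) (by omega))
  · have hl2 := l.2
    exact h.big (l + 1) (Nat.succ_pos _) (by omega) (ratio_lt hd hlam (Nat.succ_pos _)
      (by omega) hn1 le_rfl (mem_filter.1 hl).2)

end Pool.GSD.Cls
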